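import Mathlib

/-!
Statements for the theorem on integral points on surfaces `H(x, y, t y) = R(x, y, t y)`.
-/

set_option autoImplicit false

namespace Pool.Agent.W257

/-- Expansions at infinity. `W(x,y,z)` has degree at most `m` and its top form `H` satisfies
`H(x,0,z) = ∏ (x - ρᵢ z)`. For large `t` and `|y| ≥ 1` every real solution `x` of `W(x, y, t y) = 0`
is given by one of `m` expansions in `1/t` and `1/(t y)`. -/
def S_exp : Prop := ∀ (m : ℕ) (ρ : Fin m → ℤ), Function.Injective ρ →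
  ∀ W : MvPolynomial (Fin 3) ℤ, W.totalDegree ≤ m →
  MvPolynomial.aeval ![MvPolynomial.X 0, 0, MvPolynomial.X 1]
    (MvPolynomial.homogeneousComponent m W)
    = ∏ i, (MvPolynomial.X 0 - MvPolynomial.C (ρ i) * MvPolynomial.X 1 : MvPolynomial (Fin 2) ℤ) →
  ∀ K : ℕ, ∃ (Q : Fin m → MvPolynomial (Fin 2) ℚ) (C A : ℝ), ∀ x y t : ℝ, A ≤ |t| → 1 ≤ |y| →
    MvPolynomial.aeval ![x, y, t * y] W = 0 →
    ∃ i, |x - t * y * MvPolynomial.aeval ![1 / t, 1 / (t * y)] (Q i)| * |t| ^ K ≤ C * |y|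

/-- Auxiliary polynomial (linear algebra): a nonzero integer polynomial `G(x,y,t)` of degree less
than `m` in `x` that is small on the graph of `x = t y Q(1/t, 1/(t y))` in the range
`|t|^l ≤ |y| ≤ |t|^(l+1)`. -/
def S_aux : Prop := ∀ (m l : ℕ), 3 ≤ m → ∃ K : ℕ, ∀ Q : MvPolynomial (Fin 2) ℚ,
  ∃ G : MvPolynomial (Fin 3) ℤ, G ≠ 0 ∧ G.degreeOf 0 < m ∧
  ∀ C : ℝ, ∃ A : ℝ, ∀ x y t : ℝ, A ≤ |t| → |t| ^ l ≤ |y| → |y| ≤ |t| ^ (l + 1) →
    |x - t * y * MvPolynomial.aeval ![1 / t, 1 / (t * y)] Q| * |t| ^ K ≤ C * |y| →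
    |MvPolynomial.aeval ![x, y, t] G| < 1

/-- Hilbert irreducibility for families split at infinity: all large specialisations are
irreducible. -/
def S_irr : Prop := ∀ (m : ℕ) (ρ : Fin m → ℤ) (P : MvPolynomial (Fin 2) ℤ), 1 ≤ m →
  Function.Injective ρ → P.totalDegree = m →
  MvPolynomial.homogeneousComponent m P
    = ∏ i, (MvPolynomial.X 0 - MvPolynomial.C (ρ i) * MvPolynomial.X 1) →
  Irreducible (MvPolynomial.map (Int.castRingHom ℚ) P) →
  ∃ A : ℕ, ∀ a : ℤ, A ≤ a.natAbs →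
    Irreducible (MvPolynomial.aeval ![(Polynomial.X : Polynomial ℚ), Polynomial.C (a : ℚ)] P)

/-- Dehomogenisation `P(Y,T) = H(Y,1,T)`. -/
def S_deh : Prop := ∀ (m : ℕ) (ρ : Fin m → ℤ) (H : MvPolynomial (Fin 3) ℤ), 1 ≤ m →
  H.IsHomogeneous m →
  MvPolynomial.aeval ![MvPolynomial.X 0, 0, MvPolynomial.X 1] H
    = ∏ i, (MvPolynomial.X 0 - MvPolynomial.C (ρ i) * MvPolynomial.X 1 : MvPolynomial (Fin 2) ℤ) →
  (MvPolynomial.aeval ![MvPolynomial.X 0, 1, MvPolynomial.X 1] H : MvPolynomial (Fin 2) ℤ).totalDegree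
    = m ∧
  MvPolynomial.homogeneousComponent m
    (MvPolynomial.aeval ![MvPolynomial.X 0, 1, MvPolynomial.X 1] H : MvPolynomial (Fin 2) ℤ)
    = ∏ i, (MvPolynomial.X 0 - MvPolynomial.C (ρ i) * MvPolynomial.X 1) ∧
  (Irreducible (MvPolynomial.map (Int.castRingHom ℚ) H) →
    Irreducible (MvPolynomial.map (Int.castRingHom ℚ)
      (MvPolynomial.aeval ![MvPolynomial.X 0, 1, MvPolynomial.X 1] H : MvPolynomial (Fin 2) ℤ)))

end Pool.Agent.W257
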