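import Pool.Agent.H322R2.Ev

/-!
Statements of independent lemmas for the Galois anchors (effective Siegel theorem, MP_821da1_nt).
-/

open Polynomial Finset NumberField

namespace Pool.Agent.W257

open Pool.Agent.H322R2

/-- `F` is the resolvent polynomial `∏_σ (Y - ∑ β_i φ_{σ i})`, where the `β_i` are the roots of `g`
and the `φ_i` are the roots of `f(x, Y)`; the identity is required in every commutative ring in
which `g` and `f(x, Y)` split. -/
def IsRes (m : ℕ) (g : ℤ[X]) (f F : ℤ[X][X]) : Prop :=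
  F.Monic ∧ F.natDegree = m.factorial ∧
    ∀ (S : Type) [CommRing S] (x : S) (β φ : Fin m → S),
      g.map (Int.castRingHom S) = ∏ i, (X - C (β i)) → f.map (evf x) = ∏ i, (X - C (φ i)) →
      F.map (evf x) = ∏ σ : Equiv.Perm (Fin m), (X - C (∑ i, β i * φ (σ i)))

/-- C1: existence of the resolvent. -/
def S_sym : Prop := ∀ (m : ℕ) (g : ℤ[X]) (f : ℤ[X][X]), g.Monic → g.natDegree = m → f.Monic →
  f.natDegree = m → ∃ F : ℤ[X][X], IsRes m g f F

/-- C2: degree and height of the resolvent. -/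
def S_ht : Prop := ∀ (m : ℕ) (g : ℤ[X]) (f F : ℤ[X][X]) (h b : ℝ), 1 ≤ m → g.Monic →
  g.natDegree = m → f.Monic → f.natDegree = m → (∀ j, (f.coeff j).natDegree ≤ m - j) →
  1 ≤ h → pn (pn zn) f ≤ h → 1 ≤ b → (∀ z : ℂ, evf z g = 0 → ‖z‖ ≤ b) → IsRes m g f F →
  (∀ j, (F.coeff j).natDegree ≤ m.factorial - j) ∧
    pn (pn zn) F ≤ (m.factorial + 1) * (1 + m * b * h) ^ m.factorial

/-- C3: irreducibility of the resolvent. -/
def S_prime : Prop := ∀ (m : ℕ) (f F : ℤ[X][X]) (a : ℤ) (β : Fin m → ℝ), 1 ≤ m → f.Monic →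
  f.natDegree = m → Function.Injective β →
  (f.map (evf a)).map (Int.castRingHom ℝ) = ∏ i, (X - C (β i)) →
  IsRes m (f.map (evf a)) f F →
  Nat.card (f.map (evf (algebraMap ℂ[X] (FractionRing ℂ[X]) X))).Gal = m.factorial →
  Prime F

/-- C4: degree of a compositum. -/
def S_fld : Prop := ∀ (k K₁ K₂ : IntermediateField ℚ ℝ), k ≤ K₁ → k ≤ K₂ →
  FiniteDimensional ℚ K₁ → FiniteDimensional ℚ K₂ →
  Module.finrank ℚ ↥(K₁ ⊔ K₂) * Module.finrank ℚ k ≤ Module.finrank ℚ K₁ * Module.finrank ℚ K₂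

/-- C5: spanning sets of a compositum. -/
def S_span : Prop := ∀ (K₁ K₂ : IntermediateField ℚ ℝ) (S₁ S₂ : Set ℝ),
  FiniteDimensional ℚ K₁ → FiniteDimensional ℚ K₂ →
  (Submodule.span ℚ S₁ : Set ℝ) = K₁ → (Submodule.span ℚ S₂ : Set ℝ) = K₂ →
  (Submodule.span ℚ (Set.image2 (fun x y => x * y) S₁ S₂) : Set ℝ) = ↑(K₁ ⊔ K₂)

/-- C6: the field generated by all roots of a monic polynomial. -/
def S_roots : Prop := ∀ (m : ℕ) (g : ℤ[X]) (β : Fin m → ℝ), g.Monic → g.natDegree = m →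
  g.map (Int.castRingHom ℝ) = ∏ i, (X - C (β i)) →
  FiniteDimensional ℚ (IntermediateField.adjoin ℚ (Set.range β)) ∧
  Module.finrank ℚ (IntermediateField.adjoin ℚ (Set.range β)) ≤ m.factorial ∧
  (Submodule.span ℚ {x : ℝ | ∃ k : Fin m → ℕ, (∀ i, k i < m) ∧ x = ∏ i, β i ^ k i} : Set ℝ)
    = IntermediateField.adjoin ℚ (Set.range β)

end Pool.Agent.W257
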