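import Pool.Agent.W257.CStm
import Pool.Agent.H322R2.Hmg

/-!
Statements of independent lemmas for the Galois anchors, second part.
-/

open Polynomial Finset

namespace Pool.Agent.W257

open Pool.Agent.H322R2

lemma map_evf_eq_ev {S : Type*} [CommRing S] (z : S) (G : ℤ[X][X]) :
    G.map (evf z) = ev (C z) X G := by
  have h : (evf (C z : S[X])) = (C : S →+* S[X]).comp (evf z) := by
    apply Polynomial.ringHom_ext'
    · exact RingHom.ext_int _ _
    · simp
  rw [ev_apply, h, ← eval₂_map, ← Polynomial.comp, comp_X]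

/-- splitting at infinity gives splitting of `f(x, Y)` -/
lemma split_of_hmg {S : Type*} [CommRing S] {m : ℕ} {f : ℤ[X][X]} (hT : TD m f) {x z : S}
    (hxz : x * z = 1) (ω : Fin m → S) (h : (hmg m f).map (evf z) = ∏ i, (X - C (ω i))) :
    f.map (evf x) = ∏ i, (X - C (x * ω i)) := by
  have hzx : z * x = 1 := by rw [mul_comm]; exact hxz
  have h1 := ev_hmg (S := S[X]) (x := C x) (z := C z) X (by rw [← map_mul, hxz, map_one]) hT
  rw [← map_evf_eq_ev, h] at h1
  have h2 : ev (C x) (C x * X) f = (f.map (evf x)).comp (C x * X) := by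
    have h3 : (evf (C x : S[X])) = (C : S →+* S[X]).comp (evf x) := by
      apply Polynomial.ringHom_ext'
      · exact RingHom.ext_int _ _
      · simp
    rw [ev_apply, h3, ← eval₂_map, ← Polynomial.comp]
  rw [h2] at h1
  have h4 : (C x : S[X]) ^ m * ∏ i : Fin m, (X - C (ω i)) = ∏ i : Fin m, (C x * X - C (x * ω i)) := by
    have : (C x : S[X]) ^ m = ∏ _i : Fin m, C x := by simp
    rw [this, ← Finset.prod_mul_distrib]
    apply Finset.prod_congr rfl
    intro i _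
    rw [mul_sub, map_mul]
  rw [h4] at h1
  have h5 := congrArg (fun p : S[X] => p.comp (C z * X)) h1
  simp only [comp_assoc] at h5
  have h6 : (C x * X : S[X]).comp (C z * X) = X := by
    rw [mul_comp, C_comp, X_comp, ← mul_assoc, ← map_mul, hxz, map_one, one_mul]
  rw [h6, comp_X, Polynomial.prod_comp] at h5
  rw [h5]
  apply Finset.prod_congr rfl
  intro i _
  rw [sub_comp, h6, C_comp]

/-- D1: degree and height of monic divisors of the resolvent. -/
def S_ht2 : Prop := ∀ (m : ℕ) (g : ℤ[X]) (f F F₁ : ℤ[X][X]) (h b : ℝ), 1 ≤ m → g.Monic →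
  g.natDegree = m → f.Monic → f.natDegree = m → (∀ j, (f.coeff j).natDegree ≤ m - j) →
  1 ≤ h → pn (pn zn) f ≤ h → 1 ≤ b → (∀ z : ℂ, evf z g = 0 → ‖z‖ ≤ b) → IsRes m g f F →
  F₁.Monic → F₁ ∣ F →
  (∀ j, (F₁.coeff j).natDegree ≤ F₁.natDegree - j) ∧
    pn (pn zn) F₁ ≤ (m.factorial + 1) * (1 + m * b * h) ^ m.factorial

/-- D2: the irreducible factor of the resolvent that vanishes on a given branch at infinity. -/
def S_factor : Prop := ∀ (m : ℕ) (g : ℤ[X]) (f F : ℤ[X][X]) (β : Fin m → ℝ) (δ : ℤ)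
  (ω : Fin m → PowerSeries ℤ), f.Monic → f.natDegree = m → TD m f →
  g.map (Int.castRingHom ℝ) = ∏ i, (X - C (β i)) → δ ≠ 0 →
  (hmg m f).map (evf (PowerSeries.C (δ ^ 2) * PowerSeries.X)) = ∏ i, (X - C (ω i)) →
  IsRes m g f F → (∀ F₁ : ℤ[X][X], F₁.Monic → F₁ ∣ F → TD F₁.natDegree F₁) →
  ∃ F₁ : ℤ[X][X], F₁.Monic ∧ Prime F₁ ∧ F₁ ∣ F ∧
    ev (PowerSeries.C ((δ : ℝ) ^ 2) * PowerSeries.X)
      (∑ i, PowerSeries.C (β i) * PowerSeries.map (Int.castRingHom ℝ) (ω i))
      (hmg F₁.natDegree F₁) = 0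

/-- D3: the degree of such a factor is at least the degree of the field generated by the `β_i`. -/
def S_card : Prop := ∀ (m : ℕ) (g : ℤ[X]) (F₁ : ℤ[X][X]) (β : Fin m → ℝ) (δ : ℤ)
  (ω : Fin m → PowerSeries ℤ), g.Monic → g.natDegree = m →
  g.map (Int.castRingHom ℝ) = ∏ i, (X - C (β i)) → Function.Injective β →
  F₁.Monic → TD F₁.natDegree F₁ →
  (∀ π : Equiv.Perm (Fin m),
    ∑ i, PowerSeries.C (β (π i)) * PowerSeries.map (Int.castRingHom ℝ) (ω i)
      = ∑ i, PowerSeries.C (β i) * PowerSeries.map (Int.castRingHom ℝ) (ω i) → π = 1) →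
  ev (PowerSeries.C ((δ : ℝ) ^ 2) * PowerSeries.X)
      (∑ i, PowerSeries.C (β i) * PowerSeries.map (Int.castRingHom ℝ) (ω i))
      (hmg F₁.natDegree F₁) = 0 →
  Module.finrank ℚ (IntermediateField.adjoin ℚ (Set.range β)) ≤ F₁.natDegree

/-- D4: the sum of the squares of the roots is an integer. -/
def S_p2 : Prop := ∀ (m : ℕ) (g : ℤ[X]) (β : Fin m → ℝ),
  g.map (Int.castRingHom ℝ) = ∏ i, (X - C (β i)) → ∃ c : ℤ, (c : ℝ) = ∑ i, β i ^ 2

end Pool.Agent.W257
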