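import Pool.Agent.W257.K8
import Pool.Agent.W257.CStm2

/-!
Galois anchors: the branches at infinity of a curve which is totally split at infinity.
-/

open Polynomial Finset

namespace Pool.Agent.W257

open Pool.Agent.H322R2

/-- inverse radius -/
noncomputable def cGB (m : ℕ) (h : ℝ) : ℝ := (2 * h) ^ (8 * (m + 1) ^ 2)

/-- auxiliary size -/
noncomputable def cGT (m : ℕ) (h : ℝ) : ℝ := (2 * h) ^ (3 * m ^ 2 + 4 * m + 2)

lemma Bd_rescale {ρ ρ' B : ℝ} (c : ℤ) (hρ' : 0 ≤ ρ') (hc : (c : ℝ) ^ 2 * ρ' ≤ ρ)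
    {u : PowerSeries ℤ} (hu : Bd zn ρ u B) :
    Bd zn ρ' (PowerSeries.rescale (c ^ 2) u) B := by
  intro K
  refine le_trans ?_ (hu K)
  apply Finset.sum_le_sum
  intro n _
  rw [PowerSeries.coeff_rescale, zn_apply, zn_apply]
  push_cast
  rw [abs_mul, abs_of_nonneg (by positivity : (0 : ℝ) ≤ ((c : ℝ) ^ 2) ^ n)]
  calc ((c : ℝ) ^ 2) ^ n * |((PowerSeries.coeff n u : ℤ) : ℝ)| * ρ' ^ n
      = |((PowerSeries.coeff n u : ℤ) : ℝ)| * ((c : ℝ) ^ 2 * ρ') ^ n := by rw [mul_pow]; ring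
    _ ≤ |((PowerSeries.coeff n u : ℤ) : ℝ)| * ρ ^ n := by
        apply mul_le_mul_of_nonneg_left _ (abs_nonneg _)
        exact pow_le_pow_left₀ (by positivity) hc n

lemma hmg_monic_map {m : ℕ} {f : ℤ[X][X]} (hf : f.Monic) (hfd : f.natDegree = m)
    {S : Type*} [CommRing S] [Nontrivial S] (z : S) :
    ((hmg m f).map (evf z)).Monic ∧ ((hmg m f).map (evf z)).natDegree = m := by
  have h1 : (hmg m f).coeff m = 1 := by
    rw [coeff_hmg, if_pos (by omega), Nat.sub_self]
    have : f.coeff m = 1 := by rw [← hfd]; exact hf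
    rw [this]
    ext i
    rw [coeff_reflect]
    by_cases hi : i = 0
    · subst hi; simp
    · rw [coeff_one, coeff_one, if_neg hi, if_neg]
      intro h0
      rw [revAt_eq_self_of_lt (by omega)] at h0
      exact hi h0
  have h2 : (hmg m f).Monic := monic_of_natDegree_le_of_coeff_eq_one m (natDegree_hmg m f) h1
  have h3 : (hmg m f).natDegree = m := by
    apply le_antisymm (natDegree_hmg m f)
    apply le_natDegree_of_ne_zero
    rw [h1]; exact one_ne_zero
  refine ⟨h2.map _, ?_⟩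
  rw [h2.natDegree_map, h3]

/-- a monic polynomial of degree `m` with `m` distinct roots in a domain splits -/
lemma eq_prod_of_roots {R : Type*} [CommRing R] [IsDomain R] {m : ℕ} (P : R[X]) (hP : P.Monic)
    (hd : P.natDegree = m) (ω : Fin m → R) (hω : Function.Injective ω)
    (hr : ∀ i, P.eval (ω i) = 0) : P = ∏ i, (X - C (ω i)) := by
  classical
  have h1 : (univ.image ω).val ≤ P.roots := by
    rw [Multiset.le_iff_subset (univ.image ω).nodup]
    intro x hx
    rw [Finset.mem_val, Finset.mem_image] at hx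
    obtain ⟨i, _, rfl⟩ := hx
    rw [mem_roots hP.ne_zero]
    exact hr i
  have h2 : Multiset.card (univ.image ω).val = m := by
    rw [Finset.card_val, Finset.card_image_of_injective _ hω, Finset.card_univ, Fintype.card_fin]
  have h3 : P.roots = (univ.image ω).val := by
    symm
    apply Multiset.eq_of_le_of_card_le h1
    rw [h2, ← hd]
    exact card_roots' P
  have h4 := prod_multiset_X_sub_C_of_monic_of_roots_card_eq hP (by rw [h3, h2, hd])
  rw [h3] at h4
  rw [← h4]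
  have h5 : (Multiset.map (fun a => X - C a) (univ.image ω).val).prod
      = ∏ x ∈ univ.image ω, (X - C x) := rfl
  rw [h5, Finset.prod_image (fun i _ j _ hij => hω hij)]

theorem int_branches {m : ℕ} (hm : 1 ≤ m) {f : ℤ[X][X]} (hf : f.Monic) (hfd : f.natDegree = m)
    (hT : TD m f) {ρ : Fin m → ℤ} (hρ : Function.Injective ρ)
    (hlead : lead m f = ∏ i, (X - C (ρ i))) {h : ℝ} (hh : 1 ≤ h) (hfh : pn (pn zn) f ≤ h) :
    ∃ (δ : ℤ) (ω u : Fin m → PowerSeries ℤ), δ ≠ 0 ∧
      (hmg m f).map (evf (PowerSeries.C (δ ^ 2) * PowerSeries.X)) = ∏ i, (X - C (ω i)) ∧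
      Bd zn (1 / cGB m h) (PowerSeries.C (δ ^ 2) * PowerSeries.X) 1 ∧
      (∀ i, ω i = PowerSeries.C (ρ i) + u i) ∧ (∀ i, Bd zn (1 / cGB m h) (u i) (1 / 4)) ∧
      ∀ i, |(ρ i : ℝ)| ≤ h := by
  classical
  obtain ⟨T, hTdef⟩ : ∃ T, T = cGT m h := ⟨_, rfl⟩
  obtain ⟨B, hB⟩ : ∃ B, B = cGB m h := ⟨_, rfl⟩
  have h2h : 2 ≤ 2 * h := by linarith
  have h2h1 : 1 ≤ 2 * h := by linarith
  have hT1 : 1 ≤ T := by rw [hTdef]; exact one_le_pow₀ h2h1
  have hlm := lead_monic hf hfd
  have hpl : pn zn (lead m f) ≤ h := (pn_lead_le hfd.le).trans hfh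
  have hroot : ∀ i, evf (ρ i) (lead m f) = 0 := by
    intro i
    rw [hlead, map_prod]
    apply Finset.prod_eq_zero (Finset.mem_univ i)
    rw [map_sub, evf_X, evf_C, Int.cast_id, sub_self]
  have hρh : ∀ i, |(ρ i : ℝ)| ≤ h := by
    intro i
    have h1 : evf ((ρ i : ℤ) : ℝ) (lead m f) = 0 := by
      have := map_evf (Int.castRingHom ℝ) (ρ i) (lead m f)
      rw [hroot, map_zero] at this
      exact this.symm
    have := root_norm_le (𝕜 := ℝ) (lead m f) hlm.1 h hh hpl _ h1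
    rwa [Real.norm_eq_abs] at this
  -- the derivatives
  obtain ⟨D, hD⟩ : ∃ D : Fin m → ℤ, D = fun i => ev 0 (ρ i) (derivative (hmg m f)) := ⟨_, rfl⟩
  have hDval : ∀ i, D i = ∏ j ∈ univ.erase i, (ρ i - ρ j) := by
    intro i
    rw [hD]
    simp only
    rw [ev_zero_derivative_hmg (ρ i) f hm, hlead, derivative_prod_finset, map_sum]
    rw [Finset.sum_eq_single i]
    · rw [map_mul, map_prod, derivative_sub, derivative_X, derivative_C, sub_zero, map_one, mul_one]
      apply Finset.prod_congr rfl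
      intro j _
      rw [map_sub, evf_X, evf_C, Int.cast_id]
    · intro j _ hj
      rw [map_mul, map_prod]
      rw [Finset.prod_eq_zero (Finset.mem_erase.2 ⟨hj.symm, Finset.mem_univ i⟩), zero_mul]
      rw [map_sub, evf_X, evf_C, Int.cast_id, sub_self]
    · intro h0; exact absurd (Finset.mem_univ i) h0
  have hD0 : ∀ i, D i ≠ 0 := by
    intro i
    rw [hDval, Finset.prod_ne_zero_iff]
    intro j hj
    rw [Finset.mem_erase] at hj
    rw [sub_ne_zero]
    exact fun h0 => hj.1 (hρ h0).symm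
  have hDle : ∀ i, |(D i : ℝ)| ≤ (2 * h) ^ m := by
    intro i
    rw [hDval]
    push_cast
    rw [Finset.abs_prod]
    calc ∏ j ∈ univ.erase i, |(ρ i : ℝ) - ρ j| ≤ ∏ j ∈ univ.erase i, (2 * h) := by
          apply Finset.prod_le_prod (fun _ _ => abs_nonneg _)
          intro j _
          refine (abs_sub _ _).trans ?_
          have := hρh i; have := hρh j; linarith
      _ = (2 * h) ^ (m - 1) := by
          rw [Finset.prod_const, Finset.card_erase_of_mem (Finset.mem_univ i), Finset.card_univ,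
            Fintype.card_fin]
      _ ≤ (2 * h) ^ m := pow_le_pow_right₀ h2h1 (Nat.sub_le _ _)
  obtain ⟨δ, hδ⟩ : ∃ δ : ℤ, δ = ∏ i, D i := ⟨_, rfl⟩
  obtain ⟨c, hc⟩ : ∃ c : Fin m → ℤ, c = fun i => ∏ j ∈ univ.erase i, D j := ⟨_, rfl⟩
  have hδc : ∀ i, δ = D i * c i := by
    intro i
    rw [hδ, hc]
    exact (Finset.mul_prod_erase univ D (Finset.mem_univ i)).symm
  have hδ0 : δ ≠ 0 := by rw [hδ]; exact Finset.prod_ne_zero_iff.2 (fun i _ => hD0 i)
  have hδle : |(δ : ℝ)| ≤ (2 * h) ^ (m ^ 2) := by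
    rw [hδ]
    push_cast
    rw [Finset.abs_prod]
    calc ∏ j, |(D j : ℝ)| ≤ ∏ _j : Fin m, (2 * h) ^ m :=
          Finset.prod_le_prod (fun _ _ => abs_nonneg _) (fun j _ => hDle j)
      _ = (2 * h) ^ (m ^ 2) := by
          rw [Finset.prod_const, Finset.card_univ, Fintype.card_fin, ← pow_mul]; congr 1; ring
  have hcle : ∀ i, |(c i : ℝ)| ≤ (2 * h) ^ (m ^ 2) := by
    intro i
    rw [hc]
    simp only
    push_cast
    rw [Finset.abs_prod]
    calc ∏ j ∈ univ.erase i, |(D j : ℝ)| ≤ ∏ _j ∈ univ.erase i, (2 * h) ^ m :=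
          Finset.prod_le_prod (fun _ _ => abs_nonneg _) (fun j _ => hDle j)
      _ = (2 * h) ^ (m * (m - 1)) := by
          rw [Finset.prod_const, Finset.card_erase_of_mem (Finset.mem_univ i), Finset.card_univ,
            Fintype.card_fin, ← pow_mul]
      _ ≤ (2 * h) ^ (m ^ 2) := by
          apply pow_le_pow_right₀ h2h1
          calc m * (m - 1) ≤ m * m := Nat.mul_le_mul_left _ (Nat.sub_le _ _)
            _ = m ^ 2 := by ring
  -- Hensel
  have hex : ∀ i, ∃ Y : PowerSeries ℤ,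
      ev (PowerSeries.C (D i ^ 2) * PowerSeries.X) (PowerSeries.C (ρ i) + PowerSeries.C (D i) * Y)
        (hmg m f) = 0 ∧ Bd zn (1 / (4 * T ^ 2)) Y (1 / (2 * T)) ∧ PowerSeries.X ∣ Y := by
    intro i
    obtain ⟨Y, hYX, hY, hYb⟩ := hensel_ev (A := ℤ) (hmg m f) (m + 1) (m + 1)
      (by have := natDegree_hmg m f; omega) (fun j => by have := natDegree_coeff_hmg hT j; omega)
      0 (ρ i) (by rw [ev_zero_hmg]; exact hroot i)
    have hDi : ev 0 (ρ i) (derivative (hmg m f)) = D i := by rw [hD]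
    rw [hDi, map_zero, zero_add] at hY
    refine ⟨Y, hY, ?_, hYX⟩
    apply hYb zn zn_one T hT1
    rw [hDi, map_zero, add_zero, one_pow, mul_one, pn_hmg hT, zn_apply, Nat.add_sub_cancel, zn_apply,
      hTdef]
    unfold cGT
    have e1 : max 1 |(D i : ℝ)| ≤ (2 * h) ^ m := max_le (one_le_pow₀ h2h1) (hDle i)
    have e2 : 2 * (m + 1) + (m + 1) = 3 * (m + 1) := by ring
    rw [e2]
    calc max 1 |(D i : ℝ)| ^ (3 * (m + 1)) * (pn (pn zn) f * (1 + |(ρ i : ℝ)|) ^ m)
        ≤ ((2 * h) ^ m) ^ (3 * (m + 1)) * (h * (2 * h) ^ m) := by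
          apply mul_le_mul
          · exact pow_le_pow_left₀ (by positivity) e1 _
          · apply mul_le_mul hfh _ (by positivity) (by linarith)
            apply pow_le_pow_left₀ (by positivity)
            have := hρh i
            linarith
          · have := apply_nonneg (pn (pn zn)) f
            positivity
          · positivity
      _ ≤ ((2 * h) ^ m) ^ (3 * (m + 1)) * ((2 * h) ^ 2 * (2 * h) ^ m) := by
          gcongr
          nlinarith
      _ = _ := by rw [← pow_mul, ← pow_add, ← pow_add]; congr 1; ring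
  choose Y hY1 hY2 hY3 using hex
  -- comparison of radii
  have hBT : B = cGB m h := hB
  have hB4 : 4 * T ^ 2 * ((2 * h) ^ (m ^ 2)) ^ 2 ≤ B := by
    rw [hTdef, hB]
    unfold cGT cGB
    have e1 : (4 : ℝ) ≤ (2 * h) ^ 2 := by nlinarith
    calc 4 * ((2 * h) ^ (3 * m ^ 2 + 4 * m + 2)) ^ 2 * ((2 * h) ^ (m ^ 2)) ^ 2
        ≤ (2 * h) ^ 2 * ((2 * h) ^ (3 * m ^ 2 + 4 * m + 2)) ^ 2 * ((2 * h) ^ (m ^ 2)) ^ 2 := by
          gcongr
      _ = (2 * h) ^ (2 + (3 * m ^ 2 + 4 * m + 2) * 2 + m ^ 2 * 2) := by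
          rw [← pow_mul, ← pow_mul, ← pow_add, ← pow_add]
      _ ≤ (2 * h) ^ (8 * (m + 1) ^ 2) := by
          apply pow_le_pow_right₀ h2h1
          ring_nf
          omega
  have hB0 : 0 < B := lt_of_lt_of_le (by positivity) hB4
  have hrad : ∀ x : ℝ, |x| ≤ (2 * h) ^ (m ^ 2) → x ^ 2 * (1 / B) ≤ 1 / (4 * T ^ 2) := by
    intro x hx
    have e1 : x ^ 2 ≤ ((2 * h) ^ (m ^ 2)) ^ 2 := by
      rw [← sq_abs]; exact pow_le_pow_left₀ (abs_nonneg _) hx 2
    rw [mul_one_div, div_le_div_iff₀ hB0 (by positivity)]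
    nlinarith [mul_le_mul_of_nonneg_left e1 (by positivity : (0 : ℝ) ≤ 4 * T ^ 2)]
  obtain ⟨u, hu⟩ : ∃ u : Fin m → PowerSeries ℤ,
    u = fun i => PowerSeries.C (D i) * PowerSeries.rescale ((c i) ^ 2) (Y i) := ⟨_, rfl⟩
  obtain ⟨ω, hω⟩ : ∃ ω : Fin m → PowerSeries ℤ, ω = fun i => PowerSeries.C (ρ i) + u i := ⟨_, rfl⟩
  have hωG : ∀ i, ev (PowerSeries.C (δ ^ 2) * PowerSeries.X) (ω i) (hmg m f) = 0 := by
    intro i
    have h1 := congrArg (PowerSeries.rescale ((c i) ^ 2)) (hY1 i)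
    rw [map_ev, map_zero, map_add, map_mul, map_mul] at h1
    have e1 : ∀ a : ℤ, PowerSeries.rescale ((c i) ^ 2) (PowerSeries.C a) = PowerSeries.C a := by
      intro a
      ext n
      rw [PowerSeries.coeff_rescale, PowerSeries.coeff_C]
      split_ifs with hn
      · rw [hn]; simp
      · simp
    have e2 : PowerSeries.rescale ((c i) ^ 2) (PowerSeries.X : PowerSeries ℤ)
        = PowerSeries.C ((c i) ^ 2) * PowerSeries.X := by
      ext n
      rw [PowerSeries.coeff_rescale, PowerSeries.coeff_C_mul, PowerSeries.coeff_X]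
      split_ifs with hn
      · rw [hn]; simp
      · simp
    rw [e1, e1, e1, e2, ← mul_assoc, ← map_mul] at h1
    have e3 : D i ^ 2 * c i ^ 2 = δ ^ 2 := by rw [hδc i]; ring
    rw [e3] at h1
    rw [hω, hu]
    exact h1
  have hcc : ∀ i, PowerSeries.constantCoeff (ω i) = ρ i := by
    intro i
    rw [hω, hu]
    simp only
    rw [map_add, map_mul, PowerSeries.constantCoeff_C, PowerSeries.constantCoeff_C,
      ← PowerSeries.coeff_zero_eq_constantCoeff_apply (PowerSeries.rescale ((c i) ^ 2) (Y i)),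
      PowerSeries.coeff_rescale, PowerSeries.coeff_zero_eq_constantCoeff_apply,
      PowerSeries.X_dvd_iff.1 (hY3 i)]
    simp
  have hωinj : Function.Injective ω := by
    intro i j hij
    apply hρ
    rw [← hcc i, ← hcc j, hij]
  refine ⟨δ, ω, u, hδ0, ?_, ?_, ?_, ?_, hρh⟩
  · obtain ⟨h1, h2⟩ := hmg_monic_map hf hfd (PowerSeries.C (δ ^ 2) * PowerSeries.X : PowerSeries ℤ)
    apply eq_prod_of_roots _ h1 h2 ω hωinj
    intro i
    rw [eval_map, ← ev_apply]
    exact hωG i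
  · rw [← hB]
    have hp : (0 : ℝ) ≤ 1 / B := by positivity
    refine ((Bd.C hp (δ ^ 2)).mul hp (Bd.X hp zn_one)).mono ?_
    rw [zn_apply]
    push_cast
    rw [abs_of_nonneg (by positivity)]
    refine (hrad δ hδle).trans ?_
    rw [div_le_one (by positivity)]
    nlinarith
  · intro i; rw [hω]
  · intro i
    rw [← hB, hu]
    simp only
    have hp : (0 : ℝ) ≤ 1 / B := by positivity
    refine ((Bd.C hp (D i)).mul hp (Bd_rescale (c i) hp (hrad _ (hcle i)) (hY2 i))).mono ?_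
    rw [zn_apply, mul_one_div, div_le_div_iff₀ (by positivity) (by norm_num)]
    have e1 : 2 * (2 * h) ^ m ≤ T := by
      rw [hTdef]
      unfold cGT
      calc 2 * (2 * h) ^ m ≤ (2 * h) * (2 * h) ^ m := by gcongr
        _ = (2 * h) ^ (m + 1) := by rw [pow_succ]; ring
        _ ≤ _ := pow_le_pow_right₀ h2h1 (by nlinarith)
    have := hDle i
    linarith

end Pool.Agent.W257
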