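import Pool.Agent.W257.G1

/-!
Galois anchors: the real roots at a large integer.
-/

open Polynomial Finset

namespace Pool.Agent.W257

open Pool.Agent.H322R2

/-- the integral branches at infinity -/
structure Br (m : ℕ) (f : ℤ[X][X]) (B h : ℝ) (ρ : Fin m → ℤ) (δ : ℤ)
    (ω u : Fin m → PowerSeries ℤ) : Prop where
  hm : 1 ≤ m
  hf : f.Monic
  hfd : f.natDegree = m
  hT : TD m f
  hρinj : Function.Injective ρ
  hB : 4 ≤ B
  hh : 1 ≤ h
  hδ : δ ≠ 0
  split : (hmg m f).map (evf (PowerSeries.C (δ ^ 2) * PowerSeries.X)) = ∏ i, (X - C (ω i))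
  bζ : Bd zn (1 / B) (PowerSeries.C (δ ^ 2) * PowerSeries.X) 1
  hω : ∀ i, ω i = PowerSeries.C (ρ i) + u i
  hu : ∀ i, Bd zn (1 / B) (u i) (1 / 4)
  hρ : ∀ i, |(ρ i : ℝ)| ≤ h

/-- the local parameter at the integer `a` -/
noncomputable def thG (δ a : ℤ) : PowerSeries ℝ :=
  PowerSeries.C (1 / (δ : ℝ) ^ 2) * invX (a : ℝ)

/-- real version of the branches -/
noncomputable def rω {m : ℕ} (ω : Fin m → PowerSeries ℤ) (i : Fin m) : PowerSeries ℝ :=
  PowerSeries.map (Int.castRingHom ℝ) (ω i)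

/-- the roots at `a` -/
noncomputable def βG {m : ℕ} (δ a : ℤ) (ω : Fin m → PowerSeries ℤ) (i : Fin m) : ℝ :=
  a * PowerSeries.constantCoeff (sb (thG δ a) (rω ω i))

lemma Bd_real {ρ B : ℝ} {u : PowerSeries ℤ} (hu : Bd zn ρ u B) :
    Bd rn ρ (PowerSeries.map (Int.castRingHom ℝ) u) B := by
  intro K
  refine le_trans (le_of_eq ?_) (hu K)
  apply Finset.sum_congr rfl
  intro n _
  rw [PowerSeries.coeff_map, rn_apply, zn_apply]
  rfl

namespace Br

variable {m : ℕ} {f : ℤ[X][X]} {B h : ℝ} {ρ : Fin m → ℤ} {δ : ℤ} {ω u : Fin m → PowerSeries ℤ}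
  (P : Br m f B h ρ δ ω u) {a : ℤ} (ha : B ^ 2 ≤ |(a : ℝ)|)

include P in
lemma B_pos : 0 < B := by have := P.hB; linarith

include P in
lemma hωbd (i : Fin m) : Bd zn (1 / B) (ω i) (h + 1 / 4) := by
  have hp : (0 : ℝ) ≤ 1 / B := by have := P.B_pos; positivity
  rw [P.hω]
  refine ((Bd.C hp (ρ i)).add hp (P.hu i)).mono ?_
  rw [zn_apply]
  have := P.hρ i
  linarith

include P in
lemma delta_one : (1 : ℝ) ≤ (δ : ℝ) ^ 2 := by
  have h1 : 1 ≤ |δ| := Int.one_le_abs P.hδ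
  have h2 : (1 : ℝ) ≤ |(δ : ℝ)| := by exact_mod_cast h1
  rw [← sq_abs]
  nlinarith

include P ha

lemma a_ge : 16 ≤ |(a : ℝ)| := by have := P.hB; nlinarith

lemma a_ne : (a : ℝ) ≠ 0 := by
  have := P.a_ge ha
  intro h0
  rw [h0, abs_zero] at this
  linarith

lemma r_pos : 0 < |(a : ℝ)| / 2 := by have := P.a_ge ha; linarith

lemma q_nonneg : 0 ≤ B / |(a : ℝ)| := by have := P.B_pos; positivity

lemma rad_le : B / |(a : ℝ)| ≤ 1 / B := by
  have h1 := P.a_ge ha
  have h2 := P.B_pos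
  rw [div_le_div_iff₀ (by linarith) h2]
  nlinarith

lemma th_bd : Bd rn (|(a : ℝ)| / 2) (thG δ a) (B / |(a : ℝ)|) := by
  have hr := P.r_pos ha
  have h1 := P.delta_one
  refine ((Bd.C (N := rn) hr.le (1 / (δ : ℝ) ^ 2)).mul hr.le (bd_invX (a : ℝ) (P.a_ne ha))).mono ?_
  rw [rn_apply, abs_of_nonneg (by positivity), ← mul_div_assoc]
  apply div_le_div_of_nonneg_right _ (abs_nonneg _)
  have h2 : 1 / (δ : ℝ) ^ 2 ≤ 1 := by rw [div_le_one (by linarith)]; exact h1
  have := P.hB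
  linarith

lemma ζbd : Bd rn (B / |(a : ℝ)|) (PowerSeries.C ((δ : ℝ) ^ 2) * PowerSeries.X) 1 := by
  have h1 := (Bd_real P.bζ).of_le (P.q_nonneg ha) (P.rad_le ha)
  rw [map_mul, PowerSeries.map_C, PowerSeries.map_X] at h1
  simpa using h1

lemma ωbd (i : Fin m) : Bd rn (B / |(a : ℝ)|) (rω ω i) (h + 1 / 4) :=
  (Bd_real (P.hωbd i)).of_le (P.q_nonneg ha) (P.rad_le ha)

lemma sb_ζ : sb (thG δ a) (PowerSeries.C ((δ : ℝ) ^ 2) * PowerSeries.X) = invX (a : ℝ) := by
  have h1 := P.delta_one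
  have hr := P.r_pos ha
  have hq := P.q_nonneg ha
  rw [sb_mul hr (P.th_bd ha) (Bd.C hq _) (Bd.X hq rn_one), sb_C, sb_X, thG, ← mul_assoc, ← map_mul]
  have : (δ : ℝ) ^ 2 * (1 / (δ : ℝ) ^ 2) = 1 := mul_one_div_cancel (by linarith)
  rw [this, map_one, one_mul]

/-- the split form of `f(x, Y)` near `x = a` -/
lemma split_real : f.map (evf (PowerSeries.C (a : ℝ) + PowerSeries.X))
    = ∏ i, (X - C ((PowerSeries.C (a : ℝ) + PowerSeries.X) * sb (thG δ a) (rω ω i))) := by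
  have hr := P.r_pos ha
  have hq := P.q_nonneg ha
  have hθ := P.th_bd ha
  -- the identity over the reals
  have h1 := congrArg (Polynomial.map (PowerSeries.map (Int.castRingHom ℝ))) P.split
  rw [Polynomial.map_map, Polynomial.map_prod] at h1
  simp only [Polynomial.map_sub, map_X, map_C] at h1
  obtain ⟨ζ', hζ'⟩ : ∃ ζ' : Conv (B / |(a : ℝ)|) hq,
      ζ' = ⟨PowerSeries.C ((δ : ℝ) ^ 2) * PowerSeries.X, 1, P.ζbd ha⟩ := ⟨_, rfl⟩
  obtain ⟨ω', hω'⟩ : ∃ ω' : Fin m → Conv (B / |(a : ℝ)|) hq,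
      ω' = fun i => ⟨rω ω i, h + 1 / 4, P.ωbd ha i⟩ := ⟨_, rfl⟩
  have hcomp : ∀ {S S' : Type} [CommRing S] [CommRing S'] (φ : S →+* S') (z : S),
      φ.comp (evf z) = evf (φ z) := by
    intro S S' _ _ φ z
    apply Polynomial.ringHom_ext'
    · exact RingHom.ext_int _ _
    · simp
  have h2 : (hmg m f).map (evf ζ') = ∏ i, (X - C (ω' i)) := by
    apply Polynomial.map_injective (Conv (B / |(a : ℝ)|) hq).subtype Subtype.val_injective
    rw [Polynomial.map_map, Polynomial.map_prod, hcomp]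
    simp only [Polynomial.map_sub, map_X, map_C]
    rw [hcomp] at h1
    have e1 : (Conv (B / |(a : ℝ)|) hq).subtype ζ'
        = PowerSeries.map (Int.castRingHom ℝ) (PowerSeries.C (δ ^ 2) * PowerSeries.X) := by
      rw [hζ', map_mul, PowerSeries.map_C, PowerSeries.map_X]
      simp
    rw [e1, h1]
    apply Finset.prod_congr rfl
    intro i _
    rw [hω']
    rfl
  have h3 := congrArg (Polynomial.map (sbh hr hq hθ)) h2
  rw [Polynomial.map_map, Polynomial.map_prod, hcomp] at h3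
  simp only [Polynomial.map_sub, map_X, map_C] at h3
  have e2 : sbh hr hq hθ ζ' = invX (a : ℝ) := by
    rw [hζ']; exact P.sb_ζ ha
  have e3 : ∀ i, sbh hr hq hθ (ω' i) = sb (thG δ a) (rω ω i) := by
    intro i; rw [hω']; rfl
  rw [e2] at h3
  simp only [e3] at h3
  exact split_of_hmg P.hT (mul_invX (a : ℝ) (P.a_ne ha)) _ h3

lemma split_at : (f.map (evf a)).map (Int.castRingHom ℝ) = ∏ i, (X - C (βG δ a ω i)) := by
  have h1 := congrArg (Polynomial.map (PowerSeries.constantCoeff (R := ℝ))) (P.split_real ha)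
  rw [Polynomial.map_map, Polynomial.map_prod] at h1
  simp only [Polynomial.map_sub, map_X, Polynomial.map_C] at h1
  rw [Polynomial.map_map]
  have h2 : (PowerSeries.constantCoeff (R := ℝ)).comp
      (evf (PowerSeries.C (a : ℝ) + PowerSeries.X)) = (Int.castRingHom ℝ).comp (evf a) := by
    apply Polynomial.ringHom_ext'
    · exact RingHom.ext_int _ _
    · simp
  rw [← h2, h1]
  apply Finset.prod_congr rfl
  intro i _
  congr 2
  rw [map_mul, map_add, PowerSeries.constantCoeff_C, PowerSeries.constantCoeff_X, add_zero]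
  rfl

lemma sb_u (i : Fin m) : |PowerSeries.constantCoeff (sb (thG δ a) (rω ω i)) - ρ i| ≤ 1 / 4 := by
  have hr := P.r_pos ha
  have hq := P.q_nonneg ha
  have hθ := P.th_bd ha
  have hub : Bd rn (B / |(a : ℝ)|) (PowerSeries.map (Int.castRingHom ℝ) (u i)) (1 / 4) :=
    (Bd_real (P.hu i)).of_le hq (P.rad_le ha)
  have h1 : rω ω i = PowerSeries.C ((ρ i : ℤ) : ℝ) + PowerSeries.map (Int.castRingHom ℝ) (u i) := by
    rw [rω, P.hω, map_add, PowerSeries.map_C]
    rfl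
  have h2 := sb_coeff_le hr hθ hub 0
  rw [pow_zero, div_one, PowerSeries.coeff_zero_eq_constantCoeff_apply] at h2
  rw [h1, sb_add hr hθ (Bd.C hq _) hub, sb_C, map_add, PowerSeries.constantCoeff_C,
    add_sub_cancel_left]
  exact h2

lemma β_inj : Function.Injective (βG δ a ω) := by
  intro i j hij
  have hane := P.a_ne ha
  have h1 := P.sb_u ha i
  have h2 := P.sb_u ha j
  have h3 : PowerSeries.constantCoeff (sb (thG δ a) (rω ω i))
      = PowerSeries.constantCoeff (sb (thG δ a) (rω ω j)) := mul_left_cancel₀ hane hij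
  rw [h3] at h1
  have h4 : |(ρ i : ℝ) - ρ j| ≤ 1 / 2 := by
    rw [abs_le] at h1 h2 ⊢
    constructor <;> linarith
  have h5 : |ρ i - ρ j| < 1 := by
    have h6 : ((|ρ i - ρ j| : ℤ) : ℝ) < 1 := by
      push_cast
      linarith
    exact_mod_cast h6
  exact P.hρinj (by have := abs_lt.1 h5; omega)

lemma β_le (i : Fin m) : |βG δ a ω i| ≤ 2 * h * |(a : ℝ)| := by
  have h1 := P.sb_u ha i
  have h2 := P.hρ i
  have h3 := P.hh
  unfold βG
  rw [abs_mul, mul_comm]
  apply mul_le_mul_of_nonneg_right _ (abs_nonneg _)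
  have h4 : PowerSeries.constantCoeff (sb (thG δ a) (rω ω i))
      = (PowerSeries.constantCoeff (sb (thG δ a) (rω ω i)) - ρ i) + ρ i := by ring
  rw [h4]
  refine (abs_add_le _ _).trans ?_
  linarith

end Br

end Pool.Agent.W257
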