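import Pool.Agent.W257.G2
import Pool.Agent.W625.ESG.Sym
import Pool.Agent.W501.SHt2
import Pool.Agent.W803.ESGFactor
import Pool.Agent.W402.ESG.P2
import Pool.Agent.W29.EsgCard

/-!
Galois anchors: the anchor point.
-/

open Polynomial Finset NumberField IntermediateField

namespace Pool.Agent.W257

open Pool.Agent.H322R2

/-- crude bound for values of bivariate integer polynomials -/
lemma abs_ev_le (G : ℤ[X][X]) (n k : ℕ) (hn : G.natDegree ≤ n) (hk : ∀ j, (G.coeff j).natDegree ≤ k)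
    (a c : ℤ) (M : ℝ) (ha : 1 ≤ |(a : ℝ)|) (hM : 1 ≤ M) (hc : |(c : ℝ)| ≤ M) :
    |((ev a c G : ℤ) : ℝ)| ≤ pn (pn zn) G * (|(a : ℝ)| ^ k * M ^ n) := by
  have h1 : ∀ p : ℤ[X], p.natDegree ≤ k → |((evf a p : ℤ) : ℝ)| ≤ pn zn p * |(a : ℝ)| ^ k := by
    intro p hp
    rw [evf_sum a p (show p.natDegree < k + 1 by omega), pn_eq_range zn p (show p.natDegree < k + 1 by omega)]
    push_cast
    refine (Finset.abs_sum_le_sum_abs _ _).trans ?_
    rw [Finset.sum_mul]
    apply Finset.sum_le_sum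
    intro i hi
    rw [Finset.mem_range] at hi
    rw [abs_mul, abs_pow, zn_apply]
    apply mul_le_mul_of_nonneg_left _ (abs_nonneg _)
    exact pow_le_pow_right₀ ha (by omega)
  have h2 : ev a c G = ∑ j ∈ range (n + 1), evf a (G.coeff j) * c ^ j := by
    rw [ev_apply, eval₂_eq_sum_range' _ (show G.natDegree < n + 1 by omega)]
  rw [h2, pn_eq_range (pn zn) G (show G.natDegree < n + 1 by omega)]
  push_cast
  refine (Finset.abs_sum_le_sum_abs _ _).trans ?_
  rw [Finset.sum_mul]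
  apply Finset.sum_le_sum
  intro j hj
  rw [Finset.mem_range] at hj
  rw [abs_mul, abs_pow]
  calc |((evf a (G.coeff j) : ℤ) : ℝ)| * |(c : ℝ)| ^ j
      ≤ (pn zn (G.coeff j) * |(a : ℝ)| ^ k) * M ^ n := by
        apply mul_le_mul (h1 _ (hk j)) _ (by positivity)
          (mul_nonneg (apply_nonneg _ _) (by positivity))
        calc |(c : ℝ)| ^ j ≤ M ^ j := pow_le_pow_left₀ (abs_nonneg _) hc j
          _ ≤ M ^ n := pow_le_pow_right₀ hM (by omega)
    _ = _ := by ring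

lemma sum_sq_perm {m : ℕ} (β : Fin m → ℝ) (hβ : Function.Injective β) (π : Equiv.Perm (Fin m))
    (h : ∑ i, β i * β (π i) = ∑ i, β i * β i) : π = 1 := by
  have h1 : ∑ i, (β i - β (π i)) ^ 2 = 0 := by
    have e1 : ∑ i, (β i - β (π i)) ^ 2
        = ∑ i, β i * β i + ∑ i, β (π i) * β (π i) - 2 * ∑ i, β i * β (π i) := by
      rw [Finset.mul_sum, ← Finset.sum_add_distrib, ← Finset.sum_sub_distrib]
      apply Finset.sum_congr rfl
      intro i _
      ring
    have e2 : ∑ i, β (π i) * β (π i) = ∑ i, β i * β i :=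
      Equiv.sum_comp π (fun i => β i * β i)
    rw [e1, e2, h]
    ring
  ext i
  have h2 := (Finset.sum_eq_zero_iff_of_nonneg (fun i _ => sq_nonneg (β i - β (π i)))).1 h1 i
    (Finset.mem_univ i)
  have h3 : β i = β (π i) := by
    have := pow_eq_zero_iff (two_ne_zero) |>.1 h2
    linarith
  rw [Equiv.Perm.one_apply, ← hβ h3]

/-- the field generated by the roots of `f(a, Y)` -/
noncomputable def KG {m : ℕ} (δ a : ℤ) (ω : Fin m → PowerSeries ℤ) : IntermediateField ℚ ℝ :=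
  IntermediateField.adjoin ℚ (Set.range (βG δ a ω))

namespace Br

variable {m : ℕ} {f : ℤ[X][X]} {B h : ℝ} {ρ : Fin m → ℤ} {δ : ℤ} {ω u : Fin m → PowerSeries ℤ}
  (P : Br m f B h ρ δ ω u) {a : ℤ} (ha : B ^ 2 ≤ |(a : ℝ)|)

include P in
lemma g_monic : (f.map (evf a)).Monic ∧ (f.map (evf a)).natDegree = m :=
  ⟨P.hf.map _, by rw [P.hf.natDegree_map, P.hfd]⟩

include P ha

lemma root_bd (z : ℂ) (hz : evf z (f.map (evf a)) = 0) : ‖z‖ ≤ 2 * h * |(a : ℝ)| := by
  have h1 := congrArg (Polynomial.map Complex.ofRealHom) (P.split_at ha)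
  rw [Polynomial.map_map, Polynomial.map_prod] at h1
  simp only [Polynomial.map_sub, map_X, Polynomial.map_C] at h1
  have h2 : evf z (f.map (evf a))
      = ((f.map (evf a)).map (Complex.ofRealHom.comp (Int.castRingHom ℝ))).eval z := by
    rw [eval_map, evf, coe_eval₂RingHom]
    congr 1
  rw [hz, h1, eval_prod] at h2
  obtain ⟨i, _, hi⟩ := Finset.prod_eq_zero_iff.1 h2.symm
  rw [eval_sub, eval_X, eval_C, sub_eq_zero] at hi
  rw [hi, Complex.ofRealHom_eq_coe, Complex.norm_real, Real.norm_eq_abs]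
  exact P.β_le ha i

lemma exists_b [NumberField ↥(KG δ a ω)] (i : Fin m) : ∃ b : 𝓞 ↥(KG δ a ω),
    rE ↥(KG δ a ω) (algebraMap _ ℝ) b = βG δ a ω i ∧ hs ↥(KG δ a ω) b ≤ 2 * h * |(a : ℝ)| := by
  obtain ⟨x, hx⟩ : ∃ x : ↥(KG δ a ω), (x : ℝ) = βG δ a ω i :=
    ⟨⟨βG δ a ω i, IntermediateField.subset_adjoin ℚ _ ⟨i, rfl⟩⟩, rfl⟩
  have hroot : evf (βG δ a ω i) (f.map (evf a)) = 0 := by
    have h1 := P.split_at ha
    have h2 : evf (βG δ a ω i) (f.map (evf a))
        = ((f.map (evf a)).map (Int.castRingHom ℝ)).eval (βG δ a ω i) := by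
      rw [eval_map, evf, coe_eval₂RingHom]
    rw [h2, h1, eval_prod]
    apply Finset.prod_eq_zero (Finset.mem_univ i)
    simp
  have hroot' : evf x (f.map (evf a)) = 0 := by
    have h3 := map_evf (algebraMap ↥(KG δ a ω) ℝ) x (f.map (evf a))
    have h4 : algebraMap ↥(KG δ a ω) ℝ x = βG δ a ω i := hx
    rw [h4, hroot] at h3
    exact (algebraMap ↥(KG δ a ω) ℝ).injective (by rw [h3, map_zero])
  have hint : IsIntegral ℤ x := ⟨f.map (evf a), (P.g_monic (a := a)).1, hroot'⟩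
  obtain ⟨α, hα⟩ : ∃ α : 𝓞 ↥(KG δ a ω), algebraMap (𝓞 ↥(KG δ a ω)) _ α = x := ⟨⟨x, hint⟩, rfl⟩
  refine ⟨α, ?_, ?_⟩
  · rw [rE, RingHom.comp_apply, hα]; exact hx
  · have hpos : 0 ≤ 2 * h * |(a : ℝ)| := by
      have := P.hh
      positivity
    rw [hs_apply, house_eq_sup', hα]
    have h3 : univ.sup' univ_nonempty (fun φ : ↥(KG δ a ω) →+* ℂ ↦ ‖φ x‖₊)
        ≤ (2 * h * |(a : ℝ)|).toNNReal := by
      apply Finset.sup'_le
      intro φ _
      rw [← NNReal.coe_le_coe, Real.coe_toNNReal _ hpos, coe_nnnorm]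
      apply P.root_bd ha
      rw [← map_evf, hroot', map_zero]
    rw [← NNReal.coe_le_coe, Real.coe_toNNReal _ hpos] at h3
    exact h3

/-- the real series of the resolvent at infinity and its value -/
lemma sb_sum_β (γ : Fin m → ℝ) :
    sb (thG δ a) (∑ i, PowerSeries.C (γ i) * rω ω i) = ∑ i, PowerSeries.C (γ i) * sb (thG δ a) (rω ω i) := by
  have hr := P.r_pos ha
  have hq := P.q_nonneg ha
  have hθ := P.th_bd ha
  rw [sb_sum hr hq hθ univ _ (fun i => rn (γ i) * (h + 1 / 4))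
    (fun i _ => (Bd.C hq _).mul hq (P.ωbd ha i))]
  apply Finset.sum_congr rfl
  intro i _
  rw [sb_mul hr hθ (Bd.C hq _) (P.ωbd ha i), sb_C]

lemma val_sum (γ : Fin m → ℝ) :
    (a : ℝ) * PowerSeries.constantCoeff (sb (thG δ a) (∑ i, PowerSeries.C (γ i) * rω ω i))
      = ∑ i, γ i * βG δ a ω i := by
  rw [P.sb_sum_β ha, map_sum, Finset.mul_sum]
  apply Finset.sum_congr rfl
  intro i _
  rw [map_mul, PowerSeries.constantCoeff_C, βG]
  ring

end Br

end Pool.Agent.W257
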