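import Pool.Agent.W257.G3

/-!
Galois anchors: existence of the anchor.
-/

open Polynomial Finset NumberField IntermediateField

namespace Pool.Agent.W257

open Pool.Agent.H322R2

/-- the anchor data over the field of all roots of `f(a, Y)` -/
structure GA (m : ℕ) (δ a : ℤ) (ω : Fin m → PowerSeries ℤ) (B : ℝ) (F₁ : ℤ[X][X]) (c : ℤ) :
    Prop where
  monic : F₁.Monic
  prime : Prime F₁
  pos : 0 < F₁.natDegree
  le : F₁.natDegree ≤ m.factorial
  td : TD F₁.natDegree F₁
  fin : Module.finrank ℚ ↥(KG δ a ω) ≤ F₁.natDegree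
  ap : ∀ [NumberField ↥(KG δ a ω)], Nonempty (AP (hs ↥(KG δ a ω))
    (rE ↥(KG δ a ω) (algebraMap _ ℝ)) (8 * m.factorial) B (|(a : ℝ)| ^ (2 * m.factorial + 1)) F₁ a c)

namespace Br

variable {m : ℕ} {f : ℤ[X][X]} {B h : ℝ} {ρ : Fin m → ℤ} {δ : ℤ} {ω u : Fin m → PowerSeries ℤ}
  (P : Br m f B h ρ δ ω u) {a : ℤ} (ha : B ^ 2 ≤ |(a : ℝ)|)

include P ha

theorem anchor (hBm : 4 * m * h ^ 2 ≤ B) (hBN : (m.factorial : ℝ) + 1 ≤ B)
    (hfh : pn (pn zn) f ≤ h) : ∃ (F₁ : ℤ[X][X]) (c : ℤ), GA m δ a ω B F₁ c := by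
  classical
  obtain ⟨hg, hgd⟩ := P.g_monic (a := a)
  have hsplit := P.split_at ha
  have hinj := P.β_inj ha
  obtain ⟨c, hc⟩ := Pool.Agent.W402.ESG.main m (f.map (evf a)) (βG δ a ω) hsplit
  obtain ⟨F, hF⟩ := Pool.Agent.W625.ESG.main m (f.map (evf a)) f hg hgd P.hf P.hfd
  have hh := P.hh
  have hB4 := P.hB
  have hm1 : (1 : ℝ) ≤ m := by exact_mod_cast P.hm
  obtain ⟨A, hA⟩ : ∃ A, A = |(a : ℝ)| := ⟨_, rfl⟩
  have hA16 : 16 ≤ A := by rw [hA]; exact P.a_ge ha
  have haB : B ^ 2 ≤ A := by rw [hA]; exact ha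
  have hA1 : 1 ≤ A := by linarith
  have hBA : B ≤ A := by nlinarith
  obtain ⟨N, hN⟩ : ∃ N, N = m.factorial := ⟨_, rfl⟩
  have hN1 : 1 ≤ N := by rw [hN]; exact Nat.factorial_pos m
  rw [← hN] at hBN
  have hbb : 1 ≤ 2 * h * A := by nlinarith
  have hht := Pool.Agent.W501.SHt2.main m (f.map (evf a)) f F
  have hdiv : ∀ F₁ : ℤ[X][X], F₁.Monic → F₁ ∣ F →
      (∀ j, (F₁.coeff j).natDegree ≤ F₁.natDegree - j) ∧ pn (pn zn) F₁ ≤ A ^ (2 * N + 1) := by
    intro F₁ h1 h2
    obtain ⟨h3, h4⟩ := hht F₁ h (2 * h * A) P.hm hg hgd P.hf P.hfd P.hT.2 hh hfh hbb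
      (by rw [hA]; exact P.root_bd ha) hF h1 h2
    refine ⟨h3, h4.trans ?_⟩
    rw [← hN]
    have e1 : 1 + (m : ℝ) * (2 * h * A) * h ≤ A ^ 2 := by
      have e2 : (m : ℝ) * (2 * h * A) * h = (2 * m * h ^ 2) * A := by ring
      rw [e2]
      nlinarith
    calc ((N : ℝ) + 1) * (1 + m * (2 * h * A) * h) ^ N ≤ A * (A ^ 2) ^ N := by
          apply mul_le_mul (hBN.trans hBA) _ (by positivity) (by linarith)
          exact pow_le_pow_left₀ (by positivity) e1 N
      _ = A ^ (2 * N + 1) := by rw [← pow_mul]; ring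
  have hTDd : ∀ F₁ : ℤ[X][X], F₁.Monic → F₁ ∣ F → TD F₁.natDegree F₁ := fun F₁ h1 h2 =>
    ⟨le_rfl, (hdiv F₁ h1 h2).1⟩
  obtain ⟨F₁, hF₁m, hF₁p, hF₁F, hF₁0⟩ := Pool.Agent.W803.ESGFactor.main m (f.map (evf a)) f F
    (βG δ a ω) δ ω P.hf P.hfd P.hT hsplit P.hδ P.split hF hTDd
  obtain ⟨r, hr⟩ : ∃ r, r = F₁.natDegree := ⟨_, rfl⟩
  have hrN : r ≤ N := by
    rw [hr, hN, ← hF.2.1]
    exact natDegree_le_of_dvd hF₁F hF.1.ne_zero
  have hr0 : 0 < r := by
    rw [hr]
    by_contra h0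
    have h0' : F₁.natDegree = 0 := by omega
    have := Polynomial.eq_one_of_monic_natDegree_zero hF₁m h0'
    rw [this] at hF₁p
    exact hF₁p.not_unit isUnit_one
  obtain ⟨hcd, hpn⟩ := hdiv F₁ hF₁m hF₁F
  have hval := P.val_sum ha
  -- size of `c`
  have hc' : ∑ i, βG δ a ω i * βG δ a ω i = c := by
    rw [hc]
    apply Finset.sum_congr rfl
    intro i _
    ring
  have hcA : |(c : ℝ)| ≤ A ^ 3 := by
    rw [hc, abs_of_nonneg (Finset.sum_nonneg fun i _ => sq_nonneg _)]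
    calc ∑ i, βG δ a ω i ^ 2 ≤ ∑ _i : Fin m, (2 * h * A) ^ 2 := by
          apply Finset.sum_le_sum
          intro i _
          rw [← sq_abs]
          apply pow_le_pow_left₀ (abs_nonneg _)
          rw [hA]; exact P.β_le ha i
      _ = (4 * m * h ^ 2) * A ^ 2 := by
          rw [Finset.sum_const, Finset.card_univ, Fintype.card_fin, nsmul_eq_mul]; ring
      _ ≤ A * A ^ 2 := by
          apply mul_le_mul_of_nonneg_right (hBm.trans hBA) (by positivity)
      _ = _ := by ring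
  -- the real branch
  have hrr := P.r_pos ha
  have hq := P.q_nonneg ha
  have hθ := P.th_bd ha
  obtain ⟨wR, hwR⟩ : ∃ wR : PowerSeries ℝ, wR = ∑ i, PowerSeries.C (βG δ a ω i) * rω ω i := ⟨_, rfl⟩
  have hwRbd : Bd rn (B / |(a : ℝ)|) wR (∑ i, rn (βG δ a ω i) * (h + 1 / 4)) := by
    rw [hwR]
    exact Bd.sum univ hq _ _ (fun i _ => (Bd.C hq _).mul hq (P.ωbd ha i))
  have hE0 : ev (PowerSeries.C ((δ : ℝ) ^ 2) * PowerSeries.X) wR (hmg r F₁) = 0 := by
    rw [hwR, hr]; exact hF₁0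
  obtain ⟨x, hx⟩ : ∃ x : PowerSeries ℝ, x = PowerSeries.C (a : ℝ) + PowerSeries.X := ⟨_, rfl⟩
  have hxinv : x * invX (a : ℝ) = 1 := by rw [hx]; exact mul_invX _ (P.a_ne ha)
  have hTDr : TD r F₁ := by rw [hr]; exact ⟨le_rfl, hcd⟩
  have hEv : ev x (x * sb (thG δ a) wR) F₁ = 0 := by
    rw [ev_hmg _ hxinv hTDr, ← P.sb_ζ ha, ← sb_ev hrr hq hθ (P.ζbd ha) hwRbd, hE0, sb_zero, mul_zero]
  have hcx : PowerSeries.constantCoeff x = (a : ℝ) := by rw [hx]; simp
  have hcc : PowerSeries.constantCoeff (x * sb (thG δ a) wR) = (c : ℝ) := by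
    rw [map_mul, hcx, hwR, hval, hc']
  have hev0 : ev a c F₁ = 0 := by
    have h1 := congrArg PowerSeries.constantCoeff hEv
    rw [map_ev, map_zero, hcx, hcc] at h1
    have h3 := map_ev (Int.castRingHom ℝ) a c F₁
    simp only [eq_intCast] at h3
    rw [← h3] at h1
    exact_mod_cast h1
  -- nonvanishing of the derivative
  have hDne : ev a c (derivative F₁) ≠ 0 := by
    intro hD0
    obtain ⟨Q, hQ⟩ := hF₁F
    have h1 : ev a c (derivative F) = 0 := by
      rw [hQ, derivative_mul, map_add, map_mul, map_mul, hD0, hev0, zero_mul, zero_mul, add_zero]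
    have h2 : ev (a : ℝ) (c : ℝ) (derivative F) = 0 := by
      have h3 := map_ev (Int.castRingHom ℝ) a c (derivative F)
      simp only [eq_intCast] at h3
      rw [← h3, h1]; simp
    have h3 : f.map (evf (a : ℝ)) = ∏ i, (X - C (βG δ a ω i)) := by
      rw [← hsplit, Polynomial.map_map]
      congr 1
      apply Polynomial.ringHom_ext'
      · exact RingHom.ext_int _ _
      · simp
    have h4 := hF.2.2 ℝ (a : ℝ) (βG δ a ω) (βG δ a ω) hsplit h3
    have h5 : ev (a : ℝ) (c : ℝ) (derivative F) = (derivative (F.map (evf (a : ℝ)))).eval (c : ℝ) := by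
      rw [derivative_map, eval_map, ev_apply]
    rw [h5, h4, derivative_prod_finset, eval_finsetSum, Finset.sum_eq_single 1] at h2
    · rw [eval_mul, eval_prod, derivative_sub, derivative_X, derivative_C, sub_zero, eval_one,
        mul_one] at h2
      obtain ⟨π, hπ, hπ0⟩ := Finset.prod_eq_zero_iff.1 h2
      rw [eval_sub, eval_X, eval_C, sub_eq_zero] at hπ0
      rw [Finset.mem_erase] at hπ
      apply hπ.1
      apply sum_sq_perm _ hinj
      rw [← hπ0, hc']
    · intro π _ hπ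
      rw [eval_mul, eval_prod]
      rw [Finset.prod_eq_zero (Finset.mem_erase.2 ⟨hπ.symm, Finset.mem_univ 1⟩), zero_mul]
      rw [eval_sub, eval_X, eval_C, sub_eq_zero, ← hc']
      apply Finset.sum_congr rfl
      intro i _
      rw [Equiv.Perm.one_apply]
    · intro h0; exact absurd (Finset.mem_univ _) h0
  -- size of the derivative
  have hDle : |((ev a c (derivative F₁) : ℤ) : ℝ)| ≤ A ^ (8 * N) := by
    have h1 : (derivative F₁).natDegree ≤ r := by
      rw [hr]; exact (natDegree_derivative_le _).trans (Nat.sub_le _ _)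
    have h2 : ∀ j, ((derivative F₁).coeff j).natDegree ≤ r := by
      intro j
      rw [coeff_derivative]
      have h3 : ((j : ℤ[X]) + 1) = C ((j : ℤ) + 1) := by simp
      rw [h3]
      refine (natDegree_mul_C_le _ _).trans ?_
      have := hcd (j + 1)
      omega
    have h3 := abs_ev_le (derivative F₁) r r h1 h2 a c (A ^ 3) (by rw [← hA]; exact hA1)
      (one_le_pow₀ hA1) hcA
    rw [← hA] at h3
    refine h3.trans ?_
    have h4 : pn (pn zn) (derivative F₁) ≤ A * A ^ (2 * N + 1) := by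
      refine (pn_derivative_le _ _).trans ?_
      rw [← hr]
      apply mul_le_mul _ hpn (apply_nonneg _ _) (by linarith)
      have : (r : ℝ) ≤ N := by exact_mod_cast hrN
      linarith
    calc pn (pn zn) (derivative F₁) * (A ^ r * (A ^ 3) ^ r)
        ≤ (A * A ^ (2 * N + 1)) * (A ^ r * (A ^ 3) ^ r) :=
          mul_le_mul_of_nonneg_right h4 (by positivity)
      _ = A ^ (1 + (2 * N + 1) + (r + 3 * r)) := by rw [← pow_mul]; ring
      _ ≤ A ^ (8 * N) := pow_le_pow_right₀ hA1 (by omega)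
  refine ⟨F₁, c, hF₁m, hF₁p, by rw [← hr]; exact hr0, by rw [← hr, ← hN]; exact hrN, ⟨le_rfl, hcd⟩,
    ?_, ?_⟩
  · -- degree of the field
    apply Pool.Agent.W29.EsgCard.main m (f.map (evf a)) F₁ (βG δ a ω) δ ω hg hgd hsplit hinj hF₁m
      ⟨le_rfl, hcd⟩ _ hF₁0
    intro π hπ
    have h1 := hval (fun i => βG δ a ω (π i))
    have h2 := hval (βG δ a ω)
    have h3 : ∑ i, PowerSeries.C (βG δ a ω (π i)) * rω ω i
        = ∑ i, PowerSeries.C (βG δ a ω i) * rω ω i := hπ
    rw [h3, h2] at h1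
    apply sum_sq_perm _ hinj
    rw [h1]
    apply Finset.sum_congr rfl
    intro i _
    ring
  · -- the anchor point
    intro hnf
    have hbex := P.exists_b ha
    choose b hb1 hb2 using hbex
    have hp : (0 : ℝ) ≤ 1 / B := by have := P.B_pos; positivity
    have hN1' := hs_one ↥(KG δ a ω)
    have hBdA : ∀ {v : PowerSeries ℤ} {C : ℝ}, Bd zn (1 / B) v C →
        Bd (hs ↥(KG δ a ω)) (1 / B) (PowerSeries.map (Int.castRingHom (𝓞 ↥(KG δ a ω))) v) C := by
      intro v C hv K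
      refine le_trans ?_ (hv K)
      apply Finset.sum_le_sum
      intro n _
      rw [PowerSeries.coeff_map, zn_apply]
      apply mul_le_mul_of_nonneg_right _ (pow_nonneg hp n)
      exact N_int_le _ hN1' _
    have hmapR : ∀ v : PowerSeries ℤ, PowerSeries.map (rE ↥(KG δ a ω) (algebraMap _ ℝ))
        (PowerSeries.map (Int.castRingHom (𝓞 ↥(KG δ a ω))) v)
        = PowerSeries.map (Int.castRingHom ℝ) v := by
      intro v
      ext n
      rw [PowerSeries.coeff_map, PowerSeries.coeff_map, PowerSeries.coeff_map]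
      simp
    have hζR : PowerSeries.map (Int.castRingHom ℝ) (PowerSeries.C (δ ^ 2) * PowerSeries.X)
        = PowerSeries.C ((δ : ℝ) ^ 2) * PowerSeries.X := by
      rw [map_mul, PowerSeries.map_C, PowerSeries.map_X]; simp
    have hwmap : PowerSeries.map (rE ↥(KG δ a ω) (algebraMap _ ℝ))
        (∑ i, PowerSeries.C (b i) * PowerSeries.map (Int.castRingHom (𝓞 ↥(KG δ a ω))) (ω i)) = wR := by
      rw [map_sum, hwR]
      apply Finset.sum_congr rfl
      intro i _
      rw [map_mul, PowerSeries.map_C, hb1, hmapR]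
      rfl
    refine ⟨⟨PowerSeries.map (Int.castRingHom (𝓞 ↥(KG δ a ω)))
        (PowerSeries.C (δ ^ 2) * PowerSeries.X),
      ∑ i, PowerSeries.C (b i) * PowerSeries.map (Int.castRingHom (𝓞 ↥(KG δ a ω))) (ω i), 1 / B,
      thG δ a, by linarith, ?_, ha, le_rfl, hBdA P.bζ, ?_, hθ, ?_, ?_, ?_, hDne, ?_, ?_⟩⟩
    · rw [← hA]; exact one_le_pow₀ hA1
    · refine (Bd.sum univ hp _ (fun _ => (2 * h * A) * (h + 1 / 4)) (fun i _ =>
        ((Bd.C hp _).mul hp (hBdA (P.hωbd i))).mono ?_)).mono ?_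
      · rw [hA]
        exact mul_le_mul_of_nonneg_right (hb2 i) (by linarith)
      · rw [Finset.sum_const, Finset.card_univ, Fintype.card_fin, nsmul_eq_mul, ← hA, ← hN]
        calc (m : ℝ) * (2 * h * A * (h + 1 / 4)) ≤ m * (2 * h * A * (2 * h)) := by
              gcongr
              linarith
          _ = (4 * m * h ^ 2) * A := by ring
          _ ≤ A * A := by
              apply mul_le_mul_of_nonneg_right (hBm.trans hBA) (by linarith)
          _ = A ^ 2 := by ring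
          _ ≤ A ^ (2 * N + 1) := pow_le_pow_right₀ hA1 (by omega)
    · rw [hmapR, hζR, P.sb_ζ ha]
      exact mul_invX _ (P.a_ne ha)
    · rw [hwmap, ← hx]; exact hcc
    · rw [hwmap, ← hx]; exact hEv
    · rw [← hA, ← hN]; exact hDle
    · rw [← hA, ← hN]; exact hpn

omit ha in
/-- the generating set of the anchor field -/
theorem gen (ha : B ^ 2 ≤ |(a : ℝ)|) (hBm : 4 * m * h ^ 2 ≤ B) [NumberField ↥(KG δ a ω)] :
    ∃ S : Set ℝ, Gen (KG δ a ω) S (|(a : ℝ)| ^ (2 * m ^ 2)) := by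
  obtain ⟨hg, hgd⟩ := P.g_monic (a := a)
  obtain ⟨-, -, hspan⟩ := Pool.Agent.W571.ESG.main_roots m (f.map (evf a)) (βG δ a ω) hg hgd
    (P.split_at ha)
  refine ⟨_, hspan, ?_⟩
  rintro s ⟨k, hk, rfl⟩
  have hbex := P.exists_b ha
  choose b hb1 hb2 using hbex
  refine ⟨∏ i, b i ^ k i, ?_, ?_⟩
  · rw [map_prod]
    apply Finset.prod_congr rfl
    intro i _
    rw [map_pow, hb1]
  · obtain ⟨A, hA⟩ : ∃ A, A = |(a : ℝ)| := ⟨_, rfl⟩
    have hA16 : 16 ≤ A := by rw [hA]; exact P.a_ge ha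
    have haB : B ^ 2 ≤ A := by rw [hA]; exact ha
    have hB4 := P.hB
    have hh := P.hh
    have hBA : B ≤ A := by nlinarith
    have hm1 : (1 : ℝ) ≤ m := by exact_mod_cast P.hm
    have h2h : 2 * h ≤ B := by nlinarith
    have hN1' := hs_one ↥(KG δ a ω)
    refine (seminorm_prod_le _ hN1' _ _).trans ?_
    rw [← hA]
    calc ∏ i, hs ↥(KG δ a ω) (b i ^ k i) ≤ ∏ _i : Fin m, A ^ (2 * m) := by
          apply Finset.prod_le_prod (fun _ _ => apply_nonneg _ _)
          intro i _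
          refine (seminorm_pow_le _ hN1' _ _).trans ?_
          calc hs ↥(KG δ a ω) (b i) ^ k i ≤ (A ^ 2) ^ k i := by
                apply pow_le_pow_left₀ (apply_nonneg _ _)
                refine (hb2 i).trans ?_
                rw [← hA]
                nlinarith
            _ = A ^ (2 * k i) := by rw [← pow_mul]
            _ ≤ A ^ (2 * m) := pow_le_pow_right₀ (by linarith) (by have := hk i; omega)
      _ = A ^ (2 * m ^ 2) := by
          rw [Finset.prod_const, Finset.card_univ, Fintype.card_fin, ← pow_mul]; congr 1; ring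

end Br

end Pool.Agent.W257
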