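import Pool.Agent.W257.K6

/-!
Anchors give effective bounds for all slope fields that meet the anchor field in degree `≥ 3`.
-/

open Polynomial Finset NumberField IntermediateField

namespace Pool.Agent.W257

open Pool.Agent.H322R2

/-- effective bound for points near a branch whose slope generates the field `L` -/
def EffG (d K : ℕ) (c : ℝ) (L : IntermediateField ℚ ℝ) : Prop :=
  ∀ (_ : NumberField L), Module.finrank ℚ L = d → ∀ (G : ℤ[X][X]) (H : ℝ) (α : 𝓞 L) (a b : ℤ),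
    ℚ⟮rE L (algebraMap L ℝ) α⟯ = L →
    Pt (hs L) (rE L (algebraMap L ℝ)) d G H α a b → |(a : ℝ)| ≤ (c * bB d H) ^ K

/-- powers of a generator form a generating set -/
lemma gen_powers {L : IntermediateField ℚ ℝ} [NumberField L] {d : ℕ}
    (hL : Module.finrank ℚ L = d) (α : 𝓞 L) (hα : ℚ⟮rE L (algebraMap L ℝ) α⟯ = L) {H : ℝ}
    (hH : 1 ≤ H) (hαH : hs L α ≤ H) :
    Gen L {s | ∃ i < d, s = (rE L (algebraMap L ℝ) α) ^ i} (H ^ d) := by
  obtain ⟨η, hη⟩ : ∃ η, η = rE L (algebraMap L ℝ) α := ⟨_, rfl⟩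
  rw [← hη] at hα ⊢
  have hηint : IsIntegral ℚ η := by
    have h1 : IsIntegral ℤ (α : L) := α.isIntegral_coe
    have h2 : IsIntegral ℤ η := by
      rw [hη]
      exact h1.map (IsScalarTower.toAlgHom ℤ L ℝ)
    exact h2.tower_top
  constructor
  · have hfin : (minpoly ℚ η).natDegree = d := by
      rw [← IntermediateField.adjoin.finrank hηint, hα, hL]
    rw [← hα]
    have h1 : (ℚ⟮η⟯ : Set ℝ) = (Algebra.adjoin ℚ {η} : Set ℝ) := by
      rw [← IntermediateField.adjoin_simple_toSubalgebra_of_isAlgebraic hηint.isAlgebraic]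
      rfl
    rw [h1]
    apply Set.Subset.antisymm
    · intro x hx
      have h2 : Submodule.span ℚ {s | ∃ i < d, s = η ^ i}
          ≤ Subalgebra.toSubmodule (Algebra.adjoin ℚ {η}) := by
        rw [Submodule.span_le]
        rintro s ⟨i, _, rfl⟩
        exact Subalgebra.pow_mem _ (Algebra.self_mem_adjoin_singleton ℚ η) i
      exact h2 hx
    · intro x hx
      have hx' : x ∈ Algebra.adjoin ℚ {η} := hx
      rw [Algebra.adjoin_singleton_eq_range_aeval] at hx'
      obtain ⟨p, hp⟩ := hx'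
      have hp' : x = aeval η p := hp.symm
      have hm := minpoly.monic hηint
      have h3 : aeval η p = aeval η (p %ₘ minpoly ℚ η) := by
        conv_lhs => rw [← modByMonic_add_div p (minpoly ℚ η)]
        rw [map_add, map_mul, minpoly.aeval, zero_mul, add_zero]
      have hd0 : (p %ₘ minpoly ℚ η).natDegree < d ∨ d = 0 := by
        rcases Nat.eq_zero_or_pos d with h0 | h0
        · exact Or.inr h0
        · left
          have := natDegree_modByMonic_lt p hm (by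
            intro h1
            rw [h1] at hfin
            simp at hfin
            omega)
          rwa [hfin] at this
      rcases hd0 with hd0 | hd0
      · rw [hp', h3]
        show aeval η (p %ₘ minpoly ℚ η) ∈ Submodule.span ℚ {s | ∃ i < d, s = η ^ i}
        rw [aeval_eq_sum_range' hd0]
        apply Submodule.sum_mem
        intro i hi
        apply Submodule.smul_mem
        exact Submodule.subset_span ⟨i, Finset.mem_range.1 hi, rfl⟩
      · have := minpoly.natDegree_pos hηint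
        omega
  · rintro s ⟨i, hi, rfl⟩
    refine ⟨α ^ i, by rw [map_pow, hη], ?_⟩
    refine (seminorm_pow_le (hs L) (hs_one L) α i).trans ?_
    refine (pow_le_pow_left₀ (apply_nonneg _ _) hαH i).trans ?_
    exact pow_le_pow_right₀ hH hi.le

/-- The constant of an anchor. -/
noncomputable def cAnc (r d : ℕ) (h₁ W : ℝ) (a : ℤ) : ℝ :=
  |(a : ℝ)| * (r * d * h₁ * (1 + W) ^ (2 * r))

/-- An anchor over `K₁` makes the bounds for all slope fields meeting `K₁` in degree at least three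
effective. -/
theorem anchor_eff {r d e : ℕ} (hr : 0 < r) (hd : 3 ≤ d) {K₁ : IntermediateField ℚ ℝ}
    [NumberField K₁] (hK₁ : Module.finrank ℚ K₁ ≤ r) {S₁ : Set ℝ} {h₁ : ℝ} (hh₁ : 1 ≤ h₁)
    (HS₁ : Gen K₁ S₁ h₁) {B1 W : ℝ} {F1 : ℤ[X][X]} {a1 b1 : ℤ}
    (P1 : AP (hs K₁) (rE K₁ (algebraMap K₁ ℝ)) e B1 W F1 a1 b1) (hm1 : F1.Monic)
    (hFd1 : F1.natDegree = r) (hF1 : Prime F1) (hFx1 : ∀ j, (F1.coeff j).natDegree ≤ r)
    (ha1 : B1 ^ (kapG r d e) ≤ |(a1 : ℝ)|) (L₂ : IntermediateField ℚ ℝ)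
    (hL₂ : 3 ≤ Module.finrank ℚ ↥(L₂ ⊓ K₁)) :
    EffG d (2 * kapG r d e) (cAnc r d h₁ W a1) L₂ := by
  intro hnf hfin G H α a b hα P
  have hW := P1.hW
  have hH := P.hH
  have hd0 : 0 < d := by omega
  have : FiniteDimensional ℚ ↥(K₁ ⊔ L₂) := IntermediateField.finiteDimensional_sup K₁ L₂
  have hnfL : NumberField ↥(K₁ ⊔ L₂) := { to_charZero := inferInstance, to_finiteDimensional := this }
  -- degree of the compositum
  have hdeg := Pool.Agent.W571.ESG.main_fld (L₂ ⊓ K₁) K₁ L₂ inf_le_right inf_le_left inferInstance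
    inferInstance
  rw [hfin] at hdeg
  obtain ⟨n, hn⟩ : ∃ n, n = Module.finrank ℚ ↥(K₁ ⊔ L₂) := ⟨_, rfl⟩
  rw [← hn] at hdeg
  have hn0 : 0 < n := by rw [hn]; exact Module.finrank_pos
  have h3n : 3 * n ≤ r * d := by
    calc 3 * n ≤ Module.finrank ℚ ↥(L₂ ⊓ K₁) * n := Nat.mul_le_mul_right _ hL₂
      _ = n * Module.finrank ℚ ↥(L₂ ⊓ K₁) := mul_comm _ _
      _ ≤ Module.finrank ℚ K₁ * d := hdeg
      _ ≤ r * d := Nat.mul_le_mul_right _ hK₁
  -- functionals
  have HS₂ := gen_powers hfin α hα (H := 1 + H) (by linarith) P.Nα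
  have HS := HS₁.sup HS₂ (by linarith)
  obtain ⟨bas, hbas1, hbas2⟩ := exists_bas HS
  have hC0 : 1 ≤ (n : ℝ) * (h₁ * (1 + H) ^ d) := by
    have h1 : (1 : ℝ) ≤ n := by exact_mod_cast hn0
    exact one_le_mul_of_one_le_of_one_le h1
      (one_le_mul_of_one_le_of_one_le hh₁ (one_le_pow₀ (by linarith)))
  have hres := two_pointG (e := e) hr hd (hs_one ↥(K₁ ⊔ L₂)) (abs_rE_le ↥(K₁ ⊔ L₂) (algebraMap _ ℝ))
    bas hbas1 ((n : ℝ) * (h₁ * (1 + H) ^ d)) hC0 (fun x i => (hbas2 x i).trans_eq (by rw [hn]))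
    (by rw [Fintype.card_fin, ← hn]; exact hn0) (by rw [Fintype.card_fin, ← hn]; exact h3n)
    (AP.transport (incl (le_sup_left : K₁ ≤ K₁ ⊔ L₂)) (hs_incl _) (rE_incl _) P1) hm1 hFd1 hF1 hFx1
    (Pt_transport (incl (le_sup_right : L₂ ≤ K₁ ⊔ L₂)) (hs_incl _) (rE_incl _) P) ha1
  refine hres.trans ?_
  have hpow : (cAnc r d h₁ W a1 * bB d H) ^ (2 * kapG r d e)
      = ((cAnc r d h₁ W a1 * bB d H) ^ 2) ^ kapG r d e := pow_mul _ _ _
  rw [hpow]
  apply pow_le_pow_left₀ (by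
    have h0 : 0 ≤ bB d H := pow_nonneg (by linarith) _
    positivity)
  have hbB1 : 1 ≤ bB d H := one_le_pow₀ (by linarith)
  have hHb : (1 + H) ^ d ≤ bB d H := by
    unfold bB
    calc (1 + H) ^ d ≤ (2 + H) ^ d := pow_le_pow_left₀ (by linarith) (by linarith) _
      _ ≤ (2 + H) ^ (64 * d ^ 2) := pow_le_pow_right₀ (by linarith) (by nlinarith)
  have hnrd : (n : ℝ) ≤ r * d := by
    have : n ≤ r * d := by omega
    exact_mod_cast this
  have ha1ge : 1 ≤ |(a1 : ℝ)| := by have := P1.a_ge; linarith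
  unfold cAnc
  obtain ⟨u, hu⟩ : ∃ u, u = (1 + W) ^ (2 * r) := ⟨_, rfl⟩
  have hu1 : 1 ≤ u := by rw [hu]; exact one_le_pow₀ (by linarith)
  rw [← hu]
  have hrd1 : (1 : ℝ) ≤ r * d := by
    have : 1 ≤ r * d := Nat.mul_pos hr hd0
    exact_mod_cast this
  have hc1 : 1 ≤ |(a1 : ℝ)| * (r * d * h₁ * u) :=
    one_le_mul_of_one_le_of_one_le ha1ge
      (one_le_mul_of_one_le_of_one_le (one_le_mul_of_one_le_of_one_le hrd1 hh₁) hu1)
  calc |(a1 : ℝ)| * (n * (h₁ * (1 + H) ^ d) * u) * bB d H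
      ≤ |(a1 : ℝ)| * ((r * d) * (h₁ * bB d H) * u) * bB d H := by gcongr
    _ = (|(a1 : ℝ)| * (r * d * h₁ * u)) * bB d H ^ 2 := by ring
    _ ≤ (|(a1 : ℝ)| * (r * d * h₁ * u)) ^ 2 * bB d H ^ 2 := by
        apply mul_le_mul_of_nonneg_right _ (by positivity)
        exact le_self_pow₀ hc1 (by norm_num)
    _ = _ := by ring

end Pool.Agent.W257
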