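import Pool.Agent.W257.G4
import Pool.Agent.W257.K7
import Pool.Agent.W257.K8

/-!
Effective bounds for split families: numerics and the effective anchor.
-/

open Polynomial Finset NumberField IntermediateField

namespace Pool.Agent.W257

open Pool.Agent.H322R2

/-- closed form bound for the exponent -/
lemma kapG_le {r d e : ℕ} (hr : 1 ≤ r) (hd : 3 ≤ d) (he : 1 ≤ e) :
    kapG r d e ≤ 1000 * e * (4 * d ^ 2) ^ (3 * r) := by
  obtain ⟨D, hD⟩ : ∃ D, D = d * (3 * d + 1) := ⟨_, rfl⟩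
  obtain ⟨q, hq⟩ : ∃ q, q = D ^ r := ⟨_, rfl⟩
  have hDd : 10 * d ≤ D := by rw [hD]; nlinarith
  have hD30 : 30 ≤ D := by omega
  have hd2D : d ^ 2 ≤ D := by rw [hD]; nlinarith
  have hDq : D ≤ q := by rw [hq]; exact Nat.le_self_pow (by omega) D
  have hrq : r * r ≤ q := by
    have h1 : ∀ n : ℕ, n * n ≤ 30 ^ n := by
      intro n
      induction n with
      | zero => norm_num
      | succ n ih =>
        rw [pow_succ]
        have : 1 ≤ 30 ^ n := Nat.one_le_pow _ _ (by norm_num)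
        nlinarith
    calc r * r ≤ 30 ^ r := h1 r
      _ ≤ D ^ r := Nat.pow_le_pow_left hD30 r
      _ = q := hq.symm
  have hr1 : r ≤ q := le_trans (by nlinarith) hrq
  have hq1 : 30 ≤ q := hD30.trans hDq
  have hH : eH r d ≤ 55 * q := by
    unfold eH
    rw [← hD]
    omega
  have hS : eS r d ≤ 8 * q ^ 2 := by
    unfold eS
    obtain ⟨H, hHdef⟩ : ∃ H, H = eH r d := ⟨_, rfl⟩
    rw [← hHdef] at hH ⊢
    have h1 : H * d ≤ (55 * q) * d := Nat.mul_le_mul_right _ hH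
    have h2 : q * (10 * d) ≤ q * q := Nat.mul_le_mul_left _ (hDd.trans hDq)
    have h3 : d ^ 2 ≤ q := hd2D.trans hDq
    have h4 : 30 * q ≤ q * q := Nat.mul_le_mul_right _ hq1
    have e1 : d ^ 2 + (d + (3 * d + 1) + H + 2 * d) * d = 7 * d ^ 2 + d + H * d := by ring
    rw [e1, pow_two q]
    have h5 : d ≤ q := by omega
    nlinarith
  have hA : eA r d ≤ 65 * q ^ 3 := by
    unfold eA
    obtain ⟨H, hHdef⟩ : ∃ H, H = eH r d := ⟨_, rfl⟩
    rw [← hHdef] at hH ⊢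
    rw [← hD, ← hq]
    have h1 : r + (4 * d + 1 + r * r) ≤ 3 * q := by omega
    have h2 : r + (4 * d + 1) + H + 1 ≤ 57 * q := by omega
    have h3 : r ^ 2 + (r + (4 * d + 1) + H + 1) * r ≤ 58 * q ^ 2 := by
      have e1 : (r + (4 * d + 1) + H + 1) * r ≤ (57 * q) * q := Nat.mul_le_mul h2 hr1
      have e2 : r ^ 2 ≤ q ^ 2 := Nat.pow_le_pow_left hr1 2
      nlinarith
    calc q ^ 2 + ((r + (4 * d + 1 + r * r)) * q + (r ^ 2 + (r + (4 * d + 1) + H + 1) * r)) * q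
        ≤ q ^ 2 + ((3 * q) * q + 58 * q ^ 2) * q := by gcongr
      _ = q ^ 2 + 61 * q ^ 3 := by ring
      _ ≤ q ^ 3 + 61 * q ^ 3 := by
          apply Nat.add_le_add_right
          exact Nat.pow_le_pow_right (by omega) (by norm_num)
      _ ≤ _ := by omega
  have hB : eB r d ≤ 70 * q := by
    unfold eB
    rw [← hD]
    omega
  have hfin : kapG r d e ≤ 1000 * e * q ^ 3 := by
    unfold kapG
    rw [← hD, ← hq]
    have e1 : e * eA r d ≤ e * (65 * q ^ 3) := Nat.mul_le_mul_left _ hA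
    have e2 : q ≤ q ^ 3 := Nat.le_self_pow (by norm_num) q
    have e3 : q ^ 2 ≤ q ^ 3 := Nat.pow_le_pow_right (by omega) (by norm_num)
    have e4 : q ^ 3 ≤ e * q ^ 3 := Nat.le_mul_of_pos_left _ he
    have e5 : e * q ≤ e * q ^ 3 := Nat.mul_le_mul_left _ e2
    obtain ⟨Z, hZ⟩ : ∃ Z, Z = e * q ^ 3 := ⟨_, rfl⟩
    have e6 : 2 * e * q = 2 * (e * q) := by ring
    have e7 : 2 * e * eA r d = 2 * (e * eA r d) := by ring
    have e8 : e * (65 * q ^ 3) = 65 * Z := by rw [hZ]; ring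
    have e9 : 1000 * e * q ^ 3 = 1000 * Z := by rw [hZ]; ring
    rw [e6, e7, e9]
    rw [e8] at e1
    rw [← hZ] at e4 e5
    omega
  refine hfin.trans ?_
  apply Nat.mul_le_mul_left
  rw [hq, ← pow_mul, mul_comm r 3]
  apply Nat.pow_le_pow_left
  rw [hD]
  nlinarith

lemma EffG.mono {d K K' : ℕ} {c c' : ℝ} {L : IntermediateField ℚ ℝ} (h : EffG d K c L)
    (hc0 : 0 ≤ c) (hc : c ≤ c') (hc' : 1 ≤ c') (hK : K ≤ K') : EffG d K' c' L := by
  intro hnf hfin G H α a b hα P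
  have hH := P.hH
  have hb : 1 ≤ bB d H := one_le_pow₀ (by linarith)
  refine (h hnf hfin G H α a b hα P).trans ?_
  calc (c * bB d H) ^ K ≤ (c' * bB d H) ^ K := by gcongr
    _ ≤ (c' * bB d H) ^ K' :=
      pow_le_pow_right₀ (one_le_mul_of_one_le_of_one_le hc' hb) hK

/-- the exponent for split families -/
def kapS (m d : ℕ) : ℕ := 10 ^ 4 * (2 * d) ^ (8 * m.factorial)

lemma kapG_le_S {m r d : ℕ} (hr : 1 ≤ r) (hrN : r ≤ m.factorial) (hd : 3 ≤ d) :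
    kapG r d (8 * m.factorial) ≤ kapS m d := by
  obtain ⟨N, hN⟩ : ∃ N, N = m.factorial := ⟨_, rfl⟩
  unfold kapS
  rw [← hN] at hrN ⊢
  have hN1 : 1 ≤ N := hr.trans hrN
  refine (kapG_le hr hd (by omega)).trans ?_
  have h4d : 1 ≤ 4 * d ^ 2 := by nlinarith
  have h1 : (4 * d ^ 2) ^ (3 * r) ≤ (4 * d ^ 2) ^ (3 * N) := Nat.pow_le_pow_right h4d (by omega)
  have h2 : N ≤ (4 * d ^ 2) ^ N := by
    have : 2 ≤ 4 * d ^ 2 := by nlinarith
    exact (Nat.lt_two_pow_self).le.trans (Nat.pow_le_pow_left this N)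
  calc 1000 * (8 * N) * (4 * d ^ 2) ^ (3 * r) ≤ 1000 * (8 * (4 * d ^ 2) ^ N) * (4 * d ^ 2) ^ (3 * N) := by
        gcongr
    _ = 8000 * (4 * d ^ 2) ^ (4 * N) := by
        rw [show 4 * N = N + 3 * N by ring, pow_add]; ring
    _ ≤ 10 ^ 4 * (4 * d ^ 2) ^ (4 * N) := Nat.mul_le_mul_right _ (by norm_num)
    _ = _ := by
        rw [show 4 * d ^ 2 = (2 * d) ^ 2 by ring, ← pow_mul, show 2 * (4 * N) = 8 * N by ring]

lemma sq_le_two_mul_factorial {m : ℕ} : m ^ 2 ≤ 2 * m.factorial := by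
  induction m with
  | zero => simp
  | succ n ih =>
    rw [Nat.factorial_succ]
    rcases Nat.lt_or_ge n 3 with h | h
    · interval_cases n <;> simp [Nat.factorial]
    · have h1 : n ≤ 2 * n.factorial := le_trans (by nlinarith) ih
      have h2 : 1 ≤ n := by omega
      have h3 : (n + 1) ≤ 2 * n.factorial := by nlinarith
      nlinarith

/-- constant of the anchor for split families -/
lemma cAnc_le {m r d : ℕ} (hm : 1 ≤ m) (hr : 1 ≤ r) (hrN : r ≤ m.factorial) {a : ℤ}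
    (hd : 1 ≤ d) (ha : (m.factorial : ℝ) * d * 2 ≤ |(a : ℝ)|) :
    cAnc r d (|(a : ℝ)| ^ (2 * m ^ 2)) (|(a : ℝ)| ^ (2 * m.factorial + 1)) a
      ≤ |(a : ℝ)| ^ (14 * m.factorial ^ 2) := by
  unfold cAnc
  obtain ⟨N, hN⟩ : ∃ N, N = m.factorial := ⟨_, rfl⟩
  obtain ⟨A, hA⟩ : ∃ A, A = |(a : ℝ)| := ⟨_, rfl⟩
  have hmN : m ^ 2 ≤ 2 * m.factorial := sq_le_two_mul_factorial
  rw [← hN] at hrN ha hmN ⊢
  rw [← hA] at ha ⊢
  have hN1 : 1 ≤ N := hr.trans hrN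
  have hN1' : (1 : ℝ) ≤ N := by exact_mod_cast hN1
  have hd1' : (1 : ℝ) ≤ d := by exact_mod_cast hd
  have hNd : (1 : ℝ) ≤ N * d := one_le_mul_of_one_le_of_one_le hN1' hd1'
  have hA2 : 2 ≤ A := by linarith
  have hA1 : 1 ≤ A := by linarith
  have h1 : 1 + A ^ (2 * N + 1) ≤ A ^ (2 * N + 2) := by
    have e1 : 1 ≤ A ^ (2 * N + 1) := one_le_pow₀ hA1
    calc 1 + A ^ (2 * N + 1) ≤ A ^ (2 * N + 1) * 2 := by linarith
      _ ≤ A ^ (2 * N + 1) * A := by gcongr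
      _ = _ := by ring
  have h2 : (r : ℝ) * d ≤ A := by
    have : (r : ℝ) ≤ N := by exact_mod_cast hrN
    calc (r : ℝ) * d ≤ N * d := by gcongr
      _ ≤ A := by linarith
  calc A * (r * d * A ^ (2 * m ^ 2) * (1 + A ^ (2 * N + 1)) ^ (2 * r))
      ≤ A * (A * A ^ (2 * m ^ 2) * (A ^ (2 * N + 2)) ^ (2 * r)) := by gcongr
    _ = A ^ (2 + 2 * m ^ 2 + (2 * N + 2) * (2 * r)) := by rw [← pow_mul]; ring
    _ ≤ A ^ (14 * N ^ 2) := by
      apply pow_le_pow_right₀ hA1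
      have e1 : (2 * N + 2) * (2 * r) ≤ (2 * N + 2) * (2 * N) := by gcongr
      nlinarith

/-- the field generated by the real roots of `f(a, Y)` -/
noncomputable def Kf (f : ℤ[X][X]) (a : ℤ) : IntermediateField ℚ ℝ :=
  IntermediateField.adjoin ℚ {β : ℝ | evf β (f.map (evf a)) = 0}

lemma Br.KG_eq {m : ℕ} {f : ℤ[X][X]} {B h : ℝ} {ρ : Fin m → ℤ} {δ : ℤ} {ω u : Fin m → PowerSeries ℤ}
    (P : Br m f B h ρ δ ω u) {a : ℤ} (ha : B ^ 2 ≤ |(a : ℝ)|) : KG δ a ω = Kf f a := by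
  have h1 := P.split_at ha
  have h2 : Set.range (βG δ a ω) = {β : ℝ | evf β (f.map (evf a)) = 0} := by
    ext β
    have h3 : evf β (f.map (evf a)) = ((f.map (evf a)).map (Int.castRingHom ℝ)).eval β := by
      rw [eval_map, evf, coe_eval₂RingHom]
    rw [Set.mem_setOf_eq, h3, h1, eval_prod, Finset.prod_eq_zero_iff]
    constructor
    · rintro ⟨i, rfl⟩
      exact ⟨i, Finset.mem_univ i, by simp⟩
    · rintro ⟨i, _, hi⟩
      refine ⟨i, ?_⟩
      rw [eval_sub, eval_X, eval_C] at hi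
      linarith
  rw [KG, Kf, h2]

lemma factorial_le_two_pow (m : ℕ) : m.factorial ≤ 2 ^ (m ^ 2) := by
  calc m.factorial ≤ m ^ m := Nat.factorial_le_pow m
    _ ≤ (2 ^ m) ^ m := Nat.pow_le_pow_left (Nat.lt_two_pow_self).le m
    _ = _ := by rw [← pow_mul, pow_two]

theorem effS {m d : ℕ} (hm : 1 ≤ m) (hd : 3 ≤ d) {f : ℤ[X][X]} (hf : f.Monic)
    (hfd : f.natDegree = m) (hT : TD m f) {ρ : Fin m → ℤ} (hρ : Function.Injective ρ)
    (hlead : lead m f = ∏ i, (X - C (ρ i))) {h : ℝ} (hh : 1 ≤ h) (hfh : pn (pn zn) f ≤ h)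
    {a : ℤ} (ha : (cGB m h) ^ (kapS m d) ≤ |(a : ℝ)|) (L₂ : IntermediateField ℚ ℝ)
    (hL₂ : 3 ≤ Module.finrank ℚ ↥(L₂ ⊓ Kf f a)) :
    EffG d (2 * kapS m d) (|(a : ℝ)| ^ (14 * m.factorial ^ 2)) L₂ := by
  obtain ⟨δ, ω, u, hδ, hsp, hbζ, hω, hu, hρh⟩ := int_branches hm hf hfd hT hρ hlead hh hfh
  obtain ⟨B, hB⟩ : ∃ B, B = cGB m h := ⟨_, rfl⟩
  rw [← hB] at hbζ hu ha
  have h2h : 2 ≤ 2 * h := by linarith
  have h2h1 : 1 ≤ 2 * h := by linarith
  have hm1 : (1 : ℝ) ≤ m := by exact_mod_cast hm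
  obtain ⟨N, hN⟩ : ∃ N, N = m.factorial := ⟨_, rfl⟩
  have hN1 : 1 ≤ N := by rw [hN]; exact Nat.factorial_pos m
  have hm2 : 4 ≤ (m + 1) ^ 2 := by nlinarith
  -- sizes of `B`
  have hBe : B = (2 * h) ^ 2 * (2 * h) ^ (8 * (m + 1) ^ 2 - 2) := by
    rw [hB, cGB, ← pow_add]
    congr 1
    omega
  have hB1 : 2 ^ (m ^ 2 + 1) ≤ (2 * h) ^ (8 * (m + 1) ^ 2 - 2) := by
    calc (2 : ℝ) ^ (m ^ 2 + 1) ≤ 2 ^ (8 * (m + 1) ^ 2 - 2) := by
          apply pow_le_pow_right₀ (by norm_num)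
          have : m ^ 2 + 1 + 2 ≤ 8 * (m + 1) ^ 2 := by nlinarith
          omega
      _ ≤ _ := pow_le_pow_left₀ (by norm_num) h2h _
  have hNp : (N : ℝ) + 1 ≤ 2 ^ (m ^ 2 + 1) := by
    have h1 := factorial_le_two_pow m
    rw [← hN] at h1
    have h2 : (N : ℝ) ≤ 2 ^ (m ^ 2) := by exact_mod_cast h1
    have h3 : (1 : ℝ) ≤ 2 ^ (m ^ 2) := one_le_pow₀ (by norm_num)
    rw [pow_succ]
    linarith
  have h4h : 4 ≤ (2 * h) ^ 2 := by nlinarith
  have hX1 : (1 : ℝ) ≤ (2 * h) ^ (8 * (m + 1) ^ 2 - 2) := one_le_pow₀ h2h1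
  have hB4 : 4 ≤ B := by rw [hBe]; nlinarith
  have hBm : 4 * m * h ^ 2 ≤ B := by
    rw [hBe]
    have h5 : (m : ℝ) ≤ (2 * h) ^ (8 * (m + 1) ^ 2 - 2) := by
      refine le_trans ?_ hB1
      have h6 : (m : ℝ) ≤ 2 ^ m := by exact_mod_cast (Nat.lt_two_pow_self (n := m)).le
      refine h6.trans (pow_le_pow_right₀ (by norm_num) (by nlinarith))
    calc 4 * m * h ^ 2 = (2 * h) ^ 2 * m := by ring
      _ ≤ _ := mul_le_mul_of_nonneg_left h5 (by positivity)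
  have hBN : (m.factorial : ℝ) + 1 ≤ B := by
    rw [← hN, hBe]
    refine (hNp.trans hB1).trans ?_
    exact le_mul_of_one_le_left (by positivity) (by linarith)
  have P : Br m f B h ρ δ ω u := ⟨hm, hf, hfd, hT, hρ, hB4, hh, hδ, hsp, hbζ, hω, hu, hρh⟩
  have hk2 : 2 ≤ kapS m d := by
    unfold kapS
    have : 1 ≤ (2 * d) ^ (8 * m.factorial) := Nat.one_le_pow _ _ (by omega)
    omega
  have hB1' : 1 ≤ B := by linarith
  have ha2 : B ^ 2 ≤ |(a : ℝ)| := (pow_le_pow_right₀ hB1' hk2).trans ha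
  obtain ⟨F₁, c, G⟩ := P.anchor ha2 hBm hBN hfh
  obtain ⟨hg, hgd⟩ := P.g_monic (a := a)
  obtain ⟨hfin, -, -⟩ := Pool.Agent.W571.ESG.main_roots m (f.map (evf a)) (βG δ a ω) hg hgd
    (P.split_at ha2)
  have hnf : NumberField ↥(KG δ a ω) :=
    { to_charZero := inferInstance, to_finiteDimensional := hfin }
  obtain ⟨S, hS⟩ := P.gen ha2 hBm
  obtain ⟨P1⟩ := G.ap
  have hkS := kapG_le_S (m := m) G.pos G.le hd
  have hA1 : 1 ≤ |(a : ℝ)| := (one_le_pow₀ hB1').trans ha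
  have hFx : ∀ j, (F₁.coeff j).natDegree ≤ F₁.natDegree := fun j =>
    (G.td.2 j).trans (Nat.sub_le _ _)
  have hmain := anchor_eff (d := d) G.pos hd G.fin (one_le_pow₀ hA1) hS P1 G.monic rfl G.prime hFx
    ((pow_le_pow_right₀ hB1' hkS).trans ha) L₂ (by rw [P.KG_eq ha2]; exact hL₂)
  have haNd : (m.factorial : ℝ) * d * 2 ≤ |(a : ℝ)| := by
    have hd' : (d : ℝ) ≤ 4 ^ d := by
      exact_mod_cast (Nat.lt_pow_self (by norm_num : 1 < 4)).le
    have hk3 : d + 2 ≤ kapS m d := by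
      unfold kapS
      have h7 : 2 * d ≤ (2 * d) ^ (8 * m.factorial) :=
        Nat.le_self_pow (by have := Nat.factorial_pos m; omega) _
      omega
    calc (m.factorial : ℝ) * d * 2 ≤ B * 4 ^ d * B := by
          have : (m.factorial : ℝ) ≤ B := by linarith
          have : (2 : ℝ) ≤ B := by linarith
          gcongr
      _ ≤ B * B ^ d * B := by gcongr
      _ = B ^ (d + 2) := by ring
      _ ≤ B ^ (kapS m d) := pow_le_pow_right₀ hB1' hk3
      _ ≤ _ := ha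
  have hW1 : 0 ≤ |(a : ℝ)| ^ (2 * m.factorial + 1) := by positivity
  refine hmain.mono ?_ (cAnc_le hm G.pos G.le (by omega) haNd) (one_le_pow₀ hA1) (by omega)
  unfold cAnc
  positivity

end Pool.Agent.W257
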