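import Pool.Agent.W257.G5
import Pool.Agent.H322R2.AFin3

/-!
Effective bounds for split families: final assembly.
-/

open Polynomial Finset NumberField IntermediateField

namespace Pool.Agent.W257

open Pool.Agent.H322R2

section Fam

variable {m : ℕ} {P : MvPolynomial (Fin 2) ℤ} {ρ : Fin m → ℤ}

lemma shE_zero (P : MvPolynomial (Fin 2) ℤ) : shE ℤ ((0 : ℕ) : ℤ) P = P := by
  rw [shE_apply]
  have h : (![MvPolynomial.X 0, MvPolynomial.X 1 + MvPolynomial.C ((0 : ℕ) : ℤ) * MvPolynomial.X 0] :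
      Fin 2 → MvPolynomial (Fin 2) ℤ) = MvPolynomial.X := by
    funext i
    fin_cases i
    · rfl
    · simp
  rw [h]
  exact MvPolynomial.aeval_X_left_apply P

lemma F2_zero (P : MvPolynomial (Fin 2) ℤ) : F2 P 0 = toB ℤ P := by
  rw [F2, shE_zero]

lemma isHom_split (ρ : Fin m → ℤ) : (∏ i, (MvPolynomial.X 0 - MvPolynomial.C (ρ i) *
    MvPolynomial.X 1) : MvPolynomial (Fin 2) ℤ).IsHomogeneous m := by
  have h1 : ∀ i ∈ (univ : Finset (Fin m)), (MvPolynomial.X 0 - MvPolynomial.C (ρ i) *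
      MvPolynomial.X 1 : MvPolynomial (Fin 2) ℤ).IsHomogeneous 1 := by
    intro i _
    apply MvPolynomial.IsHomogeneous.sub (MvPolynomial.isHomogeneous_X _ _)
    have := (MvPolynomial.isHomogeneous_C (Fin 2) (ρ i)).mul
      (MvPolynomial.isHomogeneous_X ℤ (1 : Fin 2))
    simpa using this
  have h2 := MvPolynomial.IsHomogeneous.prod univ _ _ h1
  simpa using h2

variable (hPd : P.totalDegree = m)
  (hP : MvPolynomial.homogeneousComponent m P
    = ∏ i, (MvPolynomial.X 0 - MvPolynomial.C (ρ i) * MvPolynomial.X 1))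

include hPd hP

lemma fam_lc : lc P 0 = 1 := by
  rw [lc, hPd, hP, map_prod]
  apply Finset.prod_eq_one
  intro i _
  simp

lemma fam_monic : (toB ℤ P).Monic := by
  have h0 : lc P 0 ≠ 0 := by rw [fam_lc hPd hP]; norm_num
  have := F2_leadingCoeff h0
  rw [F2_zero, fam_lc hPd hP, map_one] at this
  exact this

lemma fam_natDegree : (toB ℤ P).natDegree = m := by
  have h0 : lc P 0 ≠ 0 := by rw [fam_lc hPd hP]; norm_num
  have := F2_natDegree h0
  rwa [F2_zero, hPd] at this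

omit hP in
lemma fam_TD : TD m (toB ℤ P) := by
  have := TD_toB ((0 : ℕ) : ℤ) P
  rwa [shE_zero, hPd] at this

lemma fam_lead : lead m (toB ℤ P) = ∏ i, (X - C (ρ i)) := by
  have h1 := homogenize_lead ((0 : ℕ) : ℤ) P
  rw [shE_zero, shE_zero, hPd, hP] at h1
  have h2 : (lead m (toB ℤ P)).natDegree ≤ m := by
    rw [natDegree_le_iff_coeff_eq_zero]
    intro j hj
    rw [coeff_lead, if_neg (by omega)]
  have h3 := aeval_homogenize_X_one (lead m (toB ℤ P)) h2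
  rw [← h3, h1, map_prod]
  apply Finset.prod_congr rfl
  intro i _
  simp

end Fam

lemma Kf_eq (P : MvPolynomial (Fin 2) ℤ) (a : ℤ) : Kf (toB ℤ P) a
    = IntermediateField.adjoin ℚ {β : ℝ | MvPolynomial.aeval ![β, (a : ℝ)] P = 0} := by
  rw [Kf]
  congr 1
  ext β
  have h1 : evf β ((toB ℤ P).map (evf a)) = MvPolynomial.aeval ![β, (a : ℝ)] P := by
    have h2 := ev_toB β (a : ℝ) P
    rw [MvPolynomial.aeval_def]
    have h3 : (algebraMap ℤ ℝ) = Int.castRingHom ℝ := rfl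
    rw [h3, ← h2, ev_apply, evf, coe_eval₂RingHom, eval₂_map]
    congr 1
    ext x
    · simp
    · simp
  show evf β ((toB ℤ P).map (evf a)) = 0 ↔ _
  rw [h1]
  rfl

/-- final exponent -/
def kS (m d : ℕ) : ℕ := 10 ^ 10 * (2 * d) ^ (9 * m.factorial + 9)

lemma kS_ge {m d : ℕ} (hd : 3 ≤ d) :
    14 * m.factorial ^ 2 * ((d ^ 2 + 1) * (eM d (2 * kapS m d) + 1)) ≤ kS m d := by
  obtain ⟨N, hN⟩ : ∃ N, N = m.factorial := ⟨_, rfl⟩
  have hN1 : 1 ≤ N := by rw [hN]; exact Nat.factorial_pos m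
  unfold kS kapS eM
  rw [← hN]
  obtain ⟨Q, hQ⟩ : ∃ Q, Q = (2 * d) ^ (8 * N) := ⟨_, rfl⟩
  rw [← hQ]
  have hQ1 : 1 ≤ Q := by rw [hQ]; exact Nat.one_le_pow _ _ (by omega)
  have h1 : d ^ 2 + 1 ≤ (d + 1) ^ 2 := by nlinarith
  have h2 : N ^ 2 ≤ (2 * d) ^ N := by
    have h3 : N ≤ 2 ^ N := (Nat.lt_two_pow_self).le
    calc N ^ 2 ≤ (2 ^ N) ^ 2 := Nat.pow_le_pow_left h3 2
      _ = 4 ^ N := by rw [← pow_mul, mul_comm, pow_mul]; norm_num
      _ ≤ (2 * d) ^ N := Nat.pow_le_pow_left (by omega) N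
  have h4 : 10 ^ 4 * (d + 1) ^ 7 * (2 * (10 ^ 4 * Q)) + 1 ≤ 4 * 10 ^ 8 * (d + 1) ^ 7 * Q := by
    have h5 : 1 ≤ (d + 1) ^ 7 * Q := Nat.mul_pos (Nat.pow_pos (by omega)) hQ1
    obtain ⟨Z, hZ⟩ : ∃ Z, Z = (d + 1) ^ 7 * Q := ⟨_, rfl⟩
    have e1 : 10 ^ 4 * (d + 1) ^ 7 * (2 * (10 ^ 4 * Q)) = 2 * 10 ^ 8 * Z := by rw [hZ]; ring
    have e2 : 4 * 10 ^ 8 * (d + 1) ^ 7 * Q = 4 * 10 ^ 8 * Z := by rw [hZ]; ring
    rw [e1, e2]
    rw [← hZ] at h5
    omega
  calc 14 * N ^ 2 * ((d ^ 2 + 1) * (10 ^ 4 * (d + 1) ^ 7 * (2 * (10 ^ 4 * Q)) + 1))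
      ≤ 14 * (2 * d) ^ N * ((d + 1) ^ 2 * (4 * 10 ^ 8 * (d + 1) ^ 7 * Q)) := by gcongr
    _ = 56 * 10 ^ 8 * ((2 * d) ^ N * (d + 1) ^ 9 * Q) := by ring
    _ ≤ 10 ^ 10 * ((2 * d) ^ N * (2 * d) ^ 9 * Q) := by
        apply Nat.mul_le_mul (by norm_num)
        gcongr
        omega
    _ = _ := by
        rw [hQ, ← pow_add, ← pow_add]
        congr 2
        ring

/-- the threshold -/
def thrS (m d l : ℕ) : ℕ := (2 * l) ^ (10 ^ 5 * (m + 1) ^ 2 * (2 * d) ^ (8 * m.factorial))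

/-- Effective bounds for all plane curves whose real slopes of full degree meet the field generated
by the roots of `P(Y, a)` in degree at least three. -/
theorem main_split {m d : ℕ} (hm : 1 ≤ m) (hd : 3 ≤ d) {P : MvPolynomial (Fin 2) ℤ}
    {ρ : Fin m → ℤ} (hρ : Function.Injective ρ) (hPd : P.totalDegree = m)
    (hP : MvPolynomial.homogeneousComponent m P
      = ∏ i, (MvPolynomial.X 0 - MvPolynomial.C (ρ i) * MvPolynomial.X 1))
    {a : ℤ} (ha : thrS m d (len P) ≤ a.natAbs) (F : MvPolynomial (Fin 2) ℤ)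
    (hFd : F.totalDegree = d)
    (hirr : Irreducible (MvPolynomial.map (Int.castRingHom ℚ) F))
    (hsq : Squarefree (MvPolynomial.map (Int.castRingHom ℚ)
        (MvPolynomial.homogeneousComponent d F)))
    (hS : ∀ t : ℝ, MvPolynomial.aeval ![1, t] (MvPolynomial.homogeneousComponent d F) = 0 →
      Module.finrank ℚ ℚ⟮t⟯ = d → 3 ≤ Module.finrank ℚ ↥(ℚ⟮t⟯ ⊓ IntermediateField.adjoin ℚ
        {β : ℝ | MvPolynomial.aeval ![β, (a : ℝ)] P = 0}))
    (x y : ℤ) (hxy : MvPolynomial.eval ![x, y] F = 0) :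
    x.natAbs ≤ (a.natAbs * ((d + 1) * len F)) ^ kS m d ∧
      y.natAbs ≤ (a.natAbs * ((d + 1) * len F)) ^ kS m d := by
  have hP0 : P ≠ 0 := by
    rintro rfl
    simp at hPd
    omega
  have hlP : 1 ≤ len P := len_pos hP0
  have hlP' : (1 : ℝ) ≤ len P := by exact_mod_cast hlP
  have hpn : pn (pn zn) (toB ℤ P) ≤ len P := by
    have := pn_toB_le 0 P
    rw [shE_zero] at this
    simpa using this
  have haR : ((thrS m d (len P) : ℕ) : ℝ) ≤ |(a : ℝ)| := by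
    rw [← Int.cast_abs, ← Nat.cast_natAbs]
    exact_mod_cast ha
  have hthr : (cGB m (len P)) ^ (kapS m d) ≤ |(a : ℝ)| := by
    refine le_trans ?_ haR
    unfold cGB thrS kapS
    push_cast
    rw [← pow_mul]
    apply pow_le_pow_right₀ (by linarith)
    calc _ = 80000 * ((m + 1) ^ 2 * (2 * d) ^ (8 * m.factorial)) := by ring
      _ ≤ 100000 * ((m + 1) ^ 2 * (2 * d) ^ (8 * m.factorial)) :=
          Nat.mul_le_mul_right _ (by norm_num)
      _ = _ := by ring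
  have ha1 : 1 ≤ a.natAbs := by
    refine le_trans ?_ ha
    unfold thrS
    exact Nat.one_le_pow _ _ (by omega)
  have ha1' : (1 : ℝ) ≤ |(a : ℝ)| := by
    rw [← Int.cast_abs, ← Nat.cast_natAbs]
    exact_mod_cast ha1
  have hlen : 1 ≤ len F := by
    apply len_pos
    rintro rfl
    simp at hFd
    omega
  have hK1 : 1 ≤ 2 * kapS m d := by
    unfold kapS
    have : 1 ≤ (2 * d) ^ (8 * m.factorial) := Nat.one_le_pow _ _ (by omega)
    omega
  have hmain := main1G hd (c := |(a : ℝ)| ^ (14 * m.factorial ^ 2)) (one_le_pow₀ ha1')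
    hK1 F hFd.symm hirr hsq (by
      intro t ht hfin
      apply effS hm hd (fam_monic hPd hP) (fam_natDegree hPd hP) (fam_TD hPd) hρ
        (fam_lead hPd hP) hlP' hpn hthr
      rw [Kf_eq]
      exact hS t ht hfin) x y hxy
  have key : (|(a : ℝ)| ^ (14 * m.factorial ^ 2) * (((d + 1) * len F : ℕ) : ℝ)) ^
      ((d ^ 2 + 1) * (eM d (2 * kapS m d) + 1)) ≤ (((a.natAbs * ((d + 1) * len F)) ^ kS m d : ℕ) : ℝ) := by
    obtain ⟨w, hw⟩ : ∃ w : ℝ, w = (((d + 1) * len F : ℕ) : ℝ) := ⟨_, rfl⟩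
    have hw1 : 1 ≤ w := by
      rw [hw]
      have : 0 < (d + 1) * len F := by positivity
      exact_mod_cast this
    have e1 : (((a.natAbs * ((d + 1) * len F)) ^ kS m d : ℕ) : ℝ) = (|(a : ℝ)| * w) ^ kS m d := by
      rw [hw, ← Int.cast_abs, ← Nat.cast_natAbs]; push_cast; ring
    rw [e1, ← hw]
    have haw : 1 ≤ |(a : ℝ)| * w := one_le_mul_of_one_le_of_one_le ha1' hw1
    refine le_trans ?_ (pow_le_pow_right₀ haw (kS_ge hd))
    rw [pow_mul (|(a : ℝ)| * w) (14 * m.factorial ^ 2)]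
    apply pow_le_pow_left₀ (by positivity)
    rw [mul_pow]
    apply mul_le_mul_of_nonneg_left _ (by positivity)
    apply le_self_pow₀ hw1
    have := Nat.factorial_pos m
    positivity
  constructor
  · have h3 : ((x.natAbs : ℕ) : ℝ) ≤ (((a.natAbs * ((d + 1) * len F)) ^ kS m d : ℕ) : ℝ) := by
      rw [Nat.cast_natAbs, Int.cast_abs]
      exact hmain.1.trans key
    exact_mod_cast h3
  · have h3 : ((y.natAbs : ℕ) : ℝ) ≤ (((a.natAbs * ((d + 1) * len F)) ^ kS m d : ℕ) : ℝ) := by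
      rw [Nat.cast_natAbs, Int.cast_abs]
      exact hmain.2.trans key
    exact_mod_cast h3

end Pool.Agent.W257
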