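import Pool.Agent.W257.G6

/-!
Split families `∏ (x - (ρᵢ a + sᵢ) y) + c y^m = R(x, y)`.
-/

open Polynomial Finset NumberField IntermediateField

namespace Pool.Agent.W257

open Pool.Agent.H322R2

lemma len_le_pn (F : MvPolynomial (Fin 2) ℤ) : (len F : ℝ) ≤ pn (pn zn) (toB ℤ F) := by
  classical
  obtain ⟨n, hn⟩ : ∃ n, n = F.totalDegree + 1 := ⟨_, rfl⟩
  have hTD := TD_toB ((0 : ℕ) : ℤ) F
  rw [shE_zero] at hTD
  have h1 : pn (pn zn) (toB ℤ F) = ∑ p ∈ range n ×ˢ range n,
      zn (((toB ℤ F).coeff p.1).coeff p.2) := by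
    rw [pn_eq_range (pn zn) (toB ℤ F) (n := n) (by have := hTD.1; omega), Finset.sum_product]
    apply Finset.sum_congr rfl
    intro j _
    rw [pn_eq_range zn _ (n := n) (by have := hTD.2 j; omega)]
  rw [h1, len]
  push_cast
  have hinj : Set.InjOn (fun m : Fin 2 →₀ ℕ => (m 0, m 1)) F.support := by
    intro m _ m' _ hmm
    simp only [Prod.mk.injEq] at hmm
    ext i
    fin_cases i
    · exact hmm.1
    · exact hmm.2
  have h2 : ∑ m ∈ F.support, (((F.coeff m).natAbs : ℕ) : ℝ)
      = ∑ p ∈ F.support.image (fun m : Fin 2 →₀ ℕ => (m 0, m 1)),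
          zn (((toB ℤ F).coeff p.1).coeff p.2) := by
    rw [Finset.sum_image hinj]
    apply Finset.sum_congr rfl
    intro m _
    rw [coeff_toB, zn_apply, Nat.cast_natAbs, Int.cast_abs]
  rw [h2]
  apply Finset.sum_le_sum_of_subset_of_nonneg
  · intro p hp
    rw [Finset.mem_image] at hp
    obtain ⟨m, hm, rfl⟩ := hp
    have h3 := MvPolynomial.le_totalDegree hm
    have h4 : (m.sum fun _ e => e) = m 0 + m 1 := by
      rw [← degree_fin2]; rfl
    rw [Finset.mem_product, Finset.mem_range, Finset.mem_range]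
    constructor <;> omega
  · intro p _ _
    exact apply_nonneg _ _

lemma pn_le_len (F : MvPolynomial (Fin 2) ℤ) : pn (pn zn) (toB ℤ F) ≤ (len F : ℝ) := by
  have := pn_toB_le 0 F
  rw [shE_zero] at this
  simpa using this

lemma len_mul_le (F G : MvPolynomial (Fin 2) ℤ) : len (F * G) ≤ len F * len G := by
  have h1 : (len (F * G) : ℝ) ≤ len F * len G := by
    refine (len_le_pn _).trans ?_
    rw [map_mul]
    refine (map_mul_le_mul _ _ _).trans ?_
    exact mul_le_mul (pn_le_len F) (pn_le_len G) (apply_nonneg _ _) (Nat.cast_nonneg _)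
  exact_mod_cast h1

lemma len_C (c : ℤ) : len (MvPolynomial.C c) ≤ c.natAbs := by
  have h1 : (len (MvPolynomial.C c) : ℝ) ≤ c.natAbs := by
    refine (len_le_pn _).trans ?_
    rw [toB_C, pn_C, pn_C, zn_apply, Nat.cast_natAbs, Int.cast_abs]
  exact_mod_cast h1

lemma len_X0 : len (MvPolynomial.X 0) ≤ 1 := by
  have h1 : (len (MvPolynomial.X 0) : ℝ) ≤ 1 := by
    refine (len_le_pn _).trans ?_
    rw [toB_X0, pn_X]
    exact pnz_one
  exact_mod_cast h1

lemma len_X1 : len (MvPolynomial.X 1) ≤ 1 := by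
  have h1 : (len (MvPolynomial.X 1) : ℝ) ≤ 1 := by
    refine (len_le_pn _).trans ?_
    rw [toB_X1, pn_C, pn_X]
    exact zn_one
  exact_mod_cast h1

lemma len_neg (F : MvPolynomial (Fin 2) ℤ) : len (-F) = len F := by
  unfold len
  rw [MvPolynomial.support_neg]
  apply Finset.sum_congr rfl
  intro n _
  rw [MvPolynomial.coeff_neg, Int.natAbs_neg]

lemma len_sub_le (F G : MvPolynomial (Fin 2) ℤ) : len (F - G) ≤ len F + len G := by
  rw [sub_eq_add_neg]
  refine (len_add_le _ _).trans ?_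
  rw [len_neg]

lemma len_prod_le {ι : Type} (s : Finset ι) (f : ι → MvPolynomial (Fin 2) ℤ) (b : ι → ℕ)
    (h : ∀ i ∈ s, len (f i) ≤ b i) : len (∏ i ∈ s, f i) ≤ ∏ i ∈ s, b i := by
  classical
  induction s using Finset.induction_on with
  | empty =>
    rw [Finset.prod_empty, Finset.prod_empty]
    have := len_C 1
    simpa using this
  | insert i s hi ih =>
    rw [Finset.prod_insert hi, Finset.prod_insert hi]
    refine (len_mul_le _ _).trans ?_
    exact Nat.mul_le_mul (h i (Finset.mem_insert_self i s))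
      (ih (fun j hj => h j (Finset.mem_insert_of_mem hj)))

lemma len_pow_le (F : MvPolynomial (Fin 2) ℤ) (n b : ℕ) (h : len F ≤ b) : len (F ^ n) ≤ b ^ n := by
  have := len_prod_le (Finset.range n) (fun _ => F) (fun _ => b) (fun _ _ => h)
  simpa using this

/-- products of affine forms with the given slopes -/
lemma totalDegree_prod_sub {ι : Type} (t : Finset ι) (L : ι → MvPolynomial (Fin 2) ℤ) (s : ι → ℤ)
    (hL : ∀ i, (L i).IsHomogeneous 1) :
    (∏ i ∈ t, (L i - MvPolynomial.C (s i)) - ∏ i ∈ t, L i).totalDegree < t.card ∨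
      (∏ i ∈ t, (L i - MvPolynomial.C (s i)) - ∏ i ∈ t, L i) = 0 := by
  classical
  induction t using Finset.induction_on with
  | empty => right; simp
  | insert i t hi ih =>
    left
    rw [Finset.prod_insert hi, Finset.prod_insert hi, Finset.card_insert_of_notMem hi]
    obtain ⟨A, hA⟩ : ∃ A, A = ∏ i ∈ t, (L i - MvPolynomial.C (s i)) := ⟨_, rfl⟩
    obtain ⟨B, hB⟩ : ∃ B, B = ∏ i ∈ t, L i := ⟨_, rfl⟩
    rw [← hA, ← hB] at ih ⊢
    have e1 : (L i - MvPolynomial.C (s i)) * A - L i * B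
        = L i * (A - B) - MvPolynomial.C (s i) * A := by ring
    rw [e1]
    have hAd : A.totalDegree ≤ t.card := by
      rw [hA]
      refine (MvPolynomial.totalDegree_finset_prod _ _).trans ?_
      refine (Finset.sum_le_sum (g := fun _ => 1) (fun j _ => ?_)).trans ?_
      · refine (MvPolynomial.totalDegree_sub _ _).trans (max_le (hL j).totalDegree_le ?_)
        rw [MvPolynomial.totalDegree_C]
        omega
      · simp
    have h1 : (MvPolynomial.C (s i) * A).totalDegree < t.card + 1 := by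
      refine lt_of_le_of_lt (MvPolynomial.totalDegree_mul _ _) ?_
      rw [MvPolynomial.totalDegree_C]
      omega
    have h2 : (L i * (A - B)).totalDegree < t.card + 1 := by
      rcases ih with ih | ih
      · refine lt_of_le_of_lt (MvPolynomial.totalDegree_mul _ _) ?_
        have := (hL i).totalDegree_le
        omega
      · rw [ih, mul_zero, MvPolynomial.totalDegree_zero]
        omega
    exact lt_of_le_of_lt (MvPolynomial.totalDegree_sub _ _) (max_lt h2 h1)

section

variable {m : ℕ} (ρ s : Fin m → ℤ) (c : ℤ)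

/-- the polynomial of the family -/
noncomputable def Pfam : MvPolynomial (Fin 2) ℤ :=
  ∏ i, (MvPolynomial.X 0 - MvPolynomial.C (ρ i) * MvPolynomial.X 1 - MvPolynomial.C (s i))
    + MvPolynomial.C c

lemma isHom_lin (r : ℤ) : (MvPolynomial.X 0 - MvPolynomial.C r *
    MvPolynomial.X 1 : MvPolynomial (Fin 2) ℤ).IsHomogeneous 1 := by
  apply MvPolynomial.IsHomogeneous.sub (MvPolynomial.isHomogeneous_X _ _)
  have := (MvPolynomial.isHomogeneous_C (Fin 2) r).mul
    (MvPolynomial.isHomogeneous_X ℤ (1 : Fin 2))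
  simpa using this

lemma Pfam_sub (hm : 1 ≤ m) : (Pfam ρ s c
    - ∏ i, (MvPolynomial.X 0 - MvPolynomial.C (ρ i) * MvPolynomial.X 1)).totalDegree < m := by
  unfold Pfam
  rw [add_sub_right_comm]
  refine lt_of_le_of_lt (MvPolynomial.totalDegree_add _ _) (max_lt ?_ ?_)
  · have h1 := totalDegree_prod_sub (univ : Finset (Fin m))
      (fun i => MvPolynomial.X 0 - MvPolynomial.C (ρ i) * MvPolynomial.X 1) s
      (fun i => isHom_lin (ρ i))
    rcases h1 with h1 | h1
    · simpa using h1
    · rw [h1, MvPolynomial.totalDegree_zero]; omega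
  · rw [MvPolynomial.totalDegree_C]; omega

lemma Pfam_comp (hm : 1 ≤ m) : MvPolynomial.homogeneousComponent m (Pfam ρ s c)
    = ∏ i, (MvPolynomial.X 0 - MvPolynomial.C (ρ i) * MvPolynomial.X 1) := by
  have h1 := MvPolynomial.homogeneousComponent_eq_zero _ _ (Pfam_sub ρ s c hm)
  rw [map_sub, sub_eq_zero] at h1
  rw [h1, MvPolynomial.homogeneousComponent_of_mem
    ((MvPolynomial.mem_homogeneousSubmodule m _).2 (isHom_split ρ)), if_pos rfl]

lemma Pfam_deg (hm : 1 ≤ m) : (Pfam ρ s c).totalDegree = m := by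
  apply le_antisymm
  · have e1 : Pfam ρ s c = (Pfam ρ s c
      - ∏ i, (MvPolynomial.X 0 - MvPolynomial.C (ρ i) * MvPolynomial.X 1))
      + ∏ i, (MvPolynomial.X 0 - MvPolynomial.C (ρ i) * MvPolynomial.X 1) := by ring
    rw [e1]
    refine (MvPolynomial.totalDegree_add _ _).trans (max_le (Pfam_sub ρ s c hm).le ?_)
    exact (isHom_split ρ).totalDegree_le
  · by_contra hcon
    push_neg at hcon
    have h1 := Pfam_comp ρ s c hm
    rw [MvPolynomial.homogeneousComponent_eq_zero _ _ hcon] at h1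
    have h2 := congrArg (MvPolynomial.eval ![1, 0]) h1
    rw [map_zero, map_prod] at h2
    rw [Finset.prod_eq_one] at h2
    · exact zero_ne_one h2
    · intro i _
      simp

lemma len_Pfam : len (Pfam ρ s c) ≤ ∏ i, (1 + (ρ i).natAbs + (s i).natAbs) + c.natAbs := by
  unfold Pfam
  refine (len_add_le _ _).trans ?_
  apply Nat.add_le_add _ (len_C c)
  apply len_prod_le
  intro i _
  refine (len_sub_le _ _).trans (Nat.add_le_add ?_ (len_C _))
  refine (len_sub_le _ _).trans (Nat.add_le_add len_X0 ?_)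
  refine (len_mul_le _ _).trans ?_
  calc _ ≤ (ρ i).natAbs * 1 := Nat.mul_le_mul (len_C _) len_X1
    _ = _ := mul_one _

end

lemma split_irr {m : ℕ} (hm : 2 ≤ m) (b : Fin m → ℤ) {c : ℤ} (hc : c ≠ 0)
    (hb : ∀ i j, i ≠ j → 2 * |c| < |b i - b j|) :
    (∏ i, (X - C (b i)) + C c : ℤ[X]).Monic ∧ (∏ i, (X - C (b i)) + C c : ℤ[X]).natDegree = m ∧
      Irreducible (∏ i, (X - C (b i)) + C c : ℤ[X]) := by
  obtain ⟨p, hp⟩ : ∃ p : ℤ[X], p = ∏ i, (X - C (b i)) := ⟨_, rfl⟩
  have hpm : p.Monic := by rw [hp]; exact monic_prod_of_monic _ _ (fun i _ => monic_X_sub_C _)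
  have hpd : p.natDegree = m := by
    rw [hp, natDegree_prod_of_monic _ _ (fun i _ => monic_X_sub_C _),
      Finset.sum_congr rfl (fun i _ => natDegree_X_sub_C (b i))]
    simp
  rw [← hp]
  have hlt : (C c : ℤ[X]).degree < p.degree := by
    refine lt_of_le_of_lt degree_C_le ?_
    rw [degree_eq_natDegree hpm.ne_zero, hpd]
    exact_mod_cast (by omega : 0 < m)
  have hqm : (p + C c).Monic := hpm.add_of_left hlt
  have hqd : (p + C c).natDegree = m := by
    rw [natDegree_add_eq_left_of_degree_lt hlt, hpd]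
  refine ⟨hqm, hqd, ?_⟩
  rw [hqm.irreducible_iff_lt_natDegree_lt (by
    intro h1
    rw [h1, natDegree_one] at hqd
    omega)]
  intro g hg hgd hdvd
  rw [hqd, Finset.mem_Ioc] at hgd
  have hroot : ∀ i, (p + C c).eval (b i) = c := by
    intro i
    rw [eval_add, eval_C, hp, eval_prod, Finset.prod_eq_zero (Finset.mem_univ i) (by simp), zero_add]
  have hdiv : ∀ i, |g.eval (b i)| ≤ |c| := by
    intro i
    obtain ⟨k, hk⟩ := hdvd
    have h1 := hroot i
    rw [hk, eval_mul] at h1
    exact Int.le_of_dvd (abs_pos.2 hc) ((abs_dvd_abs _ _).2 ⟨_, h1.symm⟩)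
  have i0 : Fin m := ⟨0, by omega⟩
  have heq : ∀ i, g.eval (b i) = g.eval (b i0) := by
    intro i
    by_cases hi : i = i0
    · rw [hi]
    · have h1 : b i - b i0 ∣ g.eval (b i) - g.eval (b i0) := sub_dvd_eval_sub _ _ _
      have h2 : |g.eval (b i) - g.eval (b i0)| < |b i - b i0| := by
        refine lt_of_le_of_lt (abs_sub _ _) ?_
        have := hb i i0 hi
        have h3 := hdiv i
        have h4 := hdiv i0
        linarith
      have h3 := Int.eq_zero_of_abs_lt_dvd ((abs_dvd _ _).2 h1) h2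
      linarith
  have hinj : Function.Injective b := by
    intro i j hij
    by_contra hne
    have := hb i j hne
    rw [hij, sub_self, abs_zero] at this
    have := abs_nonneg c
    linarith
  have h0 : g - C (g.eval (b i0)) = 0 := by
    apply Polynomial.eq_zero_of_natDegree_lt_card_of_eval_eq_zero' _ (univ.image b)
    · intro x hx
      obtain ⟨i, _, rfl⟩ := Finset.mem_image.1 hx
      rw [eval_sub, eval_C, heq i, sub_self]
    · rw [Finset.card_image_of_injective _ hinj, Finset.card_univ, Fintype.card_fin,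
        natDegree_sub_C]
      omega
  have h1 : g.natDegree = 0 := by
    rw [sub_eq_zero.1 h0, natDegree_C]
  omega

lemma len_homogenize_split {m : ℕ} (b : Fin m → ℤ) (c : ℤ) :
    len (∏ i, (MvPolynomial.X 0 - MvPolynomial.C (b i) * MvPolynomial.X 1)
      + MvPolynomial.C c * MvPolynomial.X 1 ^ m) ≤ ∏ i, (1 + (b i).natAbs) + c.natAbs := by
  refine (len_add_le _ _).trans (Nat.add_le_add ?_ ?_)
  · apply len_prod_le
    intro i _
    refine (len_sub_le _ _).trans (Nat.add_le_add len_X0 ?_)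
    refine (len_mul_le _ _).trans ?_
    calc _ ≤ (b i).natAbs * 1 := Nat.mul_le_mul (len_C _) len_X1
      _ = _ := mul_one _
  · refine (len_mul_le _ _).trans ?_
    calc _ ≤ c.natAbs * 1 ^ m := Nat.mul_le_mul (len_C _) (len_pow_le _ _ _ len_X1)
      _ = _ := by rw [one_pow, mul_one]

/-- Explicit bounds for the integer points on `∏ (x - (ρᵢ a + sᵢ) y) + c y^m = R(x,y)`. -/
theorem main_fam {m : ℕ} (hm : 3 ≤ m) {ρ s : Fin m → ℤ} {c a : ℤ} (hρ : Function.Injective ρ)
    (hc : c ≠ 0)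
    (ha : thrS m m (∏ i, (1 + (ρ i).natAbs + (s i).natAbs) + c.natAbs) ≤ a.natAbs)
    (R : MvPolynomial (Fin 2) ℤ) (hR : R.totalDegree < m) (x y : ℤ)
    (hxy : ∏ i, (x - (ρ i * a + s i) * y) + c * y ^ m = MvPolynomial.eval ![x, y] R) :
    x.natAbs ≤ (a.natAbs ^ (m + 2) * ((m + 1) * (1 + len R))) ^ kS m m ∧
      y.natAbs ≤ (a.natAbs ^ (m + 2) * ((m + 1) * (1 + len R))) ^ kS m m := by
  have hm0 : 0 < m := by omega
  obtain ⟨Λ, hΛ⟩ : ∃ Λ, Λ = ∏ i, (1 + (ρ i).natAbs + (s i).natAbs) + c.natAbs := ⟨_, rfl⟩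
  obtain ⟨Pr, hPr⟩ : ∃ Pr, Pr = ∏ i, (1 + (ρ i).natAbs + (s i).natAbs) := ⟨_, rfl⟩
  rw [← hΛ] at ha
  rw [← hPr] at hΛ
  have hc1 : 1 ≤ c.natAbs := by omega
  have hfac1 : ∀ i, 1 ≤ 1 + (ρ i).natAbs + (s i).natAbs := fun i => by omega
  have hle : ∀ i, 1 + (ρ i).natAbs + (s i).natAbs ≤ Pr := by
    intro i
    rw [hPr]
    exact Finset.single_le_prod' (f := fun i => 1 + (ρ i).natAbs + (s i).natAbs)
      (fun i _ => hfac1 i) (Finset.mem_univ i)
  have hPr1 : 1 ≤ Pr := (hfac1 ⟨0, by omega⟩).trans (hle _)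
  have hbig : (2 * Λ) ^ 2 ≤ a.natAbs := by
    refine le_trans ?_ ha
    unfold thrS
    apply Nat.pow_le_pow_right (by omega)
    have h1 : 1 ≤ (2 * m) ^ (8 * m.factorial) := Nat.one_le_pow _ _ (by omega)
    have h2 : 1 ≤ (m + 1) ^ 2 := Nat.one_le_pow _ _ (by omega)
    calc 2 ≤ 10 ^ 5 * 1 * 1 := by norm_num
      _ ≤ _ := Nat.mul_le_mul (Nat.mul_le_mul_left _ h2) h1
  have hbig2 : 4 * Λ < a.natAbs := by nlinarith
  obtain ⟨b, hb⟩ : ∃ b : Fin m → ℤ, b = fun i => ρ i * a + s i := ⟨_, rfl⟩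
  have hbd : ∀ i j, i ≠ j → 2 * |c| < |b i - b j| := by
    intro i j hij
    have h1 : b i - b j = (ρ i - ρ j) * a + (s i - s j) := by rw [hb]; ring
    have h2 : 1 ≤ |ρ i - ρ j| := Int.one_le_abs (sub_ne_zero.2 (fun h => hij (hρ h)))
    have h3 : |a| ≤ |(ρ i - ρ j) * a| := by
      rw [abs_mul]
      exact le_mul_of_one_le_left (abs_nonneg _) h2
    have h4 : |(ρ i - ρ j) * a| ≤ |b i - b j| + |s i - s j| := by
      have : (ρ i - ρ j) * a = (b i - b j) - (s i - s j) := by rw [h1]; ring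
      rw [this]
      exact abs_sub _ _
    have h5 : |s i - s j| ≤ |s i| + |s j| := abs_sub _ _
    have h6 := hle i
    have h7 := hle j
    rw [Int.abs_eq_natAbs] at h3
    rw [Int.abs_eq_natAbs (s i), Int.abs_eq_natAbs (s j)] at h5
    rw [Int.abs_eq_natAbs c]
    omega
  obtain ⟨hqm, hqd, hqirr⟩ := split_irr (by omega) b hc hbd
  obtain ⟨q, hq⟩ : ∃ q : ℤ[X], q = ∏ i, (X - C (b i)) + C c := ⟨_, rfl⟩
  rw [← hq] at hqm hqd hqirr
  obtain ⟨φ, hφ⟩ : ∃ φ : MvPolynomial (Fin 2) ℤ, φ = homogenize q m := ⟨_, rfl⟩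
  have hφe : φ = ∏ i, (MvPolynomial.X 0 - MvPolynomial.C (b i) * MvPolynomial.X 1)
      + MvPolynomial.C c * MvPolynomial.X 1 ^ m := by
    rw [hφ]
    apply homogenize_eq_of_isHomogeneous
    · apply MvPolynomial.IsHomogeneous.add (isHom_split b)
      have := (MvPolynomial.isHomogeneous_C (Fin 2) c).mul
        ((MvPolynomial.isHomogeneous_X ℤ (1 : Fin 2)).pow m)
      simpa using this
    · rw [hq, map_add, map_prod]
      congr 1
      · apply Finset.prod_congr rfl
        intro i _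
        simp
      · simp
  have hφh : φ.IsHomogeneous m := by rw [hφ]; exact isHomogeneous_homogenize _
  obtain ⟨F, hF⟩ : ∃ F : MvPolynomial (Fin 2) ℤ, F = φ - R := ⟨_, rfl⟩
  have hcomp : MvPolynomial.homogeneousComponent m F = φ := by
    rw [hF, map_sub, MvPolynomial.homogeneousComponent_of_mem
      ((MvPolynomial.mem_homogeneousSubmodule m φ).2 hφh), if_pos rfl,
      MvPolynomial.homogeneousComponent_eq_zero _ _ hR, sub_zero]
  have hφ0 : φ ≠ 0 := by
    rw [hφ, Ne, homogenize_eq_zero_iff hqd.le]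
    exact hqm.ne_zero
  have hFd : F.totalDegree = m := by
    apply le_antisymm
    · rw [hF]
      refine (MvPolynomial.totalDegree_sub _ _).trans (max_le hφh.totalDegree_le hR.le)
    · by_contra hcon
      push_neg at hcon
      rw [MvPolynomial.homogeneousComponent_eq_zero _ _ hcon] at hcomp
      exact hφ0 hcomp.symm
  have hinj : Function.Injective (Int.castRingHom ℚ) := Int.cast_injective
  have hirrφ : Irreducible (MvPolynomial.map (Int.castRingHom ℚ) φ) := by
    rw [hφ, ← homogenize_map]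
    apply homogenize_irr
    · rw [hqm.natDegree_map, hqd]
    · exact (hqm.irreducible_iff_irreducible_map_fraction_map (K := ℚ)).1 hqirr
  have hcm : MvPolynomial.homogeneousComponent m (MvPolynomial.map (Int.castRingHom ℚ) F)
      = MvPolynomial.map (Int.castRingHom ℚ) φ := by
    rw [← hcomp]
    ext n
    rw [MvPolynomial.coeff_homogeneousComponent, MvPolynomial.coeff_map,
      MvPolynomial.coeff_map, MvPolynomial.coeff_homogeneousComponent]
    split_ifs <;> simp
  have hFd' : (MvPolynomial.map (Int.castRingHom ℚ) F).totalDegree = m := by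
    rw [MvPolynomial.totalDegree, MvPolynomial.support_map_of_injective _ hinj,
      ← MvPolynomial.totalDegree, hFd]
  have hirrF : Irreducible (MvPolynomial.map (Int.castRingHom ℚ) F) := by
    apply irr_of_lead
    · rw [hFd']; omega
    · rw [hFd', hcm]; exact hirrφ
  have heval : MvPolynomial.eval ![x, y] F = 0 := by
    rw [hF, map_sub, ← hxy, hφe, hb]
    simp
  have hlP : len (Pfam ρ s c) ≤ Λ := by rw [hΛ, hPr]; exact len_Pfam ρ s c
  have hthr : thrS m m (len (Pfam ρ s c)) ≤ a.natAbs := by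
    refine le_trans ?_ ha
    unfold thrS
    apply Nat.pow_le_pow_left
    omega
  obtain ⟨L, hL⟩ : ∃ L, L = len F := ⟨_, rfl⟩
  have hmain := main_split (by omega) hm hρ (Pfam_deg ρ s c (by omega)) (Pfam_comp ρ s c (by omega))
    hthr F hFd hirrF (by rw [hcomp]; exact hirrφ.squarefree) (by
      intro t ht hfin
      have ht0 : t ≠ 0 := by
        rintro rfl
        rw [hcomp, hφe] at ht
        simp [hm0.ne'] at ht
      have hβ : MvPolynomial.aeval ![t⁻¹, (a : ℝ)] (Pfam ρ s c) = 0 := by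
        rw [hcomp, hφe] at ht
        simp only [map_add, map_prod, map_sub, map_mul, map_pow, MvPolynomial.aeval_X,
          MvPolynomial.aeval_C, Matrix.cons_val_zero, Matrix.cons_val_one, eq_intCast,
          map_intCast] at ht
        unfold Pfam
        simp only [map_add, map_prod, map_sub, map_mul, MvPolynomial.aeval_X,
          MvPolynomial.aeval_C, Matrix.cons_val_zero, Matrix.cons_val_one, eq_intCast, map_intCast]
        have h1 : ∏ i, (t⁻¹ - (ρ i : ℝ) * a - s i) = (t⁻¹) ^ m * ∏ i, (1 - (b i : ℝ) * t) := by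
          rw [← Fin.prod_const, ← Finset.prod_mul_distrib]
          apply Finset.prod_congr rfl
          intro i _
          rw [hb]
          push_cast
          field_simp
          ring
        rw [h1]
        have h2 : (c : ℝ) = (t⁻¹) ^ m * (c * t ^ m) := by
          rw [inv_pow]
          field_simp
        rw [h2, ← mul_add]
        exact mul_eq_zero_of_right _ ht
      have hle : ℚ⟮t⟯ ≤ IntermediateField.adjoin ℚ
          {β : ℝ | MvPolynomial.aeval ![β, (a : ℝ)] (Pfam ρ s c) = 0} := by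
        rw [adjoin_simple_le_iff]
        have h3 := IntermediateField.subset_adjoin ℚ
          {β : ℝ | MvPolynomial.aeval ![β, (a : ℝ)] (Pfam ρ s c) = 0} hβ
        have h4 := inv_mem h3
        rwa [inv_inv] at h4
      rw [inf_eq_left.2 hle, hfin]
      exact hm) x y heval
  rw [← hL] at hmain
  obtain ⟨K, hK⟩ : ∃ K, K = kS m m := ⟨_, rfl⟩
  rw [← hK] at hmain ⊢
  obtain ⟨A, hA⟩ : ∃ A, A = a.natAbs := ⟨_, rfl⟩
  rw [← hA] at hbig hbig2 hmain ⊢
  have hA1 : 1 ≤ A := by omega
  -- length of F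
  have hlen : L ≤ A ^ (m + 1) * (1 + len R) := by
    have h1 : len F ≤ len φ + len R := by
      rw [hF]
      exact len_sub_le _ _
    have h2 : len φ ≤ ∏ i, (1 + (b i).natAbs) + c.natAbs := by
      rw [hφe]; exact len_homogenize_split b c
    have h3 : ∏ i, (1 + (b i).natAbs) ≤ Pr * A ^ m := by
      have h4 : ∀ i, 1 + (b i).natAbs ≤ (1 + (ρ i).natAbs + (s i).natAbs) * A := by
        intro i
        have h5 : (b i).natAbs ≤ (ρ i).natAbs * A + (s i).natAbs := by
          rw [hb, hA]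
          refine (Int.natAbs_add_le _ _).trans ?_
          rw [Int.natAbs_mul]
        calc 1 + (b i).natAbs ≤ 1 * A + ((ρ i).natAbs * A + (s i).natAbs * A) := by
              have h11 : (s i).natAbs ≤ (s i).natAbs * A := Nat.le_mul_of_pos_right _ hA1
              omega
          _ = _ := by ring
      calc ∏ i, (1 + (b i).natAbs) ≤ ∏ i, ((1 + (ρ i).natAbs + (s i).natAbs) * A) :=
            Finset.prod_le_prod' (fun i _ => h4 i)
        _ = Pr * A ^ m := by
            rw [Finset.prod_mul_distrib, hPr, Finset.prod_const, Finset.card_univ, Fintype.card_fin]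
    have h6 : Pr * A ^ m + c.natAbs ≤ A ^ (m + 1) := by
      have h7 : c.natAbs ≤ c.natAbs * A ^ m := Nat.le_mul_of_pos_right _ (by positivity)
      calc Pr * A ^ m + c.natAbs ≤ Λ * A ^ m := by rw [hΛ]; nlinarith
        _ ≤ A * A ^ m := Nat.mul_le_mul_right _ (by omega)
        _ = _ := by ring
    have h8 : 1 ≤ A ^ (m + 1) := Nat.one_le_pow _ _ hA1
    have h9 : len φ ≤ A ^ (m + 1) := h2.trans ((Nat.add_le_add_right h3 _).trans h6)
    have h10 : len R ≤ A ^ (m + 1) * len R := Nat.le_mul_of_pos_left _ h8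
    rw [hL, mul_add, mul_one]
    omega
  have hfin : (A * ((m + 1) * L)) ^ K ≤ (A ^ (m + 2) * ((m + 1) * (1 + len R))) ^ K := by
    apply Nat.pow_le_pow_left
    calc A * ((m + 1) * L) ≤ A * ((m + 1) * (A ^ (m + 1) * (1 + len R))) := by gcongr
      _ = _ := by ring
  exact ⟨hmain.1.trans hfin, hmain.2.trans hfin⟩

end Pool.Agent.W257
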