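import Pool.Agent.W257.K1

/-!
Generalised two-point argument (composita): the auxiliary polynomial.
-/

open Polynomial Finset

namespace Pool.Agent.W257

open Pool.Agent.H322R2

/-- the sum `n + (n-1) + ... + 1` -/
lemma sum_sub_range (n : ℕ) : 2 * ∑ j ∈ range n, (n - j) = n * (n + 1) := by
  induction n with
  | zero => simp
  | succ n ih =>
    rw [Finset.sum_range_succ']
    have h : ∀ k ∈ range n, n + 1 - (k + 1) = n - k := fun k _ => by omega
    rw [Finset.sum_congr rfl h, mul_add, ih]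
    simp only [Nat.sub_zero]
    ring

lemma card_cond (d w : ℕ) :
    Fintype.card (Σ j : Fin (8 * d + 1), Fin (w * (8 * d + 1 - j)))
      = w * ((8 * d + 1) * (4 * d + 1)) := by
  have e0 : ∀ j : Fin (8 * d + 1), Fintype.card (Fin (w * (8 * d + 1 - j)))
      = w * (8 * d + 1 - j) := fun j => Fintype.card_fin _
  rw [Fintype.card_sigma, Finset.sum_congr rfl (fun j _ => e0 j),
    Fin.sum_univ_eq_sum_range (fun j => w * (8 * d + 1 - j)) (8 * d + 1), ← Finset.mul_sum]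
  congr 1
  have h := sum_sub_range (8 * d + 1)
  have h2 : (8 * d + 1) * (8 * d + 1 + 1) = 2 * ((8 * d + 1) * (4 * d + 1)) := by ring
  omega

/-- the counting inequality for the auxiliary construction -/
lemma count_ineq (r d w k v : ℕ) (hd : 3 ≤ d) (hk : 3 * k ≤ r * d) (hw : 4 * r ≤ w)
    (hv : 4 * d * w = v + r) :
    14 * (w * ((8 * d + 1) * (4 * d + 1)) * k) ≤ 13 * ((d * (3 * d + 1)) * (r * v)) := by
  obtain ⟨e, rfl⟩ : ∃ e, d = e + 3 := ⟨d - 3, by omega⟩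
  have h4 : (16 * (e + 3) - 1) * w ≤ 4 * v := by
    have h5 : (16 * (e + 3) - 1) * w + w = 4 * (4 * (e + 3) * w) := by
      have : 16 * (e + 3) - 1 + 1 = 16 * (e + 3) := by omega
      calc (16 * (e + 3) - 1) * w + w = (16 * (e + 3) - 1 + 1) * w := by ring
        _ = _ := by rw [this]; ring
    omega
  have h6 : 16 * (e + 3) - 1 = 16 * e + 47 := by omega
  rw [h6] at h4
  have h7 : 56 * (w * ((8 * (e + 3) + 1) * (4 * (e + 3) + 1)))
      ≤ 39 * ((3 * (e + 3) + 1) * ((16 * e + 47) * w)) := by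
    have : 56 * ((8 * (e + 3) + 1) * (4 * (e + 3) + 1))
        ≤ 39 * ((3 * (e + 3) + 1) * (16 * e + 47)) := by ring_nf; nlinarith
    calc 56 * (w * ((8 * (e + 3) + 1) * (4 * (e + 3) + 1)))
        = (56 * ((8 * (e + 3) + 1) * (4 * (e + 3) + 1))) * w := by ring
      _ ≤ (39 * ((3 * (e + 3) + 1) * (16 * e + 47))) * w := Nat.mul_le_mul_right _ this
      _ = _ := by ring
  have h8 : 39 * ((3 * (e + 3) + 1) * ((16 * e + 47) * w)) ≤ 39 * ((3 * (e + 3) + 1) * (4 * v)) :=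
    Nat.mul_le_mul_left _ (Nat.mul_le_mul_left _ h4)
  have h9 : 14 * (w * ((8 * (e + 3) + 1) * (4 * (e + 3) + 1))) ≤ 39 * ((3 * (e + 3) + 1) * v) := by
    have : 4 * (14 * (w * ((8 * (e + 3) + 1) * (4 * (e + 3) + 1))))
        ≤ 4 * (39 * ((3 * (e + 3) + 1) * v)) := by
      calc 4 * (14 * (w * ((8 * (e + 3) + 1) * (4 * (e + 3) + 1))))
          = 56 * (w * ((8 * (e + 3) + 1) * (4 * (e + 3) + 1))) := by ring
        _ ≤ _ := h7.trans h8
        _ = _ := by ring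
    omega
  have h10 : 3 * (14 * (w * ((8 * (e + 3) + 1) * (4 * (e + 3) + 1)) * k))
      ≤ 3 * (13 * (((e + 3) * (3 * (e + 3) + 1)) * (r * v))) := by
    calc 3 * (14 * (w * ((8 * (e + 3) + 1) * (4 * (e + 3) + 1)) * k))
        = (14 * (w * ((8 * (e + 3) + 1) * (4 * (e + 3) + 1)))) * (3 * k) := by ring
      _ ≤ (39 * ((3 * (e + 3) + 1) * v)) * (r * (e + 3)) := Nat.mul_le_mul h9 hk
      _ = _ := by ring
  omega

/-- index set of the monomials of the second point: exponents `(q, p)` of `y^q x^p` -/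
abbrev Mo (d : ℕ) := Fin d × Fin (3 * d + 1)

lemma card_Mo (d : ℕ) : Fintype.card (Mo d) = d * (3 * d + 1) := by simp

section Main

variable {A : Type*} [CommRing A] {N : RingSeminorm A} {σ : A →+* ℝ} {r d e : ℕ} {B1 W B2 : ℝ}
    {F1 F2 : ℤ[X][X]} {a1 b1 a2 b2 : ℤ}

/-- series of the monomials on the second branch -/
noncomputable def mono2 (P2 : BP N σ d B2 F2 a2 b2) (μ : Mo d) : PowerSeries A :=
  P2.ζ ^ (4 * d - μ.2 - μ.1) * P2.ω ^ (μ.1 : ℕ)

/-- coefficients of the monomials on the second branch -/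
noncomputable def eC (P2 : BP N σ d B2 F2 a2 b2) (j : ℕ) (μ : Mo d) : A :=
  PowerSeries.coeff j (mono2 P2 μ)

lemma bd_mono2 (h1 : N 1 ≤ 1) (P2 : BP N σ d B2 F2 a2 b2) (μ : Mo d) :
    Bd N P2.ρ (mono2 P2 μ) (B2 ^ d) := by
  have h := (P2.hζ.pow P2.ρ_pos.le h1 (4 * d - μ.2 - μ.1)).mul P2.ρ_pos.le
    (P2.hω.pow P2.ρ_pos.le h1 (μ.1 : ℕ))
  rw [one_pow, one_mul] at h
  apply h.mono
  have := P2.hB
  exact pow_le_pow_right₀ (by linarith) μ.1.2.le

lemma eC_le (h1 : N 1 ≤ 1) (P2 : BP N σ d B2 F2 a2 b2) (j : ℕ) (μ : Mo d) :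
    N (eC P2 j μ) ≤ B2 ^ d * B2 ^ j :=
  coeffN_le P2.B_pos P2.hρB (bd_mono2 h1 P2 μ) j

/-- size of the auxiliary polynomial -/
noncomputable def HT (r d w : ℕ) (C0 B1 W B2 : ℝ) : ℝ :=
  ((((d * (3 * d + 1)) * (r * (4 * d * w - r)) : ℕ) : ℝ) *
    (C0 * (B2 ^ (9 * d) * (W ^ r * B1 ^ (w * (8 * d + 1)))))) ^ 13

lemma exists_auxG (h1 : N 1 ≤ 1) {ι : Type*} [Fintype ι] (bas : ι → A →+ ℤ)
    (hb : ∀ x, (∀ i, bas i x = 0) → x = 0)
    (C0 : ℝ) (hC0 : 1 ≤ C0) (hcoord : ∀ x i, |(bas i x : ℝ)| ≤ C0 * N x)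
    (P1 : AP N σ e B1 W F1 a1 b1) (P2 : BP N σ d B2 F2 a2 b2) (hr : 0 < r) (hd : 3 ≤ d)
    (hk : 0 < Fintype.card ι) (hkι : 3 * Fintype.card ι ≤ r * d) (w : ℕ) (hw : 4 * r ≤ w) :
    ∃ T : Mo d → Fin r × Fin (4 * d * w - r) → ℤ, T ≠ 0 ∧
      (∀ j < 8 * d + 1, ∀ i < w * (8 * d + 1 - j), ∑ μ, ∑ s, (T μ s) • (eC P2 j μ *
        PowerSeries.coeff i (monoA P1 (4 * d * w) s.2 s.1)) = 0) ∧
      ∀ μ s, |(T μ s : ℝ)| ≤ HT r d w C0 B1 W B2 := by
  have hB1 := P1.hB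
  have hW := P1.hW
  have hB2 := P2.hB
  have hB1' : 1 ≤ B1 := by linarith
  have hB2' : 1 ≤ B2 := by linarith
  have hwpos : 0 < w := by omega
  have hrle : r ≤ 4 * d * w := by
    calc r ≤ w := by omega
      _ = 1 * w := by ring
      _ ≤ 4 * d * w := Nat.mul_le_mul_right _ (by omega)
  obtain ⟨T, hT0, hT, hTn⟩ := siegel_fun bas hb N C0 hC0 hcoord
    (γ := Σ j : Fin (8 * d + 1), Fin (w * (8 * d + 1 - j)))
    (β := Mo d × (Fin r × Fin (4 * d * w - r)))
    (fun g x => eC P2 g.1 x.1 * PowerSeries.coeff (g.2 : ℕ) (monoA P1 (4 * d * w) x.2.2 x.2.1))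
    (B2 ^ (9 * d) * (W ^ r * B1 ^ (w * (8 * d + 1))))
    (by
      have e1 : 1 ≤ B2 ^ (9 * d) := one_le_pow₀ hB2'
      have e2 : 1 ≤ W ^ r * B1 ^ (w * (8 * d + 1)) :=
        one_le_mul_of_one_le_of_one_le (one_le_pow₀ hW) (one_le_pow₀ hB1')
      nlinarith)
    (by
      intro g x
      refine (map_mul_le_mul N _ _).trans ?_
      have e1 : N (eC P2 g.1 x.1) ≤ B2 ^ (9 * d) := by
        refine (eC_le h1 P2 _ _).trans ?_
        rw [← pow_add]
        exact pow_le_pow_right₀ hB2' (by have := g.1.2; omega)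
      have e2 : N (PowerSeries.coeff (g.2 : ℕ) (monoA P1 (4 * d * w) x.2.2 x.2.1))
          ≤ W ^ r * B1 ^ (w * (8 * d + 1)) := by
        refine (coeffN_le P1.B_pos P1.hρB (bd_monoA h1 P1 _ _ _) _).trans ?_
        have e3 := x.2.1.2
        have e4 := g.2.2
        have e5 : w * (8 * d + 1 - g.1) ≤ w * (8 * d + 1) := Nat.mul_le_mul_left _ (by omega)
        apply mul_le_mul
        · exact pow_le_pow_right₀ hW (by omega)
        · exact pow_le_pow_right₀ hB1' (by omega)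
        · positivity
        · positivity
      exact mul_le_mul e1 e2 (apply_nonneg N _) (by positivity))
    (by
      rw [card_cond]
      simp only [Fintype.card_fin, Fintype.card_prod]
      exact count_ineq r d w (Fintype.card ι) (4 * d * w - r) hd hkι hw (by omega))
    (by
      rw [card_cond]
      exact Nat.mul_pos (Nat.mul_pos hwpos (by positivity)) hk)
  refine ⟨fun μ s => T (μ, s), ?_, ?_, ?_⟩
  · intro h0
    apply hT0
    funext x
    have := congrFun (congrFun h0 x.1) x.2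
    simpa using this
  · intro j hj i hi
    have := hT ⟨⟨j, hj⟩, ⟨i, hi⟩⟩
    rw [Fintype.sum_prod_type] at this
    exact this
  · intro μ s
    have := hTn (μ, s)
    simp only [Fintype.card_prod, Fintype.card_fin] at this
    unfold HT
    exact this

/-- splitting off the first `J` terms -/
lemma splitJ (J : ℕ) (σ : A →+* ℝ)
    (hσ : ∀ x, |σ x| ≤ N x) {ρ ρ' r B : ℝ} (hρ : 0 < ρ) (hρ' : 0 ≤ ρ') (hle : ρ' ≤ ρ)
    (hr : 0 < r) (θ : PowerSeries ℝ) (hθ : Bd rn r θ ρ') (u : PowerSeries A) (hu : Bd N ρ u B) :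
    ∃ R : ℝ, PowerSeries.constantCoeff (sb θ (PowerSeries.map σ u))
      = ∑ j ∈ range J, σ (PowerSeries.coeff j u) * (PowerSeries.constantCoeff θ) ^ j + R ∧
      |R| ≤ (ρ' / ρ) ^ J * B := by
  set u5 : PowerSeries A := PowerSeries.mk fun n => if n < J then 0 else PowerSeries.coeff n u
    with hu5
  have hbd5 : Bd N ρ u5 B := by
    intro K
    refine le_trans ?_ (hu K)
    apply Finset.sum_le_sum
    intro n _
    rw [hu5, PowerSeries.coeff_mk]
    apply mul_le_mul_of_nonneg_right _ (pow_nonneg hρ.le n)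
    split_ifs
    · rw [map_zero]; exact apply_nonneg N _
    · exact le_refl _
  have hbd5' := (hbd5.of_vanish hρ hρ' hle J (fun n hn => by
    rw [hu5, PowerSeries.coeff_mk, if_pos hn])).map σ hσ hρ'
  refine ⟨PowerSeries.constantCoeff (sb θ (PowerSeries.map σ u5)), ?_, ?_⟩
  · have hbu := (hu.of_le hρ' hle).map σ hσ hρ'
    have h1 := (summ hr hθ hbu 0).of_norm
    have h2 := (summ hr hθ hbd5' 0).of_norm
    rw [← PowerSeries.coeff_zero_eq_constantCoeff_apply,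
      ← PowerSeries.coeff_zero_eq_constantCoeff_apply,
      ← PowerSeries.coeff_zero_eq_constantCoeff_apply, sb, sb, PowerSeries.coeff_mk,
      PowerSeries.coeff_mk]
    rw [← h1.sum_add_tsum_nat_add J, ← h2.sum_add_tsum_nat_add J]
    have h3 : ∑ i ∈ range J, PowerSeries.coeff i (PowerSeries.map σ u5) *
        PowerSeries.coeff 0 (θ ^ i) = 0 := by
      apply Finset.sum_eq_zero
      intro i hi
      rw [Finset.mem_range] at hi
      rw [PowerSeries.coeff_map, hu5, PowerSeries.coeff_mk, if_pos hi, map_zero, zero_mul]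
    rw [h3, zero_add]
    congr 1
    · apply Finset.sum_congr rfl
      intro i _
      rw [PowerSeries.coeff_map, coeff_zero_pow]
    · congr 1
      funext i
      rw [PowerSeries.coeff_map, PowerSeries.coeff_map, hu5, PowerSeries.coeff_mk,
        if_neg (by omega)]
  · have := sb_coeff_le hr hθ hbd5' 0
    rw [PowerSeries.coeff_zero_eq_constantCoeff_apply] at this
    simpa using this

/-- values of the monomials at the second point -/
lemma mono2_val (hσ : ∀ x, |σ x| ≤ N x) (P2 : BP N σ d B2 F2 a2 b2) (μ : Mo d) :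
    ((a2 ^ (μ.2 : ℕ) * b2 ^ (μ.1 : ℕ) : ℤ) : ℝ) = (a2 : ℝ) ^ (4 * d) *
      PowerSeries.constantCoeff (sb P2.θ (PowerSeries.map σ (mono2 P2 μ))) := by
  have hr := P2.r_pos
  have hq := P2.q_nonneg
  have hθ := P2.hθ
  have hζ := (P2.hζ.of_le hq P2.rad_le).map σ hσ hq
  have hω := (P2.hω.of_le hq P2.rad_le).map σ hσ hq
  have hx := congrArg PowerSeries.constantCoeff P2.hx
  have hy := P2.hy
  rw [map_mul] at hx hy
  have hc : PowerSeries.constantCoeff (PowerSeries.C (a2 : ℝ) + PowerSeries.X : PowerSeries ℝ)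
      = (a2 : ℝ) := by simp
  rw [hc] at hx hy
  rw [map_one] at hx
  rw [mono2, map_mul, map_pow, map_pow, sb_mul hr hθ (hζ.pow hq rn_one _) (hω.pow hq rn_one _),
      sb_pow hr hq hθ hζ, sb_pow hr hq hθ hω, map_mul, map_pow, map_pow]
  set z := PowerSeries.constantCoeff (sb P2.θ (PowerSeries.map σ P2.ζ)) with hz
  set w := PowerSeries.constantCoeff (sb P2.θ (PowerSeries.map σ P2.ω)) with hw
  have h2 : (μ.2 : ℕ) + (μ.1 : ℕ) ≤ 4 * d := by
    have := μ.1.2; have := μ.2.2; omega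
  obtain ⟨e, he⟩ : ∃ e, 4 * d = (μ.2 : ℕ) + (μ.1 : ℕ) + e := ⟨4 * d - ((μ.2 : ℕ) + μ.1), by omega⟩
  have h3 : 4 * d - (μ.2 : ℕ) - (μ.1 : ℕ) = e := by omega
  rw [h3, he]
  push_cast
  rw [← hy, pow_add, mul_pow]
  calc (a2 : ℝ) ^ (μ.2 : ℕ) * ((a2 : ℝ) ^ (μ.1 : ℕ) * w ^ (μ.1 : ℕ))
      = (a2 : ℝ) ^ (μ.2 : ℕ) * ((a2 : ℝ) ^ (μ.1 : ℕ) * w ^ (μ.1 : ℕ)) * ((a2 : ℝ) * z) ^ e := by
        rw [hx, one_pow, mul_one]
    _ = _ := by rw [mul_pow, pow_add]; ring

end Main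

end Pool.Agent.W257
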