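import Pool.Agent.W257.K2

/-!
Generalised two-point argument (composita): analytic part.
-/

open Polynomial Finset

namespace Pool.Agent.W257

open Pool.Agent.H322R2

section Main

variable {A : Type*} [CommRing A] {N : RingSeminorm A} {σ : A →+* ℝ} {r d e : ℕ} {B1 W B2 : ℝ}
    {F1 F2 : ℤ[X][X]} {a1 b1 a2 b2 : ℤ}

theorem analytic_partG (h1 : N 1 ≤ 1) (hσ : ∀ x, |σ x| ≤ N x)
    (P1 : AP N σ e B1 W F1 a1 b1) (P2 : BP N σ d B2 F2 a2 b2)
    (w n : ℕ) (hmn : r + n ≤ 4 * d * w)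
    (T : Mo d → Fin r × Fin n → ℤ)
    (hT : ∀ j < 8 * d + 1, ∀ i < w * (8 * d + 1 - j), ∑ μ, ∑ s, (T μ s) • (eC P2 j μ *
        PowerSeries.coeff i (monoA P1 (4 * d * w) s.2 s.1)) = 0)
    (H : ℝ) (hH : 0 ≤ H) (hTH : ∀ μ s, |(T μ s : ℝ)| ≤ H) (o : ℕ) :
    |PowerSeries.coeff o (ev (PowerSeries.C (a1 : ℝ) + PowerSeries.X)
      ((PowerSeries.C (a1 : ℝ) + PowerSeries.X) * sb P1.θ (PowerSeries.map σ P1.ω))
      (∑ μ : Mo d, C (C (a2 ^ (μ.2 : ℕ) * b2 ^ (μ.1 : ℕ))) * boxPoly (T μ)))|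
    ≤ |(a2 : ℝ)| ^ (4 * d) * ((2 * |(a1 : ℝ)|) ^ (4 * d * w) *
      ((∑ j ∈ range (8 * d + 1), (B2 / |(a2 : ℝ)|) ^ j *
        ((B1 ^ 2 / |(a1 : ℝ)|) ^ (w * (8 * d + 1 - j)) *
        (Fintype.card (Mo d) * (B2 ^ (9 * d) * (r * n * (H * W ^ r))))))
      + Fintype.card (Mo d) * (((B2 ^ 2 / |(a2 : ℝ)|) ^ (8 * d + 1) * B2 ^ d) *
        (r * n * (H * W ^ r))))
      / (|(a1 : ℝ)| / 2) ^ o) := by
  set m := 4 * d * w with hmdef
  have hB1 := P1.hB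
  have hW := P1.hW
  have hB2 := P2.hB
  have ha1 := P1.a_pos
  have ha2 := P2.a_pos
  set bU : ℝ := r * n * (H * W ^ r) with hbU
  have hbU0 : 0 ≤ bU := by positivity
  set ρ' := B1 / |(a1 : ℝ)| with hρ'
  set ρ'' := B2 / |(a2 : ℝ)| with hρ''
  have hq1 := P1.q_nonneg
  have hq2 := P2.q_nonneg
  have hr1 := P1.r_pos
  have hr2 := P2.r_pos
  have hrad1 := P1.rad_le
  have hrad2 := P2.rad_le
  set x : PowerSeries ℝ := PowerSeries.C (a1 : ℝ) + PowerSeries.X with hx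
  set yh := x * sb P1.θ (PowerSeries.map σ P1.ω) with hyh
  set τ := PowerSeries.constantCoeff P2.θ with hτ
  have hτle : |τ| ≤ ρ'' := by
    have := P2.hθ.coeff_le hr2.le 0
    simpa [hτ] using this
  -- bounds for the functions
  have hU : ∀ μ, Bd N P1.ρ (UstA P1 m (T μ)) bU := fun μ => bd_UstA h1 P1 m (T μ) H hH (hTH μ)
  have hUσ : ∀ μ, Bd rn ρ' (PowerSeries.map σ (UstA P1 m (T μ))) bU :=
    fun μ => ((hU μ).of_le hq1 hrad1).map σ hσ hq1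
  set Ψ : ℕ → PowerSeries A := fun j => ∑ μ, PowerSeries.C (eC P2 j μ) * UstA P1 m (T μ) with hΨ
  have hratio1 : ρ' / P1.ρ ≤ B1 ^ 2 / |(a1 : ℝ)| := by
    have h3 := P1.hρB
    have h4 := P1.ρ_pos
    rw [div_le_iff₀ h4, hρ']
    have h5 : B1 / |(a1 : ℝ)| = B1 ^ 2 / |(a1 : ℝ)| * (1 / B1) := by
      field_simp
    rw [h5]
    exact mul_le_mul_of_nonneg_left h3 (by positivity)
  have hratio2 : ρ'' / P2.ρ ≤ B2 ^ 2 / |(a2 : ℝ)| := by
    have h3 := P2.hρB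
    have h4 := P2.ρ_pos
    rw [div_le_iff₀ h4, hρ'']
    have h5 : B2 / |(a2 : ℝ)| = B2 ^ 2 / |(a2 : ℝ)| * (1 / B2) := by
      field_simp
    rw [h5]
    exact mul_le_mul_of_nonneg_left h3 (by positivity)
  have hΨbd : ∀ j < 8 * d + 1, Bd N P1.ρ (Ψ j) (Fintype.card (Mo d) * (B2 ^ (9 * d) * bU)) := by
    intro j hj
    have h2 : ∀ μ ∈ (univ : Finset (Mo d)),
        Bd N P1.ρ (PowerSeries.C (eC P2 j μ) * UstA P1 m (T μ)) (B2 ^ (9 * d) * bU) := by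
      intro μ _
      refine ((Bd.C P1.ρ_pos.le _).mul P1.ρ_pos.le (hU μ)).mono ?_
      apply mul_le_mul_of_nonneg_right _ hbU0
      refine (eC_le h1 P2 j μ).trans ?_
      rw [← pow_add]
      exact pow_le_pow_right₀ (by linarith) (by omega)
    refine (Bd.sum univ P1.ρ_pos.le _ _ h2).mono ?_
    rw [Finset.sum_const, Finset.card_univ, nsmul_eq_mul]
  have hΨvan : ∀ j < 8 * d + 1, ∀ i < w * (8 * d + 1 - j), PowerSeries.coeff i (Ψ j) = 0 := by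
    intro j hj i hi
    rw [← hT j hj i hi, hΨ]
    simp only
    rw [map_sum]
    apply Finset.sum_congr rfl
    intro μ _
    rw [PowerSeries.coeff_C_mul, UstA, map_sum, Finset.mul_sum]
    apply Finset.sum_congr rfl
    intro s _
    rw [PowerSeries.coeff_C_mul, zsmul_eq_mul]
    ring
  have hΨσ : ∀ j < 8 * d + 1, Bd rn ρ' (PowerSeries.map σ (Ψ j))
      ((B1 ^ 2 / |(a1 : ℝ)|) ^ (w * (8 * d + 1 - j)) *
        (Fintype.card (Mo d) * (B2 ^ (9 * d) * bU))) := by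
    intro j hj
    refine (((hΨbd j hj).of_vanish P1.ρ_pos hq1 hrad1 _ (hΨvan j hj)).map σ hσ hq1).mono ?_
    apply mul_le_mul_of_nonneg_right _ (by positivity)
    exact pow_le_pow_left₀ (div_nonneg hq1 P1.ρ_pos.le) hratio1 _
  -- remainders
  have hR : ∀ μ : Mo d, ∃ R : ℝ, PowerSeries.constantCoeff (sb P2.θ (PowerSeries.map σ
        (mono2 P2 μ)))
      = ∑ j ∈ range (8 * d + 1), σ (eC P2 j μ) * τ ^ j + R ∧
      |R| ≤ (B2 ^ 2 / |(a2 : ℝ)|) ^ (8 * d + 1) * B2 ^ d := by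
    intro μ
    obtain ⟨R, hR1, hR2⟩ := splitJ (8 * d + 1) σ hσ P2.ρ_pos hq2 hrad2 hr2 P2.θ P2.hθ
      (mono2 P2 μ) (bd_mono2 h1 P2 μ)
    refine ⟨R, hR1, hR2.trans ?_⟩
    apply mul_le_mul_of_nonneg_right _ (by positivity)
    exact pow_le_pow_left₀ (div_nonneg hq2 P2.ρ_pos.le) hratio2 _
  choose R hR1 hR2 using hR
  set v : Mo d → ℝ := fun μ => PowerSeries.constantCoeff (sb P2.θ (PowerSeries.map σ
        (mono2 P2 μ))) with hv
  set Θ : PowerSeries ℝ := ∑ μ, PowerSeries.C (v μ) * PowerSeries.map σ (UstA P1 m (T μ)) with hΘ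
  -- identity for the function
  have hident : ev x yh (∑ μ : Mo d, C (C (a2 ^ (μ.2 : ℕ) * b2 ^ (μ.1 : ℕ))) * boxPoly (T μ))
      = PowerSeries.C ((a2 : ℝ) ^ (4 * d)) * (x ^ m * sb P1.θ Θ) := by
    rw [hΘ, sb_sum hr1 hq1 P1.hθ univ _ (fun μ => rn (v μ) * bU)]
    · rw [map_sum, Finset.mul_sum, Finset.mul_sum]
      apply Finset.sum_congr rfl
      intro μ _
      rw [map_mul, ev_C, evf_C, sb_UstA h1 hσ P1 m (T μ) hmn,
        sb_mul hr1 P1.hθ (Bd.C hq1 _) (hUσ μ), sb_C]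
      have h3 : ((a2 ^ (μ.2 : ℕ) * b2 ^ (μ.1 : ℕ) : ℤ) : PowerSeries ℝ)
          = PowerSeries.C ((a2 : ℝ) ^ (4 * d)) * PowerSeries.C (v μ) := by
        rw [← map_mul, ← mono2_val hσ P2 μ, map_intCast]
      rw [h3]
      ring
    · intro μ _
      exact (Bd.C hq1 _).mul hq1 (hUσ μ)
  -- decomposition of Θ
  have hΘ2 : Θ = ∑ j ∈ range (8 * d + 1), PowerSeries.C (τ ^ j) * PowerSeries.map σ (Ψ j)
      + ∑ μ, PowerSeries.C (R μ) * PowerSeries.map σ (UstA P1 m (T μ)) := by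
    rw [hΘ]
    have h3 : ∀ μ ∈ (univ : Finset (Mo d)),
        PowerSeries.C (v μ) * PowerSeries.map σ (UstA P1 m (T μ))
        = ∑ j ∈ range (8 * d + 1), PowerSeries.C (σ (eC P2 j μ) * τ ^ j) *
            PowerSeries.map σ (UstA P1 m (T μ))
          + PowerSeries.C (R μ) * PowerSeries.map σ (UstA P1 m (T μ)) := by
      intro μ _
      rw [hv]
      simp only
      rw [hR1 μ, map_add, add_mul, map_sum, Finset.sum_mul]
    rw [Finset.sum_congr rfl h3, Finset.sum_add_distrib]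
    congr 1
    rw [Finset.sum_comm]
    apply Finset.sum_congr rfl
    intro j _
    rw [hΨ]
    simp only
    rw [map_sum, Finset.mul_sum]
    apply Finset.sum_congr rfl
    intro μ _
    simp only [map_mul, PowerSeries.map_C]
    ring
  -- bound of Θ
  set Q : ℝ := (∑ j ∈ range (8 * d + 1), ρ'' ^ j * ((B1 ^ 2 / |(a1 : ℝ)|) ^ (w * (8 * d + 1 - j)) *
        (Fintype.card (Mo d) * (B2 ^ (9 * d) * bU))))
      + Fintype.card (Mo d) * (((B2 ^ 2 / |(a2 : ℝ)|) ^ (8 * d + 1) * B2 ^ d) * bU) with hQ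
  have hΘbd : Bd rn ρ' Θ Q := by
    rw [hΘ2, hQ]
    apply Bd.add hq1
    · apply Bd.sum _ hq1
      intro j hj
      rw [Finset.mem_range] at hj
      refine ((Bd.C hq1 _).mul hq1 (hΨσ j hj)).mono ?_
      apply mul_le_mul_of_nonneg_right _ (by positivity)
      rw [rn_apply, abs_pow]
      exact pow_le_pow_left₀ (abs_nonneg _) hτle j
    · have h3 : ∀ μ ∈ (univ : Finset (Mo d)),
          Bd rn ρ' (PowerSeries.C (R μ) * PowerSeries.map σ (UstA P1 m (T μ)))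
            (((B2 ^ 2 / |(a2 : ℝ)|) ^ (8 * d + 1) * B2 ^ d) * bU) := by
        intro μ _
        refine ((Bd.C hq1 _).mul hq1 (hUσ μ)).mono ?_
        exact mul_le_mul_of_nonneg_right (hR2 μ) hbU0
      refine (Bd.sum univ hq1 _ _ h3).mono ?_
      rw [Finset.sum_const, Finset.card_univ, nsmul_eq_mul]
  have hQ0 : 0 ≤ Q := hΘbd.nonneg
  rw [hident, PowerSeries.coeff_C_mul, abs_mul]
  have h4 : |(a2 : ℝ) ^ (4 * d)| = |(a2 : ℝ)| ^ (4 * d) := by rw [abs_pow]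
  rw [h4]
  apply mul_le_mul_of_nonneg_left _ (by positivity)
  have hxbd : Bd rn (|(a1 : ℝ)| / 2) (x ^ m) ((2 * |(a1 : ℝ)|) ^ m) := by
    apply Bd.pow hr1.le rn_one
    have h5 := (Bd.C (N := rn) hr1.le (a1 : ℝ)).add hr1.le (Bd.X hr1.le rn_one)
    apply h5.mono
    rw [rn_apply]
    linarith
  exact coeff_mul_bound hr1 hxbd hQ0 (fun i => sb_coeff_le hr1 P1.hθ hΘbd i) o

end Main

end Pool.Agent.W257
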