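import Pool.Agent.W257.K3

/-!
Generalised two-point argument (composita): the basic inequality.
-/

open Polynomial Finset

namespace Pool.Agent.W257

open Pool.Agent.H322R2

lemma key_powG (X Y : ℝ) (hX : 1 ≤ X) (d w j : ℕ) (hj : j ≤ 8 * d + 1) (hY1 : X ^ w ≤ Y)
    (hY2 : Y ≤ X ^ (w + 1)) :
    Y ^ (4 * d) * X ^ (4 * d * w) * X ^ w ≤ X ^ (4 * d) * (Y ^ j * X ^ (w * (8 * d + 1 - j))) := by
  have hX0 : 0 < X := by linarith
  have hY0 : 0 < Y := lt_of_lt_of_le (by positivity) hY1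
  rcases le_total j (4 * d) with h | h
  · obtain ⟨i, hi⟩ : ∃ i, 4 * d = j + i := ⟨4 * d - j, by omega⟩
    have e1 : Y ^ i ≤ X ^ ((w + 1) * i) := by
      rw [pow_mul]; exact pow_le_pow_left₀ hY0.le hY2 i
    have e2 : (w + 1) * i + 4 * d * w + w ≤ 4 * d + w * (8 * d + 1 - j) := by
      have e3 : 8 * d + 1 - j = 4 * d + 1 + i := by omega
      rw [e3]
      have : (w + 1) * i + 4 * d * w + w = i + w * (4 * d + 1 + i) := by ring
      omega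
    calc Y ^ (4 * d) * X ^ (4 * d * w) * X ^ w
        = Y ^ j * (Y ^ i * X ^ (4 * d * w) * X ^ w) := by
          have : Y ^ (4 * d) = Y ^ j * Y ^ i := by rw [← pow_add, ← hi]
          rw [this]; ring
      _ ≤ Y ^ j * (X ^ ((w + 1) * i) * X ^ (4 * d * w) * X ^ w) := by gcongr
      _ = Y ^ j * X ^ ((w + 1) * i + 4 * d * w + w) := by rw [← pow_add, ← pow_add]
      _ ≤ Y ^ j * X ^ (4 * d + w * (8 * d + 1 - j)) := by
          apply mul_le_mul_of_nonneg_left _ (by positivity)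
          exact pow_le_pow_right₀ hX e2
      _ = _ := by rw [pow_add]; ring
  · obtain ⟨i, hi⟩ : ∃ i, j = 4 * d + i := ⟨j - 4 * d, by omega⟩
    have e1 : X ^ (w * i) ≤ Y ^ i := by
      rw [pow_mul]; exact pow_le_pow_left₀ (by positivity) hY1 i
    have e2 : 4 * d * w + w ≤ 4 * d + (w * i + w * (8 * d + 1 - j)) := by
      have e3 : w * i + w * (8 * d + 1 - j) = w * (4 * d + 1) := by
        rw [← mul_add]; congr 1; omega
      rw [e3]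
      have : 4 * d * w + w = w * (4 * d + 1) := by ring
      omega
    calc Y ^ (4 * d) * X ^ (4 * d * w) * X ^ w = Y ^ (4 * d) * X ^ (4 * d * w + w) := by
          rw [pow_add]; ring
      _ ≤ Y ^ (4 * d) * X ^ (4 * d + (w * i + w * (8 * d + 1 - j))) := by
          apply mul_le_mul_of_nonneg_left _ (by positivity)
          exact pow_le_pow_right₀ hX e2
      _ = X ^ (4 * d) * (Y ^ (4 * d) * X ^ (w * i) * X ^ (w * (8 * d + 1 - j))) := by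
          rw [pow_add, pow_add]; ring
      _ ≤ X ^ (4 * d) * (Y ^ (4 * d) * Y ^ i * X ^ (w * (8 * d + 1 - j))) := by gcongr
      _ = _ := by rw [hi, pow_add]

lemma final_boundG (X Y B1 B2 bU M : ℝ) (hX : 4 ≤ X) (hB1 : 2 ≤ B1) (hB2 : 2 ≤ B2)
    (hbU : 0 ≤ bU) (hM : 0 ≤ M) (d w o : ℕ) (hY1 : X ^ w ≤ Y)
    (hY2 : Y ≤ X ^ (w + 1)) :
    (Y ^ (4 * d) * ((2 * X) ^ (4 * d * w) *
      ((∑ j ∈ range (8 * d + 1), (B2 / Y) ^ j * ((B1 ^ 2 / X) ^ (w * (8 * d + 1 - j)) *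
        (M * (B2 ^ (9 * d) * bU))))
      + M * (((B2 ^ 2 / Y) ^ (8 * d + 1) * B2 ^ d) * bU)) / (X / 2) ^ o)) * X ^ w
    ≤ X ^ (4 * d) * 2 ^ (4 * d * w) *
      ((8 * d + 2 : ℕ) * (M * (B2 ^ (17 * d + 2) * (B1 ^ w) ^ (16 * d + 2) * bU))) := by
  have hX0 : 0 < X := by linarith
  have hX1 : 1 ≤ X := by linarith
  have hY0 : 0 < Y := lt_of_lt_of_le (by positivity) hY1
  have hB10 : 0 < B1 := by linarith
  have hB20 : 0 < B2 := by linarith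
  have hB11 : 1 ≤ B1 := by linarith
  have hB21 : 1 ≤ B2 := by linarith
  have ho : 1 ≤ (X / 2) ^ o := one_le_pow₀ (by linarith)
  obtain ⟨Q, hQ⟩ : ∃ Q, Q = M * (B2 ^ (17 * d + 2) * (B1 ^ w) ^ (16 * d + 2) * bU) := ⟨_, rfl⟩
  have hQ0 : 0 ≤ Q := by rw [hQ]; positivity
  have hB1w : 1 ≤ B1 ^ w := one_le_pow₀ hB11
  have hterm : ∀ j ∈ range (8 * d + 1), Y ^ (4 * d) * X ^ (4 * d * w) * X ^ w *
      ((B2 / Y) ^ j * ((B1 ^ 2 / X) ^ (w * (8 * d + 1 - j)) * (M * (B2 ^ (9 * d) * bU))))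
      ≤ X ^ (4 * d) * Q := by
    intro j hj
    rw [Finset.mem_range] at hj
    have h1 := key_powG X Y hX1 d w j hj.le hY1 hY2
    have h2 : (B2 / Y) ^ j * ((B1 ^ 2 / X) ^ (w * (8 * d + 1 - j)) * (M * (B2 ^ (9 * d) * bU)))
        = (B2 ^ j * (B1 ^ 2) ^ (w * (8 * d + 1 - j)) * (M * (B2 ^ (9 * d) * bU))) /
          (Y ^ j * X ^ (w * (8 * d + 1 - j))) := by
      rw [div_pow, div_pow]; field_simp
    rw [h2, ← mul_div_assoc, div_le_iff₀ (by positivity)]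
    have h3 : B2 ^ j * (B1 ^ 2) ^ (w * (8 * d + 1 - j)) * (M * (B2 ^ (9 * d) * bU)) ≤ Q := by
      have e1 : B2 ^ j * B2 ^ (9 * d) ≤ B2 ^ (17 * d + 2) := by
        rw [← pow_add]; exact pow_le_pow_right₀ hB21 (by omega)
      have e2 : (B1 ^ 2) ^ (w * (8 * d + 1 - j)) ≤ (B1 ^ w) ^ (16 * d + 2) := by
        rw [← pow_mul, ← pow_mul]
        apply pow_le_pow_right₀ hB11
        calc 2 * (w * (8 * d + 1 - j)) ≤ 2 * (w * (8 * d + 1)) := by gcongr; omega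
          _ = w * (16 * d + 2) := by ring
      rw [hQ]
      calc B2 ^ j * (B1 ^ 2) ^ (w * (8 * d + 1 - j)) * (M * (B2 ^ (9 * d) * bU))
          = (M * bU) * ((B2 ^ j * B2 ^ (9 * d)) * (B1 ^ 2) ^ (w * (8 * d + 1 - j))) := by ring
        _ ≤ (M * bU) * (B2 ^ (17 * d + 2) * (B1 ^ w) ^ (16 * d + 2)) := by gcongr
        _ = _ := by ring
    calc Y ^ (4 * d) * X ^ (4 * d * w) * X ^ w *
          (B2 ^ j * (B1 ^ 2) ^ (w * (8 * d + 1 - j)) * (M * (B2 ^ (9 * d) * bU)))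
        ≤ (X ^ (4 * d) * (Y ^ j * X ^ (w * (8 * d + 1 - j)))) * Q := by
          apply mul_le_mul h1 h3 (by positivity) (by positivity)
      _ = _ := by ring
  have htermJ : Y ^ (4 * d) * X ^ (4 * d * w) * X ^ w *
      (M * (((B2 ^ 2 / Y) ^ (8 * d + 1) * B2 ^ d) * bU)) ≤ X ^ (4 * d) * Q := by
    have h1 := key_powG X Y hX1 d w (8 * d + 1) le_rfl hY1 hY2
    rw [Nat.sub_self, mul_zero, pow_zero, mul_one] at h1
    have h2 : M * (((B2 ^ 2 / Y) ^ (8 * d + 1) * B2 ^ d) * bU)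
        = (M * (B2 ^ (17 * d + 2) * bU)) / Y ^ (8 * d + 1) := by
      have e1 : B2 ^ (17 * d + 2) = (B2 ^ 2) ^ (8 * d + 1) * B2 ^ d := by
        rw [← pow_mul, ← pow_add]; congr 1; ring
      rw [div_pow, e1]; field_simp
    rw [h2, ← mul_div_assoc, div_le_iff₀ (by positivity)]
    have h3 : 1 ≤ (B1 ^ w) ^ (16 * d + 2) := one_le_pow₀ hB1w
    calc Y ^ (4 * d) * X ^ (4 * d * w) * X ^ w * (M * (B2 ^ (17 * d + 2) * bU))
        ≤ (X ^ (4 * d) * Y ^ (8 * d + 1)) * (M * (B2 ^ (17 * d + 2) * bU)) := by gcongr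
      _ = (X ^ (4 * d) * Y ^ (8 * d + 1)) * ((M * (B2 ^ (17 * d + 2) * bU)) * 1) := by ring
      _ ≤ (X ^ (4 * d) * Y ^ (8 * d + 1)) *
            ((M * (B2 ^ (17 * d + 2) * bU)) * (B1 ^ w) ^ (16 * d + 2)) := by gcongr
      _ = _ := by rw [hQ]; ring
  set S := (∑ j ∈ range (8 * d + 1), (B2 / Y) ^ j * ((B1 ^ 2 / X) ^ (w * (8 * d + 1 - j)) *
        (M * (B2 ^ (9 * d) * bU))))
      + M * (((B2 ^ 2 / Y) ^ (8 * d + 1) * B2 ^ d) * bU) with hS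
  have hS0 : 0 ≤ S := by positivity
  have h4 : Y ^ (4 * d) * X ^ (4 * d * w) * X ^ w * S
      ≤ X ^ (4 * d) * ((8 * d + 2 : ℕ) * Q) := by
    rw [hS, mul_add, Finset.mul_sum]
    have h5 := Finset.sum_le_sum hterm
    rw [Finset.sum_const, Finset.card_range, nsmul_eq_mul] at h5
    calc _ ≤ ((8 * d + 1 : ℕ) : ℝ) * (X ^ (4 * d) * Q) + X ^ (4 * d) * Q := add_le_add h5 htermJ
      _ = _ := by push_cast; ring
  rw [← hQ]
  calc (Y ^ (4 * d) * ((2 * X) ^ (4 * d * w) * S / (X / 2) ^ o)) * X ^ w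
      ≤ (Y ^ (4 * d) * ((2 * X) ^ (4 * d * w) * S)) * X ^ w := by
        apply mul_le_mul_of_nonneg_right _ (by positivity)
        apply mul_le_mul_of_nonneg_left _ (by positivity)
        exact div_le_self (by positivity) ho
    _ = 2 ^ (4 * d * w) * (Y ^ (4 * d) * X ^ (4 * d * w) * X ^ w * S) := by rw [mul_pow]; ring
    _ ≤ 2 ^ (4 * d * w) * (X ^ (4 * d) * ((8 * d + 2 : ℕ) * Q)) := by gcongr
    _ = _ := by ring

section Main

variable {A : Type*} [CommRing A] {N : RingSeminorm A} {σ : A →+* ℝ} {r d e : ℕ} {B1 W B2 : ℝ}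
    {F1 F2 : ℤ[X][X]} {a1 b1 a2 b2 : ℤ}

theorem core_ineqG (h1 : N 1 ≤ 1) (hσ : ∀ x, |σ x| ≤ N x)
    {ι : Type*} [Fintype ι] (bas : ι → A →+ ℤ) (hb : ∀ x, (∀ i, bas i x = 0) → x = 0)
    (C0 : ℝ) (hC0 : 1 ≤ C0) (hcoord : ∀ x i, |(bas i x : ℝ)| ≤ C0 * N x)
    (P1 : AP N σ e B1 W F1 a1 b1) (P2 : BP N σ d B2 F2 a2 b2)
    (hr : 0 < r) (hd : 3 ≤ d) (hm1 : F1.Monic) (hFd1 : F1.natDegree = r) (hF1 : Prime F1)
    (hFx1 : ∀ j, (F1.coeff j).natDegree ≤ r)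
    (hm2 : F2.Monic) (hFd2 : F2.natDegree = d) (hF2 : Prime F2)
    (hk : 0 < Fintype.card ι) (hkι : 3 * Fintype.card ι ≤ r * d) (w : ℕ) (hw : 4 * r ≤ w)
    (hY1 : |(a1 : ℝ)| ^ w ≤ |(a2 : ℝ)|) (hY2 : |(a2 : ℝ)| ≤ |(a1 : ℝ)| ^ (w + 1))
    (hsmall : d.factorial * ((d * (3 * d + 1 : ℕ) * HT r d w C0 B1 W B2) * (1 + B2) ^ d) ^ d
      < |(a2 : ℝ)|) :
    ∃ o : ℕ,
      |(a1 : ℝ)| ^ o ≤ |(a1 : ℝ)| ^ ((d * (3 * d + 1)) ^ r) *
        ((((d * (3 * d + 1)) ^ r).factorial : ℕ) *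
          (((r * ((4 * d * w - r) + r * r) : ℕ) : ℝ) ^ ((d * (3 * d + 1)) ^ r) *
            (r.factorial * ((r * (4 * d * w - r : ℕ) * HT r d w C0 B1 W B2) * (1 + W) ^ r) ^ r))
              ^ ((d * (3 * d + 1)) ^ r)) ∧
      |(a1 : ℝ)| ^ w ≤ |(a1 : ℝ)| ^ (2 * e * o) * (|(a1 : ℝ)| ^ (4 * d) * 2 ^ (4 * d * w) *
        ((8 * d + 2 : ℕ) * ((d * (3 * d + 1) : ℕ) * (B2 ^ (17 * d + 2) * (B1 ^ w) ^ (16 * d + 2) *
          (r * (4 * d * w - r : ℕ) * (HT r d w C0 B1 W B2 * W ^ r)))))) := by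
  have hB1 := P1.hB
  have hW := P1.hW
  have hB2 := P2.hB
  obtain ⟨T, hT0, hT, hTH⟩ := exists_auxG h1 bas hb C0 hC0 hcoord P1 P2 hr hd hk hkι w hw
  obtain ⟨HH, hHH⟩ : ∃ HH, HH = HT r d w C0 B1 W B2 := ⟨_, rfl⟩
  rw [← hHH] at hsmall hTH ⊢
  have hn : 0 < 4 * d * w - r := by
    have : r < 4 * d * w := by
      calc r < 4 * r := by omega
        _ ≤ w := hw
        _ = 1 * w := by ring
        _ ≤ 4 * d * w := Nat.mul_le_mul_right _ (by omega)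
    omega
  -- nonvanishing of `T`
  obtain ⟨μ0, hμ0⟩ : ∃ μ, T μ ≠ 0 := by
    by_contra hcon
    push_neg at hcon
    exact hT0 (funext hcon)
  obtain ⟨s0, hs0⟩ : ∃ s, T μ0 s ≠ 0 := by
    by_contra hcon
    push_neg at hcon
    exact hμ0 (funext hcon)
  have hHH1 : 1 ≤ HH := by
    have h2 : (1 : ℝ) ≤ |(T μ0 s0 : ℝ)| := by
      have := Int.one_le_abs hs0
      exact_mod_cast this
    exact h2.trans (hTH μ0 s0)
  -- nonvanishing of V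
  have hV : ∑ μ : Mo d, C (C (a2 ^ (μ.2 : ℕ) * b2 ^ (μ.1 : ℕ))) * boxPoly (T μ) ≠ 0 := by
    intro h0
    have hG : ev a2 b2 (boxPoly (fun μ : Mo d => T μ s0)) = 0 := by
      rw [ev_boxPoly]
      have h2 := congrArg (fun p : ℤ[X][X] => (p.coeff (s0.1 : ℕ)).coeff (s0.2 : ℕ)) h0
      simp only [finsetSum_coeff, coeff_zero] at h2
      rw [← h2]
      apply Finset.sum_congr rfl
      intro μ _
      rw [coeff_C_mul, coeff_C_mul, coeff_boxPoly]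
      simp only [Int.cast_id]
      ring
    have h3 := small_box F2 d (3 * d + 1) (by omega) hm2 hFd2 hF2 a2 b2 P2.a_ne P2.hev
      (fun μ => T μ s0) (fun h => hs0 (congrFun h μ0)) hG HH (fun μ => hTH μ s0)
    have h4 : (d.factorial : ℝ) * ((d * (3 * d + 1 : ℕ) * HH) * (1 + pn (pn zn) F2) ^ d) ^ d
        ≤ d.factorial * ((d * (3 * d + 1 : ℕ) * HH) * (1 + B2) ^ d) ^ d := by
      have h5 := P2.hFn
      have h6 : 0 ≤ pn (pn zn) F2 := apply_nonneg _ _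
      have hHH0 : 0 ≤ HH := by linarith
      gcongr
    linarith
  have hkn : (1 : ℝ) ≤ (r : ℝ) * ((4 * d * w - r : ℕ) : ℝ) := by
    have : 0 < r * (4 * d * w - r) := Nat.mul_pos hr hn
    exact_mod_cast this
  have hbU : 1 ≤ (r * (4 * d * w - r : ℕ) * HH : ℝ) := one_le_mul_of_one_le_of_one_le hkn hHH1
  obtain ⟨Y, hXY, hFY, o, ho, hineq⟩ := arith_partG F1 r (4 * d * w - r) hr hm1 hFd1 hF1 hFx1
    a1 b1 P1.a_ne P1.hev P1.hD hn T (fun μ : Mo d => a2 ^ (μ.2 : ℕ) * b2 ^ (μ.1 : ℕ))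
    (r * (4 * d * w - r : ℕ) * HH) hbU (fun μ => pn_boxPoly_le _ _ (hTH μ)) hV
  rw [card_Mo] at hineq
  refine ⟨o, ?_, ?_⟩
  · refine hineq.trans ?_
    have h5 := P1.hFn
    have h6 : 0 ≤ pn (pn zn) F1 := apply_nonneg _ _
    gcongr
  · have hlink := link_coeff F1 (∑ μ : Mo d, C (C (a2 ^ (μ.2 : ℕ) * b2 ^ (μ.1 : ℕ))) * boxPoly (T μ))
      a1 b1 _ rfl P1.hD Y hXY hFY _ P1.hy P1.hF o
    have hana := analytic_partG h1 hσ P1 P2 w (4 * d * w - r) (by omega) T hT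
      HH (by linarith) hTH o
    rw [card_Mo] at hana
    have hone : (1 : ℝ) ≤ |((PowerSeries.coeff o
        (ev (PowerSeries.C a1 + PowerSeries.C ((ev a1 b1 (derivative F1)) ^ 2) * PowerSeries.X)
        (PowerSeries.C b1 + PowerSeries.C (ev a1 b1 (derivative F1)) * Y)
        (∑ μ : Mo d, C (C (a2 ^ (μ.2 : ℕ) * b2 ^ (μ.1 : ℕ))) * boxPoly (T μ))) : ℤ) : ℝ)| := by
      have := Int.one_le_abs ho
      exact_mod_cast this
    rw [hlink, abs_mul] at hone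
    have hD2 : |(((ev a1 b1 (derivative F1) : ℤ) : ℝ) ^ 2) ^ o| ≤ |(a1 : ℝ)| ^ (2 * e * o) := by
      rw [← pow_mul, abs_pow]
      calc |((ev a1 b1 (derivative F1) : ℤ) : ℝ)| ^ (2 * o) ≤ (|(a1 : ℝ)| ^ e) ^ (2 * o) :=
            pow_le_pow_left₀ (abs_nonneg _) P1.hDle _
        _ = _ := by rw [← pow_mul]; congr 1; ring
    have hX : 4 ≤ |(a1 : ℝ)| := P1.a_ge
    have hbU' : (0 : ℝ) ≤ (r * (4 * d * w - r : ℕ) * (HH * W ^ r)) := by
      have : 0 ≤ W := by linarith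
      have : 0 ≤ HH := by linarith
      positivity
    have hfb := final_boundG |(a1 : ℝ)| |(a2 : ℝ)| B1 B2 _ ((d * (3 * d + 1) : ℕ) : ℝ) hX hB1 hB2
      hbU' (by positivity) d w o hY1 hY2
    set G := |PowerSeries.coeff o (ev (PowerSeries.C (a1 : ℝ) + PowerSeries.X)
      ((PowerSeries.C (a1 : ℝ) + PowerSeries.X) * sb P1.θ (PowerSeries.map σ P1.ω))
      (∑ μ : Mo d, C (C (a2 ^ (μ.2 : ℕ) * b2 ^ (μ.1 : ℕ))) * boxPoly (T μ)))| with hG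
    have h7 : (1 : ℝ) ≤ |(a1 : ℝ)| ^ (2 * e * o) * G :=
      hone.trans (mul_le_mul_of_nonneg_right hD2 (abs_nonneg _))
    have hX0 : 0 < |(a1 : ℝ)| := by linarith
    calc |(a1 : ℝ)| ^ w = 1 * |(a1 : ℝ)| ^ w := by ring
      _ ≤ (|(a1 : ℝ)| ^ (2 * e * o) * G) * |(a1 : ℝ)| ^ w := by gcongr
      _ = |(a1 : ℝ)| ^ (2 * e * o) * (G * |(a1 : ℝ)| ^ w) := by ring
      _ ≤ _ := by
        apply mul_le_mul_of_nonneg_left _ (by positivity)
        exact (mul_le_mul_of_nonneg_right hana (by positivity)).trans hfb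

end Main

end Pool.Agent.W257
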