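import Pool.Agent.W257.K4

/-!
Generalised two-point argument (composita): numerical part.
-/

open Finset

namespace Pool.Agent.W257

open Pool.Agent.H322R2

lemma nat_le_pow {Z : ℝ} (hZ : 2 ≤ Z) (c : ℕ) : (c : ℝ) ≤ Z ^ c := by
  have h1 : (c : ℝ) ≤ 2 ^ c := by exact_mod_cast (Nat.lt_two_pow_self (n := c)).le
  exact h1.trans (pow_le_pow_left₀ (by norm_num) hZ c)

lemma fact_le_pow {Z : ℝ} (hZ : 2 ≤ Z) (c : ℕ) : ((c.factorial : ℕ) : ℝ) ≤ Z ^ (c ^ 2) := by
  have h1 : (c.factorial : ℝ) ≤ (c : ℝ) ^ c := by exact_mod_cast Nat.factorial_le_pow c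
  calc (c.factorial : ℝ) ≤ (c : ℝ) ^ c := h1
    _ ≤ (Z ^ c) ^ c := pow_le_pow_left₀ (by positivity) (nat_le_pow hZ c) c
    _ = Z ^ (c ^ 2) := by rw [← pow_mul]; congr 1; ring

/-- exponents -/
def eH (r d : ℕ) : ℕ := 13 * (d * (3 * d + 1) + r + 21 * d + 3)
def eS (r d : ℕ) : ℕ := d ^ 2 + (d + (3 * d + 1) + eH r d + 2 * d) * d
def eA (r d : ℕ) : ℕ := ((d * (3 * d + 1)) ^ r) ^ 2 +
  ((r + (4 * d + 1 + r * r)) * (d * (3 * d + 1)) ^ r + (r ^ 2 + (r + (4 * d + 1) + eH r d + 1) * r))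
    * (d * (3 * d + 1)) ^ r
def eB (r d : ℕ) : ℕ := 4 * d + ((8 * d + 2) + (d * (3 * d + 1) + ((17 * d + 2) + (16 * d + 2) +
  (r + (4 * d + 1) + (eH r d + 1)))))

section Zs

variable {r d w : ℕ} {C0 B1 W B2 Z : ℝ} (hC0 : 1 ≤ C0) (hB1 : 1 ≤ B1) (hW : 1 ≤ W) (hB2 : 1 ≤ B2)
  (hZ : 2 ≤ Z) (hw1 : 1 ≤ w) (hZw : (w : ℝ) ≤ Z) (hZ2w : (2 : ℝ) ^ w ≤ Z) (hZB1 : B1 ^ w ≤ Z)
  (hZB2 : B2 ≤ Z) (hZC : C0 * W ^ r ≤ Z) (hZW : W ^ r ≤ Z) (hZW1 : (1 + W) ^ r ≤ Z)

include hZ hZw in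
lemma n_le : ((4 * d * w - r : ℕ) : ℝ) ≤ Z ^ (4 * d + 1) := by
  have h1 : ((4 * d * w - r : ℕ) : ℝ) ≤ ((4 * d : ℕ) : ℝ) * w := by
    have : 4 * d * w - r ≤ (4 * d) * w := Nat.sub_le _ _
    exact_mod_cast this
  refine h1.trans ?_
  rw [pow_succ]
  exact mul_le_mul (nat_le_pow hZ _) hZw (by positivity) (by positivity)

include hC0 hB1 hW hB2 hZ hZw hZB1 hZB2 hZC in
lemma HT_le : HT r d w C0 B1 W B2 ≤ Z ^ (eH r d) := by
  have hn := n_le (r := r) (d := d) hZ hZw
  unfold HT eH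
  have e1 : (((d * (3 * d + 1)) * (r * (4 * d * w - r)) : ℕ) : ℝ)
      ≤ Z ^ (d * (3 * d + 1) + (r + (4 * d + 1))) := by
    rw [pow_add, pow_add]
    have h1 := nat_le_pow hZ (d * (3 * d + 1))
    have h2 := nat_le_pow hZ r
    rw [Nat.cast_mul (d * (3 * d + 1)), Nat.cast_mul r]
    exact mul_le_mul h1 (mul_le_mul h2 hn (by positivity) (by positivity)) (by positivity)
      (by positivity)
  have e2 : C0 * (B2 ^ (9 * d) * (W ^ r * B1 ^ (w * (8 * d + 1))))
      ≤ Z ^ (1 + (9 * d + (8 * d + 1))) := by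
    have h3 : C0 * (B2 ^ (9 * d) * (W ^ r * B1 ^ (w * (8 * d + 1))))
        = (C0 * W ^ r) * (B2 ^ (9 * d) * (B1 ^ w) ^ (8 * d + 1)) := by
      rw [← pow_mul]; ring
    rw [h3, pow_add Z, pow_add Z (9 * d), pow_one]
    apply mul_le_mul hZC _ (by positivity) (by positivity)
    apply mul_le_mul (pow_le_pow_left₀ (by positivity) hZB2 _)
      (pow_le_pow_left₀ (by positivity) hZB1 _) (by positivity) (by positivity)
  calc _ ≤ (Z ^ (d * (3 * d + 1) + (r + (4 * d + 1))) * Z ^ (1 + (9 * d + (8 * d + 1)))) ^ 13 := by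
        apply pow_le_pow_left₀ (by positivity)
        exact mul_le_mul e1 e2 (by positivity) (by positivity)
    _ = _ := by rw [← pow_add, ← pow_mul]; congr 1; ring

include hC0 hB1 hW hB2 hZ hZw hZB1 hZB2 hZC in
lemma small_le : d.factorial * ((d * (3 * d + 1 : ℕ) * HT r d w C0 B1 W B2) * (1 + B2) ^ d) ^ d
    ≤ Z ^ (eS r d) := by
  have hH := HT_le (r := r) (d := d) hC0 hB1 hW hB2 hZ hZw hZB1 hZB2 hZC
  have hH0 : 0 ≤ HT r d w C0 B1 W B2 := by unfold HT; positivity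
  have e1 : 1 + B2 ≤ Z ^ 2 := by nlinarith
  have e2 : (d : ℝ) * ((3 * d + 1 : ℕ) : ℝ) * HT r d w C0 B1 W B2 * (1 + B2) ^ d
      ≤ Z ^ (d + (3 * d + 1) + eH r d + 2 * d) := by
    rw [pow_add, pow_add, pow_add, pow_mul]
    have h1 := nat_le_pow hZ d
    have h2 := nat_le_pow hZ (3 * d + 1)
    apply mul_le_mul _ (pow_le_pow_left₀ (by positivity) e1 d) (by positivity) (by positivity)
    apply mul_le_mul _ hH (by positivity) (by positivity)
    exact mul_le_mul h1 h2 (by positivity) (by positivity)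
  unfold eS
  rw [pow_add, pow_mul]
  apply mul_le_mul (fact_le_pow hZ d) (pow_le_pow_left₀ (by positivity) e2 d) (by positivity)
    (by positivity)

include hC0 hB1 hW hB2 hZ hw1 hZw hZB1 hZB2 hZC hZW1 in
lemma first_le : ((((d * (3 * d + 1)) ^ r).factorial : ℕ) *
          (((r * ((4 * d * w - r) + r * r) : ℕ) : ℝ) ^ ((d * (3 * d + 1)) ^ r) *
            (r.factorial * ((r * (4 * d * w - r : ℕ) * HT r d w C0 B1 W B2) * (1 + W) ^ r) ^ r))
              ^ ((d * (3 * d + 1)) ^ r)) ≤ Z ^ (eA r d) := by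
  have hn := n_le (r := r) (d := d) hZ hZw
  have hH := HT_le (r := r) (d := d) hC0 hB1 hW hB2 hZ hZw hZB1 hZB2 hZC
  have hH0 : 0 ≤ HT r d w C0 B1 W B2 := by unfold HT; positivity
  obtain ⟨R, hR⟩ : ∃ R, R = (d * (3 * d + 1)) ^ r := ⟨_, rfl⟩
  unfold eA
  rw [← hR]
  have hZ0 : 0 < Z := by linarith
  have e1 : ((r * ((4 * d * w - r) + r * r) : ℕ) : ℝ) ≤ Z ^ (r + (4 * d + 1 + r * r)) := by
    rw [pow_add, Nat.cast_mul]
    apply mul_le_mul (nat_le_pow hZ r) _ (by positivity) (by positivity)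
    have h1 : (((4 * d * w - r) + r * r : ℕ) : ℝ) ≤ ((4 * d + r * r : ℕ) : ℝ) * w := by
      have : (4 * d * w - r) + r * r ≤ (4 * d + r * r) * w := by
        have h2 : r * r ≤ r * r * w := Nat.le_mul_of_pos_right _ hw1
        have h3 : (4 * d + r * r) * w = 4 * d * w + r * r * w := by ring
        omega
      exact_mod_cast this
    refine h1.trans ?_
    have h4 : Z ^ (4 * d + 1 + r * r) = Z ^ (4 * d + r * r) * Z := by
      rw [← pow_succ]; congr 1; ring
    rw [h4]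
    exact mul_le_mul (nat_le_pow hZ _) hZw (by positivity) (by positivity)
  have e2 : (r : ℝ) * (4 * d * w - r : ℕ) * HT r d w C0 B1 W B2 * (1 + W) ^ r
      ≤ Z ^ (r + (4 * d + 1) + eH r d + 1) := by
    rw [pow_add, pow_add, pow_add, pow_one]
    apply mul_le_mul _ hZW1 (by positivity) (by positivity)
    apply mul_le_mul _ hH hH0 (by positivity)
    exact mul_le_mul (nat_le_pow hZ r) hn (by positivity) (by positivity)
  have e3 : ((r * ((4 * d * w - r) + r * r) : ℕ) : ℝ) ^ R *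
            (r.factorial * ((r * (4 * d * w - r : ℕ) * HT r d w C0 B1 W B2) * (1 + W) ^ r) ^ r)
      ≤ Z ^ ((r + (4 * d + 1 + r * r)) * R + (r ^ 2 + (r + (4 * d + 1) + eH r d + 1) * r)) := by
    rw [pow_add, pow_add, pow_mul, pow_mul]
    apply mul_le_mul (pow_le_pow_left₀ (by positivity) e1 R) _ (by positivity) (by positivity)
    exact mul_le_mul (fact_le_pow hZ r) (pow_le_pow_left₀ (by positivity) e2 r) (by positivity)
      (by positivity)
  rw [pow_add, pow_mul]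
  exact mul_le_mul (fact_le_pow hZ R) (pow_le_pow_left₀ (by positivity) e3 R) (by positivity)
    (by positivity)

include hC0 hB1 hW hB2 hZ hZw hZ2w hZB1 hZB2 hZC hZW in
lemma second_le : (2 : ℝ) ^ (4 * d * w) *
        ((8 * d + 2 : ℕ) * ((d * (3 * d + 1) : ℕ) * (B2 ^ (17 * d + 2) * (B1 ^ w) ^ (16 * d + 2) *
          (r * (4 * d * w - r : ℕ) * (HT r d w C0 B1 W B2 * W ^ r))))) ≤ Z ^ (eB r d) := by
  have hn := n_le (r := r) (d := d) hZ hZw
  have hH := HT_le (r := r) (d := d) hC0 hB1 hW hB2 hZ hZw hZB1 hZB2 hZC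
  have hH0 : 0 ≤ HT r d w C0 B1 W B2 := by unfold HT; positivity
  have hZ0 : 0 < Z := by linarith
  unfold eB
  rw [pow_add Z (4 * d), pow_add Z (8 * d + 2), pow_add Z (d * (3 * d + 1)),
    pow_add Z (17 * d + 2 + (16 * d + 2)), pow_add Z (17 * d + 2), pow_add Z (r + (4 * d + 1)),
    pow_add Z r, pow_add Z (eH r d), pow_one]
  have h1 : (2 : ℝ) ^ (4 * d * w) ≤ Z ^ (4 * d) := by
    rw [mul_comm (4 * d) w, pow_mul]
    exact pow_le_pow_left₀ (by positivity) hZ2w _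
  apply mul_le_mul h1 _ (by positivity) (by positivity)
  apply mul_le_mul (nat_le_pow hZ _) _ (by positivity) (by positivity)
  apply mul_le_mul (nat_le_pow hZ _) _ (by positivity) (by positivity)
  apply mul_le_mul _ _ (by positivity) (by positivity)
  · exact mul_le_mul (pow_le_pow_left₀ (by positivity) hZB2 _)
      (pow_le_pow_left₀ (by positivity) hZB1 _) (by positivity) (by positivity)
  · apply mul_le_mul _ _ (by positivity) (by positivity)
    · exact mul_le_mul (nat_le_pow hZ r) hn (by positivity) (by positivity)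
    · exact mul_le_mul hH hZW (by positivity) (by positivity)

end Zs

/-- the exponent of the generalised two-point principle -/
def kapG (r d e : ℕ) : ℕ := 2 * e * (d * (3 * d + 1)) ^ r + 4 * d + 3 * (2 * e * eA r d + eB r d)
  + 3 * eS r d + 4 * r + 1

theorem numericG {r d e : ℕ} (hr : 0 < r) {C0 B1 W B2 X Y : ℝ} (hC0 : 1 ≤ C0) (hB1 : 2 ≤ B1)
    (hW : 1 ≤ W) (hB2 : 2 ≤ B2) (hX1 : B1 ^ (kapG r d e) ≤ X)
    (hY1 : (X * (C0 * (1 + W) ^ (2 * r)) * B2) ^ (kapG r d e) ≤ Y) :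
    ∃ w : ℕ, 4 * r ≤ w ∧ X ^ w ≤ Y ∧ Y ≤ X ^ (w + 1) ∧
      d.factorial * ((d * (3 * d + 1 : ℕ) * HT r d w C0 B1 W B2) * (1 + B2) ^ d) ^ d < Y ∧
      ∀ o : ℕ,
      X ^ o ≤ X ^ ((d * (3 * d + 1)) ^ r) *
        ((((d * (3 * d + 1)) ^ r).factorial : ℕ) *
          (((r * ((4 * d * w - r) + r * r) : ℕ) : ℝ) ^ ((d * (3 * d + 1)) ^ r) *
            (r.factorial * ((r * (4 * d * w - r : ℕ) * HT r d w C0 B1 W B2) * (1 + W) ^ r) ^ r))
              ^ ((d * (3 * d + 1)) ^ r)) →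
      X ^ w ≤ X ^ (2 * e * o) * (X ^ (4 * d) * 2 ^ (4 * d * w) *
        ((8 * d + 2 : ℕ) * ((d * (3 * d + 1) : ℕ) * (B2 ^ (17 * d + 2) * (B1 ^ w) ^ (16 * d + 2) *
          (r * (4 * d * w - r : ℕ) * (HT r d w C0 B1 W B2 * W ^ r)))))) → False := by
  obtain ⟨κ, hκ⟩ : ∃ κ, κ = kapG r d e := ⟨_, rfl⟩
  rw [← hκ] at hX1 hY1
  have hκ1 : 1 ≤ κ := by rw [hκ]; unfold kapG; omega
  have hB1' : 1 ≤ B1 := by linarith
  have hB2' : 1 ≤ B2 := by linarith
  obtain ⟨C1, hC1⟩ : ∃ C1, C1 = C0 * (1 + W) ^ (2 * r) := ⟨_, rfl⟩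
  rw [← hC1] at hY1
  have hWr : 1 ≤ (1 + W) ^ r := one_le_pow₀ (by linarith)
  have hWr2 : (1 + W) ^ (2 * r) = (1 + W) ^ r * (1 + W) ^ r := by rw [two_mul, pow_add]
  have hC11 : 1 ≤ C1 := by
    rw [hC1]; exact one_le_mul_of_one_le_of_one_le hC0 (one_le_pow₀ (by linarith))
  have hX2 : 2 ≤ X := by
    calc (2 : ℝ) ≤ B1 := hB1
      _ = B1 ^ 1 := (pow_one _).symm
      _ ≤ B1 ^ κ := pow_le_pow_right₀ hB1' hκ1
      _ ≤ X := hX1
  have hX0 : 0 < X := by linarith
  have hbase : 1 ≤ X * C1 * B2 :=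
    one_le_mul_of_one_le_of_one_le (one_le_mul_of_one_le_of_one_le (by linarith) hC11) hB2'
  have hY0 : 0 < Y := lt_of_lt_of_le (by positivity) hY1
  obtain ⟨x, hxdef⟩ : ∃ x, x = Real.log X := ⟨_, rfl⟩
  obtain ⟨y, hydef⟩ : ∃ y, y = Real.log Y := ⟨_, rfl⟩
  have hx0 : 0 < x := by rw [hxdef]; exact Real.log_pos (by linarith)
  have hx1 : κ * Real.log B1 ≤ x := by
    have := Real.log_le_log (by positivity) hX1
    rw [Real.log_pow] at this
    rw [hxdef]; exact this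
  have hy1 : κ * (x + Real.log C1 + Real.log B2) ≤ y := by
    have := Real.log_le_log (by positivity) hY1
    rw [Real.log_pow, Real.log_mul (by positivity) (by positivity),
      Real.log_mul (by positivity) (by positivity)] at this
    rw [hxdef, hydef]; exact this
  have hβ1 : 0 ≤ Real.log B1 := Real.log_nonneg hB1'
  have hβ2 : 0 ≤ Real.log B2 := Real.log_nonneg hB2'
  have hγ : 0 ≤ Real.log C1 := Real.log_nonneg hC11
  have hκ0 : (0 : ℝ) < κ := by exact_mod_cast hκ1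
  have hyx : κ * x ≤ y := by
    have : κ * x ≤ κ * (x + Real.log C1 + Real.log B2) :=
      mul_le_mul_of_nonneg_left (by linarith) hκ0.le
    linarith
  set w := ⌊y / x⌋₊ with hwdef
  have hκw : κ ≤ w := by
    rw [hwdef]
    apply Nat.le_floor
    rwa [le_div_iff₀ hx0]
  have hw1 : (w : ℝ) * x ≤ y := by
    have h1 : (w : ℝ) ≤ y / x := Nat.floor_le (by
      have : 0 ≤ κ * x := by positivity
      exact div_nonneg (by linarith) hx0.le)
    rwa [le_div_iff₀ hx0] at h1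
  have hw2 : y < (w + 1) * x := by
    have h1 : y / x < w + 1 := Nat.lt_floor_add_one _
    rwa [div_lt_iff₀ hx0] at h1
  have hw0 : 1 ≤ w := hκ1.trans hκw
  have h4r : 4 * r ≤ w := by
    refine le_trans ?_ hκw
    rw [hκ]; unfold kapG; omega
  -- the quantity `Z`
  obtain ⟨Z, hZdef⟩ : ∃ Z, Z = B1 ^ w * C1 * B2 := ⟨_, rfl⟩
  have hB1w : 1 ≤ B1 ^ w := one_le_pow₀ hB1'
  have hZB1 : B1 ^ w ≤ Z := by
    rw [hZdef, mul_assoc]
    exact le_mul_of_one_le_right (by positivity) (one_le_mul_of_one_le_of_one_le hC11 hB2')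
  have hZB2 : B2 ≤ Z := by
    rw [hZdef]
    exact le_mul_of_one_le_left (by positivity) (one_le_mul_of_one_le_of_one_le hB1w hC11)
  have hZC1 : C1 ≤ Z := by
    rw [hZdef, mul_right_comm]
    exact le_mul_of_one_le_left (by positivity) (one_le_mul_of_one_le_of_one_le hB1w hB2')
  have hZ2 : 2 ≤ Z := hB2.trans hZB2
  have hZ0 : 0 < Z := by linarith
  have hZ2w : (2 : ℝ) ^ w ≤ Z := (pow_le_pow_left₀ (by norm_num) hB1 w).trans hZB1
  have hZw : (w : ℝ) ≤ Z := by
    have h1 : (w : ℝ) ≤ 2 ^ w := by exact_mod_cast (Nat.lt_two_pow_self (n := w)).le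
    exact h1.trans hZ2w
  have hWle : W ^ r ≤ (1 + W) ^ r := pow_le_pow_left₀ (by linarith) (by linarith) r
  have hWC1 : (1 + W) ^ r ≤ C1 := by
    rw [hC1, hWr2]
    calc (1 + W) ^ r = 1 * (1 * (1 + W) ^ r) := by ring
      _ ≤ C0 * ((1 + W) ^ r * (1 + W) ^ r) := by gcongr
  have hZW1 : (1 + W) ^ r ≤ Z := hWC1.trans hZC1
  have hZW : W ^ r ≤ Z := hWle.trans hZW1
  have hZC : C0 * W ^ r ≤ Z := by
    refine le_trans ?_ hZC1
    rw [hC1, hWr2]
    have : W ^ r ≤ (1 + W) ^ r * (1 + W) ^ r :=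
      hWle.trans (le_mul_of_one_le_left (by positivity) hWr)
    gcongr
  obtain ⟨S, hS⟩ : ∃ S, S = Real.log Z := ⟨_, rfl⟩
  have hSval : S = w * Real.log B1 + Real.log C1 + Real.log B2 := by
    rw [hS, hZdef, Real.log_mul (by positivity) (by positivity),
      Real.log_mul (by positivity) (by positivity), Real.log_pow]
  have hS0 : 0 < S := by rw [hS]; exact Real.log_pos (by linarith)
  have hwx0 : 0 < (w : ℝ) * x := by
    have : (0 : ℝ) < w := by exact_mod_cast hw0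
    positivity
  have hw1R : (1 : ℝ) ≤ w := by exact_mod_cast hw0
  have hκS : κ * S ≤ 3 * (w * x) := by
    have h1 : w * (κ * Real.log B1) ≤ w * x := mul_le_mul_of_nonneg_left hx1 (by positivity)
    have h2 : κ * (Real.log C1 + Real.log B2) ≤ y - κ * x := by linarith
    have h3 : y ≤ 2 * (w * x) := by nlinarith
    have h4 : 0 ≤ κ * x := by positivity
    rw [hSval]
    calc κ * (w * Real.log B1 + Real.log C1 + Real.log B2)
        = w * (κ * Real.log B1) + κ * (Real.log C1 + Real.log B2) := by ring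
      _ ≤ _ := by linarith
  refine ⟨w, h4r, ?_, ?_, ?_, ?_⟩
  · rw [← Real.log_le_log_iff (by positivity) hY0, Real.log_pow, ← hxdef, ← hydef]
    exact hw1
  · rw [← Real.log_le_log_iff hY0 (by positivity), Real.log_pow, ← hxdef, ← hydef]
    push_cast
    exact hw2.le
  · refine lt_of_le_of_lt (small_le (r := r) (d := d) (w := w) hC0 hB1' hW hB2' hZ2 hZw hZB1 hZB2
      hZC) ?_
    rw [← Real.log_lt_log_iff (by positivity) hY0, Real.log_pow, ← hS, ← hydef]
    have h1 : (3 * eS r d : ℝ) < κ := by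
      have : 3 * eS r d < κ := by rw [hκ]; unfold kapG; omega
      exact_mod_cast this
    have h2 : 3 * (eS r d * S) < 3 * y := by
      calc 3 * (eS r d * S) = (3 * eS r d) * S := by ring
        _ < κ * S := mul_lt_mul_of_pos_right h1 hS0
        _ ≤ 3 * (w * x) := hκS
        _ ≤ 3 * y := by linarith
    linarith
  · intro o h1 h2
    obtain ⟨R, hR⟩ : ∃ R, R = (d * (3 * d + 1)) ^ r := ⟨_, rfl⟩
    have g1 : X ^ o ≤ X ^ R * Z ^ (eA r d) := by
      refine h1.trans ?_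
      rw [← hR]
      apply mul_le_mul_of_nonneg_left _ (by positivity)
      rw [hR]
      exact first_le (r := r) (d := d) (w := w) hC0 hB1' hW hB2' hZ2 hw0 hZw hZB1 hZB2 hZC hZW1
    have g2 : X ^ w ≤ X ^ (2 * e * o) * (X ^ (4 * d) * Z ^ (eB r d)) := by
      refine h2.trans ?_
      apply mul_le_mul_of_nonneg_left _ (by positivity)
      rw [mul_assoc]
      apply mul_le_mul_of_nonneg_left _ (by positivity)
      exact second_le (r := r) (d := d) (w := w) hC0 hB1' hW hB2' hZ2 hZw hZ2w hZB1 hZB2 hZC hZW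
    have l1 := Real.log_le_log (by positivity) g1
    rw [Real.log_pow, Real.log_mul (by positivity) (by positivity), Real.log_pow, Real.log_pow,
      ← hxdef, ← hS] at l1
    have l2 := Real.log_le_log (by positivity) g2
    rw [Real.log_pow, Real.log_mul (by positivity) (by positivity), Real.log_pow,
      Real.log_mul (by positivity) (by positivity), Real.log_pow, Real.log_pow,
      ← hxdef, ← hS] at l2
    push_cast at l2
    have l3 : 2 * (e : ℝ) * o * x ≤ 2 * e * (R * x + eA r d * S) := by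
      calc 2 * (e : ℝ) * o * x = 2 * e * (o * x) := by ring
        _ ≤ _ := mul_le_mul_of_nonneg_left l1 (by positivity)
    have l4 : w * x ≤ (2 * e * R + 4 * d) * x + (2 * e * eA r d + eB r d) * S := by
      calc w * x ≤ 2 * e * o * x + (4 * d * x + eB r d * S) := l2
        _ ≤ 2 * e * (R * x + eA r d * S) + (4 * d * x + eB r d * S) := by linarith
        _ = _ := by ring
    have l5 : κ * (w * x) ≤ κ * ((2 * e * R + 4 * d) * x) + (2 * e * eA r d + eB r d) * (κ * S) := by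
      calc κ * (w * x) ≤ κ * ((2 * e * R + 4 * d) * x + (2 * e * eA r d + eB r d) * S) :=
            mul_le_mul_of_nonneg_left l4 hκ0.le
        _ = _ := by ring
    have hκwR : (κ : ℝ) ≤ w := by exact_mod_cast hκw
    have l6 : κ * ((2 * e * R + 4 * d) * x) ≤ (2 * e * R + 4 * d) * (w * x) := by
      calc κ * ((2 * e * R + 4 * d) * x) = κ * x * (2 * e * R + 4 * d) := by ring
        _ ≤ w * x * (2 * e * R + 4 * d) := by gcongr
        _ = _ := by ring
    have l7 : (2 * (e : ℝ) * eA r d + eB r d) * (κ * S)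
        ≤ (2 * e * eA r d + eB r d) * (3 * (w * x)) :=
      mul_le_mul_of_nonneg_left hκS (by positivity)
    have l8 : (κ : ℝ) * (w * x) ≤
        (2 * e * R + 4 * d + 3 * (2 * e * eA r d + eB r d)) * (w * x) := by
      calc (κ : ℝ) * (w * x) ≤ _ := l5
        _ ≤ (2 * e * R + 4 * d) * (w * x) + (2 * e * eA r d + eB r d) * (3 * (w * x)) :=
            add_le_add l6 l7
        _ = _ := by ring
    have l9 := le_of_mul_le_mul_right l8 hwx0
    have l10 : ((2 * e * R + 4 * d + 3 * (2 * e * eA r d + eB r d) : ℕ) : ℝ) < κ := by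
      have : 2 * e * R + 4 * d + 3 * (2 * e * eA r d + eB r d) < κ := by
        rw [hκ, hR]; unfold kapG; omega
      exact_mod_cast this
    push_cast at l10
    linarith

end Pool.Agent.W257
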