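import Pool.Agent.W257.K5
import Pool.Agent.H322R2.AMon
import Pool.Agent.W571.ESG.C456

/-!
The generalised two-point principle and transport between number fields.
-/

open Polynomial Finset NumberField IntermediateField

namespace Pool.Agent.W257

open Pool.Agent.H322R2

theorem two_pointG {r d e : ℕ} (hr : 0 < r) (hd : 3 ≤ d) {A : Type} [CommRing A]
    {N : RingSeminorm A} {σ : A →+* ℝ}
    (h1 : N 1 ≤ 1) (hσ : ∀ x, |σ x| ≤ N x) {ι : Type} [Fintype ι] (bas : ι → A →+ ℤ)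
    (hb : ∀ x, (∀ i, bas i x = 0) → x = 0)
    (C0 : ℝ) (hC0 : 1 ≤ C0) (hcoord : ∀ x i, |(bas i x : ℝ)| ≤ C0 * N x)
    (hk : 0 < Fintype.card ι) (hkι : 3 * Fintype.card ι ≤ r * d)
    {B1 W : ℝ} {F1 G2 : ℤ[X][X]} {H2 : ℝ} {α2 : A} {a1 b1 a2 b2 : ℤ}
    (P1 : AP N σ e B1 W F1 a1 b1) (hm1 : F1.Monic) (hFd1 : F1.natDegree = r) (hF1 : Prime F1)
    (hFx1 : ∀ j, (F1.coeff j).natDegree ≤ r)
    (P2 : Pt N σ d G2 H2 α2 a2 b2) (ha1 : B1 ^ (kapG r d e) ≤ |(a1 : ℝ)|) :
    |(a2 : ℝ)| ≤ (|(a1 : ℝ)| * (C0 * (1 + W) ^ (2 * r)) * bB d H2) ^ (kapG r d e) := by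
  by_contra hcon
  push_neg at hcon
  obtain ⟨C1, hC1⟩ : ∃ C1, C1 = C0 * (1 + W) ^ (2 * r) := ⟨_, rfl⟩
  rw [← hC1] at hcon
  have hB1 := P1.hB
  have hW := P1.hW
  have hH2 := P2.hH
  have hC11 : 1 ≤ C1 := by
    rw [hC1]
    exact one_le_mul_of_one_le_of_one_le hC0 (one_le_pow₀ (by linarith))
  have hb1 : 1 ≤ B1 := by linarith
  have hb2 : 1 ≤ bB d H2 := one_le_pow₀ (by linarith)
  have hkap : 2 ≤ kapG r d e := by unfold kapG; omega
  have ha1ge : 1 ≤ |(a1 : ℝ)| := (one_le_pow₀ hb1).trans ha1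
  have ha1C : 1 ≤ |(a1 : ℝ)| * C1 := one_le_mul_of_one_le_of_one_le ha1ge hC11
  have ha2sq : bB d H2 ^ 2 ≤ |(a2 : ℝ)| := by
    refine le_trans ?_ hcon.le
    calc bB d H2 ^ 2 ≤ bB d H2 ^ (kapG r d e) := pow_le_pow_right₀ hb2 hkap
      _ ≤ _ := pow_le_pow_left₀ (by linarith) (le_mul_of_one_le_left (by linarith) ha1C) _
  obtain ⟨Q2⟩ := P2.bp h1 hσ (by omega) ha2sq
  obtain ⟨w, hw, hY1, hY2, hsmall, hfin⟩ := numericG (r := r) (d := d) (e := e)
    (Y := |(a2 : ℝ)|) hr hC0 hB1 hW Q2.hB ha1 (by rw [← hC1]; exact hcon.le)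
  obtain ⟨o, ho1, ho2⟩ := core_ineqG h1 hσ bas hb C0 hC0 hcoord P1 Q2 hr hd hm1 hFd1 hF1 hFx1
    P2.monic P2.deg P2.prime hk hkι w hw hY1 hY2 hsmall
  exact hfin o ho1 ho2

section Transport

variable {A A' : Type} [CommRing A] [CommRing A'] {N : RingSeminorm A} {σ : A →+* ℝ}
  {N' : RingSeminorm A'} {σ' : A' →+* ℝ} (f : A →+* A') (hN : ∀ x, N' (f x) ≤ N x)
  (hσ : ∀ x, σ' (f x) = σ x)

include hN in
lemma Bd_map {ρ B : ℝ} (hρ : 0 ≤ ρ) {u : PowerSeries A} (hu : Bd N ρ u B) :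
    Bd N' ρ (PowerSeries.map f u) B := by
  intro K
  refine le_trans ?_ (hu K)
  apply Finset.sum_le_sum
  intro n _
  rw [PowerSeries.coeff_map]
  exact mul_le_mul_of_nonneg_right (hN _) (pow_nonneg hρ n)

include hσ in
lemma map_map_eq (u : PowerSeries A) :
    PowerSeries.map σ' (PowerSeries.map f u) = PowerSeries.map σ u := by
  ext n
  rw [PowerSeries.coeff_map, PowerSeries.coeff_map, PowerSeries.coeff_map, hσ]

/-- transport of an anchor point -/
noncomputable def AP.transport {e : ℕ} {B W : ℝ} {F : ℤ[X][X]} {a b : ℤ}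
    (P : AP N σ e B W F a b) : AP N' σ' e B W F a b where
  ζ := PowerSeries.map f P.ζ
  ω := PowerSeries.map f P.ω
  ρ := P.ρ
  θ := P.θ
  hB := P.hB
  hW := P.hW
  ha := P.ha
  hρB := P.hρB
  hζ := Bd_map f hN P.ρ_pos.le P.hζ
  hω := Bd_map f hN P.ρ_pos.le P.hω
  hθ := P.hθ
  hx := by rw [map_map_eq f hσ]; exact P.hx
  hy := by rw [map_map_eq f hσ]; exact P.hy
  hF := by rw [map_map_eq f hσ]; exact P.hF
  hD := P.hD
  hDle := P.hDle
  hFn := P.hFn

include hN hσ in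
lemma Pt_transport {d : ℕ} {G : ℤ[X][X]} {H : ℝ} {α : A} {a b : ℤ} (P : Pt N σ d G H α a b) :
    Pt N' σ' d G H (f α) a b where
  monic := P.monic
  deg := P.deg
  prime := P.prime
  td := P.td
  hH := P.hH
  pnG := P.pnG
  root := by rw [← map_evf, P.root, map_zero]
  Nα := (hN α).trans P.Nα
  σα := by rw [hσ]; exact P.σα
  der := by rw [hσ]; exact P.der
  zero := P.zero
  near := by rw [hσ]; exact P.near

end Transport

section NF

variable {K L : IntermediateField ℚ ℝ} [NumberField K] [NumberField L] (h : K ≤ L)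

/-- inclusion of rings of integers -/
noncomputable def incl : 𝓞 K →+* 𝓞 L :=
  RingOfIntegers.mapRingHom (IntermediateField.inclusion h).toRingHom

omit [NumberField K] [NumberField L] in
lemma coe_incl (x : 𝓞 K) : ((incl h x : 𝓞 L) : L) = IntermediateField.inclusion h (x : K) := rfl

omit [NumberField K] [NumberField L] in
lemma rE_incl (x : 𝓞 K) : rE L (algebraMap L ℝ) (incl h x) = rE K (algebraMap K ℝ) x := rfl

lemma hs_incl (x : 𝓞 K) : hs L (incl h x) ≤ hs K x := by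
  have e1 : algebraMap (𝓞 L) L (incl h x) = IntermediateField.inclusion h (algebraMap (𝓞 K) K x) := rfl
  rw [hs_apply, hs_apply, house_eq_sup', e1]
  have h3 : univ.sup' univ_nonempty
      (fun φ : L →+* ℂ ↦ ‖φ (IntermediateField.inclusion h (algebraMap (𝓞 K) K x))‖₊)
      ≤ (house (algebraMap (𝓞 K) K x)).toNNReal := by
    apply Finset.sup'_le
    intro φ _
    rw [← NNReal.coe_le_coe, Real.coe_toNNReal _ (house_nonneg _), coe_nnnorm]
    exact norm_embedding_le_house (algebraMap (𝓞 K) K x)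
      (φ.comp (IntermediateField.inclusion h).toRingHom)
  rw [← NNReal.coe_le_coe, Real.coe_toNNReal _ (house_nonneg _)] at h3
  exact h3

end NF

/-- a spanning set of algebraic integers with bounded house -/
structure Gen (K : IntermediateField ℚ ℝ) [NumberField K] (S : Set ℝ) (h : ℝ) : Prop where
  span : (Submodule.span ℚ S : Set ℝ) = K
  int : ∀ s ∈ S, ∃ α : 𝓞 K, rE K (algebraMap K ℝ) α = s ∧ hs K α ≤ h

lemma Gen.sup {K₁ K₂ : IntermediateField ℚ ℝ} [NumberField K₁] [NumberField K₂]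
    [NumberField ↥(K₁ ⊔ K₂)] {S₁ S₂ : Set ℝ} {h₁ h₂ : ℝ} (H₁ : Gen K₁ S₁ h₁) (H₂ : Gen K₂ S₂ h₂)
    (hh : 0 ≤ h₁) :
    Gen (K₁ ⊔ K₂) (Set.image2 (fun x y => x * y) S₁ S₂) (h₁ * h₂) := by
  refine ⟨Pool.Agent.W571.ESG.main_span K₁ K₂ S₁ S₂ inferInstance inferInstance H₁.span H₂.span, ?_⟩
  rintro s ⟨x, hx, y, hy, rfl⟩
  obtain ⟨α, hα1, hα2⟩ := H₁.int x hx
  obtain ⟨β, hβ1, hβ2⟩ := H₂.int y hy
  refine ⟨incl le_sup_left α * incl le_sup_right β, ?_, ?_⟩
  · rw [map_mul, rE_incl, rE_incl, hα1, hβ1]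
  · refine (map_mul_le_mul _ _ _).trans ?_
    apply mul_le_mul ((hs_incl _ _).trans hα2) ((hs_incl _ _).trans hβ2) (apply_nonneg _ _) hh

/-- trace functionals attached to a spanning set -/
theorem exists_bas {K : IntermediateField ℚ ℝ} [NumberField K] {S : Set ℝ} {h : ℝ}
    (HS : Gen K S h) :
    ∃ bas : Fin (Module.finrank ℚ K) → 𝓞 K →+ ℤ, (∀ x, (∀ i, bas i x = 0) → x = 0) ∧
      ∀ x i, |(bas i x : ℝ)| ≤ (Module.finrank ℚ K * h) * hs K x := by
  classical
  -- the spanning set inside `K`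
  set S' : Set K := {s | (s : ℝ) ∈ S} with hS'
  have hsub : ∀ s ∈ S, s ∈ K := by
    intro s hs
    have h1 : s ∈ (Submodule.span ℚ S : Set ℝ) := Submodule.subset_span hs
    rw [HS.span] at h1
    exact h1
  have himage : (fun x : K => (x : ℝ)) '' S' = S := by
    ext s
    constructor
    · rintro ⟨x, hx, rfl⟩; exact hx
    · intro hs; exact ⟨⟨s, hsub s hs⟩, hs, rfl⟩
  have hspan : Submodule.span ℚ S' = ⊤ := by
    have h1 : Submodule.map (K.val.toLinearMap) (Submodule.span ℚ S')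
        = Submodule.map (K.val.toLinearMap) ⊤ := by
      rw [Submodule.map_span]
      have h2 : (K.val.toLinearMap : K → ℝ) '' S' = S := himage
      rw [h2]
      apply SetLike.coe_injective
      rw [HS.span, Submodule.map_top]
      ext x
      constructor
      · intro hx; exact ⟨⟨x, hx⟩, rfl⟩
      · rintro ⟨y, rfl⟩; exact y.2
    exact Submodule.map_injective_of_injective (fun x y hxy => Subtype.ext hxy) h1
  obtain ⟨b, hbS, hbspan, hbli⟩ := exists_linearIndependent ℚ S'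
  have hbtop : ⊤ ≤ Submodule.span ℚ (Set.range ((↑) : b → K)) := by
    rw [Subtype.range_coe, hbspan, hspan]
  let B : Module.Basis b ℚ K := Module.Basis.mk hbli hbtop
  have : Finite b := Module.Finite.finite_basis B
  have : Fintype b := Fintype.ofFinite b
  have hcard : Fintype.card b = Module.finrank ℚ K := (Module.finrank_eq_card_basis B).symm
  let en : Fin (Module.finrank ℚ K) ≃ b := (Fintype.equivFinOfCardEq hcard).symm
  have hint : ∀ i : Fin (Module.finrank ℚ K), ∃ α : 𝓞 K, (α : K) = (en i : K) ∧ hs K α ≤ h := by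
    intro i
    obtain ⟨α, hα1, hα2⟩ := HS.int _ (hbS (en i).2)
    exact ⟨α, Subtype.ext hα1, hα2⟩
  choose α hα1 hα2 using hint
  refine ⟨fun i => (Algebra.trace ℤ (𝓞 K)).toAddMonoidHom.comp (AddMonoidHom.mulRight (α i)), ?_, ?_⟩
  · intro x hx
    by_contra hx0
    have hxL : (x : K) ≠ 0 := fun h0 => hx0 (RingOfIntegers.ext (by rw [h0]; rfl))
    have h1 : ∀ s ∈ (b : Set K), Algebra.trace ℚ K ((x : K) * s) = 0 := by
      intro s hs
      obtain ⟨i, hi⟩ := en.surjective ⟨s, hs⟩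
      have h2 := hx i
      have h3 : ((Algebra.trace ℤ (𝓞 K) (x * α i) : ℤ) : ℚ) = Algebra.trace ℚ K ((x : K) * s) := by
        rw [Algebra.coe_trace_int]
        have : ((α i : 𝓞 K) : K) = s := by rw [hα1, hi]
        simp [this]
      rw [← h3]
      have h4 : Algebra.trace ℤ (𝓞 K) (x * α i) = 0 := h2
      rw [h4]; simp
    have h2 : ∀ y : K, Algebra.trace ℚ K ((x : K) * y) = 0 := by
      intro y
      have hy : y ∈ Submodule.span ℚ (b : Set K) := by rw [hbspan, hspan]; trivial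
      induction hy using Submodule.span_induction with
      | mem s hs => exact h1 s hs
      | zero => rw [mul_zero, map_zero]
      | add u v _ _ hu hv => rw [mul_add, map_add, hu, hv, add_zero]
      | smul c u _ hu => rw [mul_smul_comm, map_smul, hu, smul_zero]
    have h3 := h2 ((x : K)⁻¹)
    rw [mul_inv_cancel₀ hxL, ← map_one (algebraMap ℚ K), Algebra.trace_algebraMap] at h3
    have h4 : (0 : ℚ) < Module.finrank ℚ K := by exact_mod_cast Module.finrank_pos
    rw [nsmul_eq_mul, mul_one] at h3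
    exact h4.ne' h3
  · intro x i
    have h3 : ((Algebra.trace ℤ (𝓞 K) (x * α i) : ℤ) : ℚ)
        = Algebra.trace ℚ K ((x : K) * (α i : K)) := by
      rw [Algebra.coe_trace_int]; simp
    have h1 : (((Algebra.trace ℤ (𝓞 K) (x * α i) : ℤ)) : ℝ)
        = ((Algebra.trace ℚ K ((x : K) * (α i : K)) : ℚ) : ℝ) := by
      rw [← h3]; push_cast; rfl
    show |(((Algebra.trace ℤ (𝓞 K) (x * α i) : ℤ)) : ℝ)| ≤ _
    rw [h1]
    refine (abs_trace_le K _).trans ?_
    rw [mul_assoc]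
    apply mul_le_mul_of_nonneg_left _ (by positivity)
    have h2 : house ((x : K) * (α i : K)) = hs K (x * α i) := by
      rw [hs_apply]; simp
    rw [h2]
    refine (map_mul_le_mul (hs K) _ _).trans ?_
    rw [mul_comm]
    exact mul_le_mul_of_nonneg_right (hα2 i) (apply_nonneg _ _)

end Pool.Agent.W257
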