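import Pool.Agent.W257.G7
import Pool.Agent.W257.LStm

/-!
Integral points on `H(x, y, t y) = R(x, y, t y)`: the fibres.
-/

open Polynomial Finset NumberField IntermediateField

namespace Pool.Agent.W257

open Pool.Agent.H322R2

/-- homogeneous polynomials and scaling -/
lemma aeval_scale {m : ℕ} {φ : MvPolynomial (Fin 2) ℤ} (hφ : φ.IsHomogeneous m) (c x y : ℝ) :
    MvPolynomial.aeval ![c * x, c * y] φ = c ^ m * MvPolynomial.aeval ![x, y] φ := by
  rw [MvPolynomial.aeval_def, MvPolynomial.aeval_def, MvPolynomial.eval₂_eq',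
    MvPolynomial.eval₂_eq', Finset.mul_sum]
  apply Finset.sum_congr rfl
  intro n hn
  rw [Fin.prod_univ_two, Fin.prod_univ_two]
  simp only [Matrix.cons_val_zero, Matrix.cons_val_one]
  have h1 : n 0 + n 1 = m := by
    rw [← degree_fin2]
    have := hφ (MvPolynomial.mem_support_iff.1 hn)
    rw [Finsupp.degree_eq_weight_one]
    exact this
  rw [← h1, pow_add]
  ring

section

variable (W H : MvPolynomial (Fin 3) ℤ) (a : ℤ)

/-- the fibre over `t = a` -/
noncomputable def fib : MvPolynomial (Fin 2) ℤ :=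
  MvPolynomial.aeval ![MvPolynomial.X 0, MvPolynomial.X 1, MvPolynomial.C a * MvPolynomial.X 1] W

/-- the dehomogenisation `H(Y,1,T)` -/
noncomputable def deh : MvPolynomial (Fin 2) ℤ :=
  MvPolynomial.aeval ![MvPolynomial.X 0, 1, MvPolynomial.X 1] H

/-- restriction of the form to the line `y = 0` -/
noncomputable def lin0 : MvPolynomial (Fin 2) ℤ :=
  MvPolynomial.aeval ![MvPolynomial.X 0, 0, MvPolynomial.X 1] H

lemma eval_fib (x y : ℤ) : MvPolynomial.eval ![x, y] (fib W a)
    = MvPolynomial.eval ![x, y, a * y] W := by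
  have : (MvPolynomial.eval ![x, y]).comp (MvPolynomial.aeval ![MvPolynomial.X 0,
      MvPolynomial.X 1, MvPolynomial.C a * MvPolynomial.X 1] :
      MvPolynomial (Fin 3) ℤ →ₐ[ℤ] MvPolynomial (Fin 2) ℤ).toRingHom
      = MvPolynomial.eval ![x, y, a * y] := by
    apply MvPolynomial.ringHom_ext
    · intro r
      simp
    · intro i
      fin_cases i <;> simp
  exact congrArg (fun g : MvPolynomial (Fin 3) ℤ →+* ℤ => g W) this

lemma aeval_fib (x y : ℝ) : MvPolynomial.aeval ![x, y] (fib W a)
    = MvPolynomial.aeval ![x, y, a * y] W := by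
  have : (MvPolynomial.aeval ![x, y] : MvPolynomial (Fin 2) ℤ →ₐ[ℤ] ℝ).comp
      (MvPolynomial.aeval ![MvPolynomial.X 0, MvPolynomial.X 1, MvPolynomial.C a * MvPolynomial.X 1] :
      MvPolynomial (Fin 3) ℤ →ₐ[ℤ] MvPolynomial (Fin 2) ℤ)
      = MvPolynomial.aeval ![x, y, a * y] := by
    apply MvPolynomial.algHom_ext
    intro i
    fin_cases i <;> simp
  exact congrArg (fun g : MvPolynomial (Fin 3) ℤ →ₐ[ℤ] ℝ => g W) this

lemma aeval_deh (β t : ℝ) : MvPolynomial.aeval ![β, t] (deh H)
    = MvPolynomial.aeval ![β, 1, t] H := by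
  have : (MvPolynomial.aeval ![β, t] : MvPolynomial (Fin 2) ℤ →ₐ[ℤ] ℝ).comp
      (MvPolynomial.aeval ![MvPolynomial.X 0, 1, MvPolynomial.X 1] :
      MvPolynomial (Fin 3) ℤ →ₐ[ℤ] MvPolynomial (Fin 2) ℤ)
      = MvPolynomial.aeval ![β, 1, t] := by
    apply MvPolynomial.algHom_ext
    intro i
    fin_cases i <;> simp
  exact congrArg (fun g : MvPolynomial (Fin 3) ℤ →ₐ[ℤ] ℝ => g H) this

variable {W H}

lemma fib_isHom {m : ℕ} (hH : H.IsHomogeneous m) : (fib H a).IsHomogeneous m := by
  have := hH.aeval (m := m) (n := 1)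
    (![MvPolynomial.X 0, MvPolynomial.X 1, MvPolynomial.C a * MvPolynomial.X 1] :
      Fin 3 → MvPolynomial (Fin 2) ℤ) (by
      intro i
      fin_cases i
      · exact MvPolynomial.isHomogeneous_X _ _
      · exact MvPolynomial.isHomogeneous_X _ _
      · have := (MvPolynomial.isHomogeneous_C (Fin 2) a).mul
          (MvPolynomial.isHomogeneous_X ℤ (1 : Fin 2))
        simpa using this)
  rw [one_mul] at this
  exact this

lemma fib_totalDegree_le {k : ℕ} (hW : W.totalDegree ≤ k) : (fib W a).totalDegree ≤ k := by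
  unfold fib
  rw [MvPolynomial.aeval_def, MvPolynomial.eval₂_eq']
  apply MvPolynomial.totalDegree_finsetSum_le
  intro n hn
  rw [Fin.prod_univ_three]
  simp only [Matrix.cons_val_zero, Matrix.cons_val_one, Matrix.cons_val]
  have h1 : n 0 + n 1 + n 2 ≤ k := by
    have h3 := MvPolynomial.le_totalDegree hn
    have h4 : (n.sum fun _ e => e) = n 0 + n 1 + n 2 := by
      rw [Finsupp.sum_fintype _ _ (by simp), Fin.sum_univ_three]
    omega
  refine (MvPolynomial.totalDegree_mul _ _).trans ?_
  have e0 : (algebraMap ℤ (MvPolynomial (Fin 2) ℤ) (MvPolynomial.coeff n W)).totalDegree = 0 := by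
    rw [MvPolynomial.algebraMap_eq]; exact MvPolynomial.totalDegree_C _
  rw [e0, zero_add]
  refine (MvPolynomial.totalDegree_mul _ _).trans ?_
  have e1 : (MvPolynomial.X 0 ^ n 0 * MvPolynomial.X 1 ^ n 1 : MvPolynomial (Fin 2) ℤ).totalDegree
      ≤ n 0 + n 1 := by
    refine (MvPolynomial.totalDegree_mul _ _).trans ?_
    rw [MvPolynomial.totalDegree_X_pow, MvPolynomial.totalDegree_X_pow]
  have e2 : ((MvPolynomial.C a * MvPolynomial.X 1) ^ n 2 : MvPolynomial (Fin 2) ℤ).totalDegree
      ≤ n 2 := by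
    have := (MvPolynomial.isHomogeneous_C (Fin 2) a).mul
          (MvPolynomial.isHomogeneous_X ℤ (1 : Fin 2))
    have h5 := (this.pow (n 2)).totalDegree_le
    simpa using h5
  omega

lemma len_sum_le {ι : Type*} (s : Finset ι) (f : ι → MvPolynomial (Fin 2) ℤ) :
    len (∑ i ∈ s, f i) ≤ ∑ i ∈ s, len (f i) := by
  classical
  induction s using Finset.induction_on with
  | empty => simp [len]
  | insert i s hi ih =>
    rw [Finset.sum_insert hi, Finset.sum_insert hi]
    exact (len_add_le _ _).trans (Nat.add_le_add_left ih _)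

/-- length of a polynomial in three variables -/
noncomputable def len3 (W : MvPolynomial (Fin 3) ℤ) : ℕ := ∑ n ∈ W.support, (W.coeff n).natAbs

lemma len_fib_le {k : ℕ} (hW : W.totalDegree ≤ k) (ha : 1 ≤ a.natAbs) :
    len (fib W a) ≤ a.natAbs ^ k * len3 W := by
  unfold fib
  rw [MvPolynomial.aeval_def, MvPolynomial.eval₂_eq']
  refine (len_sum_le _ _).trans ?_
  rw [len3, Finset.mul_sum]
  apply Finset.sum_le_sum
  intro n hn
  rw [Fin.prod_univ_three]
  simp only [Matrix.cons_val_zero, Matrix.cons_val_one, Matrix.cons_val]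
  have h1 : n 0 + n 1 + n 2 ≤ k := by
    have h3 := MvPolynomial.le_totalDegree hn
    have h4 : (n.sum fun _ e => e) = n 0 + n 1 + n 2 := by
      rw [Finsupp.sum_fintype _ _ (by simp), Fin.sum_univ_three]
    omega
  refine (len_mul_le _ _).trans ?_
  rw [mul_comm (a.natAbs ^ k)]
  apply Nat.mul_le_mul
  · rw [MvPolynomial.algebraMap_eq]; exact len_C _
  · refine (len_mul_le _ _).trans ?_
    calc _ ≤ 1 * a.natAbs ^ n 2 := by
          apply Nat.mul_le_mul
          · refine (len_mul_le _ _).trans ?_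
            calc _ ≤ 1 ^ n 0 * 1 ^ n 1 :=
                  Nat.mul_le_mul (len_pow_le _ _ _ len_X0) (len_pow_le _ _ _ len_X1)
              _ = 1 := by simp
          · apply len_pow_le
            refine (len_mul_le _ _).trans ?_
            calc _ ≤ a.natAbs * 1 := Nat.mul_le_mul (len_C _) len_X1
              _ = _ := mul_one _
      _ ≤ a.natAbs ^ k := by
          rw [one_mul]
          exact Nat.pow_le_pow_right ha (by omega)

end

end Pool.Agent.W257
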