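import Pool.Agent.W257.L1

/-!
Integral points on `H(x, y, t y) = R(x, y, t y)`: polynomial bound in the fibres.
-/

open Polynomial Finset NumberField IntermediateField

namespace Pool.Agent.W257

open Pool.Agent.H322R2

section

variable {m : ℕ} (hm : 1 ≤ m) {ρ : Fin m → ℤ} {H R : MvPolynomial (Fin 3) ℤ}
  (hH : H.IsHomogeneous m)
  (hH0 : lin0 H = ∏ i, (MvPolynomial.X 0 - MvPolynomial.C (ρ i) * MvPolynomial.X 1))
  (hPd : (deh H).totalDegree = m)
  (hP : MvPolynomial.homogeneousComponent m (deh H)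
    = ∏ i, (MvPolynomial.X 0 - MvPolynomial.C (ρ i) * MvPolynomial.X 1))
  (a : ℤ)

/-- the polynomial `H(Y,1,a)` -/
noncomputable def qa (H : MvPolynomial (Fin 3) ℤ) (a : ℤ) : ℤ[X] := (toB ℤ (deh H)).map (evf a)

include hPd hP in
lemma qa_monic : (qa H a).Monic := (fam_monic hPd hP).map _

include hPd hP in
lemma qa_natDegree : (qa H a).natDegree = m := by
  rw [qa, (fam_monic hPd hP).natDegree_map, fam_natDegree hPd hP]

omit hPd hP in
lemma aeval_fib_X1 (H : MvPolynomial (Fin 3) ℤ) (a : ℤ) :
    MvPolynomial.aeval ![(X : ℤ[X]), 1] (fib H a) = qa H a := by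
  have : ((MvPolynomial.aeval ![(X : ℤ[X]), 1] : MvPolynomial (Fin 2) ℤ →ₐ[ℤ] ℤ[X]).toRingHom).comp
      ((MvPolynomial.aeval ![MvPolynomial.X 0, MvPolynomial.X 1, MvPolynomial.C a * MvPolynomial.X 1] :
      MvPolynomial (Fin 3) ℤ →ₐ[ℤ] MvPolynomial (Fin 2) ℤ).toRingHom)
      = (mapRingHom (evf a)).comp ((toB ℤ : MvPolynomial (Fin 2) ℤ →+* ℤ[X][X]).comp
        ((MvPolynomial.aeval ![MvPolynomial.X 0, 1, MvPolynomial.X 1] :
      MvPolynomial (Fin 3) ℤ →ₐ[ℤ] MvPolynomial (Fin 2) ℤ).toRingHom)) := by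
    apply MvPolynomial.ringHom_ext
    · intro r
      simp
    · intro i
      fin_cases i <;> simp
  exact congrArg (fun g : MvPolynomial (Fin 3) ℤ →+* ℤ[X] => g H) this

include hH in
lemma fib_eq_homogenize : homogenize (qa H a) m = fib H a :=
  homogenize_eq_of_isHomogeneous (fib_isHom a hH) (aeval_fib_X1 H a)

omit hPd hP in
lemma qa_map_rat (H : MvPolynomial (Fin 3) ℤ) (a : ℤ) : (qa H a).map (Int.castRingHom ℚ)
    = MvPolynomial.aeval ![(X : ℚ[X]), C (a : ℚ)] (deh H) := by
  have : (mapRingHom (Int.castRingHom ℚ)).comp ((mapRingHom (evf a)).comp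
      (toB ℤ : MvPolynomial (Fin 2) ℤ →+* ℤ[X][X]))
      = ((MvPolynomial.aeval ![(X : ℚ[X]), C (a : ℚ)] : MvPolynomial (Fin 2) ℤ →ₐ[ℤ] ℚ[X]).toRingHom)
      := by
    apply MvPolynomial.ringHom_ext
    · intro r
      simp
    · intro i
      fin_cases i <;> simp
  exact congrArg (fun g : MvPolynomial (Fin 2) ℤ →+* ℚ[X] => g (deh H)) this

variable (hR : R.totalDegree < m)

include hH hR in
lemma fib_comp : MvPolynomial.homogeneousComponent m (fib (H - R) a) = fib H a := by
  have h1 : fib (H - R) a = fib H a - fib R a := map_sub _ _ _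
  rw [h1, map_sub, MvPolynomial.homogeneousComponent_of_mem
      ((MvPolynomial.mem_homogeneousSubmodule m _).2 (fib_isHom a hH)), if_pos rfl,
      MvPolynomial.homogeneousComponent_eq_zero _ _
        (lt_of_le_of_lt (fib_totalDegree_le a le_rfl) hR), sub_zero]

include hH in
lemma fib_ne_zero (hPd : (deh H).totalDegree = m)
    (hP : MvPolynomial.homogeneousComponent m (deh H)
    = ∏ i, (MvPolynomial.X 0 - MvPolynomial.C (ρ i) * MvPolynomial.X 1)) : fib H a ≠ 0 := by
  rw [← fib_eq_homogenize hH a, Ne, homogenize_eq_zero_iff (qa_natDegree hPd hP a).le]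
  exact (qa_monic hPd hP a).ne_zero

include hH hR in
lemma fib_deg (hPd : (deh H).totalDegree = m)
    (hP : MvPolynomial.homogeneousComponent m (deh H)
    = ∏ i, (MvPolynomial.X 0 - MvPolynomial.C (ρ i) * MvPolynomial.X 1)) :
    (fib (H - R) a).totalDegree = m := by
  apply le_antisymm
  · apply fib_totalDegree_le
    refine (MvPolynomial.totalDegree_sub _ _).trans (max_le hH.totalDegree_le hR.le)
  · by_contra hcon
    push Not at hcon
    have := fib_comp hH a hR
    rw [MvPolynomial.homogeneousComponent_eq_zero _ _ hcon] at this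
    exact fib_ne_zero hH a hPd hP this.symm

include hH hR hm in
/-- irreducibility of the fibres -/
lemma fib_irr (hPd : (deh H).totalDegree = m)
    (hP : MvPolynomial.homogeneousComponent m (deh H)
    = ∏ i, (MvPolynomial.X 0 - MvPolynomial.C (ρ i) * MvPolynomial.X 1))
    (hirr : Irreducible (MvPolynomial.aeval ![(X : ℚ[X]), C (a : ℚ)] (deh H))) :
    Irreducible (MvPolynomial.map (Int.castRingHom ℚ) (fib H a)) ∧
      Irreducible (MvPolynomial.map (Int.castRingHom ℚ) (fib (H - R) a)) := by
  have hqm := qa_monic hPd hP a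
  have hqd := qa_natDegree hPd hP a
  have hinj : Function.Injective (Int.castRingHom ℚ) := Int.cast_injective
  have hirrφ : Irreducible (MvPolynomial.map (Int.castRingHom ℚ) (fib H a)) := by
    rw [← fib_eq_homogenize hH a, ← homogenize_map]
    apply homogenize_irr
    · rw [hqm.natDegree_map, hqd]
    · rw [qa_map_rat]; exact hirr
  refine ⟨hirrφ, ?_⟩
  have hcm : MvPolynomial.homogeneousComponent m
      (MvPolynomial.map (Int.castRingHom ℚ) (fib (H - R) a))
      = MvPolynomial.map (Int.castRingHom ℚ) (fib H a) := by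
    rw [← fib_comp hH a hR]
    ext n
    rw [MvPolynomial.coeff_homogeneousComponent, MvPolynomial.coeff_map,
      MvPolynomial.coeff_map, MvPolynomial.coeff_homogeneousComponent]
    split_ifs <;> simp
  have hFd' : (MvPolynomial.map (Int.castRingHom ℚ) (fib (H - R) a)).totalDegree = m := by
    rw [MvPolynomial.totalDegree, MvPolynomial.support_map_of_injective _ hinj,
      ← MvPolynomial.totalDegree, fib_deg hH a hR hPd hP]
  apply irr_of_lead
  · rw [hFd']; exact hm
  · rw [hFd', hcm]; exact hirrφ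

include hH hR in
/-- the polynomial bound in the fibres -/
theorem fib_bound (hm3 : 3 ≤ m) (hρ : Function.Injective ρ)
    (hPd : (deh H).totalDegree = m)
    (hP : MvPolynomial.homogeneousComponent m (deh H)
    = ∏ i, (MvPolynomial.X 0 - MvPolynomial.C (ρ i) * MvPolynomial.X 1))
    (hirr : Irreducible (MvPolynomial.aeval ![(X : ℚ[X]), C (a : ℚ)] (deh H)))
    (ha : thrS m m (len (deh H)) ≤ a.natAbs) (ha2 : (m + 1) * len3 (H - R) ≤ a.natAbs)
    (x y : ℤ) (hxy : MvPolynomial.eval ![x, y, a * y] (H - R) = 0) :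
    y.natAbs ≤ a.natAbs ^ ((m + 2) * kS m m) := by
  have hm1 : 1 ≤ m := by omega
  obtain ⟨hirrφ, hirrF⟩ := fib_irr hm1 hH a hR hPd hP hirr
  have hcomp := fib_comp hH a hR
  have hlP : 1 ≤ len (deh H) := by
    apply len_pos
    rintro h0
    rw [h0] at hPd
    simp at hPd
    omega
  have ha1 : 1 ≤ a.natAbs := by
    refine le_trans ?_ ha
    unfold thrS
    exact Nat.one_le_pow _ _ (by omega)
  have hmain := main_split hm1 hm3 hρ hPd hP ha (fib (H - R) a) (fib_deg hH a hR hPd hP) hirrF
    (by rw [hcomp]; exact hirrφ.squarefree) (by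
      intro t ht hfin
      rw [hcomp] at ht
      have hhom := fib_isHom a hH
      have h1c : MvPolynomial.aeval ![(1 : ℝ), 0] (fib H a) = 1 := by
        have h1 : MvPolynomial.eval ![1, 0] (fib H a) = 1 := by
          rw [← fib_eq_homogenize hH a, eval_homogenize_one_zero]
          have h2 := qa_monic hPd hP a
          rw [Monic, leadingCoeff, qa_natDegree hPd hP a] at h2
          exact h2
        have h3 : MvPolynomial.aeval ![(1 : ℝ), 0] (fib H a)
            = ((MvPolynomial.eval ![1, 0] (fib H a) : ℤ) : ℝ) := by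
          have : (MvPolynomial.aeval ![(1 : ℝ), 0] : MvPolynomial (Fin 2) ℤ →ₐ[ℤ] ℝ).toRingHom
              = (Int.castRingHom ℝ).comp (MvPolynomial.eval ![1, 0]) := by
            apply MvPolynomial.ringHom_ext
            · intro r; simp
            · intro i
              fin_cases i <;> simp
          exact congrArg (fun g : MvPolynomial (Fin 2) ℤ →+* ℝ => g (fib H a)) this
        rw [h3, h1, Int.cast_one]
      have ht0 : t ≠ 0 := by
        rintro rfl
        rw [h1c] at ht
        exact one_ne_zero ht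
      have hβ : MvPolynomial.aeval ![t⁻¹, (a : ℝ)] (deh H) = 0 := by
        have h1 := aeval_scale hhom t (t⁻¹) 1
        rw [mul_inv_cancel₀ ht0, mul_one, ht] at h1
        have h2 := (mul_eq_zero.1 h1.symm).resolve_left (pow_ne_zero _ ht0)
        rw [aeval_fib, mul_one] at h2
        rw [aeval_deh]
        exact h2
      have hle : ℚ⟮t⟯ ≤ IntermediateField.adjoin ℚ
          {β : ℝ | MvPolynomial.aeval ![β, (a : ℝ)] (deh H) = 0} := by
        rw [adjoin_simple_le_iff]
        have h3 := IntermediateField.subset_adjoin ℚ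
          {β : ℝ | MvPolynomial.aeval ![β, (a : ℝ)] (deh H) = 0} hβ
        have h4 := inv_mem h3
        rwa [inv_inv] at h4
      rw [inf_eq_left.2 hle, hfin]
      exact hm3) x y (by rw [eval_fib]; exact hxy)
  refine hmain.2.trans ?_
  rw [pow_mul]
  apply Nat.pow_le_pow_left
  have hWd : (H - R).totalDegree ≤ m :=
    (MvPolynomial.totalDegree_sub _ _).trans (max_le hH.totalDegree_le hR.le)
  have h5 := len_fib_le a hWd ha1
  calc a.natAbs * ((m + 1) * len (fib (H - R) a))
      ≤ a.natAbs * ((m + 1) * (a.natAbs ^ m * len3 (H - R))) := by gcongr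
    _ = a.natAbs ^ (m + 1) * ((m + 1) * len3 (H - R)) := by ring
    _ ≤ a.natAbs ^ (m + 1) * a.natAbs := by gcongr
    _ = _ := by ring

end

end Pool.Agent.W257
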