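import Pool.Agent.W257.L2

/-!
Integral points on `H(x, y, t y) = R(x, y, t y)`: the surface polynomial.
-/

open Polynomial Finset

namespace Pool.Agent.W257

open Pool.Agent.H322R2

/-- the equation `W(x, y, t y)` of the surface -/
noncomputable def surf (W : MvPolynomial (Fin 3) ℤ) : MvPolynomial (Fin 3) ℤ :=
  MvPolynomial.aeval ![MvPolynomial.X 0, MvPolynomial.X 1,
    MvPolynomial.X 2 * MvPolynomial.X 1] W

lemma eval_surf (W : MvPolynomial (Fin 3) ℤ) (x y t : ℤ) :
    MvPolynomial.eval ![x, y, t] (surf W) = MvPolynomial.eval ![x, y, t * y] W := by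
  have : (MvPolynomial.eval ![x, y, t]).comp (MvPolynomial.aeval ![MvPolynomial.X 0,
      MvPolynomial.X 1, MvPolynomial.X 2 * MvPolynomial.X 1] :
      MvPolynomial (Fin 3) ℤ →ₐ[ℤ] MvPolynomial (Fin 3) ℤ).toRingHom
      = MvPolynomial.eval ![x, y, t * y] := by
    apply MvPolynomial.ringHom_ext
    · intro r
      simp
    · intro i
      fin_cases i <;> simp
  exact congrArg (fun g : MvPolynomial (Fin 3) ℤ →+* ℤ => g W) this

/-- the surface polynomial as a polynomial in `x` over `ℚ[y,t]` -/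
noncomputable def Phi (W : MvPolynomial (Fin 3) ℤ) : (MvPolynomial (Fin 2) ℚ)[X] :=
  MvPolynomial.eval₂ (C.comp (MvPolynomial.C.comp (Int.castRingHom ℚ)))
    ![X, C (MvPolynomial.X 0), C (MvPolynomial.X 1 * MvPolynomial.X 0)] W

lemma finSucc_surf (W : MvPolynomial (Fin 3) ℤ) :
    MvPolynomial.finSuccEquiv ℚ 2 (MvPolynomial.map (Int.castRingHom ℚ) (surf W)) = Phi W := by
  have h1 : (MvPolynomial.finSuccEquiv ℚ 2).toAlgHom.toRingHom.comp
      ((MvPolynomial.map (Int.castRingHom ℚ)).comp (MvPolynomial.aeval ![MvPolynomial.X 0,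
      MvPolynomial.X 1, MvPolynomial.X 2 * MvPolynomial.X 1] :
      MvPolynomial (Fin 3) ℤ →ₐ[ℤ] MvPolynomial (Fin 3) ℤ).toRingHom)
      = MvPolynomial.eval₂Hom (C.comp (MvPolynomial.C.comp (Int.castRingHom ℚ)))
    ![X, C (MvPolynomial.X 0), C (MvPolynomial.X 1 * MvPolynomial.X 0)] := by
    apply MvPolynomial.ringHom_ext
    · intro r
      simp
    · intro i
      have e1 : MvPolynomial.finSuccEquiv ℚ 2 (MvPolynomial.X 1) = C (MvPolynomial.X 0) :=
        MvPolynomial.finSuccEquiv_X_succ (j := (0 : Fin 2))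
      have e2 : MvPolynomial.finSuccEquiv ℚ 2 (MvPolynomial.X 2) = C (MvPolynomial.X 1) :=
        MvPolynomial.finSuccEquiv_X_succ (j := (1 : Fin 2))
      have e0 : MvPolynomial.finSuccEquiv ℚ 2 (MvPolynomial.X 0) = X :=
        MvPolynomial.finSuccEquiv_X_zero
      fin_cases i
      · simp [e0]
      · simp [e1]
      · simp [e1, e2]
  exact congrArg (fun g : MvPolynomial (Fin 3) ℤ →+* (MvPolynomial (Fin 2) ℚ)[X] => g W) h1

lemma Phi_coeff (W : MvPolynomial (Fin 3) ℤ) {m : ℕ} (hW : W.totalDegree ≤ m) :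
    (Phi W).natDegree ≤ m ∧ (Phi W).coeff m
      = MvPolynomial.C ((W.coeff (Finsupp.single 0 m) : ℤ) : ℚ) := by
  have hdeg : ∀ n ∈ W.support, n 0 + n 1 + n 2 ≤ m := by
    intro n hn
    have h3 := MvPolynomial.le_totalDegree hn
    have h4 : (n.sum fun _ e => e) = n 0 + n 1 + n 2 := by
      rw [Finsupp.sum_fintype _ _ (by simp), Fin.sum_univ_three]
    omega
  have hPhi : Phi W = ∑ n ∈ W.support, X ^ n 0 * C (MvPolynomial.C ((W.coeff n : ℤ) : ℚ) *
      (MvPolynomial.X 0 ^ n 1 * (MvPolynomial.X 1 * MvPolynomial.X 0) ^ n 2)) := by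
    unfold Phi
    rw [MvPolynomial.eval₂_eq']
    apply Finset.sum_congr rfl
    intro n _
    rw [Fin.prod_univ_three]
    simp only [Matrix.cons_val_zero, Matrix.cons_val_one, Matrix.cons_val]
    change C (MvPolynomial.C ((W.coeff n : ℤ) : ℚ)) * _ = _
    rw [C_mul, C_mul, C_mul, C_pow, C_pow, C_mul]
    ring
  constructor
  · rw [hPhi]
    apply natDegree_sum_le_of_forall_le
    intro n hn
    refine (natDegree_mul_C_le _ _).trans ?_
    rw [natDegree_X_pow]
    have := hdeg n hn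
    omega
  · rw [hPhi, finsetSum_coeff]
    have h1 : ∀ n ∈ W.support, (X ^ n 0 * C (MvPolynomial.C ((W.coeff n : ℤ) : ℚ) *
      (MvPolynomial.X 0 ^ n 1 * (MvPolynomial.X 1 * MvPolynomial.X 0) ^ n 2)) :
        (MvPolynomial (Fin 2) ℚ)[X]).coeff m
        = if n = Finsupp.single 0 m then MvPolynomial.C ((W.coeff n : ℤ) : ℚ) else 0 := by
      intro n hn
      rw [coeff_mul_C, coeff_X_pow]
      split_ifs with h2 h3 h3
      · subst h3
        simp
      · exfalso
        apply h3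
        have := hdeg n hn
        ext i
        fin_cases i
        · simp [h2]
        · simp; omega
        · simp; omega
      · exfalso
        apply h2
        rw [h3]
        simp
      · rw [zero_mul]
    rw [Finset.sum_congr rfl h1, Finset.sum_ite_eq']
    split_ifs with h2
    · rfl
    · rw [MvPolynomial.notMem_support_iff.1 h2]
      simp

/-- specialisation `t = a` -/
noncomputable def spec (a : ℚ) : (MvPolynomial (Fin 2) ℚ)[X] →+* MvPolynomial (Fin 2) ℚ :=
  eval₂RingHom (MvPolynomial.aeval ![MvPolynomial.X 1, MvPolynomial.C a] :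
    MvPolynomial (Fin 2) ℚ →ₐ[ℚ] MvPolynomial (Fin 2) ℚ).toRingHom (MvPolynomial.X 0)

lemma spec_Phi (W : MvPolynomial (Fin 3) ℤ) (a : ℤ) :
    spec (a : ℚ) (Phi W) = MvPolynomial.map (Int.castRingHom ℚ) (fib W a) := by
  have h1 : (spec (a : ℚ)).comp
      (MvPolynomial.eval₂Hom (C.comp (MvPolynomial.C.comp (Int.castRingHom ℚ)))
        ![X, C (MvPolynomial.X 0), C (MvPolynomial.X 1 * MvPolynomial.X 0)])
      = (MvPolynomial.map (Int.castRingHom ℚ)).comp (MvPolynomial.aeval ![MvPolynomial.X 0,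
      MvPolynomial.X 1, MvPolynomial.C a * MvPolynomial.X 1] :
      MvPolynomial (Fin 3) ℤ →ₐ[ℤ] MvPolynomial (Fin 2) ℤ).toRingHom := by
    apply MvPolynomial.ringHom_ext
    · intro r
      simp [spec]
    · intro i
      fin_cases i <;> simp [spec]
  exact congrArg (fun g : MvPolynomial (Fin 3) ℤ →+* MvPolynomial (Fin 2) ℚ => g W) h1

/-- further specialisation `y = 0` -/
noncomputable def spec2 (a : ℚ) : MvPolynomial (Fin 2) ℚ →+* ℚ :=
  (MvPolynomial.aeval ![0, a] : MvPolynomial (Fin 2) ℚ →ₐ[ℚ] ℚ).toRingHom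

lemma spec_spec2 (a : ℚ) (q : (MvPolynomial (Fin 2) ℚ)[X]) :
    MvPolynomial.aeval ![(X : ℚ[X]), 0] (spec a q) = q.map (spec2 a) := by
  have h1 : ((MvPolynomial.aeval ![(X : ℚ[X]), 0] :
      MvPolynomial (Fin 2) ℚ →ₐ[ℚ] ℚ[X]).toRingHom).comp (spec a) = mapRingHom (spec2 a) := by
    apply Polynomial.ringHom_ext
    · intro r
      have h2 : ((((MvPolynomial.aeval ![(X : ℚ[X]), 0] :
        MvPolynomial (Fin 2) ℚ →ₐ[ℚ] ℚ[X]).toRingHom).comp (spec a)).comp C)
          = (mapRingHom (spec2 a)).comp C := by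
        apply MvPolynomial.ringHom_ext
        · intro r
          simp [spec, spec2]
        · intro i
          fin_cases i <;> simp [spec, spec2]
      exact congrArg (fun g : MvPolynomial (Fin 2) ℚ →+* ℚ[X] => g r) h2
    · simp [spec]
  exact congrArg (fun g : (MvPolynomial (Fin 2) ℚ)[X] →+* ℚ[X] => g q) h1

lemma spec_not_unit {a : ℚ} {q : (MvPolynomial (Fin 2) ℚ)[X]} (hq : q.Monic)
    (hd : 0 < q.natDegree) : ¬ IsUnit (spec a q) := by
  intro hu
  have h1 := hu.map (MvPolynomial.aeval ![(X : ℚ[X]), 0] :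
      MvPolynomial (Fin 2) ℚ →ₐ[ℚ] ℚ[X])
  rw [spec_spec2] at h1
  have h2 := natDegree_eq_zero_of_isUnit h1
  rw [hq.natDegree_map] at h2
  omega

/-- irreducibility of the surface -/
theorem surf_irr {m : ℕ} (hm : 1 ≤ m) {W : MvPolynomial (Fin 3) ℤ} (hW : W.totalDegree ≤ m)
    (hc : W.coeff (Finsupp.single 0 m) = 1) {a : ℤ}
    (hirr : Irreducible (MvPolynomial.map (Int.castRingHom ℚ) (fib W a))) :
    (Phi W).Monic ∧ (Phi W).natDegree = m ∧ Irreducible (Phi W) ∧
      Irreducible (MvPolynomial.map (Int.castRingHom ℚ) (surf W)) := by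
  obtain ⟨h1, h2⟩ := Phi_coeff W hW
  rw [hc, Int.cast_one, map_one] at h2
  have hmon : (Phi W).Monic := monic_of_natDegree_le_of_coeff_eq_one m h1 h2
  have hnd : (Phi W).natDegree = m := by
    apply le_antisymm h1
    apply le_natDegree_of_ne_zero
    rw [h2]
    exact one_ne_zero
  have hI : Irreducible (Phi W) := by
    rw [hmon.irreducible_iff_lt_natDegree_lt (by
      intro h3
      rw [h3, natDegree_one] at hnd
      omega)]
    rintro q hq hqd ⟨r, hr⟩
    rw [hnd, Finset.mem_Ioc] at hqd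
    have hrm : r.Monic := by
      rw [hr] at hmon
      exact hq.of_mul_monic_left hmon
    have hrd : q.natDegree + r.natDegree = m := by
      rw [← hq.natDegree_mul hrm, ← hr, hnd]
    have h4 := congrArg (spec (a : ℚ)) hr
    rw [spec_Phi, map_mul] at h4
    rw [h4] at hirr
    rcases hirr.isUnit_or_isUnit rfl with h5 | h5
    · exact spec_not_unit hq hqd.1 h5
    · exact spec_not_unit hrm (by omega) h5
  refine ⟨hmon, hnd, hI, ?_⟩
  have h3 := (MulEquiv.irreducible_iff (MvPolynomial.finSuccEquiv ℚ 2)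
    (x := MvPolynomial.map (Int.castRingHom ℚ) (surf W))).1
  rw [← MulEquiv.irreducible_iff (MvPolynomial.finSuccEquiv ℚ 2), finSucc_surf]
  exact hI

/-- polynomials of small degree in `x` are not divisible by the surface polynomial -/
lemma not_dvd_of_degreeOf {m : ℕ} {W : MvPolynomial (Fin 3) ℤ} (hmon : (Phi W).Monic)
    (hnd : (Phi W).natDegree = m) {G : MvPolynomial (Fin 3) ℤ} (hG : G ≠ 0)
    (hGd : G.degreeOf 0 < m) :
    ¬ MvPolynomial.map (Int.castRingHom ℚ) (surf W) ∣ MvPolynomial.map (Int.castRingHom ℚ) G := by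
  intro hdvd
  obtain ⟨G', hG'⟩ : ∃ G', G' = MvPolynomial.map (Int.castRingHom ℚ) G := ⟨_, rfl⟩
  have hinj : Function.Injective (Int.castRingHom ℚ) := Int.cast_injective
  have hG0 : G' ≠ 0 := by
    rw [hG']
    intro h0
    exact hG (MvPolynomial.map_injective _ hinj (by rw [h0, map_zero]))
  rw [← hG'] at hdvd
  have h1 := map_dvd (MvPolynomial.finSuccEquiv ℚ 2) hdvd
  rw [finSucc_surf] at h1
  have h2 : MvPolynomial.finSuccEquiv ℚ 2 G' ≠ 0 := by
    intro h0
    exact hG0 ((MvPolynomial.finSuccEquiv ℚ 2).injective (by rw [h0, map_zero]))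
  have h3 := natDegree_le_of_dvd h1 h2
  rw [hnd, MvPolynomial.natDegree_finSuccEquiv] at h3
  have h4 : G'.degreeOf 0 ≤ G.degreeOf 0 := by
    rw [hG', MvPolynomial.degreeOf_eq_sup, MvPolynomial.degreeOf_eq_sup]
    exact Finset.sup_mono (MvPolynomial.support_map_subset _ _)
  omega

end Pool.Agent.W257
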