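import Pool.Agent.W257.L3

/-!
Integral points on `H(x, y, t y) = R(x, y, t y)`: the theorem.
-/

open Polynomial Finset

namespace Pool.Agent.W257

open Pool.Agent.H322R2

lemma map_prod_not_dvd {ι : Type*} {F : MvPolynomial (Fin 3) ℚ} (hF : Prime F) (s : Finset ι)
    (f : ι → MvPolynomial (Fin 3) ℤ)
    (h : ∀ i ∈ s, ¬ F ∣ MvPolynomial.map (Int.castRingHom ℚ) (f i)) :
    ¬ F ∣ MvPolynomial.map (Int.castRingHom ℚ) (∏ i ∈ s, f i) := by
  rw [map_prod]
  intro hd
  obtain ⟨i, hi, hdi⟩ := (hF.dvd_finsetProd_iff _).1 hd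
  exact h i hi hdi

theorem assemble (haux : S_aux) {m k : ℕ} (hm : 3 ≤ m) {W : MvPolynomial (Fin 3) ℤ}
    (hmon : (Phi W).Monic) (hnd : (Phi W).natDegree = m)
    (hSirr : Irreducible (MvPolynomial.map (Int.castRingHom ℚ) (surf W)))
    (hexp : ∀ K : ℕ, ∃ (Q : Fin k → MvPolynomial (Fin 2) ℚ) (C A : ℝ), ∀ x y t : ℝ, A ≤ |t| →
      1 ≤ |y| → MvPolynomial.aeval ![x, y, t * y] W = 0 →
      ∃ i, |x - t * y * MvPolynomial.aeval ![1 / t, 1 / (t * y)] (Q i)| * |t| ^ K ≤ C * |y|)
    (hb : ∃ T κ : ℕ, ∀ x y t : ℤ, T ≤ t.natAbs → MvPolynomial.eval ![x, y, t * y] W = 0 →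
      y.natAbs ≤ t.natAbs ^ κ) :
    ∃ G : MvPolynomial (Fin 3) ℤ,
      ¬ MvPolynomial.map (Int.castRingHom ℚ) (surf W)
        ∣ MvPolynomial.map (Int.castRingHom ℚ) G ∧
      ∀ x y t : ℤ, MvPolynomial.eval ![x, y, t] (surf W) = 0 →
        MvPolynomial.eval ![x, y, t] G = 0 := by
  classical
  obtain ⟨T0, κ, hb⟩ := hb
  have hprime : Prime (MvPolynomial.map (Int.castRingHom ℚ) (surf W)) := hSirr.prime
  -- auxiliary polynomials
  have hK : ∀ l : ℕ, ∃ (Q : Fin k → MvPolynomial (Fin 2) ℚ) (G : Fin k → MvPolynomial (Fin 3) ℤ)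
      (K : ℕ) (C A : ℝ), (∀ i, G i ≠ 0 ∧ (G i).degreeOf 0 < m) ∧
      (∀ x y t : ℝ, A ≤ |t| → 1 ≤ |y| → MvPolynomial.aeval ![x, y, t * y] W = 0 →
        ∃ i, |x - t * y * MvPolynomial.aeval ![1 / t, 1 / (t * y)] (Q i)| * |t| ^ K ≤ C * |y|) ∧
      (∀ i, ∀ x y t : ℝ, A ≤ |t| → |t| ^ l ≤ |y| → |y| ≤ |t| ^ (l + 1) →
        |x - t * y * MvPolynomial.aeval ![1 / t, 1 / (t * y)] (Q i)| * |t| ^ K ≤ C * |y| →
        |MvPolynomial.aeval ![x, y, t] (G i)| < 1) := by
    intro l
    obtain ⟨K, hKl⟩ := haux m l hm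
    obtain ⟨Q, C, A, hQ⟩ := hexp K
    choose G hG0 hGd hGA using fun i => hKl (Q i)
    choose A' hA' using fun i => hGA i C
    obtain ⟨A'', hA''⟩ := Finite.bddAbove_range A'
    refine ⟨Q, G, K, C, max A A'', fun i => ⟨hG0 i, hGd i⟩, ?_, ?_⟩
    · intro x y t ht
      exact hQ x y t ((le_max_left _ _).trans ht)
    · intro i x y t ht
      exact hA' i x y t (((hA'' ⟨i, rfl⟩).trans (le_max_right _ _)).trans ht)
  choose Q G K C A hG hexp' haux' using hK
  obtain ⟨A0, hA0⟩ := (Finite.bddAbove_range (fun l : Fin (κ + 1) => A l))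
  obtain ⟨A1, hA1⟩ := exists_nat_ge A0
  obtain ⟨T, hT⟩ : ∃ T : ℕ, T = max (max A1 T0) 2 := ⟨_, rfl⟩
  have hT1 : A1 ≤ T := by rw [hT]; exact (le_max_left _ _).trans (le_max_left _ _)
  have hT2 : T0 ≤ T := by rw [hT]; exact (le_max_right _ _).trans (le_max_left _ _)
  have hT5 : 2 ≤ T := by rw [hT]; exact le_max_right _ _
  refine ⟨MvPolynomial.X 1 * ((∏ a ∈ Finset.Icc (-(T : ℤ)) T, (MvPolynomial.X 2 - MvPolynomial.C a))
    * ∏ p ∈ Finset.range (κ + 1) ×ˢ (univ : Finset (Fin k)), G p.1 p.2), ?_, ?_⟩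
  · -- not divisible
    rw [map_mul, map_mul]
    intro hd
    rcases hprime.dvd_or_dvd hd with h1 | h1
    · refine not_dvd_of_degreeOf hmon hnd (G := MvPolynomial.X 1) (MvPolynomial.X_ne_zero _) ?_ h1
      rw [MvPolynomial.degreeOf_X_of_ne (by decide)]
      omega
    · rcases hprime.dvd_or_dvd h1 with h1 | h1
      · refine map_prod_not_dvd hprime _ _ ?_ h1
        intro a _
        apply not_dvd_of_degreeOf hmon hnd
        · intro h0
          have := congrArg (MvPolynomial.eval ![0, 0, a + 1]) h0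
          simp at this
        · refine lt_of_le_of_lt (MvPolynomial.degreeOf_sub_le _ _ _) ?_
          rw [MvPolynomial.degreeOf_X_of_ne (by decide), MvPolynomial.degreeOf_C]
          omega
      · refine map_prod_not_dvd hprime _ _ ?_ h1
        intro p _
        exact not_dvd_of_degreeOf hmon hnd (hG p.1 p.2).1 (hG p.1 p.2).2
  · intro x y t hxy
    rw [eval_surf] at hxy
    rw [map_mul, map_mul, MvPolynomial.eval_X]
    simp only [Matrix.cons_val_one, Matrix.cons_val_zero]
    by_cases hy : y = 0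
    · rw [hy, zero_mul]
    by_cases ht : t.natAbs ≤ T
    · rw [map_prod, Finset.prod_eq_zero (i := t)]
      · ring
      · rw [Finset.mem_Icc]; omega
      · simp
    push Not at ht
    have hb := hb x y t (by omega) hxy
    have hy1 : 1 ≤ y.natAbs := by omega
    have ht2 : 1 < t.natAbs := by omega
    obtain ⟨l, hl⟩ : ∃ l, l = Nat.log t.natAbs y.natAbs := ⟨_, rfl⟩
    have hl1 : t.natAbs ^ l ≤ y.natAbs := by rw [hl]; exact Nat.pow_log_le_self _ (by omega)
    have hl2 : y.natAbs < t.natAbs ^ (l + 1) := by rw [hl]; exact Nat.lt_pow_succ_log_self ht2 _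
    have hlκ : l ≤ κ := (Nat.pow_le_pow_iff_right ht2).1 (hl1.trans hb)
    have htR : |(t : ℝ)| = (t.natAbs : ℝ) := by rw [Nat.cast_natAbs, Int.cast_abs]
    have hyR : |(y : ℝ)| = (y.natAbs : ℝ) := by rw [Nat.cast_natAbs, Int.cast_abs]
    have hAt : A l ≤ |(t : ℝ)| := by
      have h1 : A l ≤ A0 := hA0 ⟨(⟨l, by omega⟩ : Fin (κ + 1)), rfl⟩
      have h2 : (A1 : ℝ) ≤ t.natAbs := by exact_mod_cast (by omega : A1 ≤ t.natAbs)
      rw [htR]; linarith
    have hev : ∀ V : MvPolynomial (Fin 3) ℤ, ∀ p q r : ℤ,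
        MvPolynomial.aeval ![(p : ℝ), (q : ℝ), (r : ℝ)] V
          = ((MvPolynomial.eval ![p, q, r] V : ℤ) : ℝ) := by
      intro V p q r
      have : (MvPolynomial.aeval ![(p : ℝ), (q : ℝ), (r : ℝ)] :
          MvPolynomial (Fin 3) ℤ →ₐ[ℤ] ℝ).toRingHom
          = (Int.castRingHom ℝ).comp (MvPolynomial.eval ![p, q, r]) := by
        apply MvPolynomial.ringHom_ext
        · intro r; simp
        · intro i
          fin_cases i <;> simp
      exact congrArg (fun g : MvPolynomial (Fin 3) ℤ →+* ℝ => g V) this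
    have hW0 : MvPolynomial.aeval ![(x : ℝ), (y : ℝ), (t : ℝ) * (y : ℝ)] W = 0 := by
      have h1 := hev W x y (t * y)
      rw [hxy] at h1
      push_cast at h1
      exact h1
    obtain ⟨i, hi⟩ := hexp' l x y t hAt (by rw [hyR]; exact_mod_cast hy1) hW0
    have hlt := haux' l i x y t hAt (by rw [hyR, htR]; exact_mod_cast hl1)
      (by rw [hyR, htR]; exact_mod_cast hl2.le) hi
    rw [hev] at hlt
    have hz : MvPolynomial.eval ![x, y, t] (G l i) = 0 := by
      apply Int.abs_lt_one_iff.1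
      exact_mod_cast hlt
    rw [map_prod (MvPolynomial.eval ![x, y, t]) (fun p : ℕ × Fin k => G p.1 p.2),
      Finset.prod_eq_zero (i := (l, i))]
    · ring
    · simp; omega
    · exact hz

theorem main_LV (hexp : S_exp) (haux : S_aux) (hirr : S_irr) (hdeh : S_deh) {m : ℕ} (hm : 3 ≤ m)
    {ρ : Fin m → ℤ} (hρ : Function.Injective ρ) {H R : MvPolynomial (Fin 3) ℤ}
    (hH : H.IsHomogeneous m) (hHi : Irreducible (MvPolynomial.map (Int.castRingHom ℚ) H))
    (hH0 : MvPolynomial.aeval ![MvPolynomial.X 0, 0, MvPolynomial.X 1] H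
      = ∏ i, (MvPolynomial.X 0 - MvPolynomial.C (ρ i) * MvPolynomial.X 1 : MvPolynomial (Fin 2) ℤ))
    (hR : R.totalDegree < m) :
    Irreducible (MvPolynomial.map (Int.castRingHom ℚ) (surf (H - R))) ∧
    ∃ G : MvPolynomial (Fin 3) ℤ,
      ¬ MvPolynomial.map (Int.castRingHom ℚ) (surf (H - R))
        ∣ MvPolynomial.map (Int.castRingHom ℚ) G ∧
      ∀ x y t : ℤ, MvPolynomial.eval ![x, y, t] (surf (H - R)) = 0 →
        MvPolynomial.eval ![x, y, t] G = 0 := by
  classical
  have hm1 : 1 ≤ m := by omega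
  obtain ⟨W, hWdef⟩ : ∃ W, W = H - R := ⟨_, rfl⟩
  have hWd : W.totalDegree ≤ m := by
    rw [hWdef]
    exact (MvPolynomial.totalDegree_sub _ _).trans (max_le hH.totalDegree_le hR.le)
  have hWcomp : MvPolynomial.homogeneousComponent m W = H := by
    rw [hWdef, map_sub, MvPolynomial.homogeneousComponent_of_mem
      ((MvPolynomial.mem_homogeneousSubmodule m _).2 hH), if_pos rfl,
      MvPolynomial.homogeneousComponent_eq_zero _ _ hR, sub_zero]
  obtain ⟨hPd, hP, hPi⟩ := hdeh m ρ H hm1 hH hH0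
  obtain ⟨Ai, hAi⟩ := hirr m ρ (deh H) hm1 hρ hPd hP (hPi hHi)
  -- the leading coefficient
  have hc : W.coeff (Finsupp.single 0 m) = 1 := by
    have h1 : MvPolynomial.eval ![1, 0, 0] H = 1 := by
      have h2 := congrArg (MvPolynomial.eval ![(1 : ℤ), 0]) hH0
      rw [map_prod, Finset.prod_eq_one (fun i _ => by simp)] at h2
      have : (MvPolynomial.eval ![(1 : ℤ), 0]).comp ((MvPolynomial.aeval ![MvPolynomial.X 0, 0,
          MvPolynomial.X 1] : MvPolynomial (Fin 3) ℤ →ₐ[ℤ] MvPolynomial (Fin 2) ℤ).toRingHom)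
          = MvPolynomial.eval ![1, 0, 0] := by
        apply MvPolynomial.ringHom_ext
        · intro r; simp
        · intro i
          fin_cases i <;> simp
      have h2' : MvPolynomial.eval ![(1 : ℤ), 0] (MvPolynomial.aeval ![MvPolynomial.X 0, 0,
          MvPolynomial.X 1] H) = MvPolynomial.eval ![1, 0, 0] H :=
        congrArg (fun g : MvPolynomial (Fin 3) ℤ →+* ℤ => g H) this
      rw [← h2']
      exact h2
    have h3 : H.coeff (Finsupp.single 0 m) = 1 := by
      rw [← h1, MvPolynomial.eval_eq']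
      symm
      rw [Finset.sum_eq_single (Finsupp.single 0 m)]
      · rw [Fin.prod_univ_three]
        simp
      · intro n hn hne
        rw [Fin.prod_univ_three]
        simp only [Matrix.cons_val_zero, Matrix.cons_val_one, Matrix.cons_val, one_pow, one_mul]
        have h4 : n 0 + n 1 + n 2 = m := by
          have h5 := hH (MvPolynomial.mem_support_iff.1 hn)
          have h6 : n.degree = m := by
            rw [Finsupp.degree_eq_weight_one]
            exact h5
          rw [← h6, Finsupp.degree_eq_sum, Fin.sum_univ_three]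
        have h7 : n 1 ≠ 0 ∨ n 2 ≠ 0 := by
          by_contra hcon
          push Not at hcon
          apply hne
          ext i
          fin_cases i
          · simp; omega
          · simp [hcon.1]
          · simp [hcon.2]
        rcases h7 with h7 | h7
        · rw [zero_pow h7]; ring
        · rw [zero_pow h7]; ring
      · intro hn
        rw [MvPolynomial.notMem_support_iff.1 hn, zero_mul]
    rw [hWdef, MvPolynomial.coeff_sub, h3]
    have h8 : R.coeff (Finsupp.single 0 m) = 0 := by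
      apply MvPolynomial.coeff_eq_zero_of_totalDegree_lt
      have h9 : ∑ i ∈ (Finsupp.single (0 : Fin 3) m).support, (Finsupp.single (0 : Fin 3) m) i
          = m := by
        rw [Finsupp.support_single_ne_zero _ (by omega)]
        simp
      rw [h9]
      exact hR
    rw [h8, sub_zero]
  -- irreducibility of the surface
  have hsi : (Phi W).Monic ∧ (Phi W).natDegree = m ∧ Irreducible (Phi W) ∧
      Irreducible (MvPolynomial.map (Int.castRingHom ℚ) (surf W)) := by
    apply surf_irr hm1 hWd hc (a := (Ai : ℤ))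
    rw [hWdef]
    exact (fib_irr hm1 hH (Ai : ℤ) hR hPd hP (hAi _ (by simp))).2
  obtain ⟨hmon, hnd, -, hSirr⟩ := hsi
  rw [← hWdef]
  refine ⟨hSirr, assemble haux hm hmon hnd hSirr
    (hexp m ρ hρ W hWd (by rw [hWcomp]; exact hH0)) ?_⟩
  refine ⟨max Ai (max (thrS m m (len (deh H))) ((m + 1) * len3 W)), (m + 2) * kS m m, ?_⟩
  intro x y t ht hxy
  have ht1 := (le_max_left _ _).trans ht
  have ht2 := ((le_max_left _ _).trans (le_max_right _ _)).trans ht
  have ht3 := ((le_max_right _ _).trans (le_max_right _ _)).trans ht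
  exact fib_bound hH t hR hm hρ hPd hP (hAi t ht1) ht2 (by rw [← hWdef]; exact ht3) x y
    (by rw [← hWdef]; exact hxy)

end Pool.Agent.W257
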