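import Mathlib

/-!
More statements for the theorem on integral points on surfaces `H(x, y, t y) = R(x, y, t y)`.
-/

set_option autoImplicit false

namespace Pool.Agent.W257

/-- Expansions at infinity, real version: only the real roots of `H(X,0,1)` have to be integers. -/
def S_exp2 : Prop := ∀ (m k : ℕ) (ρ : Fin k → ℤ) (h : Polynomial ℤ) (W : MvPolynomial (Fin 3) ℤ),
  W.totalDegree ≤ m → h.Monic → h.natDegree = m →
  MvPolynomial.aeval ![Polynomial.X, 0, 1] (MvPolynomial.homogeneousComponent m W) = h →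
  (∀ β : ℝ, Polynomial.aeval β h = 0 → ∃ i, β = ρ i) →
  (∀ i, h.eval (ρ i) = 0 ∧ h.derivative.eval (ρ i) ≠ 0) →
  ∀ K : ℕ, ∃ (Q : Fin k → MvPolynomial (Fin 2) ℚ) (C A : ℝ), ∀ x y t : ℝ, A ≤ |t| → 1 ≤ |y| →
    MvPolynomial.aeval ![x, y, t * y] W = 0 →
    ∃ i, |x - t * y * MvPolynomial.aeval ![1 / t, 1 / (t * y)] (Q i)| * |t| ^ K ≤ C * |y|

end Pool.Agent.W257
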