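import Pool.Agent.W257.L4
import Pool.Agent.W257.LStm2

/-!
Integral points on `x^m - (t^m + r) y^m = R(x, y, t y)`.
-/

open Polynomial Finset

namespace Pool.Agent.W257

open Pool.Agent.H322R2

/-- the form `x^m - z^m - r y^m` -/
noncomputable def Hp (m : ℕ) (r : ℤ) : MvPolynomial (Fin 3) ℤ :=
  MvPolynomial.X 0 ^ m - MvPolynomial.X 2 ^ m - MvPolynomial.C r * MvPolynomial.X 1 ^ m

lemma Hp_isHom (m : ℕ) (r : ℤ) : (Hp m r).IsHomogeneous m := by
  unfold Hp
  apply MvPolynomial.IsHomogeneous.sub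
  · exact MvPolynomial.IsHomogeneous.sub (MvPolynomial.isHomogeneous_X_pow _ _)
      (MvPolynomial.isHomogeneous_X_pow _ _)
  · exact MvPolynomial.isHomogeneous_C_mul_X_pow _ _ _

section

variable {m : ℕ} (hm : 3 ≤ m) (r : ℤ) {R : MvPolynomial (Fin 3) ℤ} (hR : R.totalDegree < m)

include hR in
lemma Wp_deg : (Hp m r - R).totalDegree ≤ m :=
  (MvPolynomial.totalDegree_sub _ _).trans (max_le (Hp_isHom m r).totalDegree_le hR.le)

include hR in
lemma Wp_comp : MvPolynomial.homogeneousComponent m (Hp m r - R) = Hp m r := by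
  rw [map_sub, MvPolynomial.homogeneousComponent_of_mem
    ((MvPolynomial.mem_homogeneousSubmodule m _).2 (Hp_isHom m r)), if_pos rfl,
    MvPolynomial.homogeneousComponent_eq_zero _ _ hR, sub_zero]

include hm hR in
lemma Wp_coeff : (Hp m r - R).coeff (Finsupp.single 0 m) = 1 := by
  have h8 : R.coeff (Finsupp.single 0 m) = 0 := by
    apply MvPolynomial.coeff_eq_zero_of_totalDegree_lt
    have h9 : ∑ i ∈ (Finsupp.single (0 : Fin 3) m).support, (Finsupp.single (0 : Fin 3) m) i
        = m := by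
      rw [Finsupp.support_single_ne_zero _ (by omega)]
      simp
    rw [h9]
    exact hR
  have h1 : (Finsupp.single (2 : Fin 3) m) ≠ Finsupp.single 0 m := by
    intro h
    have := DFunLike.congr_fun h 0
    simp at this
    omega
  have h2 : (Finsupp.single (1 : Fin 3) m) ≠ Finsupp.single 0 m := by
    intro h
    have := DFunLike.congr_fun h 0
    simp at this
    omega
  rw [MvPolynomial.coeff_sub, h8, sub_zero, Hp, MvPolynomial.coeff_sub, MvPolynomial.coeff_sub,
    MvPolynomial.coeff_C_mul, MvPolynomial.coeff_X_pow, MvPolynomial.coeff_X_pow,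
    MvPolynomial.coeff_X_pow, if_pos rfl, if_neg h1, if_neg h2]
  ring

end

lemma fib_Hp (m : ℕ) (r a : ℤ) : fib (Hp m r) a
    = MvPolynomial.X 0 ^ m - MvPolynomial.C (a ^ m + r) * MvPolynomial.X 1 ^ m := by
  unfold fib Hp
  simp only [map_sub, map_mul, map_pow, MvPolynomial.aeval_X, MvPolynomial.aeval_C,
    Matrix.cons_val_zero, Matrix.cons_val_one, Matrix.cons_val, MvPolynomial.algebraMap_eq,
    map_add]
  ring

/-- irreducibility of one fibre -/
lemma fib_Hp_irr {m : ℕ} (hm : 3 ≤ m) {r : ℤ} (hr : r ≠ 0) {R : MvPolynomial (Fin 3) ℤ}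
    (hR : R.totalDegree < m) {a : ℕ} (ha : m * 2 ^ m * r.natAbs < a) :
    Irreducible (MvPolynomial.map (Int.castRingHom ℚ) (fib (Hp m r - R) (a : ℤ))) := by
  have hm0 : 0 < m := by omega
  have hlarge := ha
  have hra : r.natAbs < a := by
    refine lt_of_le_of_lt ?_ ha
    exact Nat.le_mul_of_pos_left _ (Nat.mul_pos hm0 (by positivity))
  have ha1 : 1 ≤ a := by omega
  obtain ⟨n, hn⟩ : ∃ n : ℤ, n = (a : ℤ) ^ m + r := ⟨_, rfl⟩
  have hapow : (a : ℤ) ≤ (a : ℤ) ^ m := le_self_pow₀ (by exact_mod_cast ha1) (by omega)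
  have hrabs : |r| < a := by rw [Int.abs_eq_natAbs]; omega
  have hn0 : 0 < n := by
    have := (abs_lt.1 hrabs).1
    omega
  obtain ⟨μ, hμ0, hμ⟩ : ∃ μ : ℝ, 0 < μ ∧ μ ^ m = (n : ℝ) := by
    have hmR : (0 : ℝ) < n := by exact_mod_cast hn0
    exact ⟨(n : ℝ) ^ ((m : ℝ)⁻¹), Real.rpow_pos_of_pos hmR _,
      Real.rpow_inv_natCast_pow hmR.le (by omega)⟩
  obtain ⟨q, hq⟩ : ∃ q : ℤ[X], q = X ^ m - C n := ⟨_, rfl⟩
  have hqm : q.Monic := by rw [hq]; exact monic_X_pow_sub_C _ (by omega)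
  have hqd : q.natDegree = m := by rw [hq]; exact natDegree_X_pow_sub_C
  have hqirr : Irreducible q := by
    rw [hq, hn]
    exact pure_irr (by omega) hr hlarge hμ0 (by rw [hμ, hn])
  have hφ : homogenize q m = fib (Hp m r) (a : ℤ) := by
    rw [hq, homogenize_sub, homogenize_X_pow le_rfl, homogenize_C, Nat.sub_self, pow_zero,
      mul_one, fib_Hp, hn]
  have hirrφ : Irreducible (MvPolynomial.map (Int.castRingHom ℚ) (fib (Hp m r) (a : ℤ))) := by
    rw [← hφ, ← homogenize_map]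
    apply homogenize_irr
    · rw [hqm.natDegree_map, hqd]
    · exact (hqm.irreducible_iff_irreducible_map_fraction_map (K := ℚ)).1 hqirr
  have hcomp := fib_comp (Hp_isHom m r) (a : ℤ) hR
  have hcm : MvPolynomial.homogeneousComponent m
      (MvPolynomial.map (Int.castRingHom ℚ) (fib (Hp m r - R) (a : ℤ)))
      = MvPolynomial.map (Int.castRingHom ℚ) (fib (Hp m r) (a : ℤ)) := by
    rw [← hcomp]
    ext n
    rw [MvPolynomial.coeff_homogeneousComponent, MvPolynomial.coeff_map,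
      MvPolynomial.coeff_map, MvPolynomial.coeff_homogeneousComponent]
    split_ifs <;> simp
  have hφ0 : fib (Hp m r) (a : ℤ) ≠ 0 := by
    rw [← hφ, Ne, homogenize_eq_zero_iff hqd.le]
    exact hqm.ne_zero
  have hFd : (fib (Hp m r - R) (a : ℤ)).totalDegree = m := by
    apply le_antisymm
    · exact fib_totalDegree_le _ (Wp_deg r hR)
    · by_contra hcon
      push Not at hcon
      rw [MvPolynomial.homogeneousComponent_eq_zero _ _ hcon] at hcomp
      exact hφ0 hcomp.symm
  have hinj : Function.Injective (Int.castRingHom ℚ) := Int.cast_injective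
  have hFd' : (MvPolynomial.map (Int.castRingHom ℚ) (fib (Hp m r - R) (a : ℤ))).totalDegree = m := by
    rw [MvPolynomial.totalDegree, MvPolynomial.support_map_of_injective _ hinj,
      ← MvPolynomial.totalDegree, hFd]
  apply irr_of_lead
  · rw [hFd']; omega
  · rw [hFd', hcm]; exact hirrφ

/-- polynomial bound, `t > 0` -/
lemma bound_pos {m : ℕ} (hm : 3 ≤ m) {r : ℤ} (hr : r ≠ 0) {R : MvPolynomial (Fin 3) ℤ}
    (hR : R.totalDegree < m) {a : ℕ} (ha : thrA m (1 + r.natAbs) ≤ a)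
    (ha2 : (m + 1) * (1 + len3 R) ≤ a) (x y : ℤ)
    (hxy : MvPolynomial.eval ![x, y, (a : ℤ) * y] (Hp m r - R) = 0) :
    y.natAbs ≤ a ^ ((2 * m + 3) * kF m) := by
  have ha1 : 1 ≤ a := by
    refine le_trans ?_ ha2
    exact Nat.mul_pos (by omega) (by omega)
  have hRf : (fib R (a : ℤ)).totalDegree < m :=
    lt_of_le_of_lt (fib_totalDegree_le _ le_rfl) hR
  have heq : x ^ m - ((a : ℤ) ^ m + r) * y ^ m = MvPolynomial.eval ![x, y] (fib R (a : ℤ)) := by
    rw [← eval_fib] at hxy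
    have h1 : fib (Hp m r - R) (a : ℤ) = fib (Hp m r) (a : ℤ) - fib R (a : ℤ) := map_sub _ _ _
    rw [h1, map_sub, fib_Hp, sub_eq_zero] at hxy
    rw [← hxy]
    simp
  have hmain := main_binom hm hr ha (fib R (a : ℤ)) hRf x y heq
  refine hmain.2.trans ?_
  rw [pow_mul]
  apply Nat.pow_le_pow_left
  have h5 := len_fib_le (W := R) (a : ℤ) (k := m) hR.le (by simpa using ha1)
  rw [Int.natAbs_natCast] at h5
  have h6 : 1 ≤ a ^ m := Nat.one_le_pow _ _ ha1
  calc a ^ (m + 2) * ((m + 1) * (1 + len (fib R (a : ℤ))))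
      ≤ a ^ (m + 2) * ((m + 1) * (a ^ m * (1 + len3 R))) := by
        apply Nat.mul_le_mul_left
        apply Nat.mul_le_mul_left
        rw [mul_add, mul_one]
        omega
    _ = a ^ (2 * m + 2) * ((m + 1) * (1 + len3 R)) := by
        rw [show 2 * m + 2 = (m + 2) + m by ring, pow_add]; ring
    _ ≤ a ^ (2 * m + 2) * a := Nat.mul_le_mul_left _ ha2
    _ = a ^ (2 * m + 3) := (pow_succ a (2 * m + 2)).symm

/-- sign changes -/
noncomputable def sg (e1 e2 : ℤ) (R : MvPolynomial (Fin 3) ℤ) : MvPolynomial (Fin 3) ℤ :=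
  MvPolynomial.aeval ![MvPolynomial.X 0, MvPolynomial.C e1 * MvPolynomial.X 1,
    MvPolynomial.C e2 * MvPolynomial.X 2] R

lemma eval_sg (e1 e2 : ℤ) (R : MvPolynomial (Fin 3) ℤ) (x y z : ℤ) :
    MvPolynomial.eval ![x, y, z] (sg e1 e2 R) = MvPolynomial.eval ![x, e1 * y, e2 * z] R := by
  have : (MvPolynomial.eval ![x, y, z]).comp (MvPolynomial.aeval ![MvPolynomial.X 0,
      MvPolynomial.C e1 * MvPolynomial.X 1, MvPolynomial.C e2 * MvPolynomial.X 2] :
      MvPolynomial (Fin 3) ℤ →ₐ[ℤ] MvPolynomial (Fin 3) ℤ).toRingHom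
      = MvPolynomial.eval ![x, e1 * y, e2 * z] := by
    apply MvPolynomial.ringHom_ext
    · intro r
      simp
    · intro i
      fin_cases i <;> simp
  exact congrArg (fun g : MvPolynomial (Fin 3) ℤ →+* ℤ => g R) this

lemma sg_deg (e1 e2 : ℤ) (R : MvPolynomial (Fin 3) ℤ) :
    (sg e1 e2 R).totalDegree ≤ R.totalDegree := by
  unfold sg
  rw [MvPolynomial.aeval_def, MvPolynomial.eval₂_eq']
  apply MvPolynomial.totalDegree_finsetSum_le
  intro n hn
  rw [Fin.prod_univ_three]
  simp only [Matrix.cons_val_zero, Matrix.cons_val_one, Matrix.cons_val]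
  have h1 : n 0 + n 1 + n 2 ≤ R.totalDegree := by
    have h3 := MvPolynomial.le_totalDegree hn
    have h4 : (n.sum fun _ e => e) = n 0 + n 1 + n 2 := by
      rw [Finsupp.sum_fintype _ _ (by simp), Fin.sum_univ_three]
    omega
  refine (MvPolynomial.totalDegree_mul _ _).trans ?_
  have e0 : (algebraMap ℤ (MvPolynomial (Fin 3) ℤ) (MvPolynomial.coeff n R)).totalDegree = 0 := by
    rw [MvPolynomial.algebraMap_eq]; exact MvPolynomial.totalDegree_C _
  rw [e0, zero_add]
  refine (MvPolynomial.totalDegree_mul _ _).trans ?_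
  have key : ∀ (e : ℤ) (i : Fin 3) (k : ℕ),
      ((MvPolynomial.C e * MvPolynomial.X i) ^ k : MvPolynomial (Fin 3) ℤ).totalDegree ≤ k := by
    intro e i k
    have := (MvPolynomial.isHomogeneous_C (Fin 3) e).mul
          (MvPolynomial.isHomogeneous_X ℤ i)
    have h5 := (this.pow k).totalDegree_le
    simpa using h5
  have e1' : (MvPolynomial.X 0 ^ n 0 * (MvPolynomial.C e1 * MvPolynomial.X 1) ^ n 1 :
      MvPolynomial (Fin 3) ℤ).totalDegree ≤ n 0 + n 1 := by
    refine (MvPolynomial.totalDegree_mul _ _).trans ?_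
    rw [MvPolynomial.totalDegree_X_pow]
    have := key e1 1 (n 1)
    omega
  have e2' := key e2 2 (n 2)
  omega

/-- polynomial bound -/
lemma bound_pure {m : ℕ} (hm : 3 ≤ m) {r : ℤ} (hr : r ≠ 0) {R : MvPolynomial (Fin 3) ℤ}
    (hR : R.totalDegree < m) : ∃ T κ : ℕ, ∀ x y t : ℤ, T ≤ t.natAbs →
      MvPolynomial.eval ![x, y, t * y] (Hp m r - R) = 0 → y.natAbs ≤ t.natAbs ^ κ := by
  refine ⟨max (max (thrA m (1 + r.natAbs)) ((m + 1) * (1 + len3 R)))
    (max ((m + 1) * (1 + len3 (sg 1 (-1) R))) ((m + 1) * (1 + len3 (sg (-1) 1 R)))),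
    (2 * m + 3) * kF m, ?_⟩
  intro x y t ht hxy
  have h1 := ((le_max_left _ _).trans (le_max_left _ _)).trans ht
  have h2 := ((le_max_right _ _).trans (le_max_left _ _)).trans ht
  have h3 := ((le_max_left _ _).trans (le_max_right _ _)).trans ht
  have h4 := ((le_max_right _ _).trans (le_max_right _ _)).trans ht
  have hev : ∀ (s : ℤ) (V : MvPolynomial (Fin 3) ℤ) (p q w : ℤ),
      MvPolynomial.eval ![p, q, w] (Hp m s - V)
        = p ^ m - w ^ m - s * q ^ m - MvPolynomial.eval ![p, q, w] V := by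
    intro s V p q w
    rw [map_sub, Hp]
    simp
  rcases le_or_gt 0 t with h0 | h0
  · have e1 : t = (t.natAbs : ℤ) := by omega
    apply bound_pos hm hr hR h1 h2 x y
    rw [← e1]; exact hxy
  · have e1 : -t = (t.natAbs : ℤ) := by omega
    rcases Nat.even_or_odd m with hme | hmo
    · apply bound_pos hm hr (lt_of_le_of_lt (sg_deg 1 (-1) R) hR) h1 h3 x y
      rw [hev, eval_sg, ← e1]
      rw [hev] at hxy
      have e2 : (-t * y) ^ m = (t * y) ^ m := by
        rw [neg_mul]; exact hme.neg_pow _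
      have e3 : -1 * (-t * y) = t * y := by ring
      rw [e2, e3, one_mul]
      exact hxy
    · have hr' : -r ≠ 0 := neg_ne_zero.2 hr
      have := bound_pos hm hr' (lt_of_le_of_lt (sg_deg (-1) 1 R) hR) (by rwa [Int.natAbs_neg]) h4
        x (-y) (by
          rw [hev, eval_sg, ← e1]
          rw [hev] at hxy
          have e2 : (-t * -y) = t * y := by ring
          have e3 : -1 * -y = y := by ring
          have e4 : (-y) ^ m = - y ^ m := hmo.neg_pow _
          rw [e2, e3, one_mul, e4]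
          linarith)
      rwa [Int.natAbs_neg] at this

theorem main_LVpure (hexp : S_exp2) (haux : S_aux) {m : ℕ} (hm : 3 ≤ m) {r : ℤ} (hr : r ≠ 0)
    {R : MvPolynomial (Fin 3) ℤ} (hR : R.totalDegree < m) :
    Irreducible (MvPolynomial.map (Int.castRingHom ℚ) (surf (Hp m r - R))) ∧
    ∃ G : MvPolynomial (Fin 3) ℤ,
      ¬ MvPolynomial.map (Int.castRingHom ℚ) (surf (Hp m r - R))
        ∣ MvPolynomial.map (Int.castRingHom ℚ) G ∧
      ∀ x y t : ℤ, MvPolynomial.eval ![x, y, t] (surf (Hp m r - R)) = 0 →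
        MvPolynomial.eval ![x, y, t] G = 0 := by
  have hm0 : m ≠ 0 := by omega
  obtain ⟨hmon, hnd, -, hSirr⟩ := surf_irr (by omega) (Wp_deg r hR) (Wp_coeff hm r hR)
    (fib_Hp_irr hm hr hR (Nat.lt_succ_self (m * 2 ^ m * r.natAbs)))
  have hh : MvPolynomial.aeval ![(X : ℤ[X]), 0, 1]
      (MvPolynomial.homogeneousComponent m (Hp m r - R)) = X ^ m - C 1 := by
    rw [Wp_comp r hR, Hp]
    simp [hm0]
  have hder : ∀ s : ℤ, s ^ m = 1 → (X ^ m - C 1 : ℤ[X]).eval s = 0 ∧
      (derivative (X ^ m - C 1 : ℤ[X])).eval s ≠ 0 := by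
    intro s hs
    constructor
    · simp [hs]
    · simp only [derivative_sub, derivative_X_pow, derivative_C, sub_zero, eval_mul, eval_C,
        eval_pow, eval_X]
      apply mul_ne_zero
      · exact_mod_cast hm0
      · apply pow_ne_zero
        rintro rfl
        rw [zero_pow hm0] at hs
        exact zero_ne_one hs
  have hb := bound_pure hm hr hR
  have hroot : ∀ β : ℝ, aeval β (X ^ m - C 1 : ℤ[X]) = 0 → β = 1 ∨ β = -1 := by
    intro β hβ
    simp only [map_sub, map_pow, aeval_X, aeval_C, map_one, sub_eq_zero] at hβ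
    have h2 : |β| = 1 := by
      have h3 : |β| ^ m = 1 := by rw [← abs_pow, hβ, abs_one]
      exact (pow_eq_one_iff_of_nonneg (abs_nonneg _) hm0).1 h3
    exact (abs_eq (by norm_num)).1 h2
  have hmonh : (X ^ m - C 1 : ℤ[X]).Monic := monic_X_pow_sub_C _ hm0
  have hndh : (X ^ m - C 1 : ℤ[X]).natDegree = m := natDegree_X_pow_sub_C
  refine ⟨hSirr, ?_⟩
  rcases Nat.even_or_odd m with hme | hmo
  · refine assemble (k := 2) haux hm hmon hnd hSirr
      (hexp m 2 ![1, -1] _ _ (Wp_deg r hR) hmonh hndh hh ?_ ?_) hb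
    · intro β hβ
      rcases hroot β hβ with h | h
      · exact ⟨0, by simp [h]⟩
      · exact ⟨1, by simp [h]⟩
    · intro i
      fin_cases i
      · exact hder 1 (one_pow _)
      · exact hder (-1) (by rw [hme.neg_pow, one_pow])
  · refine assemble (k := 1) haux hm hmon hnd hSirr
      (hexp m 1 ![1] _ _ (Wp_deg r hR) hmonh hndh hh ?_ ?_) hb
    · intro β hβ
      rcases hroot β hβ with h | h
      · exact ⟨0, by simp [h]⟩
      · exfalso
        rw [h] at hβ
        simp only [map_sub, map_pow, aeval_X, aeval_C, map_one, sub_eq_zero, hmo.neg_pow,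
          one_pow] at hβ
        norm_num at hβ
    · intro i
      fin_cases i
      exact hder 1 (one_pow _)

end Pool.Agent.W257
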