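import Pool.Agent.W257.L5
import Pool.Agent.W469.LV1
import Pool.Agent.W397.LV2
import Pool.Agent.W803.LV.LV3
import Pool.Agent.W571.LV.LV4

/-!
The theorem on integral points on `H(x, y, t y) = R(x, y, t y)`, unconditional.
-/

namespace Pool.Agent.W257

theorem LV_split {m : ℕ} (hm : 3 ≤ m)
    {ρ : Fin m → ℤ} (hρ : Function.Injective ρ) {H R : MvPolynomial (Fin 3) ℤ}
    (hH : H.IsHomogeneous m) (hHi : Irreducible (MvPolynomial.map (Int.castRingHom ℚ) H))
    (hH0 : MvPolynomial.aeval ![MvPolynomial.X 0, 0, MvPolynomial.X 1] H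
      = ∏ i, (MvPolynomial.X 0 - MvPolynomial.C (ρ i) * MvPolynomial.X 1 : MvPolynomial (Fin 2) ℤ))
    (hR : R.totalDegree < m) :
    Irreducible (MvPolynomial.map (Int.castRingHom ℚ) (surf (H - R))) ∧
    ∃ G : MvPolynomial (Fin 3) ℤ,
      ¬ MvPolynomial.map (Int.castRingHom ℚ) (surf (H - R))
        ∣ MvPolynomial.map (Int.castRingHom ℚ) G ∧
      ∀ x y t : ℤ, MvPolynomial.eval ![x, y, t] (surf (H - R)) = 0 →
        MvPolynomial.eval ![x, y, t] G = 0 :=
  main_LV Pool.Agent.W469.LV1.main Pool.Agent.W397.LV2.main Pool.Agent.W803.LV.main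
    Pool.Agent.W571.LV4.main hm hρ hH hHi hH0 hR

end Pool.Agent.W257
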