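import Mathlib

/-!
Statements for the height inequality for integral points on surfaces `H(x, y, z) = R(x, y, z)`.
-/

set_option autoImplicit false

namespace Pool.Agent.W257

/-- Auxiliary polynomial with a rate of decay and a bound for the degree in `t`. -/
def S_aux2 : Prop := ∀ (m l : ℕ), 3 ≤ m → ∃ K D : ℕ, ∀ Q : MvPolynomial (Fin 2) ℚ,
  ∃ G : MvPolynomial (Fin 3) ℤ, G ≠ 0 ∧ G.degreeOf 0 < m ∧ G.degreeOf 2 ≤ D ∧
  ∀ C : ℝ, ∃ C' A : ℝ, ∀ x y t : ℝ, A ≤ |t| → |t| ^ l ≤ |y| → |y| ≤ |t| ^ (l + 1) →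
    |x - t * y * MvPolynomial.aeval ![1 / t, 1 / (t * y)] Q| * |t| ^ K ≤ C * |y| →
    |MvPolynomial.aeval ![x, y, t] G| * |t| ≤ C'

/-- Hilbert irreducibility for families split at infinity, rational parameters with small
denominator. -/
def S_irr2 : Prop := ∀ (m : ℕ) (ρ : Fin m → ℤ) (P : MvPolynomial (Fin 2) ℤ), 1 ≤ m →
  Function.Injective ρ → P.totalDegree = m →
  MvPolynomial.homogeneousComponent m P
    = ∏ i, (MvPolynomial.X 0 - MvPolynomial.C (ρ i) * MvPolynomial.X 1) →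
  Irreducible (MvPolynomial.map (Int.castRingHom ℚ) P) →
  ∃ A M : ℕ, ∀ a b : ℤ, b ≠ 0 → A ≤ a.natAbs → b.natAbs ^ M ≤ a.natAbs →
    Irreducible (MvPolynomial.aeval
      ![(Polynomial.X : Polynomial ℚ), Polynomial.C ((a : ℚ) / (b : ℚ))] P)

end Pool.Agent.W257
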