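import Pool.Agent.W257.V5

/-!
Rational points on `H(x, y, z) = R(x, y, z)`: clearing denominators and polynomial bounds.
-/

open Polynomial Finset

namespace Pool.Agent.W257

open Pool.Agent.H322R2

/-- `w^m R(x/w, y/w, z/w)` -/
noncomputable def Rw (m : ℕ) (w : ℤ) (R : MvPolynomial (Fin 3) ℤ) : MvPolynomial (Fin 3) ℤ :=
  ∑ n ∈ R.support, MvPolynomial.monomial n (R.coeff n * w ^ (m - (n 0 + n 1 + n 2)))

lemma coeff_Rw (m : ℕ) (w : ℤ) (R : MvPolynomial (Fin 3) ℤ) (n : Fin 3 →₀ ℕ) :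
    (Rw m w R).coeff n = R.coeff n * w ^ (m - (n 0 + n 1 + n 2)) := by
  classical
  unfold Rw
  rw [MvPolynomial.coeff_sum]
  simp_rw [MvPolynomial.coeff_monomial]
  rw [Finset.sum_ite_eq']
  split_ifs with h
  · rfl
  · rw [MvPolynomial.notMem_support_iff.1 h, zero_mul]

lemma Rw_support (m : ℕ) (w : ℤ) (R : MvPolynomial (Fin 3) ℤ) : (Rw m w R).support ⊆ R.support := by
  intro n hn
  rw [MvPolynomial.mem_support_iff, coeff_Rw] at hn
  rw [MvPolynomial.mem_support_iff]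
  exact left_ne_zero_of_mul hn

lemma Rw_deg (m : ℕ) (w : ℤ) (R : MvPolynomial (Fin 3) ℤ) :
    (Rw m w R).totalDegree ≤ R.totalDegree :=
  MvPolynomial.totalDegree_le_of_support_subset (Rw_support m w R)

lemma deg3 {m : ℕ} {R : MvPolynomial (Fin 3) ℤ} (hR : R.totalDegree ≤ m) {n : Fin 3 →₀ ℕ}
    (hn : n ∈ R.support) : n 0 + n 1 + n 2 ≤ m := by
  have h3 := MvPolynomial.le_totalDegree hn
  have h4 : (n.sum fun _ e => e) = n 0 + n 1 + n 2 := by
    rw [Finsupp.sum_fintype _ _ (by simp), Fin.sum_univ_three]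
  omega

lemma len3_Rw {m : ℕ} {w : ℤ} (hw : w ≠ 0) (R : MvPolynomial (Fin 3) ℤ) :
    len3 (Rw m w R) ≤ w.natAbs ^ m * len3 R := by
  have hw1 : 1 ≤ w.natAbs := by omega
  unfold len3
  rw [Finset.mul_sum]
  refine (Finset.sum_le_sum_of_subset (Rw_support m w R)).trans ?_
  apply Finset.sum_le_sum
  intro n hn
  rw [coeff_Rw, Int.natAbs_mul, Int.natAbs_pow, mul_comm]
  apply Nat.mul_le_mul_right
  apply Nat.pow_le_pow_right hw1
  omega

lemma len3_sub_le (P Q : MvPolynomial (Fin 3) ℤ) : len3 (P - Q) ≤ len3 P + len3 Q := by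
  classical
  have h1 : len3 (P - Q) ≤ ∑ n ∈ P.support ∪ Q.support, ((P - Q).coeff n).natAbs := by
    unfold len3
    apply Finset.sum_le_sum_of_subset
    intro n hn
    rw [Finset.mem_union]
    rw [MvPolynomial.mem_support_iff, MvPolynomial.coeff_sub] at hn
    by_contra hcon
    push Not at hcon
    rw [MvPolynomial.notMem_support_iff.1 hcon.1, MvPolynomial.notMem_support_iff.1 hcon.2] at hn
    simp at hn
  have h2 : ∀ P' : MvPolynomial (Fin 3) ℤ, ∀ s : Finset (Fin 3 →₀ ℕ), P'.support ⊆ s →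
      ∑ n ∈ s, (P'.coeff n).natAbs = len3 P' := by
    intro P' s hs
    unfold len3
    symm
    apply Finset.sum_subset hs
    intro n _ hn
    rw [MvPolynomial.notMem_support_iff.1 hn]
    rfl
  rw [← h2 P _ Finset.subset_union_left, ← h2 Q _ (Finset.subset_union_right (s₁ := P.support)),
    ← Finset.sum_add_distrib]
  refine h1.trans ?_
  apply Finset.sum_le_sum
  intro n _
  rw [MvPolynomial.coeff_sub]
  exact Int.natAbs_sub_le _ _

lemma aeval_castQ (V : MvPolynomial (Fin 3) ℤ) (p q r : ℤ) :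
    MvPolynomial.aeval ![(p : ℚ), (q : ℚ), (r : ℚ)] V
      = ((MvPolynomial.eval ![p, q, r] V : ℤ) : ℚ) := by
  have : (MvPolynomial.aeval ![(p : ℚ), (q : ℚ), (r : ℚ)] :
      MvPolynomial (Fin 3) ℤ →ₐ[ℤ] ℚ).toRingHom
      = (Int.castRingHom ℚ).comp (MvPolynomial.eval ![p, q, r]) := by
    apply MvPolynomial.ringHom_ext
    · intro r; simp
    · intro i
      fin_cases i <;> simp
  exact congrArg (fun g : MvPolynomial (Fin 3) ℤ →+* ℚ => g V) this

lemma eval_Rw {m : ℕ} {w : ℤ} (hw : w ≠ 0) {R : MvPolynomial (Fin 3) ℤ}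
    (hR : R.totalDegree ≤ m) (x y z : ℤ) :
    ((MvPolynomial.eval ![x, y, z] (Rw m w R) : ℤ) : ℚ)
      = (w : ℚ) ^ m * MvPolynomial.aeval ![(x : ℚ) / w, (y : ℚ) / w, (z : ℚ) / w] R := by
  have hwq : (w : ℚ) ≠ 0 := by exact_mod_cast hw
  unfold Rw
  rw [map_sum, MvPolynomial.aeval_def, MvPolynomial.eval₂_eq', Finset.mul_sum]
  push_cast
  apply Finset.sum_congr rfl
  intro n hn
  rw [MvPolynomial.eval_monomial, Finsupp.prod_fintype _ _ (by simp), Fin.prod_univ_three,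
    Fin.prod_univ_three]
  simp only [Matrix.cons_val_zero, Matrix.cons_val_one, Matrix.cons_val, algebraMap_int_eq,
    eq_intCast]
  have h1 := deg3 hR hn
  have h2 : (w : ℚ) ^ m = w ^ (m - (n 0 + n 1 + n 2)) * (w ^ n 0 * w ^ n 1 * w ^ n 2) := by
    rw [← pow_add, ← pow_add, ← pow_add]; congr 1; omega
  rw [h2, div_pow, div_pow, div_pow]
  push_cast
  field_simp

/-- clearing denominators -/
lemma clear_den {m : ℕ} {w : ℤ} (hw : w ≠ 0) {H R : MvPolynomial (Fin 3) ℤ}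
    (hH : H.IsHomogeneous m) (hR : R.totalDegree ≤ m) {x y z : ℤ}
    (h : MvPolynomial.aeval ![(x : ℚ) / w, (y : ℚ) / w, (z : ℚ) / w] (H - R) = 0) :
    MvPolynomial.eval ![x, y, z] (H - Rw m w R) = 0 := by
  have hwq : (w : ℚ) ≠ 0 := by exact_mod_cast hw
  have h1 := aeval_scale3 hH (w : ℚ) ((x : ℚ) / w) ((y : ℚ) / w) ((z : ℚ) / w)
  rw [mul_div_cancel₀ _ hwq, mul_div_cancel₀ _ hwq, mul_div_cancel₀ _ hwq, aeval_castQ] at h1
  have h2 : ((MvPolynomial.eval ![x, y, z] (H - Rw m w R) : ℤ) : ℚ) = 0 := by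
    rw [map_sub, Int.cast_sub, eval_Rw hw hR, h1, ← mul_sub, ← map_sub, h, mul_zero]
  exact_mod_cast h2

/-- Split case: bound for rational points with small denominators. -/
theorem bound_split_w (hirr : S_irr2) (hdeh : S_deh) {m : ℕ} (hm : 3 ≤ m)
    {ρ : Fin m → ℤ} (hρ : Function.Injective ρ) {H R : MvPolynomial (Fin 3) ℤ}
    (hH : H.IsHomogeneous m) (hHi : Irreducible (MvPolynomial.map (Int.castRingHom ℚ) H))
    (hH0 : MvPolynomial.aeval ![MvPolynomial.X 0, 0, MvPolynomial.X 1] H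
      = ∏ i, (MvPolynomial.X 0 - MvPolynomial.C (ρ i) * MvPolynomial.X 1 : MvPolynomial (Fin 2) ℤ))
    (hR : R.totalDegree < m) :
    ∃ A M κ : ℕ, ∀ x a b g w : ℤ, b ≠ 0 → w ≠ 0 → A ≤ a.natAbs →
      (b * w).natAbs ^ M ≤ a.natAbs →
      MvPolynomial.eval ![x, b * g, a * g] (H - Rw m w R) = 0 → g.natAbs ≤ a.natAbs ^ κ := by
  have hm1 : 1 ≤ m := by omega
  obtain ⟨hPd, hP, hPi⟩ := hdeh m ρ H hm1 hH hH0
  obtain ⟨A0, M0, hAM⟩ := hirr m ρ (deh H) hm1 hρ hPd hP (hPi hHi)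
  obtain ⟨E, hE⟩ : ∃ E, E = 10 ^ 5 * (m + 1) ^ 2 * (2 * m) ^ (8 * m.factorial) := ⟨_, rfl⟩
  refine ⟨max A0 (max ((2 * len3 H) ^ (2 * E)) (((m + 1) * (len3 H + len3 R)) ^ 2)),
    max M0 (2 * m * E + 2 * m), (m + 2) * kS m m, ?_⟩
  intro x a b g w hb hw ha hbwa hxy
  have ha0 := (le_max_left _ _).trans ha
  have ha1 := ((le_max_left _ _).trans (le_max_right _ _)).trans ha
  have ha2 := ((le_max_right _ _).trans (le_max_right _ _)).trans ha
  have hb1 : 1 ≤ b.natAbs := by omega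
  have hw1 : 1 ≤ w.natAbs := by omega
  have hbw : b.natAbs ≤ (b * w).natAbs := by
    rw [Int.natAbs_mul]; exact Nat.le_mul_of_pos_right _ hw1
  have hbw1 : 1 ≤ (b * w).natAbs := hb1.trans hbw
  have hba : b.natAbs ^ (max M0 (2 * m * E + 2 * m)) ≤ a.natAbs :=
    (Nat.pow_le_pow_left hbw _).trans hbwa
  have hbM0 : b.natAbs ^ M0 ≤ a.natAbs := (Nat.pow_le_pow_right hb1 (le_max_left _ _)).trans hba
  have hbE : (b.natAbs ^ (m * E)) ^ 2 ≤ a.natAbs := by
    rw [← pow_mul]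
    refine (Nat.pow_le_pow_right hb1 ?_).trans hba
    refine le_trans ?_ (le_max_right _ _)
    nlinarith
  have hbm : ((b * w).natAbs ^ m) ^ 2 ≤ a.natAbs := by
    rw [← pow_mul]
    refine (Nat.pow_le_pow_right hbw1 ?_).trans hbwa
    refine le_trans ?_ (le_max_right _ _)
    nlinarith
  -- product of two numbers whose squares are at most `|a|`
  have hsq : ∀ p q n : ℕ, p ^ 2 ≤ n → q ^ 2 ≤ n → p * q ≤ n := by
    intro p q n h1 h2
    nlinarith [sq_nonneg ((p : ℤ) - q), Nat.le_total p q]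
  obtain ⟨R', hR'⟩ : ∃ R', R' = Rw m w R := ⟨_, rfl⟩
  rw [← hR'] at hxy
  have hR'd : R'.totalDegree < m := by rw [hR']; exact lt_of_le_of_lt (Rw_deg m w R) hR
  have hHb := sb1_isHom b hH
  have hRb : (sb1 b R').totalDegree < m := lt_of_le_of_lt (sb1_deg b R') hR'd
  have hH0b : MvPolynomial.aeval ![MvPolynomial.X 0, 0, MvPolynomial.X 1] (sb1 b H)
      = ∏ i, (MvPolynomial.X 0 - MvPolynomial.C (ρ i) * MvPolynomial.X 1 :
        MvPolynomial (Fin 2) ℤ) := by rw [lin0_sb1, hH0]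
  obtain ⟨hPdb, hPb, -⟩ := hdeh m ρ (sb1 b H) hm1 hHb hH0b
  have hWb : sb1 b H - sb1 b R' = sb1 b (H - R') := (map_sub _ _ _).symm
  have hWd : (H - R').totalDegree ≤ m :=
    (MvPolynomial.totalDegree_sub _ _).trans (max_le hH.totalDegree_le hR'd.le)
  have hirrb := irr_sb1 hH hb (hAM a b hb ha0 hbM0)
  apply fib_bound hHb a hRb hm hρ hPdb hPb hirrb _ _ x g
  · rw [hWb, eval_sb1]; exact hxy
  · unfold thrS
    rw [← hE]
    calc (2 * len (deh (sb1 b H))) ^ E ≤ (2 * (b.natAbs ^ m * len3 H)) ^ E := by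
          apply Nat.pow_le_pow_left
          apply Nat.mul_le_mul_left
          exact (len_deh_le _).trans (len3_sb1 hb hH.totalDegree_le)
      _ = (2 * len3 H) ^ E * b.natAbs ^ (m * E) := by
          rw [pow_mul]; ring
      _ ≤ a.natAbs := by
          apply hsq
          · rw [← pow_mul, mul_comm E 2]; exact ha1
          · exact hbE
  · rw [hWb]
    have hl : len3 (H - R') ≤ w.natAbs ^ m * (len3 H + len3 R) := by
      refine (len3_sub_le _ _).trans ?_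
      rw [hR', mul_add]
      apply Nat.add_le_add _ (len3_Rw hw R)
      exact Nat.le_mul_of_pos_left _ (Nat.pow_pos hw1)
    calc (m + 1) * len3 (sb1 b (H - R')) ≤ (m + 1) * (b.natAbs ^ m *
          (w.natAbs ^ m * (len3 H + len3 R))) :=
          Nat.mul_le_mul_left _ ((len3_sb1 hb hWd).trans (Nat.mul_le_mul_left _ hl))
      _ = ((m + 1) * (len3 H + len3 R)) * (b * w).natAbs ^ m := by
          rw [Int.natAbs_mul, mul_pow]; ring
      _ ≤ a.natAbs := hsq _ _ _ ha2 hbm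

/-- Pure case, `a > 0` -/
lemma bound_pos_w {m : ℕ} (hm : 3 ≤ m) {r : ℤ} (hr : r ≠ 0) {R : MvPolynomial (Fin 3) ℤ}
    (hR : R.totalDegree < m) : ∃ A M κ : ℕ, ∀ (x b g w : ℤ) (a : ℕ), b ≠ 0 → w ≠ 0 → A ≤ a →
      (b * w).natAbs ^ M ≤ a →
      MvPolynomial.eval ![x, b * g, (a : ℤ) * g] (Hp m r - Rw m w R) = 0 → g.natAbs ≤ a ^ κ := by
  obtain ⟨E, hE⟩ : ∃ E, E = 10 ^ 7 * 36 ^ m * (m + 1) ^ 5 := ⟨_, rfl⟩
  obtain ⟨B0, hB0⟩ : ∃ B0, B0 = (2 * m ^ 3) ^ (m + 1) * (2 + r.natAbs) := ⟨_, rfl⟩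
  refine ⟨max (B0 ^ (2 * E)) (((m + 1) * (1 + len3 R)) ^ 2), 2 * m * E + 2 * m,
    (2 * m + 3) * kF m, ?_⟩
  intro x b g w a hb hw ha hbwa hxy
  have ha1 := (le_max_left _ _).trans ha
  have ha2 := (le_max_right _ _).trans ha
  have hb1 : 1 ≤ b.natAbs := by omega
  have hw1 : 1 ≤ w.natAbs := by omega
  have hbw : b.natAbs ≤ (b * w).natAbs := by
    rw [Int.natAbs_mul]; exact Nat.le_mul_of_pos_right _ hw1
  have hbw1 : 1 ≤ (b * w).natAbs := hb1.trans hbw
  have hba : b.natAbs ^ (2 * m * E + 2 * m) ≤ a :=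
    (Nat.pow_le_pow_left hbw _).trans hbwa
  have hbE : (b.natAbs ^ (m * E)) ^ 2 ≤ a := by
    rw [← pow_mul]
    refine (Nat.pow_le_pow_right hb1 ?_).trans hba
    nlinarith
  have hbm : ((b * w).natAbs ^ m) ^ 2 ≤ a := by
    rw [← pow_mul]
    refine (Nat.pow_le_pow_right hbw1 ?_).trans hbwa
    nlinarith
  have hsq : ∀ p q n : ℕ, p ^ 2 ≤ n → q ^ 2 ≤ n → p * q ≤ n := by
    intro p q n h1 h2
    nlinarith [sq_nonneg ((p : ℤ) - q), Nat.le_total p q]
  obtain ⟨R', hR'⟩ : ∃ R', R' = Rw m w R := ⟨_, rfl⟩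
  rw [← hR'] at hxy
  have hR'd : R'.totalDegree < m := by rw [hR']; exact lt_of_le_of_lt (Rw_deg m w R) hR
  have hHb : sb1 b (Hp m r) = Hp m (r * b ^ m) := by
    unfold sb1 Hp
    simp only [map_sub, map_mul, map_pow, MvPolynomial.aeval_X, MvPolynomial.aeval_C,
      Matrix.cons_val_zero, Matrix.cons_val_one, Matrix.cons_val, MvPolynomial.algebraMap_eq]
    ring
  have hr' : r * b ^ m ≠ 0 := mul_ne_zero hr (pow_ne_zero _ hb)
  have hRb : (sb1 b R').totalDegree < m := lt_of_le_of_lt (sb1_deg b R') hR'd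
  have hWb : Hp m (r * b ^ m) - sb1 b R' = sb1 b (Hp m r - R') := by
    rw [← hHb]
    exact (map_sub _ _ _).symm
  apply bound_pos hm hr' hRb _ _ x g
  · rw [hWb, eval_sb1]; exact hxy
  · unfold thrA
    rw [← hE]
    calc ((2 * m ^ 3) ^ (m + 1) * (1 + (1 + (r * b ^ m).natAbs))) ^ E
        ≤ (B0 * b.natAbs ^ m) ^ E := by
          apply Nat.pow_le_pow_left
          rw [hB0, Int.natAbs_mul, Int.natAbs_pow, mul_assoc]
          apply Nat.mul_le_mul_left
          have h1 : 1 ≤ b.natAbs ^ m := Nat.one_le_pow _ _ hb1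
          nlinarith
      _ = B0 ^ E * b.natAbs ^ (m * E) := by rw [mul_pow, ← pow_mul]
      _ ≤ a := by
          apply hsq
          · rw [← pow_mul, mul_comm E 2]; exact ha1
          · exact hbE
  · have hl : 1 + len3 (sb1 b R') ≤ (b * w).natAbs ^ m * (1 + len3 R) := by
      have h1 := len3_sb1 hb (m := m) hR'd.le
      have h2 : 1 ≤ (b * w).natAbs ^ m := Nat.one_le_pow _ _ hbw1
      have h3 : len3 R' ≤ w.natAbs ^ m * len3 R := by rw [hR']; exact len3_Rw hw R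
      have h4 : len3 (sb1 b R') ≤ (b * w).natAbs ^ m * len3 R := by
        refine h1.trans ((Nat.mul_le_mul_left _ h3).trans ?_)
        rw [Int.natAbs_mul, mul_pow]
        exact (mul_assoc _ _ _).ge
      rw [mul_add, mul_one]
      omega
    calc (m + 1) * (1 + len3 (sb1 b R')) ≤ (m + 1) * ((b * w).natAbs ^ m * (1 + len3 R)) :=
          Nat.mul_le_mul_left _ hl
      _ = ((m + 1) * (1 + len3 R)) * (b * w).natAbs ^ m := by ring
      _ ≤ a := hsq _ _ _ ha2 hbm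

/-- Pure case -/
theorem bound_pure_w {m : ℕ} (hm : 3 ≤ m) {r : ℤ} (hr : r ≠ 0) {R : MvPolynomial (Fin 3) ℤ}
    (hR : R.totalDegree < m) : ∃ A M κ : ℕ, ∀ x a b g w : ℤ, b ≠ 0 → w ≠ 0 → A ≤ a.natAbs →
      (b * w).natAbs ^ M ≤ a.natAbs →
      MvPolynomial.eval ![x, b * g, a * g] (Hp m r - Rw m w R) = 0 →
      g.natAbs ≤ a.natAbs ^ κ := by
  obtain ⟨A, M, κ, h⟩ := bound_pos_w hm hr hR
  refine ⟨A, M, κ, ?_⟩
  intro x a b g w hb hw ha hba hxy
  rcases le_or_gt 0 a with h0 | h0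
  · have e1 : a = (a.natAbs : ℤ) := by omega
    apply h x b g w a.natAbs hb hw ha hba
    rw [← e1]; exact hxy
  · have e1 : -a = (a.natAbs : ℤ) := by omega
    have := h x (-b) (-g) w a.natAbs (neg_ne_zero.2 hb) hw ha
      (by rwa [neg_mul, Int.natAbs_neg]) (by
      rw [← e1]
      have e2 : -b * -g = b * g := by ring
      have e3 : -a * -g = a * g := by ring
      rw [e2, e3]
      exact hxy)
    rwa [Int.natAbs_neg] at this

end Pool.Agent.W257
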