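import Pool.Agent.W257.Q1

/-!
Rational points on `H(x, y, z) = R(x, y, z)`: assembly.
-/

open Polynomial Finset

namespace Pool.Agent.W257

open Pool.Agent.H322R2

lemma aeval_Gt (D : ℕ) (G : MvPolynomial (Fin 3) ℤ) (x y z : ℚ) :
    MvPolynomial.aeval ![x, y, z] (Gt D G) = hz D G x y z y := by
  unfold Gt
  have := hz_map ((MvPolynomial.aeval ![x, y, z] : MvPolynomial (Fin 3) ℤ →ₐ[ℤ] ℚ).toRingHom) D G
    (MvPolynomial.X 0) (MvPolynomial.X 1) (MvPolynomial.X 2) (MvPolynomial.X 1)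
  simp only [AlgHom.toRingHom_eq_coe, RingHom.coe_coe, MvPolynomial.aeval_X,
    Matrix.cons_val_zero, Matrix.cons_val_one, Matrix.cons_val] at this
  exact this

lemma aeval_castR (V : MvPolynomial (Fin 3) ℤ) (p q r : ℚ) :
    MvPolynomial.aeval ![(p : ℝ), (q : ℝ), (r : ℝ)] V
      = ((MvPolynomial.aeval ![p, q, r] V : ℚ) : ℝ) := by
  have : (MvPolynomial.aeval ![(p : ℝ), (q : ℝ), (r : ℝ)] :
      MvPolynomial (Fin 3) ℤ →ₐ[ℤ] ℝ).toRingHom
      = (Rat.castHom ℝ).comp (MvPolynomial.aeval ![p, q, r] :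
      MvPolynomial (Fin 3) ℤ →ₐ[ℤ] ℚ).toRingHom := by
    apply MvPolynomial.ringHom_ext
    · intro r; simp
    · intro i
      fin_cases i <;> simp
  exact congrArg (fun g : MvPolynomial (Fin 3) ℤ →+* ℝ => g V) this

/-- the integer `w^D' b^D G(x/w, y/w, a/b)` -/
def hzw (D D' : ℕ) (G : MvPolynomial (Fin 3) ℤ) (x y p q w : ℤ) : ℤ :=
  ∑ n ∈ G.support, G.coeff n * (x ^ n 0 * y ^ n 1 * w ^ (D' - (n 0 + n 1)) * p ^ n 2 *
    q ^ (D - n 2))

lemma hzw_eq {D D' : ℕ} {G : MvPolynomial (Fin 3) ℤ} (hG : G.totalDegree ≤ D') (x y p q : ℤ)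
    {w : ℤ} (hw : w ≠ 0) : ((hzw D D' G x y p q w : ℤ) : ℚ)
      = (w : ℚ) ^ D' * hz D G ((x : ℚ) / w) ((y : ℚ) / w) (p : ℚ) (q : ℚ) := by
  have hwq : (w : ℚ) ≠ 0 := by exact_mod_cast hw
  unfold hzw hz
  rw [Finset.mul_sum]
  push_cast
  apply Finset.sum_congr rfl
  intro n hn
  have h1 := deg3 hG hn
  have h2 : (w : ℚ) ^ D' = w ^ (D' - (n 0 + n 1)) * (w ^ n 0 * w ^ n 1) := by
    rw [← pow_add, ← pow_add]; congr 1; omega
  rw [h2, div_pow, div_pow]
  field_simp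

theorem assembleW (haux : S_aux2) {m k : ℕ} (hm : 3 ≤ m) {W : MvPolynomial (Fin 3) ℤ}
    (hW : W.totalDegree ≤ m) (hc : W.coeff (Finsupp.single 0 m) = 1)
    (hirr : Irreducible (MvPolynomial.map (Int.castRingHom ℚ) W))
    (hexp : ∀ K : ℕ, ∃ (Q : Fin k → MvPolynomial (Fin 2) ℚ) (C A : ℝ), ∀ x y t : ℝ, A ≤ |t| →
      1 ≤ |y| → MvPolynomial.aeval ![x, y, t * y] W = 0 →
      ∃ i, |x - t * y * MvPolynomial.aeval ![1 / t, 1 / (t * y)] (Q i)| * |t| ^ K ≤ C * |y|)
    (hlin : ∃ (k' : ℕ) (c0 c1 c2 : Fin k' → ℚ) (C A : ℝ), ∀ x y z : ℝ, A ≤ |z| → |y| ≤ 1 →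
      MvPolynomial.aeval ![x, y, z] W = 0 →
      ∃ i, |x - (c0 i * z + c1 i * y + c2 i)| * |z| ≤ C)
    (hb : ∃ A M κ : ℕ, ∀ x a b g w : ℤ, b ≠ 0 → w ≠ 0 → A ≤ a.natAbs →
      (b * w).natAbs ^ M ≤ a.natAbs →
      MvPolynomial.aeval ![(x : ℚ) / w, ((b * g : ℤ) : ℚ) / w, ((a * g : ℤ) : ℚ) / w] W = 0 →
      g.natAbs ≤ a.natAbs ^ κ) :
    ∃ (G : MvPolynomial (Fin 3) ℤ) (M : ℕ),
      ¬ MvPolynomial.map (Int.castRingHom ℚ) W ∣ MvPolynomial.map (Int.castRingHom ℚ) G ∧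
      ∀ x a b g w : ℤ, w ≠ 0 →
        MvPolynomial.aeval ![(x : ℚ) / w, ((b * g : ℤ) : ℚ) / w, ((a * g : ℤ) : ℚ) / w] W = 0 →
        MvPolynomial.aeval ![(x : ℚ) / w, ((b * g : ℤ) : ℚ) / w, ((a * g : ℤ) : ℚ) / w] G = 0 ∨
          a.natAbs < (b * w).natAbs ^ M := by
  classical
  obtain ⟨T0, M1, κ, hb⟩ := hb
  obtain ⟨k', c0, c1, c2, Cl, Al, hlin⟩ := hlin
  have hprime : Prime (MvPolynomial.map (Int.castRingHom ℚ) W) := hirr.prime
  obtain ⟨-, hnd⟩ := Psi_monic hW hc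
  -- linear forms with integer coefficients
  have hN : ∀ i : Fin k', ∃ N n0 n1 n2 : ℤ, 0 < N ∧ (N : ℚ) * c0 i = n0 ∧ (N : ℚ) * c1 i = n1 ∧
      (N : ℚ) * c2 i = n2 := by
    intro i
    refine ⟨(c0 i).den * (c1 i).den * (c2 i).den, (c0 i).num * (c1 i).den * (c2 i).den,
      (c1 i).num * (c0 i).den * (c2 i).den, (c2 i).num * (c0 i).den * (c1 i).den, ?_, ?_, ?_, ?_⟩
    · have h0 := (c0 i).den_pos
      have h1 := (c1 i).den_pos
      have h2 := (c2 i).den_pos
      positivity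
    · have := Rat.mul_den_eq_num (c0 i)
      push_cast
      rw [← this]; ring
    · have := Rat.mul_den_eq_num (c1 i)
      push_cast
      rw [← this]; ring
    · have := Rat.mul_den_eq_num (c2 i)
      push_cast
      rw [← this]; ring
  choose N n0 n1 n2 hNpos hN0 hN1 hN2 using hN
  obtain ⟨Nmax, hNmax⟩ := Finite.bddAbove_range (fun i => ((N i : ℤ) : ℝ) * |Cl|)
  obtain ⟨N1, hN1'⟩ := exists_nat_ge Nmax
  obtain ⟨A2, hA2⟩ := exists_nat_ge Al
  -- auxiliary polynomials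
  have hK : ∀ l : ℕ, ∃ (Q : Fin k → MvPolynomial (Fin 2) ℚ) (G : Fin k → MvPolynomial (Fin 3) ℤ)
      (K D : ℕ) (C C' A : ℝ), (∀ i, G i ≠ 0 ∧ (G i).degreeOf 0 < m ∧ (G i).degreeOf 2 ≤ D) ∧
      (∀ x y t : ℝ, A ≤ |t| → 1 ≤ |y| → MvPolynomial.aeval ![x, y, t * y] W = 0 →
        ∃ i, |x - t * y * MvPolynomial.aeval ![1 / t, 1 / (t * y)] (Q i)| * |t| ^ K ≤ C * |y|) ∧
      (∀ i, ∀ x y t : ℝ, A ≤ |t| → |t| ^ l ≤ |y| → |y| ≤ |t| ^ (l + 1) →
        |x - t * y * MvPolynomial.aeval ![1 / t, 1 / (t * y)] (Q i)| * |t| ^ K ≤ C * |y| →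
        |MvPolynomial.aeval ![x, y, t] (G i)| * |t| ≤ C') := by
    intro l
    obtain ⟨K, D, hKl⟩ := haux m l hm
    obtain ⟨Q, C, A, hQ⟩ := hexp K
    choose G hG0 hGd hGd2 hGA using fun i => hKl (Q i)
    choose C' A' hA' using fun i => hGA i C
    obtain ⟨A'', hA''⟩ := Finite.bddAbove_range A'
    obtain ⟨C'', hC''⟩ := Finite.bddAbove_range C'
    refine ⟨Q, G, K, D, C, C'', max A A'', fun i => ⟨hG0 i, hGd i, hGd2 i⟩, ?_, ?_⟩
    · intro x y t ht
      exact hQ x y t ((le_max_left _ _).trans ht)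
    · intro i x y t ht h1 h2 h3
      exact (hA' i x y t (((hA'' ⟨i, rfl⟩).trans (le_max_right _ _)).trans ht) h1 h2 h3).trans
        (hC'' ⟨i, rfl⟩)
  choose Q G K D C C' A hG hexp' haux' using hK
  obtain ⟨L, hL⟩ : ∃ L, L = 2 * κ + 2 := ⟨_, rfl⟩
  obtain ⟨A0, hA0⟩ := (Finite.bddAbove_range (fun l : Fin L => A l))
  obtain ⟨C0, hC0⟩ := (Finite.bddAbove_range (fun l : Fin L => C' l))
  obtain ⟨D0, hD0⟩ := (Finite.bddAbove_range (fun l : Fin L => D l))
  obtain ⟨D1, hD1⟩ := (Finite.bddAbove_range (fun p : Fin L × Fin k => (G p.1 p.2).totalDegree))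
  obtain ⟨A1, hA1⟩ := exists_nat_ge A0
  obtain ⟨C1, hC1⟩ := exists_nat_ge C0
  obtain ⟨T, hT⟩ : ∃ T : ℕ, T = max (max (max (A1 ^ 2) (C1 ^ 2)) (max T0 1))
    (max (N1 ^ 2) (A2 ^ 2)) := ⟨_, rfl⟩
  have hT1 : A1 ^ 2 ≤ T := by
    rw [hT]; exact ((le_max_left _ _).trans (le_max_left _ _)).trans (le_max_left _ _)
  have hT2 : C1 ^ 2 ≤ T := by
    rw [hT]; exact ((le_max_right _ _).trans (le_max_left _ _)).trans (le_max_left _ _)
  have hT3 : T0 ≤ T := by
    rw [hT]; exact ((le_max_left _ _).trans (le_max_right _ _)).trans (le_max_left _ _)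
  have hT4 : 1 ≤ T := by
    rw [hT]; exact ((le_max_right _ _).trans (le_max_right _ _)).trans (le_max_left _ _)
  have hT5 : N1 ^ 2 ≤ T := by rw [hT]; exact (le_max_left _ _).trans (le_max_right _ _)
  have hT6 : A2 ^ 2 ≤ T := by rw [hT]; exact (le_max_right _ _).trans (le_max_right _ _)
  obtain ⟨M, hM⟩ : ∃ M : ℕ, M = max M1 (max 4 (2 * (D0 + D1 + 1))) := ⟨_, rfl⟩
  have hM1 : M1 ≤ M := by rw [hM]; exact le_max_left _ _
  have hM3 : 4 ≤ M := by rw [hM]; exact (le_max_left _ _).trans (le_max_right _ _)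
  have hM2 : 2 * (D0 + D1 + 1) ≤ M := by
    rw [hM]; exact (le_max_right _ _).trans (le_max_right _ _)
  refine ⟨(∏ i : Fin k', (MvPolynomial.C (N i) * MvPolynomial.X 0 -
      MvPolynomial.C (n0 i) * MvPolynomial.X 2 - MvPolynomial.C (n1 i) * MvPolynomial.X 1 -
      MvPolynomial.C (n2 i))) *
    (MvPolynomial.X 1 * ((∏ p ∈ (Finset.Icc (-(T : ℤ)) T ×ˢ
      ((Finset.Icc (-(T : ℤ)) T).filter (fun b => b ≠ 0))),
      (MvPolynomial.C p.2 * MvPolynomial.X 2 - MvPolynomial.C p.1 * MvPolynomial.X 1))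
    * ∏ p ∈ Finset.range L ×ˢ (univ : Finset (Fin k)), Gt (D p.1) (G p.1 p.2))), M, ?_, ?_⟩
  · -- not divisible
    rw [map_mul, map_mul, map_mul]
    intro hd
    rcases hprime.dvd_or_dvd hd with h1 | h1
    · refine map_prod_not_dvd hprime _ _ ?_ h1
      intro i _
      apply not_dvd_W hnd
      · intro h0
        have h5 := congrArg (MvPolynomial.eval ![1, 0, 0]) h0
        have h6 := congrArg (MvPolynomial.eval ![0, 0, 0]) h0
        simp only [map_sub, map_mul, MvPolynomial.eval_C, MvPolynomial.eval_X, map_zero,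
          Matrix.cons_val_zero, Matrix.cons_val_one, Matrix.cons_val] at h5 h6
        have := hNpos i
        omega
      · have e0 := MvPolynomial.degreeOf_mul_le 0 (MvPolynomial.C (N i) :
          MvPolynomial (Fin 3) ℤ) (MvPolynomial.X 0)
        have e1 := MvPolynomial.degreeOf_mul_le 0 (MvPolynomial.C (n0 i) :
          MvPolynomial (Fin 3) ℤ) (MvPolynomial.X 2)
        have e2 := MvPolynomial.degreeOf_mul_le 0 (MvPolynomial.C (n1 i) :
          MvPolynomial (Fin 3) ℤ) (MvPolynomial.X 1)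
        rw [MvPolynomial.degreeOf_X_self, MvPolynomial.degreeOf_C] at e0
        rw [MvPolynomial.degreeOf_X_of_ne (by decide), MvPolynomial.degreeOf_C] at e1 e2
        have s1 := MvPolynomial.degreeOf_sub_le 0 (MvPolynomial.C (N i) * MvPolynomial.X 0 -
          MvPolynomial.C (n0 i) * MvPolynomial.X 2 - MvPolynomial.C (n1 i) * MvPolynomial.X 1 :
          MvPolynomial (Fin 3) ℤ) (MvPolynomial.C (n2 i))
        have s2 := MvPolynomial.degreeOf_sub_le 0 (MvPolynomial.C (N i) * MvPolynomial.X 0 -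
          MvPolynomial.C (n0 i) * MvPolynomial.X 2 : MvPolynomial (Fin 3) ℤ)
          (MvPolynomial.C (n1 i) * MvPolynomial.X 1)
        have s3 := MvPolynomial.degreeOf_sub_le 0 (MvPolynomial.C (N i) * MvPolynomial.X 0 :
          MvPolynomial (Fin 3) ℤ) (MvPolynomial.C (n0 i) * MvPolynomial.X 2)
        rw [MvPolynomial.degreeOf_C] at s1
        omega
    rcases hprime.dvd_or_dvd h1 with h1 | h1
    · refine not_dvd_W hnd (G := MvPolynomial.X 1) (MvPolynomial.X_ne_zero _) ?_ h1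
      rw [MvPolynomial.degreeOf_X_of_ne (by decide)]
      omega
    · rcases hprime.dvd_or_dvd h1 with h1 | h1
      · refine map_prod_not_dvd hprime _ _ ?_ h1
        intro p hp
        rw [Finset.mem_product, Finset.mem_filter] at hp
        apply not_dvd_W hnd
        · intro h0
          have := congrArg (MvPolynomial.eval ![0, 0, 1]) h0
          simp at this
          exact hp.2.2 this
        · refine lt_of_le_of_lt (MvPolynomial.degreeOf_sub_le _ _ _) ?_
          have e1 := MvPolynomial.degreeOf_mul_le 0 (MvPolynomial.C p.2 : MvPolynomial (Fin 3) ℤ)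
            (MvPolynomial.X 2)
          have e2 := MvPolynomial.degreeOf_mul_le 0 (MvPolynomial.C p.1 : MvPolynomial (Fin 3) ℤ)
            (MvPolynomial.X 1)
          rw [MvPolynomial.degreeOf_X_of_ne (by decide), MvPolynomial.degreeOf_C] at e1 e2
          omega
      · refine map_prod_not_dvd hprime _ _ ?_ h1
        intro p _
        obtain ⟨h2, h3, h4⟩ := hG p.1 p.2
        exact not_dvd_W hnd (Gt_ne_zero h4 h2) (lt_of_le_of_lt (Gt_degreeOf _ _) h3)
  · intro x a b g w hw hxy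
    rw [or_iff_not_imp_right]
    intro hab
    push Not at hab
    have hwq : (w : ℚ) ≠ 0 := by exact_mod_cast hw
    rw [map_mul, map_mul, map_mul, MvPolynomial.aeval_X]
    simp only [Matrix.cons_val_one, Matrix.cons_val_zero]
    by_cases hy : b * g = 0
    · rw [hy, Int.cast_zero, zero_div, zero_mul, mul_zero]
    have hb0 : b ≠ 0 := left_ne_zero_of_mul hy
    have hg0 : g ≠ 0 := right_ne_zero_of_mul hy
    have hb1 : 1 ≤ b.natAbs := by omega
    have hw1 : 1 ≤ w.natAbs := by omega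
    have hg1 : 1 ≤ g.natAbs := by omega
    have hbw : b.natAbs ≤ (b * w).natAbs := by
      rw [Int.natAbs_mul]; exact Nat.le_mul_of_pos_right _ hw1
    have hwb : w.natAbs ≤ (b * w).natAbs := by
      rw [Int.natAbs_mul]; exact Nat.le_mul_of_pos_left _ hb1
    have hbw1 : 1 ≤ (b * w).natAbs := hb1.trans hbw
    have hMpos : M ≠ 0 := by omega
    by_cases ht : a.natAbs ≤ T
    · have hbT : b.natAbs ≤ T := hbw.trans ((Nat.le_self_pow hMpos _).trans (hab.trans ht))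
      rw [map_prod (MvPolynomial.aeval ![(x : ℚ) / w, ((b * g : ℤ) : ℚ) / w,
        ((a * g : ℤ) : ℚ) / w]) (fun p : ℤ × ℤ => (MvPolynomial.C p.2 * MvPolynomial.X 2 -
        MvPolynomial.C p.1 * MvPolynomial.X 1 : MvPolynomial (Fin 3) ℤ)),
        Finset.prod_eq_zero (i := (a, b))]
      · ring
      · rw [Finset.mem_product, Finset.mem_filter, Finset.mem_Icc, Finset.mem_Icc]
        refine ⟨⟨?_, ?_⟩, ⟨?_, ?_⟩, hb0⟩ <;> simp only <;> omega
      · simp only [map_sub, map_mul, MvPolynomial.aeval_X, map_intCast,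
          eq_intCast, Matrix.cons_val_one, Matrix.cons_val]
        push_cast
        field_simp
        ring
    push Not at ht
    have hbwM1 : (b * w).natAbs ^ M1 ≤ a.natAbs := (Nat.pow_le_pow_right hbw1 hM1).trans hab
    have hgb := hb x a b g w hb0 hw (by omega) hbwM1 hxy
    -- real quantities
    have hbR : (b : ℝ) ≠ 0 := by exact_mod_cast hb0
    have hwR : (w : ℝ) ≠ 0 := by exact_mod_cast hw
    have haR : |(a : ℝ)| = (a.natAbs : ℝ) := by rw [Nat.cast_natAbs, Int.cast_abs]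
    have hbR' : |(b : ℝ)| = (b.natAbs : ℝ) := by rw [Nat.cast_natAbs, Int.cast_abs]
    have hgR' : |(g : ℝ)| = (g.natAbs : ℝ) := by rw [Nat.cast_natAbs, Int.cast_abs]
    have hwR' : |(w : ℝ)| = (w.natAbs : ℝ) := by rw [Nat.cast_natAbs, Int.cast_abs]
    obtain ⟨B, hB⟩ : ∃ B : ℝ, B = ((b * w).natAbs : ℝ) := ⟨_, rfl⟩
    have hB1 : 1 ≤ B := by rw [hB]; exact_mod_cast hbw1
    have hbB : |(b : ℝ)| ≤ B := by rw [hB, hbR']; exact_mod_cast hbw
    have hwB : |(w : ℝ)| ≤ B := by rw [hB, hwR']; exact_mod_cast hwb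
    have hb1R : 1 ≤ |(b : ℝ)| := by rw [hbR']; exact_mod_cast hb1
    have hb0R : 0 < |(b : ℝ)| := by linarith
    have hw1R : 1 ≤ |(w : ℝ)| := by rw [hwR']; exact_mod_cast hw1
    have hw0R : 0 < |(w : ℝ)| := by linarith
    have hg1R : 1 ≤ |(g : ℝ)| := by rw [hgR']; exact_mod_cast hg1
    have hTa : (T : ℝ) < |(a : ℝ)| := by rw [haR]; exact_mod_cast ht
    have hT4R : (1 : ℝ) ≤ T := by exact_mod_cast hT4
    have ha0R : 0 < |(a : ℝ)| := by linarith
    have hBM : ∀ e : ℕ, e ≤ M → B ^ e ≤ |(a : ℝ)| := by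
      intro e he
      rw [haR, hB]
      exact_mod_cast (Nat.pow_le_pow_right hbw1 he).trans hab
    have hev := aeval_castR W ((x : ℚ) / w) (((b * g : ℤ) : ℚ) / w) (((a * g : ℤ) : ℚ) / w)
    rw [hxy, Rat.cast_zero] at hev
    obtain ⟨Xr, hXr⟩ : ∃ Xr : ℝ, Xr = (((x : ℚ) / w : ℚ) : ℝ) := ⟨_, rfl⟩
    obtain ⟨Yr, hYr⟩ : ∃ Yr : ℝ, Yr = ((((b * g : ℤ) : ℚ) / w : ℚ) : ℝ) := ⟨_, rfl⟩
    obtain ⟨Zr, hZr⟩ : ∃ Zr : ℝ, Zr = ((((a * g : ℤ) : ℚ) / w : ℚ) : ℝ) := ⟨_, rfl⟩
    rw [← hXr, ← hYr, ← hZr] at hev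
    have hXr' : Xr = (x : ℝ) / w := by rw [hXr]; push_cast; rfl
    have hYr' : Yr = (b : ℝ) * g / w := by rw [hYr]; push_cast; rfl
    have hZr' : Zr = (a : ℝ) * g / w := by rw [hZr]; push_cast; rfl
    rcases le_total |Yr| 1 with hY1 | hY1
    · -- the region `|y/w| ≤ 1`: linear forms
      have hZabs : |Zr| * |(w : ℝ)| = |(a : ℝ)| * |(g : ℝ)| := by
        rw [hZr', abs_div, abs_mul, div_mul_cancel₀ _ hw0R.ne']
      have hZge : |(a : ℝ)| ≤ |Zr| * B := by
        calc |(a : ℝ)| = |(a : ℝ)| * 1 := (mul_one _).symm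
          _ ≤ |(a : ℝ)| * |(g : ℝ)| := mul_le_mul_of_nonneg_left hg1R ha0R.le
          _ = |Zr| * |(w : ℝ)| := hZabs.symm
          _ ≤ |Zr| * B := mul_le_mul_of_nonneg_left hwB (abs_nonneg _)
      have hZA : Al ≤ |Zr| := by
        by_contra hcon
        push Not at hcon
        have h1 : |Zr| < A2 := lt_of_lt_of_le hcon hA2
        have h2 : |(a : ℝ)| ≤ A2 * B := hZge.trans (mul_le_mul_of_nonneg_right h1.le (by linarith))
        have h3 : |(a : ℝ)| ^ 2 ≤ T * |(a : ℝ)| := by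
          calc |(a : ℝ)| ^ 2 ≤ ((A2 : ℝ) * B) ^ 2 := pow_le_pow_left₀ ha0R.le h2 2
            _ = (A2 : ℝ) ^ 2 * B ^ 2 := by ring
            _ ≤ T * |(a : ℝ)| := by
                apply mul_le_mul _ (hBM 2 (by omega)) (by positivity) (by linarith)
                exact_mod_cast hT6
        nlinarith
      obtain ⟨i, hi⟩ := hlin Xr Yr Zr hZA hY1 hev
      -- the integer
      obtain ⟨I, hI⟩ : ∃ I : ℤ, I = N i * x - n0 i * (a * g) - n1 i * (b * g) - n2 i * w :=
        ⟨_, rfl⟩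
      have hNp : (0 : ℝ) < N i := by exact_mod_cast hNpos i
      have hIr : (I : ℝ) = N i * w * (Xr - (c0 i * Zr + c1 i * Yr + c2 i)) := by
        have e0 : ((N i : ℤ) : ℝ) * (c0 i : ℝ) = n0 i := by exact_mod_cast hN0 i
        have e1 : ((N i : ℤ) : ℝ) * (c1 i : ℝ) = n1 i := by exact_mod_cast hN1 i
        have e2 : ((N i : ℤ) : ℝ) * (c2 i : ℝ) = n2 i := by exact_mod_cast hN2 i
        have f1 : (w : ℝ) * Xr = x := by rw [hXr']; field_simp
        have f2 : (w : ℝ) * Yr = b * g := by rw [hYr']; field_simp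
        have f3 : (w : ℝ) * Zr = a * g := by rw [hZr']; field_simp
        rw [hI]
        push_cast
        rw [← e0, ← e1, ← e2, ← f1, ← f2, ← f3]
        ring
      have hI1 : |(I : ℝ)| < 1 := by
        rw [hIr, abs_mul, abs_mul, abs_of_pos hNp]
        obtain ⟨v, hv⟩ : ∃ v, v = |Xr - (c0 i * Zr + c1 i * Yr + c2 i)| := ⟨_, rfl⟩
        rw [← hv] at hi ⊢
        have hv0 : 0 ≤ v := by rw [hv]; exact abs_nonneg _
        by_contra hcon
        push Not at hcon
        have h1 : |(a : ℝ)| ≤ N1 * B ^ 2 := by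
          calc |(a : ℝ)| ≤ |Zr| * B := hZge
            _ ≤ |Zr| * B * (N i * |(w : ℝ)| * v) :=
                le_mul_of_one_le_right (by positivity) hcon
            _ = (N i * (v * |Zr|)) * (B * |(w : ℝ)|) := by ring
            _ ≤ (N i * |Cl|) * (B * B) := by
                apply mul_le_mul _ (mul_le_mul_of_nonneg_left hwB (by linarith)) (by positivity)
                  (by positivity)
                exact mul_le_mul_of_nonneg_left (hi.trans (le_abs_self _)) hNp.le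
            _ ≤ N1 * B ^ 2 := by
                rw [pow_two]
                apply mul_le_mul_of_nonneg_right _ (by positivity)
                exact (hNmax ⟨i, rfl⟩).trans hN1'
        have h3 : |(a : ℝ)| ^ 2 ≤ T * |(a : ℝ)| := by
          calc |(a : ℝ)| ^ 2 ≤ ((N1 : ℝ) * B ^ 2) ^ 2 := pow_le_pow_left₀ ha0R.le h1 2
            _ = (N1 : ℝ) ^ 2 * B ^ 4 := by ring
            _ ≤ T * |(a : ℝ)| := by
                apply mul_le_mul _ (hBM 4 hM3) (by positivity) (by linarith)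
                exact_mod_cast hT5
        nlinarith
      have hI0 : I = 0 := by
        apply Int.abs_lt_one_iff.1
        exact_mod_cast hI1
      rw [map_prod, Finset.prod_eq_zero (Finset.mem_univ i), zero_mul]
      simp only [map_sub, map_mul, MvPolynomial.aeval_X, map_intCast,
          eq_intCast, Matrix.cons_val_one, Matrix.cons_val_zero,
          Matrix.cons_val]
      have hIq : (I : ℚ) = 0 := by rw [hI0]; simp
      rw [hI] at hIq
      push_cast at hIq ⊢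
      field_simp
      linarith
    · -- the region `|y/w| ≥ 1`
      obtain ⟨t, htdef⟩ : ∃ t : ℝ, t = (a : ℝ) / b := ⟨_, rfl⟩
      have htabs : |t| * |(b : ℝ)| = |(a : ℝ)| := by
        rw [htdef, abs_div, div_mul_cancel₀ _ hb0R.ne']
      have ht0 : 0 < |t| := by
        rw [htdef, abs_div]; positivity
      have hb2 : |(b : ℝ)| ≤ |t| := by
        have h1 : |(b : ℝ)| ^ 2 ≤ |(a : ℝ)| :=
          (pow_le_pow_left₀ hb0R.le hbB 2).trans (hBM 2 (by omega))
        rw [← htabs, pow_two] at h1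
        exact le_of_mul_le_mul_right h1 hb0R
      have hat : |(a : ℝ)| ≤ |t| ^ 2 := by
        rw [← htabs, pow_two]
        exact mul_le_mul_of_nonneg_left hb2 ht0.le
      have ht1 : 1 < |t| := by
        by_contra hcon
        push Not at hcon
        have : |t| ^ 2 ≤ 1 := pow_le_one₀ ht0.le hcon
        linarith
      have hA1t : (A1 : ℝ) ≤ |t| := by
        have h1 : (A1 : ℝ) ^ 2 ≤ T := by exact_mod_cast hT1
        have h2 : (A1 : ℝ) ^ 2 ≤ |t| ^ 2 := by linarith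
        exact (sq_le_sq₀ (by positivity) ht0.le).1 h2
      have hyle : |Yr| ≤ |t| ^ (2 * κ + 1) := by
        have h1 : |Yr| ≤ |(b : ℝ)| * |(g : ℝ)| := by
          rw [hYr', abs_div, abs_mul]
          exact div_le_self (by positivity) hw1R
        refine h1.trans ?_
        rw [pow_succ, mul_comm, pow_mul]
        apply mul_le_mul _ hb2 hb0R.le (by positivity)
        calc |(g : ℝ)| ≤ |(a : ℝ)| ^ κ := by
              rw [hgR', haR]; exact_mod_cast hgb
          _ ≤ (|t| ^ 2) ^ κ := pow_le_pow_left₀ ha0R.le hat κ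
      obtain ⟨l, hl1, hl2⟩ := exists_nat_pow_near hY1 ht1
      have hlL : l < L := by
        rw [hL]
        have h1 : |t| ^ l ≤ |t| ^ (2 * κ + 1) := hl1.trans hyle
        have := (pow_le_pow_iff_right₀ ht1).1 h1
        omega
      have hAt : A l ≤ |t| := by
        have h1 : A l ≤ A0 := hA0 ⟨(⟨l, hlL⟩ : Fin L), rfl⟩
        linarith
      have hCl : C' l ≤ C1 := by
        have h1 : C' l ≤ C0 := hC0 ⟨(⟨l, hlL⟩ : Fin L), rfl⟩
        linarith
      have hDl : D l ≤ D0 := hD0 ⟨(⟨l, hlL⟩ : Fin L), rfl⟩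
      have hty : t * Yr = Zr := by
        rw [htdef, hYr', hZr']
        field_simp
      have hW0 : MvPolynomial.aeval ![Xr, Yr, t * Yr] W = 0 := by
        rw [hty]; exact hev
      obtain ⟨i, hi⟩ := hexp' l Xr Yr t hAt hY1 hW0
      have hlt := haux' l i Xr Yr t hAt hl1 hl2.le hi
      obtain ⟨-, -, hGd⟩ := hG l i
      have hD1l : (G l i).totalDegree ≤ D1 := hD1 ⟨((⟨l, hlL⟩ : Fin L), i), rfl⟩
      -- the integer `w^D' b^D G(x/w, y/w, a/b)`
      obtain ⟨I, hI⟩ : ∃ I : ℤ, I = hzw (D l) D1 (G l i) x (b * g) a b w := ⟨_, rfl⟩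
      have hIq : (I : ℚ) = (w : ℚ) ^ D1 * hz (D l) (G l i) ((x : ℚ) / w) (((b * g : ℤ) : ℚ) / w)
          (a : ℚ) (b : ℚ) := by rw [hI]; exact hzw_eq hD1l x (b * g) a b hw
      have hint : (I : ℝ)
          = (w : ℝ) ^ D1 * ((b : ℝ) ^ (D l) * MvPolynomial.aeval ![Xr, Yr, t] (G l i)) := by
        have h1 : (I : ℝ) = (((w : ℚ) ^ D1 * hz (D l) (G l i) ((x : ℚ) / w)
            (((b * g : ℤ) : ℚ) / w) (a : ℚ) (b : ℚ) : ℚ) : ℝ) := by
          rw [← hIq]; simp
        have h2 := hz_map (Rat.castHom ℝ) (D l) (G l i) ((x : ℚ) / w) (((b * g : ℤ) : ℚ) / w)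
          (a : ℚ) (b : ℚ)
        simp only [Rat.coe_castHom] at h2
        rw [h1, Rat.cast_mul, h2, ← hXr, ← hYr, Rat.cast_intCast, Rat.cast_intCast,
          hz_real hGd _ _ _ hbR, ← htdef]
        push_cast
        rfl
      have hsmall : |(I : ℝ)| < 1 := by
        rw [hint, abs_mul, abs_mul, abs_pow, abs_pow]
        obtain ⟨v, hv⟩ : ∃ v, v = |MvPolynomial.aeval ![Xr, Yr, t] (G l i)| := ⟨_, rfl⟩
        rw [← hv] at hlt ⊢
        have hv0 : 0 ≤ v := by rw [hv]; exact abs_nonneg _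
        by_contra hcon
        push Not at hcon
        -- `|a| ≤ C1 B^(D0+D1+1)`
        have h1 : |(a : ℝ)| ≤ C1 * B ^ (D0 + D1 + 1) := by
          have h2 : v * |(a : ℝ)| ≤ C1 * B := by
            rw [← htabs, ← mul_assoc]
            exact mul_le_mul (hlt.trans hCl) hbB hb0R.le (by positivity)
          have h3 : |(b : ℝ)| ^ D l ≤ B ^ D0 :=
            (pow_le_pow_left₀ hb0R.le hbB _).trans (pow_le_pow_right₀ hB1 hDl)
          have h4 : |(w : ℝ)| ^ D1 ≤ B ^ D1 := pow_le_pow_left₀ hw0R.le hwB _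
          calc |(a : ℝ)| = 1 * |(a : ℝ)| := by ring
            _ ≤ (|(w : ℝ)| ^ D1 * (|(b : ℝ)| ^ D l * v)) * |(a : ℝ)| :=
                mul_le_mul_of_nonneg_right hcon ha0R.le
            _ = |(w : ℝ)| ^ D1 * (|(b : ℝ)| ^ D l * (v * |(a : ℝ)|)) := by ring
            _ ≤ B ^ D1 * (B ^ D0 * (C1 * B)) :=
                mul_le_mul h4 (mul_le_mul h3 h2 (by positivity) (by positivity))
                  (by positivity) (by positivity)
            _ = _ := by rw [pow_succ, pow_add]; ring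
        have h4 : |(a : ℝ)| ^ 2 ≤ T * |(a : ℝ)| := by
          calc |(a : ℝ)| ^ 2 ≤ (C1 * B ^ (D0 + D1 + 1)) ^ 2 := pow_le_pow_left₀ ha0R.le h1 2
            _ = (C1 : ℝ) ^ 2 * B ^ (2 * (D0 + D1 + 1)) := by
                rw [mul_pow, ← pow_mul, mul_comm (D0 + D1 + 1) 2]
            _ ≤ T * |(a : ℝ)| := by
                apply mul_le_mul _ (hBM _ hM2) (by positivity) (by linarith)
                exact_mod_cast hT2
        nlinarith
      have hz0 : I = 0 := by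
        apply Int.abs_lt_one_iff.1
        exact_mod_cast hsmall
      have hz0' : hz (D l) (G l i) ((x : ℚ) / w) (((b * g : ℤ) : ℚ) / w) (a : ℚ) (b : ℚ) = 0 := by
        rw [hz0, Int.cast_zero] at hIq
        rcases mul_eq_zero.1 hIq.symm with h | h
        · exact absurd h (pow_ne_zero _ hwq)
        · exact h
      have hGz : MvPolynomial.aeval ![(x : ℚ) / w, ((b * g : ℤ) : ℚ) / w, ((a * g : ℤ) : ℚ) / w]
          (Gt (D l) (G l i)) = 0 := by
        rw [aeval_Gt]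
        have e1 : ((a * g : ℤ) : ℚ) / w = (a : ℚ) * ((g : ℚ) / w) := by push_cast; ring
        have e2 : ((b * g : ℤ) : ℚ) / w = (b : ℚ) * ((g : ℚ) / w) := by push_cast; ring
        have e3 := hz_scale hGd ((x : ℚ) / w) (((b * g : ℤ) : ℚ) / w) (a : ℚ) (b : ℚ)
          ((g : ℚ) / w)
        rw [hz0', mul_zero, ← e1, ← e2] at e3
        exact e3
      rw [map_prod (MvPolynomial.aeval ![(x : ℚ) / w, ((b * g : ℤ) : ℚ) / w,
        ((a * g : ℤ) : ℚ) / w]) (fun p : ℕ × Fin k => Gt (D p.1) (G p.1 p.2)),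
        Finset.prod_eq_zero (i := (l, i))]
      · ring
      · simp; omega
      · exact hGz

end Pool.Agent.W257
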