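import Pool.Agent.W257.Q2

/-!
Rational points on `H(x, y, z) = R(x, y, z)`: the theorems.
-/

open Polynomial Finset

namespace Pool.Agent.W257

open Pool.Agent.H322R2

/-- the translation `y ↦ y - 2` -/
noncomputable def tr (W : MvPolynomial (Fin 3) ℤ) : MvPolynomial (Fin 3) ℤ :=
  MvPolynomial.aeval ![MvPolynomial.X 0, MvPolynomial.X 1 - MvPolynomial.C 2,
    MvPolynomial.X 2] W

lemma aeval_tr (W : MvPolynomial (Fin 3) ℤ) (x y z : ℝ) :
    MvPolynomial.aeval ![x, y, z] (tr W) = MvPolynomial.aeval ![x, y - 2, z] W := by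
  have : (MvPolynomial.aeval ![x, y, z] : MvPolynomial (Fin 3) ℤ →ₐ[ℤ] ℝ).comp
      (MvPolynomial.aeval ![MvPolynomial.X 0, MvPolynomial.X 1 - MvPolynomial.C 2,
        MvPolynomial.X 2] : MvPolynomial (Fin 3) ℤ →ₐ[ℤ] MvPolynomial (Fin 3) ℤ)
      = MvPolynomial.aeval ![x, y - 2, z] := by
    apply MvPolynomial.algHom_ext
    intro i
    fin_cases i <;> simp
  exact congrArg (fun g : MvPolynomial (Fin 3) ℤ →ₐ[ℤ] ℝ => g W) this

lemma tdeg_pow_sub (k : ℕ) (hk : k ≠ 0) : (((MvPolynomial.X 1 : MvPolynomial (Fin 3) ℤ) -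
      MvPolynomial.C 2) ^ k - MvPolynomial.X 1 ^ k).totalDegree ≤ k - 1 := by
  have h1 := (Commute.all ((MvPolynomial.X 1 : MvPolynomial (Fin 3) ℤ) -
      MvPolynomial.C 2) (MvPolynomial.X 1)).geom_sum₂_mul k
  have h2 : (MvPolynomial.X 1 : MvPolynomial (Fin 3) ℤ) - MvPolynomial.C 2 - MvPolynomial.X 1
      = MvPolynomial.C (-2) := by
    rw [MvPolynomial.C_neg]; ring
  rw [h2] at h1
  rw [← h1]
  refine (MvPolynomial.totalDegree_mul _ _).trans ?_
  rw [MvPolynomial.totalDegree_C, add_zero]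
  apply MvPolynomial.totalDegree_finsetSum_le
  intro i hi
  rw [Finset.mem_range] at hi
  refine (MvPolynomial.totalDegree_mul _ _).trans ?_
  have e1 : (((MvPolynomial.X 1 : MvPolynomial (Fin 3) ℤ) -
      MvPolynomial.C 2) ^ i).totalDegree ≤ i := by
    refine (MvPolynomial.totalDegree_pow _ _).trans ?_
    have : ((MvPolynomial.X 1 : MvPolynomial (Fin 3) ℤ) - MvPolynomial.C 2).totalDegree ≤ 1 := by
      refine (MvPolynomial.totalDegree_sub _ _).trans ?_
      rw [MvPolynomial.totalDegree_X, MvPolynomial.totalDegree_C]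
      exact max_le le_rfl (Nat.zero_le _)
    nlinarith
  rw [MvPolynomial.totalDegree_X_pow]
  omega

/-- the difference of a polynomial and its translate has smaller degree -/
lemma tr_sub_deg {m : ℕ} {H : MvPolynomial (Fin 3) ℤ} (hH : H.totalDegree ≤ m) (hm : 1 ≤ m) :
    (tr H - H).totalDegree < m := by
  have h1 : tr H - H = ∑ n ∈ H.support, MvPolynomial.C (H.coeff n) *
      (MvPolynomial.X 0 ^ n 0 * ((((MvPolynomial.X 1 : MvPolynomial (Fin 3) ℤ) -
      MvPolynomial.C 2) ^ n 1 - MvPolynomial.X 1 ^ n 1) * MvPolynomial.X 2 ^ n 2)) := by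
    have e1 : tr H = ∑ n ∈ H.support, MvPolynomial.C (H.coeff n) *
        (MvPolynomial.X 0 ^ n 0 * ((MvPolynomial.X 1 : MvPolynomial (Fin 3) ℤ) -
        MvPolynomial.C 2) ^ n 1 * MvPolynomial.X 2 ^ n 2) := by
      rw [tr, MvPolynomial.aeval_def, MvPolynomial.eval₂_eq']
      apply Finset.sum_congr rfl
      intro n _
      rw [Fin.prod_univ_three]
      rfl
    have e2 : H = ∑ n ∈ H.support, MvPolynomial.C (H.coeff n) *
        (MvPolynomial.X 0 ^ n 0 * (MvPolynomial.X 1 : MvPolynomial (Fin 3) ℤ) ^ n 1 *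
          MvPolynomial.X 2 ^ n 2) := by
      have e3 : H = MvPolynomial.aeval MvPolynomial.X H := by
        rw [MvPolynomial.aeval_X_left]; rfl
      conv_lhs => rw [e3]
      rw [MvPolynomial.aeval_def, MvPolynomial.eval₂_eq']
      apply Finset.sum_congr rfl
      intro n _
      rw [Fin.prod_univ_three]
      rfl
    calc tr H - H = _ - ∑ n ∈ H.support, MvPolynomial.C (H.coeff n) *
        (MvPolynomial.X 0 ^ n 0 * (MvPolynomial.X 1 : MvPolynomial (Fin 3) ℤ) ^ n 1 *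
          MvPolynomial.X 2 ^ n 2) := by rw [e1, ← e2]
      _ = _ := by
        rw [← Finset.sum_sub_distrib]
        apply Finset.sum_congr rfl
        intro n _
        ring
  rw [h1]
  have h2 : (∑ n ∈ H.support, MvPolynomial.C (H.coeff n) *
      (MvPolynomial.X 0 ^ n 0 * ((((MvPolynomial.X 1 : MvPolynomial (Fin 3) ℤ) -
      MvPolynomial.C 2) ^ n 1 - MvPolynomial.X 1 ^ n 1) * MvPolynomial.X 2 ^ n 2))).totalDegree
      ≤ m - 1 := by
    apply MvPolynomial.totalDegree_finsetSum_le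
    intro n hn
    have hn3 := deg3 hH hn
    by_cases hn1 : n 1 = 0
    · rw [hn1, pow_zero, pow_zero, sub_self, zero_mul, mul_zero, mul_zero,
        MvPolynomial.totalDegree_zero]
      omega
    · have e1 := MvPolynomial.totalDegree_mul (MvPolynomial.C (H.coeff n))
        (MvPolynomial.X 0 ^ n 0 * ((((MvPolynomial.X 1 : MvPolynomial (Fin 3) ℤ) -
        MvPolynomial.C 2) ^ n 1 - MvPolynomial.X 1 ^ n 1) * MvPolynomial.X 2 ^ n 2))
      have e2 := MvPolynomial.totalDegree_mul (MvPolynomial.X 0 ^ n 0)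
        ((((MvPolynomial.X 1 : MvPolynomial (Fin 3) ℤ) -
        MvPolynomial.C 2) ^ n 1 - MvPolynomial.X 1 ^ n 1) * MvPolynomial.X 2 ^ n 2)
      have e3 := MvPolynomial.totalDegree_mul ((((MvPolynomial.X 1 : MvPolynomial (Fin 3) ℤ) -
        MvPolynomial.C 2) ^ n 1 - MvPolynomial.X 1 ^ n 1)) (MvPolynomial.X 2 ^ n 2)
      have e4 := tdeg_pow_sub (n 1) hn1
      rw [MvPolynomial.totalDegree_C] at e1
      rw [MvPolynomial.totalDegree_X_pow] at e2 e3
      omega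
  omega

lemma tr_comp {m : ℕ} {W : MvPolynomial (Fin 3) ℤ} (hW : W.totalDegree ≤ m) (hm : 1 ≤ m) :
    (tr W).totalDegree ≤ m ∧
    MvPolynomial.homogeneousComponent m (tr W) = MvPolynomial.homogeneousComponent m W := by
  have h1 := tr_sub_deg hW hm
  have h2 : tr W = W + (tr W - W) := by ring
  constructor
  · rw [h2]
    exact (MvPolynomial.totalDegree_add _ _).trans (max_le hW h1.le)
  · rw [h2, map_add, MvPolynomial.homogeneousComponent_eq_zero _ _ h1, add_zero]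

/-- the linear part of an expansion -/
lemma lin_part (Q : MvPolynomial (Fin 2) ℚ) : ∃ S : ℝ, ∀ y z : ℝ, |y| ≤ 3 → 1 ≤ |z| →
    |z * MvPolynomial.aeval ![y / z, 1 / z] Q - (((Q.coeff 0 : ℚ) : ℝ) * z +
      ((Q.coeff (Finsupp.single 0 1) : ℚ) : ℝ) * y
      + ((Q.coeff (Finsupp.single 1 1) : ℚ) : ℝ))| * |z| ≤ S := by
  classical
  refine ⟨∑ n ∈ Q.support, |((Q.coeff n : ℚ) : ℝ)| * 3 ^ n 0, ?_⟩
  intro y z hy hz
  have hz0 : 0 < |z| := by linarith
  have hzne : z ≠ 0 := abs_pos.1 hz0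
  have hs : ∀ (n0 : Fin 2 →₀ ℕ) (c : ℝ), ((Q.coeff n0 : ℚ) : ℝ) * c
      = ∑ n ∈ Q.support, if n = n0 then ((Q.coeff n : ℚ) : ℝ) * c else 0 := by
    intro n0 c
    rw [Finset.sum_ite_eq']
    split_ifs with h
    · rfl
    · rw [MvPolynomial.notMem_support_iff.1 h]; simp
  have h1 : z * MvPolynomial.aeval ![y / z, 1 / z] Q - (((Q.coeff 0 : ℚ) : ℝ) * z +
      ((Q.coeff (Finsupp.single 0 1) : ℚ) : ℝ) * y + ((Q.coeff (Finsupp.single 1 1) : ℚ) : ℝ))
      = ∑ n ∈ Q.support, ((Q.coeff n : ℚ) : ℝ) * (z * ((y / z) ^ n 0 * (1 / z) ^ n 1) -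
        ((if n = 0 then z else 0) + (if n = Finsupp.single 0 1 then y else 0) +
        (if n = Finsupp.single 1 1 then 1 else 0))) := by
    have e2 : ((Q.coeff (Finsupp.single 1 1) : ℚ) : ℝ)
        = ((Q.coeff (Finsupp.single 1 1) : ℚ) : ℝ) * 1 := by
      ring
    rw [e2, hs 0 z, hs (Finsupp.single 0 1) y, hs (Finsupp.single 1 1) 1,
      MvPolynomial.aeval_def, MvPolynomial.eval₂_eq', Finset.mul_sum, ← Finset.sum_add_distrib,
      ← Finset.sum_add_distrib, ← Finset.sum_sub_distrib]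
    apply Finset.sum_congr rfl
    intro n _
    rw [Fin.prod_univ_two]
    simp only [Matrix.cons_val_zero, Matrix.cons_val_one, eq_ratCast]
    split_ifs <;> ring
  rw [h1]
  refine (mul_le_mul_of_nonneg_right (Finset.abs_sum_le_sum_abs _ _) (abs_nonneg _)).trans ?_
  rw [Finset.sum_mul]
  apply Finset.sum_le_sum
  intro n _
  rw [abs_mul, mul_assoc]
  apply mul_le_mul_of_nonneg_left _ (abs_nonneg _)
  by_cases h0 : n = 0
  · rw [h0]
    have e1 : (0 : Fin 2 →₀ ℕ) ≠ Finsupp.single 0 1 := by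
      intro h
      have := congrArg (fun f => f 0) h
      simp at this
    have e2 : (0 : Fin 2 →₀ ℕ) ≠ Finsupp.single 1 1 := by
      intro h
      have := congrArg (fun f => f 1) h
      simp at this
    simp [e1, e2]
  by_cases h1 : n = Finsupp.single 0 1
  · rw [h1]
    have e1 : (Finsupp.single 0 1 : Fin 2 →₀ ℕ) ≠ 0 := by
      intro h
      have := congrArg (fun f => f 0) h
      simp at this
    have e2 : (Finsupp.single 0 1 : Fin 2 →₀ ℕ) ≠ Finsupp.single 1 1 := by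
      intro h
      have := congrArg (fun f => f 1) h
      simp at this
    have e3 : z * (y / z) = y := by field_simp
    simp [e1, e2, e3]
  by_cases h2 : n = Finsupp.single 1 1
  · rw [h2]
    have e1 : (Finsupp.single 1 1 : Fin 2 →₀ ℕ) ≠ 0 := by
      intro h
      have := congrArg (fun f => f 1) h
      simp at this
    have e2 : (Finsupp.single 1 1 : Fin 2 →₀ ℕ) ≠ Finsupp.single 0 1 := by
      intro h
      have := congrArg (fun f => f 1) h
      simp at this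
    simp [e1, e2, hzne]
  have hn : 2 ≤ n 0 + n 1 := by
    by_contra hcon
    push Not at hcon
    have h3 : (n 0 = 0 ∧ n 1 = 0) ∨ (n 0 = 1 ∧ n 1 = 0) ∨ (n 0 = 0 ∧ n 1 = 1) := by omega
    rcases h3 with ⟨h4, h5⟩ | ⟨h4, h5⟩ | ⟨h4, h5⟩
    · apply h0
      ext i
      fin_cases i <;> simp [h4, h5]
    · apply h1
      ext i
      fin_cases i <;> simp [h4, h5]
    · apply h2
      ext i
      fin_cases i <;> simp [h4, h5]
  rw [if_neg h0, if_neg h1, if_neg h2, add_zero, add_zero, sub_zero, abs_mul, abs_mul, abs_pow,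
    abs_pow, abs_div, abs_div, abs_one]
  obtain ⟨e, he⟩ : ∃ e, n 0 + n 1 = e + 2 := ⟨n 0 + n 1 - 2, by omega⟩
  have h3 : |z| * ((|y| / |z|) ^ n 0 * (1 / |z|) ^ n 1) * |z| = |y| ^ n 0 * (1 / |z|) ^ e := by
    have h4 : (|y| / |z|) ^ n 0 * (1 / |z|) ^ n 1 = |y| ^ n 0 * (1 / |z|) ^ (n 0 + n 1) := by
      rw [pow_add, div_pow, one_div_pow, one_div_pow]
      field_simp
    rw [h4, he, pow_add]
    field_simp
  rw [h3]
  have h5 : (1 / |z|) ^ e ≤ 1 := by
    apply pow_le_one₀ (by positivity)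
    rw [div_le_one hz0]; exact hz
  calc |y| ^ n 0 * (1 / |z|) ^ e ≤ 3 ^ n 0 * 1 :=
        mul_le_mul (pow_le_pow_left₀ (abs_nonneg _) hy _) h5 (by positivity) (by positivity)
    _ = 3 ^ n 0 := mul_one _

/-- linear approximations in the range `|y| ≤ 1` -/
lemma hlin_of_exp {k : ℕ} {W : MvPolynomial (Fin 3) ℤ}
    (hexp : ∃ (Q : Fin k → MvPolynomial (Fin 2) ℚ) (C A : ℝ), ∀ x y t : ℝ, A ≤ |t| →
      1 ≤ |y| → MvPolynomial.aeval ![x, y, t * y] (tr W) = 0 →
      ∃ i, |x - t * y * MvPolynomial.aeval ![1 / t, 1 / (t * y)] (Q i)| * |t| ^ 1 ≤ C * |y|) :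
    ∃ (k' : ℕ) (c0 c1 c2 : Fin k' → ℚ) (C A : ℝ), ∀ x y z : ℝ, A ≤ |z| → |y| ≤ 1 →
      MvPolynomial.aeval ![x, y, z] W = 0 →
      ∃ i, |x - (c0 i * z + c1 i * y + c2 i)| * |z| ≤ C := by
  obtain ⟨Q, C, A, h⟩ := hexp
  choose S hS using fun i => lin_part (Q i)
  obtain ⟨S', hS'⟩ := Finite.bddAbove_range S
  refine ⟨k, fun i => (Q i).coeff 0, fun i => (Q i).coeff (Finsupp.single 0 1),
    fun i => 2 * (Q i).coeff (Finsupp.single 0 1) + (Q i).coeff (Finsupp.single 1 1),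
    9 * |C| + S', max (3 * |A|) 1, ?_⟩
  intro x y z hz hy hW
  have hz1 : 1 ≤ |z| := (le_max_right _ _).trans hz
  have hz2 : 3 * |A| ≤ |z| := (le_max_left _ _).trans hz
  have hz0 : 0 < |z| := by linarith
  have hzne : z ≠ 0 := abs_pos.1 hz0
  obtain ⟨y', hy'⟩ : ∃ y', y' = y + 2 := ⟨_, rfl⟩
  have hyb := abs_le.1 hy
  have hy1 : 1 ≤ y' := by linarith
  have hy3 : y' ≤ 3 := by linarith
  have hyabs : |y'| = y' := abs_of_pos (by linarith)
  have hyne : y' ≠ 0 := by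
    intro h0
    linarith
  obtain ⟨t, ht⟩ : ∃ t, t = z / y' := ⟨_, rfl⟩
  have htabs : |t| = |z| / y' := by rw [ht, abs_div, hyabs]
  have htge : |z| ≤ 3 * |t| := by
    rw [htabs, mul_div_assoc', le_div_iff₀ (by linarith)]
    nlinarith
  have htA : A ≤ |t| := by
    have := le_abs_self A
    linarith
  have hty : t * y' = z := by rw [ht, div_mul_cancel₀ _ hyne]
  have htr : MvPolynomial.aeval ![x, y', t * y'] (tr W) = 0 := by
    rw [aeval_tr, hty, hy']
    simpa using hW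
  obtain ⟨i, hi⟩ := h x y' t htA (by rw [hyabs]; exact hy1) htr
  refine ⟨i, ?_⟩
  rw [hty, pow_one, hyabs] at hi
  have e1 : 1 / t = y' / z := by rw [ht, one_div_div]
  rw [e1] at hi
  have hS1 := (hS i y' z (by rw [hyabs]; exact hy3) hz1).trans (hS' ⟨i, rfl⟩)
  have e2 : x - ((((Q i).coeff 0 : ℚ) : ℝ) * z +
      (((Q i).coeff (Finsupp.single 0 1) : ℚ) : ℝ) * y +
      ((2 * (Q i).coeff (Finsupp.single 0 1) + (Q i).coeff (Finsupp.single 1 1) : ℚ) : ℝ))
      = (x - z * MvPolynomial.aeval ![y' / z, 1 / z] (Q i)) +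
        (z * MvPolynomial.aeval ![y' / z, 1 / z] (Q i) - ((((Q i).coeff 0 : ℚ) : ℝ) * z +
          (((Q i).coeff (Finsupp.single 0 1) : ℚ) : ℝ) * y' +
          (((Q i).coeff (Finsupp.single 1 1) : ℚ) : ℝ))) := by
    rw [hy']
    push_cast
    ring
  simp only
  rw [e2]
  have h3 : |x - z * MvPolynomial.aeval ![y' / z, 1 / z] (Q i)| * |z| ≤ 9 * |C| := by
    obtain ⟨v, hv⟩ : ∃ v, v = |x - z * MvPolynomial.aeval ![y' / z, 1 / z] (Q i)| := ⟨_, rfl⟩
    rw [← hv] at hi ⊢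
    have hv0 : 0 ≤ v := by rw [hv]; exact abs_nonneg _
    calc v * |z| ≤ v * (3 * |t|) := mul_le_mul_of_nonneg_left htge hv0
      _ = 3 * (v * |t|) := by ring
      _ ≤ 3 * (C * y') := by linarith
      _ ≤ 3 * (|C| * 3) := by
          have : C * y' ≤ |C| * 3 := mul_le_mul (le_abs_self C) hy3 (by linarith) (abs_nonneg _)
          linarith
      _ = 9 * |C| := by ring
  refine (mul_le_mul_of_nonneg_right (abs_add_le _ _) hz0.le).trans ?_
  rw [add_mul]
  exact add_le_add h3 hS1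

theorem mainW_split {m : ℕ} (hm : 3 ≤ m)
    {ρ : Fin m → ℤ} (hρ : Function.Injective ρ) {H R : MvPolynomial (Fin 3) ℤ}
    (hH : H.IsHomogeneous m) (hHi : Irreducible (MvPolynomial.map (Int.castRingHom ℚ) H))
    (hH0 : MvPolynomial.aeval ![MvPolynomial.X 0, 0, MvPolynomial.X 1] H
      = ∏ i, (MvPolynomial.X 0 - MvPolynomial.C (ρ i) * MvPolynomial.X 1 : MvPolynomial (Fin 2) ℤ))
    (hR : R.totalDegree < m) :
    Irreducible (MvPolynomial.map (Int.castRingHom ℚ) (H - R)) ∧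
    ∃ (G : MvPolynomial (Fin 3) ℤ) (M : ℕ),
      ¬ MvPolynomial.map (Int.castRingHom ℚ) (H - R) ∣ MvPolynomial.map (Int.castRingHom ℚ) G ∧
      ∀ x a b g w : ℤ, w ≠ 0 →
        MvPolynomial.aeval ![(x : ℚ) / w, ((b * g : ℤ) : ℚ) / w, ((a * g : ℤ) : ℚ) / w]
          (H - R) = 0 →
        MvPolynomial.aeval ![(x : ℚ) / w, ((b * g : ℤ) : ℚ) / w, ((a * g : ℤ) : ℚ) / w] G = 0 ∨
          a.natAbs < (b * w).natAbs ^ M := by
  have hm1 : 1 ≤ m := by omega
  have hWd : (H - R).totalDegree ≤ m :=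
    (MvPolynomial.totalDegree_sub _ _).trans (max_le hH.totalDegree_le hR.le)
  have hWcomp : MvPolynomial.homogeneousComponent m (H - R) = H := by
    rw [map_sub, MvPolynomial.homogeneousComponent_of_mem
      ((MvPolynomial.mem_homogeneousSubmodule m _).2 hH), if_pos rfl,
      MvPolynomial.homogeneousComponent_eq_zero _ _ hR, sub_zero]
  have hc := Ws_coeff hm1 hH hH0 hR
  obtain ⟨hSirr, -⟩ := mainV_split hm hρ hH hHi hH0 hR
  obtain ⟨htd, htc⟩ := tr_comp hWd hm1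
  refine ⟨hSirr, assembleW Pool.Agent.W45.LV6.main hm hWd hc hSirr
    (Pool.Agent.W469.LV1.main m ρ hρ (H - R) hWd (by rw [hWcomp]; exact hH0))
    (hlin_of_exp (Pool.Agent.W469.LV1.main m ρ hρ (tr (H - R)) htd
      (by rw [htc, hWcomp]; exact hH0) 1)) ?_⟩
  obtain ⟨A, M, κ, hb⟩ :=
    bound_split_w Pool.Agent.W378.LV7.main Pool.Agent.W571.LV4.main hm hρ hH hHi hH0 hR
  exact ⟨A, M, κ, fun x a b g w hb0 hw ha hab h =>
    hb x a b g w hb0 hw ha hab (clear_den hw hH hR.le h)⟩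

theorem mainW_pure {m : ℕ} (hm : 3 ≤ m) {r : ℤ} (hr : r ≠ 0)
    {R : MvPolynomial (Fin 3) ℤ} (hR : R.totalDegree < m) :
    Irreducible (MvPolynomial.map (Int.castRingHom ℚ) (Hp m r - R)) ∧
    ∃ (G : MvPolynomial (Fin 3) ℤ) (M : ℕ),
      ¬ MvPolynomial.map (Int.castRingHom ℚ) (Hp m r - R) ∣ MvPolynomial.map (Int.castRingHom ℚ) G ∧
      ∀ x a b g w : ℤ, w ≠ 0 →
        MvPolynomial.aeval ![(x : ℚ) / w, ((b * g : ℤ) : ℚ) / w, ((a * g : ℤ) : ℚ) / w]
          (Hp m r - R) = 0 →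
        MvPolynomial.aeval ![(x : ℚ) / w, ((b * g : ℤ) : ℚ) / w, ((a * g : ℤ) : ℚ) / w] G = 0 ∨
          a.natAbs < (b * w).natAbs ^ M := by
  have hm0 : m ≠ 0 := by omega
  have hm1 : 1 ≤ m := by omega
  have hc := Wp_coeff hm r hR
  have hWd := Wp_deg r hR
  obtain ⟨hSirr, -⟩ := mainV_pure hm hr hR
  obtain ⟨htd, htc⟩ := tr_comp hWd hm1
  have hh : MvPolynomial.aeval ![(X : ℤ[X]), 0, 1]
      (MvPolynomial.homogeneousComponent m (Hp m r - R)) = X ^ m - C 1 := by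
    rw [Wp_comp r hR, Hp]
    simp [hm0]
  have hht : MvPolynomial.aeval ![(X : ℤ[X]), 0, 1]
      (MvPolynomial.homogeneousComponent m (tr (Hp m r - R))) = X ^ m - C 1 := by
    rw [htc]; exact hh
  have hder : ∀ s : ℤ, s ^ m = 1 → (X ^ m - C 1 : ℤ[X]).eval s = 0 ∧
      (derivative (X ^ m - C 1 : ℤ[X])).eval s ≠ 0 := by
    intro s hs
    constructor
    · simp [hs]
    · simp only [derivative_sub, derivative_X_pow, derivative_C, sub_zero, eval_mul, eval_C,
        eval_pow, eval_X]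
      apply mul_ne_zero
      · exact_mod_cast hm0
      · apply pow_ne_zero
        rintro rfl
        rw [zero_pow hm0] at hs
        exact zero_ne_one hs
  have hb : ∃ A M κ : ℕ, ∀ x a b g w : ℤ, b ≠ 0 → w ≠ 0 → A ≤ a.natAbs →
      (b * w).natAbs ^ M ≤ a.natAbs →
      MvPolynomial.aeval ![(x : ℚ) / w, ((b * g : ℤ) : ℚ) / w, ((a * g : ℤ) : ℚ) / w]
        (Hp m r - R) = 0 → g.natAbs ≤ a.natAbs ^ κ := by
    obtain ⟨A, M, κ, hb⟩ := bound_pure_w hm hr hR
    exact ⟨A, M, κ, fun x a b g w hb0 hw ha hab h =>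
      hb x a b g w hb0 hw ha hab (clear_den hw (Hp_isHom m r) hR.le h)⟩
  have hroot : ∀ β : ℝ, aeval β (X ^ m - C 1 : ℤ[X]) = 0 → β = 1 ∨ β = -1 := by
    intro β hβ
    simp only [map_sub, map_pow, aeval_X, aeval_C, map_one, sub_eq_zero] at hβ
    have h2 : |β| = 1 := by
      have h3 : |β| ^ m = 1 := by rw [← abs_pow, hβ, abs_one]
      exact (pow_eq_one_iff_of_nonneg (abs_nonneg _) hm0).1 h3
    exact (abs_eq (by norm_num)).1 h2
  have hmonh : (X ^ m - C 1 : ℤ[X]).Monic := monic_X_pow_sub_C _ hm0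
  have hndh : (X ^ m - C 1 : ℤ[X]).natDegree = m := natDegree_X_pow_sub_C
  refine ⟨hSirr, ?_⟩
  rcases Nat.even_or_odd m with hme | hmo
  · have hr1 : ∀ β : ℝ, aeval β (X ^ m - C 1 : ℤ[X]) = 0 →
        ∃ i : Fin 2, β = ((![1, -1] : Fin 2 → ℤ) i : ℝ) := by
      intro β hβ
      rcases hroot β hβ with h | h
      · exact ⟨0, by simp [h]⟩
      · exact ⟨1, by simp [h]⟩
    have hr2 : ∀ i : Fin 2, (X ^ m - C 1 : ℤ[X]).eval ((![1, -1] : Fin 2 → ℤ) i) = 0 ∧
        (derivative (X ^ m - C 1 : ℤ[X])).eval ((![1, -1] : Fin 2 → ℤ) i) ≠ 0 := by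
      intro i
      fin_cases i
      · exact hder 1 (one_pow _)
      · exact hder (-1) (by rw [hme.neg_pow, one_pow])
    exact assembleW (k := 2) Pool.Agent.W45.LV6.main hm hWd hc hSirr
      (Pool.Agent.W573.LV5.main m 2 ![1, -1] _ _ hWd hmonh hndh hh hr1 hr2)
      (hlin_of_exp (Pool.Agent.W573.LV5.main m 2 ![1, -1] _ _ htd hmonh hndh hht hr1 hr2 1)) hb
  · have hr1 : ∀ β : ℝ, aeval β (X ^ m - C 1 : ℤ[X]) = 0 →
        ∃ i : Fin 1, β = ((![1] : Fin 1 → ℤ) i : ℝ) := by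
      intro β hβ
      rcases hroot β hβ with h | h
      · exact ⟨0, by simp [h]⟩
      · exfalso
        rw [h] at hβ
        simp only [map_sub, map_pow, aeval_X, aeval_C, map_one, sub_eq_zero, hmo.neg_pow,
          one_pow] at hβ
        norm_num at hβ
    have hr2 : ∀ i : Fin 1, (X ^ m - C 1 : ℤ[X]).eval ((![1] : Fin 1 → ℤ) i) = 0 ∧
        (derivative (X ^ m - C 1 : ℤ[X])).eval ((![1] : Fin 1 → ℤ) i) ≠ 0 := by
      intro i
      fin_cases i
      exact hder 1 (one_pow _)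
    exact assembleW (k := 1) Pool.Agent.W45.LV6.main hm hWd hc hSirr
      (Pool.Agent.W573.LV5.main m 1 ![1] _ _ hWd hmonh hndh hh hr1 hr2)
      (hlin_of_exp (Pool.Agent.W573.LV5.main m 1 ![1] _ _ htd hmonh hndh hht hr1 hr2 1)) hb

end Pool.Agent.W257
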