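import Pool.Agent.W257.K8

/-!
The bound for integer points on plane curves, with an effective constant for the points whose
parameter `a` satisfies a condition `Q` (variant of `Pool.Agent.W257.K8`).
-/

open Polynomial Finset NumberField IntermediateField

namespace Pool.Agent.W257

open Pool.Agent.H322R2

/-- effective bound for the points near a branch whose slope generates the field `L`, whose
parameter satisfies `Q` -/
def EffQ (Q : ℤ → Prop) (d K : ℕ) (c : ℝ) (L : IntermediateField ℚ ℝ) : Prop :=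
  ∀ (_ : NumberField L), Module.finrank ℚ L = d → ∀ (G : ℤ[X][X]) (H : ℝ) (α : 𝓞 L) (a b : ℤ),
    Q a → ℚ⟮rE L (algebraMap L ℝ) α⟯ = L →
    Pt (hs L) (rE L (algebraMap L ℝ)) d G H α a b → |(a : ℝ)| ≤ (c * bB d H) ^ K

theorem monic_boundQ {Q : ℤ → Prop} {d : ℕ} (hd : 3 ≤ d) {c : ℝ} (hc1 : 1 ≤ c) {K : ℕ} (hK : 1 ≤ K)
    (G : ℤ[X][X]) (hm : G.Monic) (hdeg : G.natDegree = d) (hp : Prime G)
    (hT : TD d G) (H : ℝ) (hH : 1 ≤ H) (hG : pn (pn zn) G ≤ H)
    (hn : nrm (lead d G) d (derivative (lead d G)) ≠ 0)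
    (hS : ∀ η : ℝ, evf η (lead d G) = 0 → Module.finrank ℚ ℚ⟮η⟯ = d → EffQ Q d K c ℚ⟮η⟯)
    (a b : ℤ) (hQ : Q a) (hab : ev a b G = 0) :
    |(a : ℝ)| ≤ (c * (2 + H)) ^ (eM d K) := by
  have hd0 : 0 < d := by omega
  obtain ⟨H', hH'⟩ : ∃ H', H' = (2 + H) ^ d := ⟨_, rfl⟩
  have hHH' : H ≤ H' := by
    rw [hH']
    calc H ≤ 2 + H := by linarith
      _ = (2 + H) ^ 1 := by rw [pow_one]
      _ ≤ _ := pow_le_pow_right₀ (by linarith) hd0
  have hH'1 : 1 ≤ H' := by linarith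
  have hH'2 : 2 + H' ≤ (2 + H) ^ (d + 1) := by rw [hH']; exact two_add_pow_le hH hd0
  by_cases hlarge : (2 + H') ^ (2176 * d ^ 6) < |(a : ℝ)|
  swap
  · push_neg at hlarge
    refine hlarge.trans ((pow_le_pow_left₀ (by linarith) hH'2 _).trans ?_)
    rw [← pow_mul]
    refine (pow_le_pow_right₀ (by linarith) (exp1M_le hd0 hK)).trans ?_
    apply pow_le_pow_left₀ (by linarith)
    exact le_mul_of_one_le_left (by linarith) hc1
  have h2H' : 1 ≤ 2 + H' := by linarith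
  have hthr : cS d H' * (2 / cR d H') ^ d ≤ |(a : ℝ)| := by
    refine ((thr_le hd0 hH'1).trans (pow_le_pow_right₀ h2H' ?_)).trans hlarge.le
    have : d ^ 3 ≤ d ^ 6 := Nat.pow_le_pow_right hd0 (by norm_num)
    omega
  have hsq : bB d H' ^ 2 ≤ |(a : ℝ)| := by
    refine ((bB_sq_le hd0 hH'1).trans (pow_le_pow_right₀ h2H' ?_)).trans hlarge.le
    have : d ^ 3 ≤ d ^ 6 := Nat.pow_le_pow_right hd0 (by norm_num)
    omega
  have ha0 : a ≠ 0 := by
    rintro rfl
    simp only [Int.cast_zero, abs_zero] at hlarge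
    have : (0 : ℝ) ≤ (2 + H') ^ (2176 * d ^ 6) := by positivity
    linarith
  obtain ⟨η, hη0, hnear, hder, hηH⟩ := root_sel hd0 hm hdeg hT hH'1 (hG.trans hHH') hn a b ha0 hab
    hthr
  obtain ⟨hgm, hgd⟩ := lead_monic hm hdeg
  have hpg : pn zn (lead d G) ≤ H := (pn_lead_le hdeg.le).trans hG
  have hint : IsIntegral ℤ η := ⟨lead d G, hgm, hη0⟩
  obtain ⟨g1, hg1⟩ : ∃ g1, g1 = minpoly ℤ η := ⟨_, rfl⟩
  have hg1m : g1.Monic := by rw [hg1]; exact minpoly.monic hint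
  have hevf : ∀ p : ℤ[X], evf η p = aeval η p := by
    intro p
    rw [aeval_def, evf, coe_eval₂RingHom]
    congr 1
  have hg1r : evf η g1 = 0 := by rw [hevf, hg1]; exact minpoly.aeval ℤ η
  have hg1d : g1 ∣ lead d G := by
    rw [hg1]
    exact minpoly.isIntegrallyClosed_dvd hint (by rw [← hevf]; exact hη0)
  have hfin : Module.finrank ℚ ℚ⟮η⟯ = g1.natDegree := by
    rw [IntermediateField.adjoin.finrank (hint.tower_top), hg1,
      minpoly.isIntegrallyClosed_eq_field_fractions' ℚ hint, (minpoly.monic hint).natDegree_map]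
  have hg1le : g1.natDegree ≤ d := by
    rw [← hgd]; exact natDegree_le_of_dvd hg1d hgm.ne_zero
  have hg1pos : 0 < g1.natDegree := by rw [hg1]; exact minpoly.natDegree_pos hint
  rcases lt_or_eq_of_le hg1le with hlt | heq
  · exfalso
    have hpg1 : pn zn g1 ≤ H' := by
      refine (pn_le_of_roots g1 hg1m H (by linarith) ?_).trans ?_
      · intro z hz
        apply root_norm_le (lead d G) hgm H hH hpg z
        obtain ⟨q, hq⟩ := hg1d
        rw [hq, map_mul, hz, zero_mul]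
      · rw [hH']
        calc (1 + H) ^ g1.natDegree ≤ (2 + H) ^ g1.natDegree :=
              pow_le_pow_left₀ (by linarith) (by linarith) _
          _ ≤ (2 + H) ^ d := pow_le_pow_right₀ (by linarith) hg1le
    have P : Pt (os hg1m) (sR η hg1r) d G H' (AdjoinRoot.root g1) a b := by
      refine ⟨hm, hdeg, hp, hT, hH'1, hG.trans hHH', ?_, ?_, ?_, ?_, hab, ?_⟩
      · obtain ⟨q, hq⟩ := hg1d
        rw [hq, map_mul, evf_root, zero_mul]
      · exact (os_root hg1m).trans (by linarith)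
      · rw [sR_root]; exact hηH
      · rw [sR_root]; exact hder
      · rw [sR_root]; exact hnear
    obtain ⟨Q⟩ := P.bp (os_one hg1m) (abs_sR_le hg1m hg1pos η hg1r) hd0 hsq
    have h3 := runge_bound (os_one hg1m) (abs_sR_le hg1m hg1pos η hg1r)
      (AdjoinRoot.powerBasisAux' hg1m) 1 (le_refl _) (abs_repr_le hg1m hg1pos) Q hm hdeg hp
      (by rw [Fintype.card_fin]; exact hg1pos) (by rw [Fintype.card_fin]; exact hlt)
    rw [one_mul, bB, ← pow_mul] at h3
    have h4 : 64 * d ^ 2 * (34 * d ^ 4) = 2176 * d ^ 6 := by ring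
    rw [h4] at h3
    exact absurd hlarge (not_lt.2 h3)
  · have hfd : FiniteDimensional ℚ ℚ⟮η⟯ :=
      IntermediateField.adjoin.finiteDimensional (hint.tower_top)
    haveI hnf : NumberField ℚ⟮η⟯ := { to_charZero := inferInstance, to_finiteDimensional := hfd }
    have hfind : Module.finrank ℚ ℚ⟮η⟯ = d := by rw [hfin, heq]
    obtain ⟨x, hx⟩ : ∃ x : ℚ⟮η⟯, algebraMap ℚ⟮η⟯ ℝ x = η :=
      ⟨IntermediateField.AdjoinSimple.gen ℚ η, IntermediateField.AdjoinSimple.algebraMap_gen ℚ η⟩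
    have hx0 : evf x (lead d G) = 0 := by
      have h3 := map_evf (algebraMap ℚ⟮η⟯ ℝ) x (lead d G)
      rw [hx, hη0] at h3
      exact (algebraMap ℚ⟮η⟯ ℝ).injective (by rw [h3, map_zero])
    obtain ⟨α, hα1, hα2, hα3⟩ := exists_alpha ℚ⟮η⟯ (algebraMap ℚ⟮η⟯ ℝ) (lead d G) hgm H hH hpg x hx0
    rw [hx] at hα1
    have P : Pt (hs ℚ⟮η⟯) (rE ℚ⟮η⟯ (algebraMap ℚ⟮η⟯ ℝ)) d G H' α a b := by
      refine ⟨hm, hdeg, hp, hT, hH'1, hG.trans hHH', hα2, by linarith, ?_, ?_, hab, ?_⟩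
      · rw [hα1]; exact hηH
      · rw [hα1]; exact hder
      · rw [hα1]; exact hnear
    have h3 := hS η hη0 hfind hnf hfind G H' α a b hQ (by rw [hα1]) P
    refine h3.trans ?_
    have h4 : bB d H' ≤ (2 + H) ^ ((d + 1) * (64 * d ^ 2)) := by
      unfold bB
      have h6 : (2 + H) ^ ((d + 1) * (64 * d ^ 2)) = ((2 + H) ^ (d + 1)) ^ (64 * d ^ 2) :=
        pow_mul _ _ _
      rw [h6]
      exact pow_le_pow_left₀ (by linarith) hH'2 _
    have h5 : c * bB d H' ≤ (c * (2 + H)) ^ ((d + 1) * (64 * d ^ 2)) := by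
      rw [mul_pow]
      apply mul_le_mul _ h4 (by unfold bB; positivity) (by positivity)
      calc c = (c) ^ 1 := by rw [pow_one]
        _ ≤ _ := pow_le_pow_right₀ hc1 (Nat.mul_pos (by omega) (by positivity))
    have hbB0 : 0 ≤ bB d H' := by unfold bB; positivity
    refine (pow_le_pow_left₀ (by positivity) h5 _).trans ?_
    rw [← pow_mul]
    apply pow_le_pow_right₀ _ (exp2M_le hd0)
    exact one_le_mul_of_one_le_of_one_le hc1 (by linarith)


theorem main1Q {Q : ℤ → Prop} {d : ℕ} (hd : 3 ≤ d) {c : ℝ} (hc1 : 1 ≤ c) {K : ℕ} (hK : 1 ≤ K)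
    (F : MvPolynomial (Fin 2) ℤ) (hddef : d = F.totalDegree)
    (hirr : Irreducible (MvPolynomial.map (Int.castRingHom ℚ) F))
    (hsq : Squarefree (MvPolynomial.map (Int.castRingHom ℚ)
        (MvPolynomial.homogeneousComponent d F)))
    (hS : ∀ t : ℝ, MvPolynomial.aeval ![1, t] (MvPolynomial.homogeneousComponent d F) = 0 →
      Module.finrank ℚ ℚ⟮t⟯ = d → EffQ Q d K c ℚ⟮t⟯)
    (x y : ℤ) (hQ : ∀ u : ℕ, u ≤ d → Q (y - u * x)) (hxy : MvPolynomial.eval ![x, y] F = 0) :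
    |(x : ℝ)| ≤ (c * (((d + 1) * len F : ℕ) : ℝ)) ^ ((d ^ 2 + 1) * (eM d K + 1)) ∧
      |(y : ℝ)| ≤ (c * (((d + 1) * len F : ℕ) : ℝ)) ^ ((d ^ 2 + 1) * (eM d K + 1)) := by
  have hF0 : F ≠ 0 := by
    rintro rfl
    simp at hddef
    omega
  obtain ⟨u, hu, hcu⟩ := exists_u F hF0
  have hcl : lc F u ≠ 0 := hcu
  obtain ⟨w, hw⟩ : ∃ w : ℝ, w = ((d : ℝ) + 1) * (len F : ℝ) := ⟨_, rfl⟩
  have hlen : (1 : ℝ) ≤ len F := by exact_mod_cast len_pos hF0
  have hd3 : (3 : ℝ) ≤ d := by exact_mod_cast hd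
  have hw4 : 4 ≤ w := by rw [hw]; nlinarith
  obtain ⟨H2, hH2⟩ : ∃ H2 : ℝ, H2 = (len F : ℝ) * (1 + d) ^ d := ⟨_, rfl⟩
  have hH21 : 1 ≤ H2 := by
    rw [hH2]
    exact one_le_mul_of_one_le_of_one_le hlen (one_le_pow₀ (by linarith))
  have hpn2 : pn (pn zn) (F2 F u) ≤ H2 := by
    refine (pn_toB_le u F).trans ?_
    rw [hH2, ← hddef]
    apply mul_le_mul_of_nonneg_left _ (by linarith)
    apply pow_le_pow_left₀ (by positivity)
    have : (u : ℝ) ≤ d := by rw [hddef]; exact_mod_cast hu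
    linarith
  obtain ⟨H, hH⟩ : ∃ H : ℝ, H = H2 ^ d := ⟨_, rfl⟩
  have hH1 : 1 ≤ H := by rw [hH]; exact one_le_pow₀ hH21
  have hHw : H ≤ w ^ (d ^ 2) := by
    rw [hH, hH2, sq, pow_mul]
    apply pow_le_pow_left₀ (by positivity)
    rw [hw, mul_pow, mul_comm, add_comm 1 (d : ℝ)]
    apply mul_le_mul_of_nonneg_left _ (by positivity)
    calc (len F : ℝ) = (len F : ℝ) ^ 1 := by rw [pow_one]
      _ ≤ _ := pow_le_pow_right₀ hlen (by omega)
  have hpnG : pn (pn zn) (GG F u) ≤ H := by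
    rw [hH, hddef]
    exact pn_GG hcl hH21 hpn2 (by omega)
  obtain ⟨a, ha⟩ : ∃ a : ℤ, a = y - u * x := ⟨_, rfl⟩
  have hzero : ev a (lc F u * x) (GG F u) = 0 := by
    rw [ev_GG hcl (by omega)]
    have h1 := ev_toB (S := ℤ) x a (shE ℤ u F)
    have h2 : MvPolynomial.eval₂ (Int.castRingHom ℤ) ![x, a] (shE ℤ u F)
        = MvPolynomial.eval ![x, a] (shE ℤ u F) := by
      rw [MvPolynomial.eval, MvPolynomial.coe_eval₂Hom]
      congr 1
    rw [h2, eval_shE] at h1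
    have h3 : (![(![x, a] : Fin 2 → ℤ) 0, (![x, a] : Fin 2 → ℤ) 1 + u * (![x, a] : Fin 2 → ℤ) 0]
        : Fin 2 → ℤ) = ![x, y] := by
      ext i
      fin_cases i
      · simp
      · simp [ha]
    rw [h3, hxy] at h1
    rw [F2, h1, mul_zero]
  have hmain := monic_boundQ (Q := Q) hd hc1 hK (GG F u) (GG_monic hcl)
    (by rw [GG_natDegree hcl, hddef]) (GG_prime hcl (by omega) hirr)
    (by rw [hddef]; exact GG_TD hcl) H hH1 hpnG
    (by rw [hddef]; exact nrm_GG hcl (by omega) (by rw [← hddef]; exact hsq))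
    (by
      intro η hη hfin
      rw [hddef] at hη
      obtain ⟨t, ht, hE⟩ := slope_of_root hcl (by omega) η hη (by rw [hfin, hddef])
      rw [← hE]
      rw [← hE] at hfin
      exact hS t (by rw [hddef]; exact ht) hfin)
    a (lc F u * x) (by rw [ha]; exact hQ u (by rw [hddef]; exact hu)) hzero
  have hbb := abs_b_le (GG_monic hcl) (GG_natDegree hcl) (GG_TD hcl) hH1 hpnG a (lc F u * x) hzero
  have hlc1 : 1 ≤ |((lc F u : ℤ) : ℝ)| := by
    have : 1 ≤ |lc F u| := Int.one_le_abs hcl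
    exact_mod_cast this
  have hxb : |(x : ℝ)| ≤ H * max 1 |(a : ℝ)| := by
    refine le_trans ?_ hbb
    push_cast
    rw [abs_mul]
    exact le_mul_of_one_le_left (abs_nonneg _) hlc1
  have h2H : 2 + H ≤ w ^ (d ^ 2 + 1) := by
    rw [pow_succ]
    nlinarith
  have hdH : (d + 1) * H ≤ w ^ (d ^ 2 + 1) := by
    rw [pow_succ, mul_comm]
    apply mul_le_mul hHw _ (by positivity) (by positivity)
    rw [hw]
    exact le_mul_of_one_le_right (by linarith) hlen
  -- general conclusion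
  have key : ∀ C : ℝ, 1 ≤ C → |(a : ℝ)| ≤ (C * (2 + H)) ^ (eM d K) →
      |(x : ℝ)| ≤ (C * w) ^ ((d ^ 2 + 1) * (eM d K + 1)) ∧
        |(y : ℝ)| ≤ (C * w) ^ ((d ^ 2 + 1) * (eM d K + 1)) := by
    intro C hC hab
    obtain ⟨M, hM⟩ : ∃ M, M = (C * (2 + H)) ^ (eM d K) := ⟨_, rfl⟩
    have hC2H : 1 ≤ C * (2 + H) := one_le_mul_of_one_le_of_one_le hC (by linarith)
    have hM1 : 1 ≤ M := by rw [hM]; exact one_le_pow₀ hC2H
    rw [← hM] at hab
    have hmax : max 1 |(a : ℝ)| ≤ M := max_le hM1 hab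
    have hx1 : |(x : ℝ)| ≤ H * M := hxb.trans (mul_le_mul_of_nonneg_left hmax (by linarith))
    have hy1 : |(y : ℝ)| ≤ (d + 1) * H * M := by
      have h1 : (y : ℝ) = a + u * x := by rw [ha]; push_cast; ring
      rw [h1]
      refine (abs_add_le _ _).trans ?_
      rw [abs_mul, Nat.abs_cast]
      have h2 : (u : ℝ) ≤ d := by rw [hddef]; exact_mod_cast hu
      have h3 : (u : ℝ) * |(x : ℝ)| ≤ d * (H * M) :=
        mul_le_mul h2 hx1 (abs_nonneg _) (by linarith)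
      have h4 : M ≤ H * M := le_mul_of_one_le_left (by linarith) hH1
      have h5 : ((d : ℝ) + 1) * H * M = H * M + d * (H * M) := by ring
      linarith
    have hCw : 1 ≤ C * w := one_le_mul_of_one_le_of_one_le hC (by linarith)
    have hMb : M ≤ (C * w) ^ ((d ^ 2 + 1) * eM d K) := by
      rw [hM, pow_mul]
      apply pow_le_pow_left₀ (by linarith)
      rw [mul_pow]
      apply mul_le_mul _ h2H (by linarith) (by positivity)
      calc C = C ^ 1 := by rw [pow_one]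
        _ ≤ _ := pow_le_pow_right₀ hC (by omega)
    have hb2 : (d + 1) * H ≤ (C * w) ^ (d ^ 2 + 1) := by
      refine hdH.trans ?_
      apply pow_le_pow_left₀ (by linarith)
      exact le_mul_of_one_le_left (by linarith) hC
    have hfin : (d + 1) * H * M ≤ (C * w) ^ ((d ^ 2 + 1) * (eM d K + 1)) := by
      calc (d + 1) * H * M ≤ (C * w) ^ (d ^ 2 + 1) * (C * w) ^ ((d ^ 2 + 1) * eM d K) :=
            mul_le_mul hb2 hMb (by linarith) (by positivity)
        _ = (C * w) ^ ((d ^ 2 + 1) * (eM d K + 1)) := by rw [← pow_add]; congr 1; ring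
    refine ⟨hx1.trans (le_trans ?_ hfin), hy1.trans hfin⟩
    apply mul_le_mul_of_nonneg_right _ (by linarith)
    nlinarith
  have hcastw : w = (((d + 1) * len F : ℕ) : ℝ) := by rw [hw]; push_cast; ring
  have hres := key c hc1 hmain
  rw [hcastw] at hres
  exact hres

end Pool.Agent.W257
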