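import Pool.Agent.W257.R1
import Pool.Agent.W257.G5

/-!
Large points repel: a large point on one curve bounds the points on all curves whose slope fields
have a small compositum with its slope field.
-/

open Polynomial Finset NumberField IntermediateField

namespace Pool.Agent.W257

open Pool.Agent.H322R2

/-- An anchor over `K₁` makes the bounds for all slope fields `L₂` with `3 [K₁ L₂ : ℚ] ≤ r d`
effective. -/
theorem anchor_eff2 {r d e : ℕ} (hr : 0 < r) (hd : 3 ≤ d) {K₁ : IntermediateField ℚ ℝ}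
    [NumberField K₁] {S₁ : Set ℝ} {h₁ : ℝ} (hh₁ : 1 ≤ h₁)
    (HS₁ : Gen K₁ S₁ h₁) {B1 W : ℝ} {F1 : ℤ[X][X]} {a1 b1 : ℤ}
    (P1 : AP (hs K₁) (rE K₁ (algebraMap K₁ ℝ)) e B1 W F1 a1 b1) (hm1 : F1.Monic)
    (hFd1 : F1.natDegree = r) (hF1 : Prime F1) (hFx1 : ∀ j, (F1.coeff j).natDegree ≤ r)
    (ha1 : B1 ^ (kapG r d e) ≤ |(a1 : ℝ)|) (L₂ : IntermediateField ℚ ℝ)
    (hL₂ : 3 * Module.finrank ℚ ↥(K₁ ⊔ L₂) ≤ r * d) :
    EffG d (2 * kapG r d e) (cAnc r d h₁ W a1) L₂ := by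
  intro hnf hfin G H α a b hα P
  have hW := P1.hW
  have hH := P.hH
  have hd0 : 0 < d := by omega
  have : FiniteDimensional ℚ ↥(K₁ ⊔ L₂) := IntermediateField.finiteDimensional_sup K₁ L₂
  have hnfL : NumberField ↥(K₁ ⊔ L₂) := { to_charZero := inferInstance, to_finiteDimensional := this }
  -- degree of the compositum
  obtain ⟨n, hn⟩ : ∃ n, n = Module.finrank ℚ ↥(K₁ ⊔ L₂) := ⟨_, rfl⟩
  rw [← hn] at hL₂
  have hn0 : 0 < n := by rw [hn]; exact Module.finrank_pos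
  have h3n : 3 * n ≤ r * d := hL₂
  -- functionals
  have HS₂ := gen_powers hfin α hα (H := 1 + H) (by linarith) P.Nα
  have HS := HS₁.sup HS₂ (by linarith)
  obtain ⟨bas, hbas1, hbas2⟩ := exists_bas HS
  have hC0 : 1 ≤ (n : ℝ) * (h₁ * (1 + H) ^ d) := by
    have h1 : (1 : ℝ) ≤ n := by exact_mod_cast hn0
    exact one_le_mul_of_one_le_of_one_le h1
      (one_le_mul_of_one_le_of_one_le hh₁ (one_le_pow₀ (by linarith)))
  have hres := two_pointG (e := e) hr hd (hs_one ↥(K₁ ⊔ L₂)) (abs_rE_le ↥(K₁ ⊔ L₂) (algebraMap _ ℝ))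
    bas hbas1 ((n : ℝ) * (h₁ * (1 + H) ^ d)) hC0 (fun x i => (hbas2 x i).trans_eq (by rw [hn]))
    (by rw [Fintype.card_fin, ← hn]; exact hn0) (by rw [Fintype.card_fin, ← hn]; exact h3n)
    (AP.transport (incl (le_sup_left : K₁ ≤ K₁ ⊔ L₂)) (hs_incl _) (rE_incl _) P1) hm1 hFd1 hF1 hFx1
    (Pt_transport (incl (le_sup_right : L₂ ≤ K₁ ⊔ L₂)) (hs_incl _) (rE_incl _) P) ha1
  refine hres.trans ?_
  have hpow : (cAnc r d h₁ W a1 * bB d H) ^ (2 * kapG r d e)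
      = ((cAnc r d h₁ W a1 * bB d H) ^ 2) ^ kapG r d e := pow_mul _ _ _
  rw [hpow]
  apply pow_le_pow_left₀ (by
    have h0 : 0 ≤ bB d H := pow_nonneg (by linarith) _
    positivity)
  have hbB1 : 1 ≤ bB d H := one_le_pow₀ (by linarith)
  have hHb : (1 + H) ^ d ≤ bB d H := by
    unfold bB
    calc (1 + H) ^ d ≤ (2 + H) ^ d := pow_le_pow_left₀ (by linarith) (by linarith) _
      _ ≤ (2 + H) ^ (64 * d ^ 2) := pow_le_pow_right₀ (by linarith) (by nlinarith)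
  have hnrd : (n : ℝ) ≤ r * d := by
    have : n ≤ r * d := by omega
    exact_mod_cast this
  have ha1ge : 1 ≤ |(a1 : ℝ)| := by have := P1.a_ge; linarith
  unfold cAnc
  obtain ⟨u, hu⟩ : ∃ u, u = (1 + W) ^ (2 * r) := ⟨_, rfl⟩
  have hu1 : 1 ≤ u := by rw [hu]; exact one_le_pow₀ (by linarith)
  rw [← hu]
  have hrd1 : (1 : ℝ) ≤ r * d := by
    have : 1 ≤ r * d := Nat.mul_pos hr hd0
    exact_mod_cast this
  have hc1 : 1 ≤ |(a1 : ℝ)| * (r * d * h₁ * u) :=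
    one_le_mul_of_one_le_of_one_le ha1ge
      (one_le_mul_of_one_le_of_one_le (one_le_mul_of_one_le_of_one_le hrd1 hh₁) hu1)
  calc |(a1 : ℝ)| * (n * (h₁ * (1 + H) ^ d) * u) * bB d H
      ≤ |(a1 : ℝ)| * ((r * d) * (h₁ * bB d H) * u) * bB d H := by gcongr
    _ = (|(a1 : ℝ)| * (r * d * h₁ * u)) * bB d H ^ 2 := by ring
    _ ≤ (|(a1 : ℝ)| * (r * d * h₁ * u)) ^ 2 * bB d H ^ 2 := by
        apply mul_le_mul_of_nonneg_right _ (by positivity)
        exact le_self_pow₀ hc1 (by norm_num)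
    _ = _ := by ring

/-- a point on a branch is an anchor -/
noncomputable def AP.ofBP {A : Type*} [CommRing A] {N : RingSeminorm A} {σ : A →+* ℝ} {d : ℕ}
    {B : ℝ} {F : ℤ[X][X]} {a b : ℤ} (P : BP N σ d B F a b) : AP N σ d B B F a b where
  ζ := P.ζ
  ω := P.ω
  ρ := P.ρ
  θ := P.θ
  hB := P.hB
  hW := by have := P.hB; linarith
  ha := P.ha
  hρB := P.hρB
  hζ := P.hζ
  hω := P.hω
  hθ := P.hθ
  hx := P.hx
  hy := P.hy
  hF := P.hF
  hD := P.hD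
  hDle := P.hDle
  hFn := P.hFn

lemma two_le_kapG (r d e : ℕ) (he : 1 ≤ e) (hd : 1 ≤ d) : 2 ≤ kapG r d e := by
  unfold kapG
  have : 1 ≤ (d * (3 * d + 1)) ^ r := Nat.one_le_pow _ _ (by positivity)
  nlinarith

/-- the constant for a point anchor -/
noncomputable def cPt (r d : ℕ) (a : ℤ) : ℝ := (r * d * |(a : ℝ)|) ^ (4 * r + 2)

/-- **Large points repel.** -/
theorem anchor_pt {r d : ℕ} (hr : 3 ≤ r) (hd : 3 ≤ d) {K₁ : IntermediateField ℚ ℝ}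
    [NumberField K₁] (hK₁ : Module.finrank ℚ K₁ = r) {G1 : ℤ[X][X]} {H1 : ℝ} {α1 : 𝓞 K₁}
    {a1 b1 : ℤ} (hα1 : ℚ⟮rE K₁ (algebraMap K₁ ℝ) α1⟯ = K₁)
    (P1 : Pt (hs K₁) (rE K₁ (algebraMap K₁ ℝ)) r G1 H1 α1 a1 b1)
    (ha1 : (bB r H1) ^ (kapG r d r) ≤ |(a1 : ℝ)|) (L₂ : IntermediateField ℚ ℝ)
    (hL₂ : 3 * Module.finrank ℚ ↥(K₁ ⊔ L₂) ≤ r * d) :
    EffG d (2 * kapG r d r) (cPt r d a1) L₂ := by
  have hr0 : 0 < r := by omega
  have hH := P1.hH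
  have hbB1 : 2 ≤ bB r H1 := by
    unfold bB
    calc (2 : ℝ) ≤ 2 + H1 := by linarith
      _ = (2 + H1) ^ 1 := by rw [pow_one]
      _ ≤ _ := pow_le_pow_right₀ (by linarith) (by nlinarith)
  have hsq : bB r H1 ^ 2 ≤ |(a1 : ℝ)| := by
    refine le_trans (pow_le_pow_right₀ (by linarith) ?_) ha1
    exact two_le_kapG r d r (by omega) (by omega)
  obtain ⟨Q⟩ := P1.bp (hs_one K₁) (abs_rE_le K₁ (algebraMap K₁ ℝ)) hr0 hsq
  have HS₁ := gen_powers hK₁ α1 hα1 (H := 1 + H1) (by linarith) P1.Nα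
  have hh₁ : (1 : ℝ) ≤ (1 + H1) ^ r := one_le_pow₀ (by linarith)
  have h1 := anchor_eff2 (e := r) hr0 hd hh₁ HS₁ (AP.ofBP Q) P1.monic P1.deg P1.prime
    (fun j => (P1.td.2 j).trans (Nat.sub_le _ _)) ha1 L₂ hL₂
  intro hnf hfin G H α a b hα P
  refine (h1 hnf hfin G H α a b hα P).trans ?_
  have hH2 := P.hH
  have hbB2 : 0 ≤ bB d H := pow_nonneg (by linarith) _
  obtain ⟨A, hA⟩ : ∃ A, A = |(a1 : ℝ)| := ⟨_, rfl⟩
  have hbA : bB r H1 ≤ A := by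
    rw [hA]
    refine le_trans ?_ hsq
    nlinarith
  have hA1 : 2 ≤ A := by linarith
  have hHb : (1 + H1) ^ r ≤ bB r H1 := by
    unfold bB
    calc (1 + H1) ^ r ≤ (2 + H1) ^ r := pow_le_pow_left₀ (by linarith) (by linarith) _
      _ ≤ (2 + H1) ^ (64 * r ^ 2) := pow_le_pow_right₀ (by linarith) (by nlinarith)
  have hc0 : 0 ≤ cAnc r d ((1 + H1) ^ r) (bB r H1) a1 := by unfold cAnc; positivity
  apply pow_le_pow_left₀ (by positivity)
  apply mul_le_mul_of_nonneg_right _ hbB2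
  unfold cAnc cPt
  rw [← hA]
  have hrd1 : (1 : ℝ) ≤ r * d := by
    have : 1 ≤ r * d := Nat.mul_pos hr0 (by omega)
    exact_mod_cast this
  have e1 : 1 + bB r H1 ≤ A ^ 2 := by
    have h2 : bB r H1 ^ 2 ≤ A := by rw [hA]; exact hsq
    nlinarith
  have e2 : (1 + bB r H1) ^ (2 * r) ≤ A ^ (4 * r) := by
    calc (1 + bB r H1) ^ (2 * r) ≤ (A ^ 2) ^ (2 * r) := pow_le_pow_left₀ (by positivity) e1 _
      _ = A ^ (4 * r) := by rw [← pow_mul]; congr 1; ring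
  calc A * (r * d * (1 + H1) ^ r * (1 + bB r H1) ^ (2 * r))
      ≤ A * (r * d * A * A ^ (4 * r)) := by
        gcongr
        exact hHb.trans hbA
    _ = (r * d) * A ^ (4 * r + 2) := by ring
    _ ≤ (r * d) ^ (4 * r + 2) * A ^ (4 * r + 2) := by
        apply mul_le_mul_of_nonneg_right _ (by positivity)
        exact le_self_pow₀ hrd1 (by omega)
    _ = _ := by rw [← mul_pow]

end Pool.Agent.W257
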