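import Pool.Agent.W257.R2
import Pool.Agent.H322R2.CompB

/-!
Effective repulsion of large integer points, and computable bounds for all curves whose slope
fields meet a given field.
-/

open Polynomial Finset NumberField IntermediateField

namespace Pool.Agent.W257

open Pool.Agent.H322R2

/-- the exponent -/
def eR (r d : ℕ) : ℕ := 10 ^ 10 * (2 * r) ^ 10 * (2 * d) ^ (6 * r + 9)

lemma kap_q {r d : ℕ} (hr : 3 ≤ r) (hd : 3 ≤ d) :
    kapG r d r ≤ 1000 * r * (2 * d) ^ (6 * r) := by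
  refine (kapG_le (by omega) hd (by omega)).trans (le_of_eq ?_)
  have : (4 * d ^ 2) ^ (3 * r) = (2 * d) ^ (6 * r) := by
    have h1 : 4 * d ^ 2 = (2 * d) ^ 2 := by ring
    rw [h1, ← pow_mul]; congr 1; ring
  rw [this]

lemma numA {r d : ℕ} (hr : 3 ≤ r) (hd : 3 ≤ d) :
    (8 * r + 4) * ((d ^ 2 + 1) * (eM d (2 * kapG r d r) + 1)) ≤ eR r d := by
  have hk := kap_q hr hd
  obtain ⟨q, hq⟩ : ∃ q, q = (2 * d) ^ (6 * r) := ⟨_, rfl⟩
  rw [← hq] at hk
  have hq1 : 1 ≤ q := by rw [hq]; exact Nat.one_le_pow _ _ (by omega)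
  obtain ⟨u, hu⟩ : ∃ u, u = (d + 1) ^ 7 := ⟨_, rfl⟩
  have hu1 : 1 ≤ u := by rw [hu]; exact Nat.one_le_pow _ _ (by omega)
  have hu2 : u ≤ (2 * d) ^ 7 := by rw [hu]; exact Nat.pow_le_pow_left (by omega) _
  have h1 : eM d (2 * kapG r d r) + 1 ≤ 3 * 10 ^ 7 * (2 * d) ^ 7 * r * q := by
    unfold eM
    rw [← hu]
    calc 10 ^ 4 * u * (2 * kapG r d r) + 1 ≤ 10 ^ 4 * u * (2 * (1000 * r * q)) + 1 := by gcongr
      _ ≤ 3 * 10 ^ 7 * u * r * q := by
          have : 1 ≤ u * r * q := Nat.mul_pos (Nat.mul_pos hu1 (by omega)) hq1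
          have e : 10 ^ 4 * u * (2 * (1000 * r * q)) = 2 * 10 ^ 7 * (u * r * q) := by ring
          have e2 : 3 * 10 ^ 7 * u * r * q = 3 * 10 ^ 7 * (u * r * q) := by ring
          omega
      _ ≤ _ := by gcongr
  have h2 : d ^ 2 + 1 ≤ (2 * d) ^ 2 := by nlinarith
  have h3 : (8 * r + 4) * r ≤ 3 * (2 * r) ^ 10 := by
    have e1 : (8 * r + 4) * r ≤ 3 * (2 * r) ^ 2 := by nlinarith
    have e2 : (2 * r) ^ 2 ≤ (2 * r) ^ 10 := Nat.pow_le_pow_right (by omega) (by norm_num)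
    omega
  calc (8 * r + 4) * ((d ^ 2 + 1) * (eM d (2 * kapG r d r) + 1))
      ≤ (8 * r + 4) * ((2 * d) ^ 2 * (3 * 10 ^ 7 * (2 * d) ^ 7 * r * q)) := by gcongr
    _ = 3 * 10 ^ 7 * ((8 * r + 4) * r) * ((2 * d) ^ 9 * q) := by ring
    _ ≤ 3 * 10 ^ 7 * (3 * (2 * r) ^ 10) * ((2 * d) ^ 9 * q) := by gcongr
    _ ≤ 10 ^ 10 * (2 * r) ^ 10 * ((2 * d) ^ 9 * q) := by
        apply Nat.mul_le_mul_right
        have e : 3 * 10 ^ 7 * (3 * (2 * r) ^ 10) = (9 * 10 ^ 7) * (2 * r) ^ 10 := by ring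
        rw [e]
        exact Nat.mul_le_mul_right _ (by norm_num)
    _ = eR r d := by unfold eR; rw [hq, ← pow_add]; congr 2; ring

lemma numB {r d : ℕ} (hr : 3 ≤ r) (hd : 3 ≤ d) :
    (r ^ 2 + 1) * (eM r (kapG r d r) + 1) ≤ eR r d := by
  have hk := kap_q hr hd
  obtain ⟨q, hq⟩ : ∃ q, q = (2 * d) ^ (6 * r) := ⟨_, rfl⟩
  rw [← hq] at hk
  have hq1 : 1 ≤ q := by rw [hq]; exact Nat.one_le_pow _ _ (by omega)
  obtain ⟨u, hu⟩ : ∃ u, u = (r + 1) ^ 7 := ⟨_, rfl⟩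
  have hu1 : 1 ≤ u := by rw [hu]; exact Nat.one_le_pow _ _ (by omega)
  have hu2 : u ≤ (2 * r) ^ 7 := by rw [hu]; exact Nat.pow_le_pow_left (by omega) _
  have h1 : eM r (kapG r d r) + 1 ≤ 3 * 10 ^ 7 * (2 * r) ^ 7 * r * q := by
    unfold eM
    rw [← hu]
    calc 10 ^ 4 * u * (kapG r d r) + 1 ≤ 10 ^ 4 * u * (1000 * r * q) + 1 := by gcongr
      _ ≤ 3 * 10 ^ 7 * u * r * q := by
          have : 1 ≤ u * r * q := Nat.mul_pos (Nat.mul_pos hu1 (by omega)) hq1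
          have e : 10 ^ 4 * u * (1000 * r * q) = 10 ^ 7 * (u * r * q) := by ring
          have e2 : 3 * 10 ^ 7 * u * r * q = 3 * 10 ^ 7 * (u * r * q) := by ring
          omega
      _ ≤ _ := by gcongr
  have h2 : r ^ 2 + 1 ≤ (2 * r) ^ 2 := by nlinarith
  have h3 : 1 ≤ (2 * d) ^ 9 := Nat.one_le_pow _ _ (by omega)
  calc (r ^ 2 + 1) * (eM r (kapG r d r) + 1)
      ≤ (2 * r) ^ 2 * (3 * 10 ^ 7 * (2 * r) ^ 7 * r * q) := by gcongr
    _ ≤ (2 * r) ^ 2 * (3 * 10 ^ 7 * (2 * r) ^ 7 * (2 * r) * q) := by gcongr; omega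
    _ = 3 * 10 ^ 7 * (2 * r) ^ 10 * (1 * q) := by ring
    _ ≤ 10 ^ 10 * (2 * r) ^ 10 * ((2 * d) ^ 9 * q) := by
        gcongr
        norm_num
    _ = eR r d := by unfold eR; rw [hq, ← pow_add]; congr 2; ring

lemma EffG.mono' {d K : ℕ} {c c' : ℝ} (h0 : 0 ≤ c) (h : c ≤ c') {L : IntermediateField ℚ ℝ}
    (hE : EffG d K c L) : EffG d K c' L := by
  intro hnf hfin G H α a b hα P
  refine (hE hnf hfin G H α a b hα P).trans ?_
  have hH := P.hH
  have hbB : 0 ≤ bB d H := pow_nonneg (by linarith) _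
  apply pow_le_pow_left₀ (by positivity)
  exact mul_le_mul_of_nonneg_right h hbB

/-- **Large points repel**, effective form. -/
theorem repel {r d : ℕ} (hr : 3 ≤ r) (hd : 3 ≤ d) (F : MvPolynomial (Fin 2) ℤ)
    (hF : r = F.totalDegree)
    (hirr : Irreducible (MvPolynomial.map (Int.castRingHom ℚ) F))
    (hsq : Squarefree (MvPolynomial.map (Int.castRingHom ℚ)
        (MvPolynomial.homogeneousComponent r F)))
    (x y : ℤ) (hxy : MvPolynomial.eval ![x, y] F = 0) (M : ℝ)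
    (hM : M = max |(x : ℝ)| |(y : ℝ)|)
    (hbig : ((((r + 1) * len F : ℕ) : ℝ)) ^ (eR r d) < M) :
    ∃ t : ℝ, MvPolynomial.aeval ![1, t] (MvPolynomial.homogeneousComponent r F) = 0 ∧
      Module.finrank ℚ ℚ⟮t⟯ = r ∧ ∀ L : IntermediateField ℚ ℝ,
        3 * Module.finrank ℚ ↥(ℚ⟮t⟯ ⊔ L) ≤ r * d →
        EffG d (2 * kapG r d r) (M ^ (8 * r + 4)) L := by
  have hF0 : F ≠ 0 := by
    rintro rfl
    simp at hF
    omega
  have hlen : 1 ≤ len F := len_pos hF0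
  have hw4 : 4 ≤ (r + 1) * len F := by nlinarith
  have hw4R : (4 : ℝ) ≤ (((r + 1) * len F : ℕ) : ℝ) := by exact_mod_cast hw4
  obtain ⟨w, hw⟩ : ∃ w : ℝ, w = (((r + 1) * len F : ℕ) : ℝ) := ⟨_, rfl⟩
  rw [← hw] at hbig hw4R
  have hK1 : 1 ≤ kapG r d r := by
    have := two_le_kapG r d r (by omega) (by omega)
    omega
  have hM0 : 0 ≤ M := by rw [hM]; exact le_trans (abs_nonneg _) (le_max_left _ _)
  obtain ⟨Q, hQ⟩ : ∃ Q : ℤ → Prop, Q = fun a : ℤ => |(a : ℝ)| ≤ (r + 1) * M := ⟨_, rfl⟩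
  by_contra hcon
  push Not at hcon
  have hmain := main1Q (Q := Q) hr (le_refl (1 : ℝ)) hK1 F hF hirr hsq (by
    intro t ht hfin
    obtain ⟨L, hL1, hL2⟩ := hcon t ht hfin
    by_contra hE
    apply hL2
    unfold EffQ at hE
    push Not at hE
    obtain ⟨hnf, hfin', G, H, α, a, b, hQa, hgen, P, hlt⟩ := hE
    have h1 : (bB r H) ^ (kapG r d r) ≤ |(a : ℝ)| := by
      rw [one_mul] at hlt
      exact hlt.le
    have h2 := anchor_pt hr hd hfin' hgen P h1 L hL1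
    have hQa' : |(a : ℝ)| ≤ (r + 1) * M := by rw [hQ] at hQa; exact hQa
    refine EffG.mono' ?_ ?_ h2
    · unfold cPt; positivity
    · unfold cPt
      have h3 : (r : ℝ) * d * (r + 1) ≤ M := by
        have e0 : r * d * (r + 1) ≤ 4 ^ (eR r d) := by
          have e1 : r < 2 ^ r := Nat.lt_two_pow_self
          have e2 : d < 2 ^ d := Nat.lt_two_pow_self
          have e3 : r + 1 ≤ 2 ^ r := e1
          have e4 : 2 * r + d ≤ eR r d := by
            unfold eR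
            have f1 : 1 ≤ (2 * r) ^ 9 := Nat.one_le_pow _ _ (by omega)
            have f2 : 1 ≤ (2 * d) ^ (6 * r + 8) := Nat.one_le_pow _ _ (by omega)
            calc 2 * r + d ≤ (2 * r) * (2 * d) := by nlinarith
              _ = 1 * (1 * (2 * r)) * (1 * (2 * d)) := by ring
              _ ≤ 10 ^ 10 * ((2 * r) ^ 9 * (2 * r)) * ((2 * d) ^ (6 * r + 8) * (2 * d)) := by
                  gcongr
                  norm_num
              _ = _ := by ring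
          calc r * d * (r + 1) ≤ 2 ^ r * 2 ^ d * 2 ^ r := by gcongr
            _ = 2 ^ (2 * r + d) := by rw [← pow_add, ← pow_add]; congr 1; ring
            _ ≤ 4 ^ (2 * r + d) := Nat.pow_le_pow_left (by norm_num) _
            _ ≤ _ := Nat.pow_le_pow_right (by norm_num) e4
        have e5 : ((r * d * (r + 1) : ℕ) : ℝ) ≤ 4 ^ (eR r d) := by exact_mod_cast e0
        have e6 : (4 : ℝ) ^ (eR r d) ≤ w ^ (eR r d) := pow_le_pow_left₀ (by norm_num) hw4R _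
        push_cast at e5
        linarith
      calc ((r : ℝ) * d * |(a : ℝ)|) ^ (4 * r + 2)
          ≤ (r * d * ((r + 1) * M)) ^ (4 * r + 2) := by gcongr
        _ = ((r * d * (r + 1)) * M) ^ (4 * r + 2) := by ring
        _ ≤ (M * M) ^ (4 * r + 2) := by gcongr
        _ = M ^ (8 * r + 4) := by rw [← sq, ← pow_mul]; congr 1; ring)
    x y (by
      intro u hu
      rw [hQ]
      have h1 : |(((y - u * x : ℤ)) : ℝ)| ≤ |(y : ℝ)| + u * |(x : ℝ)| := by
        push_cast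
        refine (abs_sub _ _).trans ?_
        rw [abs_mul, Nat.abs_cast]
      refine h1.trans ?_
      have h2 : (u : ℝ) ≤ r := by exact_mod_cast hu
      have h3 : |(x : ℝ)| ≤ M := by rw [hM]; exact le_max_left _ _
      have h4 : |(y : ℝ)| ≤ M := by rw [hM]; exact le_max_right _ _
      have h5 : (u : ℝ) * |(x : ℝ)| ≤ r * M := mul_le_mul h2 h3 (abs_nonneg _) (by positivity)
      linarith) hxy
  rw [one_mul, ← hw] at hmain
  have hle : w ^ ((r ^ 2 + 1) * (eM r (kapG r d r) + 1)) ≤ w ^ (eR r d) :=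
    pow_le_pow_right₀ (by linarith) (numB hr hd)
  have : M ≤ w ^ (eR r d) := by
    rw [hM]
    exact max_le (hmain.1.trans hle) (hmain.2.trans hle)
  linarith

/-- The bound for the second curve. -/
theorem repel2 {r d : ℕ} (hr : 3 ≤ r) (hd : 3 ≤ d) (F1 : MvPolynomial (Fin 2) ℤ)
    (hF1 : r = F1.totalDegree)
    (hirr1 : Irreducible (MvPolynomial.map (Int.castRingHom ℚ) F1))
    (hsq1 : Squarefree (MvPolynomial.map (Int.castRingHom ℚ)
        (MvPolynomial.homogeneousComponent r F1)))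
    (x1 y1 : ℤ) (hxy1 : MvPolynomial.eval ![x1, y1] F1 = 0) (m : ℕ)
    (hm : m = max x1.natAbs y1.natAbs)
    (hbig : ((r + 1) * len F1) ^ (eR r d) < m) :
    ∃ t₁ : ℝ, MvPolynomial.aeval ![1, t₁] (MvPolynomial.homogeneousComponent r F1) = 0 ∧
      Module.finrank ℚ ℚ⟮t₁⟯ = r ∧ (∀ F : MvPolynomial (Fin 2) ℤ, d = F.totalDegree →
        Irreducible (MvPolynomial.map (Int.castRingHom ℚ) F) →
        Squarefree (MvPolynomial.map (Int.castRingHom ℚ)
          (MvPolynomial.homogeneousComponent d F)) →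
        (∀ t : ℝ, MvPolynomial.aeval ![1, t] (MvPolynomial.homogeneousComponent d F) = 0 →
          Module.finrank ℚ ℚ⟮t⟯ = d → 3 * Module.finrank ℚ ↥(ℚ⟮t₁⟯ ⊔ ℚ⟮t⟯) ≤ r * d) →
        ∀ x y : ℤ, MvPolynomial.eval ![x, y] F = 0 →
          x.natAbs ≤ (m * ((d + 1) * len F)) ^ (eR r d) ∧
          y.natAbs ≤ (m * ((d + 1) * len F)) ^ (eR r d)) := by
  have hmR : (m : ℝ) = max |(x1 : ℝ)| |(y1 : ℝ)| := by
    rw [hm]
    push_cast
    rw [Nat.cast_natAbs, Nat.cast_natAbs]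
    push_cast
    rfl
  have hbigR : ((((r + 1) * len F1 : ℕ) : ℝ)) ^ (eR r d) < (m : ℝ) := by exact_mod_cast hbig
  obtain ⟨t₁, h1, h2, h3⟩ := repel hr hd F1 hF1 hirr1 hsq1 x1 y1 hxy1 m hmR hbigR
  refine ⟨t₁, h1, h2, ?_⟩
  intro F hF hirr hsq hS x y hxy
  have hm1 : 1 ≤ m := by omega
  have hm1R : (1 : ℝ) ≤ m := by exact_mod_cast hm1
  have hK1 : 1 ≤ 2 * kapG r d r := by
    have := two_le_kapG r d r (by omega) (by omega)
    omega
  have hres := main1G hd (one_le_pow₀ hm1R (n := 8 * r + 4)) hK1 F hF hirr hsq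
    (fun t ht hfin => h3 ℚ⟮t⟯ (hS t ht hfin)) x y hxy
  have hF0 : F ≠ 0 := by
    rintro rfl
    simp at hF
    omega
  have hlen : 1 ≤ len F := len_pos hF0
  obtain ⟨w, hw⟩ : ∃ w : ℕ, w = (d + 1) * len F := ⟨_, rfl⟩
  have hw1 : 1 ≤ w := by rw [hw]; exact Nat.mul_pos (by omega) hlen
  have hw1R : (1 : ℝ) ≤ w := by exact_mod_cast hw1
  rw [← hw] at hres ⊢
  have hle : ((m : ℝ) ^ (8 * r + 4) * (w : ℝ)) ^ ((d ^ 2 + 1) * (eM d (2 * kapG r d r) + 1))
      ≤ ((m : ℝ) * w) ^ (eR r d) := by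
    have e1 : (m : ℝ) ^ (8 * r + 4) * (w : ℝ) ≤ ((m : ℝ) * w) ^ (8 * r + 4) := by
      rw [mul_pow]
      apply mul_le_mul_of_nonneg_left _ (by positivity)
      exact le_self_pow₀ hw1R (by omega)
    refine (pow_le_pow_left₀ (by positivity) e1 _).trans ?_
    rw [← pow_mul]
    exact pow_le_pow_right₀ (one_le_mul_of_one_le_of_one_le hm1R hw1R) (numA hr hd)
  constructor
  · have := hres.1.trans hle
    have h4 : ((x.natAbs : ℕ) : ℝ) ≤ (((m * w) ^ (eR r d) : ℕ) : ℝ) := by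
      rw [Nat.cast_natAbs]
      push_cast
      exact this
    exact_mod_cast h4
  · have := hres.2.trans hle
    have h4 : ((y.natAbs : ℕ) : ℝ) ≤ (((m * w) ^ (eR r d) : ℕ) : ℝ) := by
      rw [Nat.cast_natAbs]
      push_cast
      exact this
    exact_mod_cast h4

end Pool.Agent.W257
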