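import Pool.Agent.W257.R3

/-!
One constant, and computable bounds, for all curves whose slope fields meet a given number field.
-/

open Polynomial Finset NumberField IntermediateField

namespace Pool.Agent.W257

open Pool.Agent.H322R2

/-- one constant for all fields of degree `d` that contain `k` -/
theorem class_const (k : IntermediateField ℚ ℝ) (hk : 3 ≤ Module.finrank ℚ k) {d : ℕ}
    (hd : 3 ≤ d) : ∃ c : ℝ, 1 ≤ c ∧ ∀ L : IntermediateField ℚ ℝ, k ≤ L →
      Module.finrank ℚ L = d → EffG d (2 * kapG d d d) c L := by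
  by_cases h : ∃ L1 : IntermediateField ℚ ℝ, k ≤ L1 ∧ ∃ (_ : NumberField L1),
      Module.finrank ℚ L1 = d ∧ ∃ (G : ℤ[X][X]) (H : ℝ) (α : 𝓞 L1) (a b : ℤ),
      ℚ⟮rE L1 (algebraMap L1 ℝ) α⟯ = L1 ∧
      Pt (hs L1) (rE L1 (algebraMap L1 ℝ)) d G H α a b ∧ (bB d H) ^ (kapG d d d) ≤ |(a : ℝ)|
  · obtain ⟨L1, hL1, hnf, hfin1, G, H, α, a, b, hgen, P, ha⟩ := h
    refine ⟨max 1 (cPt d d a), le_max_left _ _, ?_⟩
    intro L hL hfin
    have hfd : FiniteDimensional ℚ L := Module.finite_of_finrank_pos (by omega)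
    have hfd1 : FiniteDimensional ℚ L1 := Module.finite_of_finrank_pos (by omega)
    have hdeg := Pool.Agent.W571.ESG.main_fld k L1 L hL1 hL hfd1 hfd
    have h3 : 3 * Module.finrank ℚ ↥(L1 ⊔ L) ≤ d * d := by
      rw [hfin, hfin1] at hdeg
      calc 3 * Module.finrank ℚ ↥(L1 ⊔ L) ≤ Module.finrank ℚ k * Module.finrank ℚ ↥(L1 ⊔ L) :=
            Nat.mul_le_mul_right _ hk
        _ = Module.finrank ℚ ↥(L1 ⊔ L) * Module.finrank ℚ k := mul_comm _ _
        _ ≤ d * d := hdeg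
    refine EffG.mono' ?_ (le_max_right _ _) (anchor_pt hd hd hfin1 hgen P ha L h3)
    unfold cPt
    positivity
  · push Not at h
    refine ⟨1, le_refl _, ?_⟩
    intro L hL hfin hnf hfin' G H α a b hα P
    have h1 := h L hL hnf hfin' G H α a b hα P
    have hH := P.hH
    have hbB : 1 ≤ bB d H := one_le_pow₀ (by linarith)
    rw [one_mul]
    refine h1.le.trans (pow_le_pow_right₀ hbB (by omega))

/-- One constant for all curves of bounded degree whose slope fields meet `K` in degree `≥ 3`. -/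
theorem class_main (K : IntermediateField ℚ ℝ) (hK : FiniteDimensional ℚ K) (D : ℕ) :
    ∃ c : ℕ, 1 ≤ c ∧ ∀ F : MvPolynomial (Fin 2) ℤ, 3 ≤ F.totalDegree → F.totalDegree ≤ D →
      Irreducible (MvPolynomial.map (Int.castRingHom ℚ) F) →
      Squarefree (MvPolynomial.map (Int.castRingHom ℚ)
        (MvPolynomial.homogeneousComponent F.totalDegree F)) →
      (∀ t : ℝ, MvPolynomial.aeval ![1, t]
          (MvPolynomial.homogeneousComponent F.totalDegree F) = 0 →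
        Module.finrank ℚ ℚ⟮t⟯ = F.totalDegree → 3 ≤ Module.finrank ℚ ↥(ℚ⟮t⟯ ⊓ K)) →
      ∀ x y : ℤ, MvPolynomial.eval ![x, y] F = 0 →
        x.natAbs ≤ (c * ((F.totalDegree + 1) * len F)) ^ (eR D D) ∧
        y.natAbs ≤ (c * ((F.totalDegree + 1) * len F)) ^ (eR D D) := by
  have h : ∀ (k : IntermediateField ℚ ℝ) (d : ℕ), ∃ c : ℝ, 1 ≤ c ∧ (3 ≤ Module.finrank ℚ k →
      3 ≤ d → ∀ L : IntermediateField ℚ ℝ, k ≤ L →
      Module.finrank ℚ L = d → EffG d (2 * kapG d d d) c L) := by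
    intro k d
    by_cases h1 : 3 ≤ Module.finrank ℚ k ∧ 3 ≤ d
    · obtain ⟨c, hc, hc2⟩ := class_const k h1.1 h1.2
      exact ⟨c, hc, fun _ _ => hc2⟩
    · exact ⟨1, le_refl _, fun h2 h3 => absurd ⟨h2, h3⟩ h1⟩
  choose c hc1 hc using h
  obtain ⟨C, hC⟩ := exists_cK (fun k => ∑ d ∈ range (D + 1), ⌈c k d⌉₊) K hK
  have hCc : ∀ (k : IntermediateField ℚ ℝ) (d : ℕ), k ≤ K → d ≤ D → c k d ≤ C := by
    intro k d hk hd
    have h1 : ⌈c k d⌉₊ ≤ ∑ d ∈ range (D + 1), ⌈c k d⌉₊ :=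
      Finset.single_le_sum (f := fun d => ⌈c k d⌉₊) (fun _ _ => Nat.zero_le _)
        (Finset.mem_range.2 (by omega))
    have h2 : ⌈c k d⌉₊ ≤ C := h1.trans (hC k hk)
    exact (Nat.le_ceil _).trans (by exact_mod_cast h2)
  have hC1 : 1 ≤ C := by
    have h1 := (hc1 ⊥ 0).trans (hCc ⊥ 0 bot_le (Nat.zero_le _))
    exact_mod_cast h1
  refine ⟨C, hC1, ?_⟩
  intro F hd hdD hirr hsq hS x y hxy
  obtain ⟨d, hdd⟩ : ∃ d, d = F.totalDegree := ⟨_, rfl⟩
  rw [← hdd] at hd hdD hsq hS ⊢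
  have hK1 : 1 ≤ 2 * kapG d d d := by
    have := two_le_kapG d d d (by omega) (by omega)
    omega
  have hC1R : (1 : ℝ) ≤ C := by exact_mod_cast hC1
  have hres := main1G hd hC1R hK1 F hdd hirr hsq (by
    intro t ht hfin
    have h1 := hS t ht hfin
    have h2 := hc (ℚ⟮t⟯ ⊓ K) d h1 hd ℚ⟮t⟯ inf_le_left hfin
    exact EffG.mono' (le_trans zero_le_one (hc1 _ _)) (hCc _ d inf_le_right hdD) h2) x y hxy
  have hF0 : F ≠ 0 := by
    rintro rfl
    simp at hdd
    omega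
  have hlen : 1 ≤ len F := len_pos hF0
  obtain ⟨w, hw⟩ : ∃ w : ℕ, w = (d + 1) * len F := ⟨_, rfl⟩
  have hw1 : 1 ≤ w := by rw [hw]; exact Nat.mul_pos (by omega) hlen
  have hw1R : (1 : ℝ) ≤ w := by exact_mod_cast hw1
  rw [← hw] at hres ⊢
  have hexp : (d ^ 2 + 1) * (eM d (2 * kapG d d d) + 1) ≤ eR D D := by
    refine le_trans ?_ ((numA hd hd).trans ?_)
    · exact Nat.le_mul_of_pos_left _ (by omega)
    · unfold eR
      have h1 : (2 * d) ^ (6 * d + 9) ≤ (2 * D) ^ (6 * D + 9) :=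
        (Nat.pow_le_pow_left (by omega) _).trans (Nat.pow_le_pow_right (by omega) (by omega))
      have h2 : (2 * d) ^ 10 ≤ (2 * D) ^ 10 := Nat.pow_le_pow_left (by omega) _
      exact Nat.mul_le_mul (Nat.mul_le_mul_left _ h2) h1
  have hle : ((C : ℝ) * (w : ℝ)) ^ ((d ^ 2 + 1) * (eM d (2 * kapG d d d) + 1))
      ≤ ((C : ℝ) * w) ^ (eR D D) :=
    pow_le_pow_right₀ (one_le_mul_of_one_le_of_one_le hC1R hw1R) hexp
  constructor
  · have := hres.1.trans hle
    have h4 : ((x.natAbs : ℕ) : ℝ) ≤ (((C * w) ^ (eR D D) : ℕ) : ℝ) := by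
      rw [Nat.cast_natAbs]
      push_cast
      exact this
    exact_mod_cast h4
  · have := hres.2.trans hle
    have h4 : ((y.natAbs : ℕ) : ℝ) ≤ (((C * w) ^ (eR D D) : ℕ) : ℝ) := by
      rw [Nat.cast_natAbs]
      push_cast
      exact this
    exact_mod_cast h4

/-- the computable bound -/
def bLD (D c : ℕ) (L : List (ℕ × ℕ × ℤ)) : ℕ := (c * ((dL L + 1) * sL L)) ^ (eR D D)

lemma bLD_computable (D c : ℕ) : Computable (bLD D c) := by
  apply Primrec.to_comp
  have hd : Primrec dL := by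
    apply sum_primrec
    exact Primrec.nat_add.comp Primrec.fst (Primrec.fst.comp Primrec.snd)
  have hs : Primrec sL := by
    apply sum_primrec
    exact natAbs_primrec.comp (Primrec.snd.comp Primrec.snd)
  exact pow_primrec.comp (Primrec.nat_mul.comp (Primrec.const c)
    (Primrec.nat_mul.comp (Primrec.succ.comp hd) hs)) (Primrec.const _)

theorem class_comp (K : IntermediateField ℚ ℝ) (hK : FiniteDimensional ℚ K) (D : ℕ) :
    ∃ B : List (ℕ × ℕ × ℤ) → ℕ, Computable B ∧ ∀ L : List (ℕ × ℕ × ℤ),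
      Irreducible (MvPolynomial.map (Int.castRingHom ℚ) (polyL L)) → 3 ≤ (polyL L).totalDegree →
      (polyL L).totalDegree ≤ D →
      Squarefree (MvPolynomial.map (Int.castRingHom ℚ)
        (MvPolynomial.homogeneousComponent (polyL L).totalDegree (polyL L))) →
      (∀ t : ℝ, MvPolynomial.aeval ![1, t]
          (MvPolynomial.homogeneousComponent (polyL L).totalDegree (polyL L)) = 0 →
        Module.finrank ℚ ℚ⟮t⟯ = (polyL L).totalDegree →
        3 ≤ Module.finrank ℚ ↥(ℚ⟮t⟯ ⊓ K)) →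
      ∀ x y : ℤ, (L.map (fun t => t.2.2 * x ^ t.1 * y ^ t.2.1)).sum = 0 →
        x.natAbs ≤ B L ∧ y.natAbs ≤ B L := by
  obtain ⟨c, hc1, hc⟩ := class_main K hK D
  refine ⟨bLD D c, bLD_computable D c, ?_⟩
  intro L hirr hd hdD hsq hS x y hxy
  rw [← eval_polyL] at hxy
  have hF0 : polyL L ≠ 0 := by
    intro h0
    rw [h0] at hd
    simp at hd
  have hdl := totalDegree_polyL L
  have hsl := len_polyL L
  obtain ⟨h1, h2⟩ := hc (polyL L) hd hdD hirr hsq hS x y hxy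
  have h3 : (c * (((polyL L).totalDegree + 1) * len (polyL L))) ^ (eR D D) ≤ bLD D c L := by
    unfold bLD
    apply Nat.pow_le_pow_left
    exact Nat.mul_le_mul_left _ (Nat.mul_le_mul (by omega) hsl)
  exact ⟨h1.trans h3, h2.trans h3⟩

end Pool.Agent.W257
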