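import Pool.Agent.W257.L6
import Pool.Agent.W257.LStm3

/-!
A height inequality for integral points on `H(x, y, z) = R(x, y, z)`: algebra.
-/

open Polynomial Finset

namespace Pool.Agent.W257

open Pool.Agent.H322R2

/-- homogeneous polynomials and scaling -/
lemma aeval_scale3 {A : Type*} [CommRing A] [Algebra ℤ A] {m : ℕ} {φ : MvPolynomial (Fin 3) ℤ}
    (hφ : φ.IsHomogeneous m) (c x y z : A) :
    MvPolynomial.aeval ![c * x, c * y, c * z] φ = c ^ m * MvPolynomial.aeval ![x, y, z] φ := by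
  rw [MvPolynomial.aeval_def, MvPolynomial.aeval_def, MvPolynomial.eval₂_eq',
    MvPolynomial.eval₂_eq', Finset.mul_sum]
  apply Finset.sum_congr rfl
  intro n hn
  rw [Fin.prod_univ_three, Fin.prod_univ_three]
  simp only [Matrix.cons_val_zero, Matrix.cons_val_one, Matrix.cons_val]
  have h1 : n 0 + n 1 + n 2 = m := by
    have h5 := hφ (MvPolynomial.mem_support_iff.1 hn)
    have h6 : n.degree = m := by
      rw [Finsupp.degree_eq_weight_one]
      exact h5
    rw [← h6, Finsupp.degree_eq_sum, Fin.sum_univ_three]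
  rw [← h1, pow_add, pow_add]
  ring

/-- the substitution `y ↦ b y` -/
noncomputable def sb1 (b : ℤ) (W : MvPolynomial (Fin 3) ℤ) : MvPolynomial (Fin 3) ℤ :=
  MvPolynomial.aeval ![MvPolynomial.X 0, MvPolynomial.C b * MvPolynomial.X 1, MvPolynomial.X 2] W

lemma eval_sb1 (b : ℤ) (W : MvPolynomial (Fin 3) ℤ) (x y z : ℤ) :
    MvPolynomial.eval ![x, y, z] (sb1 b W) = MvPolynomial.eval ![x, b * y, z] W := by
  have : (MvPolynomial.eval ![x, y, z]).comp (MvPolynomial.aeval ![MvPolynomial.X 0,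
      MvPolynomial.C b * MvPolynomial.X 1, MvPolynomial.X 2] :
      MvPolynomial (Fin 3) ℤ →ₐ[ℤ] MvPolynomial (Fin 3) ℤ).toRingHom
      = MvPolynomial.eval ![x, b * y, z] := by
    apply MvPolynomial.ringHom_ext
    · intro r
      simp
    · intro i
      fin_cases i <;> simp
  exact congrArg (fun g : MvPolynomial (Fin 3) ℤ →+* ℤ => g W) this

lemma sb1_isHom {m : ℕ} (b : ℤ) {H : MvPolynomial (Fin 3) ℤ} (hH : H.IsHomogeneous m) :
    (sb1 b H).IsHomogeneous m := by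
  have := hH.aeval (m := m) (n := 1)
    (![MvPolynomial.X 0, MvPolynomial.C b * MvPolynomial.X 1, MvPolynomial.X 2] :
      Fin 3 → MvPolynomial (Fin 3) ℤ) (by
      intro i
      fin_cases i
      · exact MvPolynomial.isHomogeneous_X _ _
      · have := (MvPolynomial.isHomogeneous_C (Fin 3) b).mul
          (MvPolynomial.isHomogeneous_X ℤ (1 : Fin 3))
        simpa using this
      · exact MvPolynomial.isHomogeneous_X _ _)
  rw [one_mul] at this
  exact this

lemma sb1_terms (b : ℤ) (W : MvPolynomial (Fin 3) ℤ) : sb1 b W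
    = ∑ n ∈ W.support, MvPolynomial.monomial n (W.coeff n * b ^ n 1) := by
  unfold sb1
  rw [MvPolynomial.aeval_def, MvPolynomial.eval₂_eq']
  apply Finset.sum_congr rfl
  intro n _
  rw [Fin.prod_univ_three, MvPolynomial.monomial_eq, Finsupp.prod_fintype _ _ (by simp),
    Fin.prod_univ_three]
  simp only [Matrix.cons_val_zero, Matrix.cons_val_one, Matrix.cons_val, MvPolynomial.algebraMap_eq,
    map_mul, map_pow]
  ring

lemma coeff_sb1 (b : ℤ) (W : MvPolynomial (Fin 3) ℤ) (n : Fin 3 →₀ ℕ) :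
    (sb1 b W).coeff n = W.coeff n * b ^ n 1 := by
  classical
  rw [sb1_terms, MvPolynomial.coeff_sum]
  simp_rw [MvPolynomial.coeff_monomial]
  rw [Finset.sum_ite_eq']
  split_ifs with h
  · rfl
  · rw [MvPolynomial.notMem_support_iff.1 h, zero_mul]

lemma sb1_support (b : ℤ) (W : MvPolynomial (Fin 3) ℤ) : (sb1 b W).support ⊆ W.support := by
  intro n hn
  rw [MvPolynomial.mem_support_iff, coeff_sb1] at hn
  rw [MvPolynomial.mem_support_iff]
  exact left_ne_zero_of_mul hn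

lemma sb1_deg (b : ℤ) (W : MvPolynomial (Fin 3) ℤ) : (sb1 b W).totalDegree ≤ W.totalDegree :=
  MvPolynomial.totalDegree_le_of_support_subset (sb1_support b W)

lemma len3_sb1 {m : ℕ} {b : ℤ} (hb : b ≠ 0) {W : MvPolynomial (Fin 3) ℤ}
    (hW : W.totalDegree ≤ m) : len3 (sb1 b W) ≤ b.natAbs ^ m * len3 W := by
  have hb1 : 1 ≤ b.natAbs := by omega
  unfold len3
  rw [Finset.mul_sum]
  refine (Finset.sum_le_sum_of_subset (sb1_support b W)).trans ?_
  apply Finset.sum_le_sum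
  intro n hn
  rw [coeff_sb1, Int.natAbs_mul, Int.natAbs_pow, mul_comm]
  apply Nat.mul_le_mul_right
  apply Nat.pow_le_pow_right hb1
  have h3 := MvPolynomial.le_totalDegree hn
  have h4 : (n.sum fun _ e => e) = n 0 + n 1 + n 2 := by
    rw [Finsupp.sum_fintype _ _ (by simp), Fin.sum_univ_three]
  omega

lemma len_deh_le (H : MvPolynomial (Fin 3) ℤ) : len (deh H) ≤ len3 H := by
  unfold deh
  rw [MvPolynomial.aeval_def, MvPolynomial.eval₂_eq']
  refine (len_sum_le _ _).trans ?_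
  unfold len3
  apply Finset.sum_le_sum
  intro n hn
  rw [Fin.prod_univ_three]
  simp only [Matrix.cons_val_zero, Matrix.cons_val_one, Matrix.cons_val, one_pow, mul_one]
  refine (len_mul_le _ _).trans ?_
  calc _ ≤ (H.coeff n).natAbs * 1 := by
        apply Nat.mul_le_mul
        · rw [MvPolynomial.algebraMap_eq]; exact len_C _
        · refine (len_mul_le _ _).trans ?_
          calc _ ≤ 1 ^ n 0 * 1 ^ n 2 :=
                Nat.mul_le_mul (len_pow_le _ _ _ len_X0) (len_pow_le _ _ _ len_X1)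
            _ = 1 := by simp
    _ = _ := mul_one _

/-- the restriction to `y = 0` does not change -/
lemma lin0_sb1 (b : ℤ) (H : MvPolynomial (Fin 3) ℤ) :
    MvPolynomial.aeval ![MvPolynomial.X 0, 0, MvPolynomial.X 1] (sb1 b H)
      = (MvPolynomial.aeval ![MvPolynomial.X 0, 0, MvPolynomial.X 1] H :
        MvPolynomial (Fin 2) ℤ) := by
  have : (MvPolynomial.aeval ![MvPolynomial.X 0, 0, MvPolynomial.X 1] :
      MvPolynomial (Fin 3) ℤ →ₐ[ℤ] MvPolynomial (Fin 2) ℤ).comp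
      (MvPolynomial.aeval ![MvPolynomial.X 0, MvPolynomial.C b * MvPolynomial.X 1,
        MvPolynomial.X 2] : MvPolynomial (Fin 3) ℤ →ₐ[ℤ] MvPolynomial (Fin 3) ℤ)
      = MvPolynomial.aeval ![MvPolynomial.X 0, 0, MvPolynomial.X 1] := by
    apply MvPolynomial.algHom_ext
    intro i
    fin_cases i <;> simp
  exact congrArg (fun g : MvPolynomial (Fin 3) ℤ →ₐ[ℤ] MvPolynomial (Fin 2) ℤ => g H) this

/-- `H(Y, b, a)` is irreducible if `H(Y, 1, a/b)` is -/
lemma irr_sb1 {m : ℕ} {H : MvPolynomial (Fin 3) ℤ} (hH : H.IsHomogeneous m) {a b : ℤ}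
    (hb : b ≠ 0)
    (h : Irreducible (MvPolynomial.aeval ![(X : ℚ[X]), C ((a : ℚ) / (b : ℚ))] (deh H))) :
    Irreducible (MvPolynomial.aeval ![(X : ℚ[X]), C (a : ℚ)] (deh (sb1 b H))) := by
  have hbq : (b : ℚ) ≠ 0 := by exact_mod_cast hb
  have h1 : MvPolynomial.aeval ![(X : ℚ[X]), C ((a : ℚ) / (b : ℚ))] (deh H)
      = MvPolynomial.aeval ![(X : ℚ[X]), 1, C ((a : ℚ) / (b : ℚ))] H := by
    have : (MvPolynomial.aeval ![(X : ℚ[X]), C ((a : ℚ) / (b : ℚ))] :
        MvPolynomial (Fin 2) ℤ →ₐ[ℤ] ℚ[X]).comp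
        (MvPolynomial.aeval ![MvPolynomial.X 0, 1, MvPolynomial.X 1] :
          MvPolynomial (Fin 3) ℤ →ₐ[ℤ] MvPolynomial (Fin 2) ℤ)
        = MvPolynomial.aeval ![(X : ℚ[X]), 1, C ((a : ℚ) / (b : ℚ))] := by
      apply MvPolynomial.algHom_ext
      intro i
      fin_cases i <;> simp
    exact congrArg (fun g : MvPolynomial (Fin 3) ℤ →ₐ[ℤ] ℚ[X] => g H) this
  have h2 : MvPolynomial.aeval ![(X : ℚ[X]), C (a : ℚ)] (deh (sb1 b H))
      = MvPolynomial.aeval ![(X : ℚ[X]), C (b : ℚ), C (a : ℚ)] H := by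
    have : (MvPolynomial.aeval ![(X : ℚ[X]), C (a : ℚ)] :
        MvPolynomial (Fin 2) ℤ →ₐ[ℤ] ℚ[X]).comp
        ((MvPolynomial.aeval ![MvPolynomial.X 0, 1, MvPolynomial.X 1] :
          MvPolynomial (Fin 3) ℤ →ₐ[ℤ] MvPolynomial (Fin 2) ℤ).comp
        (MvPolynomial.aeval ![MvPolynomial.X 0, MvPolynomial.C b * MvPolynomial.X 1,
        MvPolynomial.X 2] : MvPolynomial (Fin 3) ℤ →ₐ[ℤ] MvPolynomial (Fin 3) ℤ))
        = MvPolynomial.aeval ![(X : ℚ[X]), C (b : ℚ), C (a : ℚ)] := by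
      apply MvPolynomial.algHom_ext
      intro i
      fin_cases i <;> simp
    exact congrArg (fun g : MvPolynomial (Fin 3) ℤ →ₐ[ℤ] ℚ[X] => g H) this
  rw [h1] at h
  rw [h2]
  -- the substitution `Y ↦ Y / b`
  have : Invertible ((b : ℚ)⁻¹) := invertibleOfNonzero (inv_ne_zero hbq)
  have h3 := (MulEquiv.irreducible_iff (algEquivCMulXAddC ((b : ℚ)⁻¹) 0)).2 h
  have h4 : (algEquivCMulXAddC ((b : ℚ)⁻¹) 0) (MvPolynomial.aeval
      ![(X : ℚ[X]), 1, C ((a : ℚ) / (b : ℚ))] H)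
      = MvPolynomial.aeval ![C ((b : ℚ)⁻¹) * X, 1, C ((a : ℚ) / (b : ℚ))] H := by
    have : ((algEquivCMulXAddC ((b : ℚ)⁻¹) 0 : ℚ[X] ≃ₐ[ℚ] ℚ[X]).toRingEquiv.toRingHom).comp
        ((MvPolynomial.aeval ![(X : ℚ[X]), 1, C ((a : ℚ) / (b : ℚ))] :
          MvPolynomial (Fin 3) ℤ →ₐ[ℤ] ℚ[X]).toRingHom)
        = (MvPolynomial.aeval ![C ((b : ℚ)⁻¹) * X, 1, C ((a : ℚ) / (b : ℚ))] :
          MvPolynomial (Fin 3) ℤ →ₐ[ℤ] ℚ[X]).toRingHom := by
      apply MvPolynomial.ringHom_ext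
      · intro r
        simp
      · intro i
        fin_cases i
        · simp [algEquivCMulXAddC_apply]
        · simp
        · simp [algEquivCMulXAddC_apply]
    exact congrArg (fun g : MvPolynomial (Fin 3) ℤ →+* ℚ[X] => g H) this
  rw [h4] at h3
  have h5 := aeval_scale3 hH (C (b : ℚ)) (C ((b : ℚ)⁻¹) * X) 1 (C ((a : ℚ) / (b : ℚ)))
  have e1 : (C (b : ℚ) * (C ((b : ℚ)⁻¹) * X) : ℚ[X]) = X := by
    rw [← mul_assoc, ← C_mul, mul_inv_cancel₀ hbq, C_1, one_mul]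
  have e2 : (C (b : ℚ) * C ((a : ℚ) / (b : ℚ)) : ℚ[X]) = C (a : ℚ) := by
    rw [← C_mul, mul_div_cancel₀ _ hbq]
  rw [e1, e2, mul_one] at h5
  rw [h5]
  have hu : IsUnit ((C (b : ℚ) : ℚ[X]) ^ m) := by
    apply IsUnit.pow
    exact isUnit_C.2 (isUnit_iff_ne_zero.2 hbq)
  exact (irreducible_isUnit_mul hu).2 h3

end Pool.Agent.W257
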