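import Pool.Agent.W257.V1

/-!
A height inequality for integral points on `H(x, y, z) = R(x, y, z)`: polynomial bounds.
-/

open Polynomial Finset

namespace Pool.Agent.W257

open Pool.Agent.H322R2

/-- Split case: if `y = b g`, `z = a g` with `|b|` small with respect to `|a|`, then `g` is
polynomially bounded. -/
theorem bound_split (hirr : S_irr2) (hdeh : S_deh) {m : ℕ} (hm : 3 ≤ m)
    {ρ : Fin m → ℤ} (hρ : Function.Injective ρ) {H R : MvPolynomial (Fin 3) ℤ}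
    (hH : H.IsHomogeneous m) (hHi : Irreducible (MvPolynomial.map (Int.castRingHom ℚ) H))
    (hH0 : MvPolynomial.aeval ![MvPolynomial.X 0, 0, MvPolynomial.X 1] H
      = ∏ i, (MvPolynomial.X 0 - MvPolynomial.C (ρ i) * MvPolynomial.X 1 : MvPolynomial (Fin 2) ℤ))
    (hR : R.totalDegree < m) :
    ∃ A M κ : ℕ, ∀ x a b g : ℤ, b ≠ 0 → A ≤ a.natAbs → b.natAbs ^ M ≤ a.natAbs →
      MvPolynomial.eval ![x, b * g, a * g] (H - R) = 0 → g.natAbs ≤ a.natAbs ^ κ := by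
  have hm1 : 1 ≤ m := by omega
  obtain ⟨hPd, hP, hPi⟩ := hdeh m ρ H hm1 hH hH0
  obtain ⟨A0, M0, hAM⟩ := hirr m ρ (deh H) hm1 hρ hPd hP (hPi hHi)
  obtain ⟨E, hE⟩ : ∃ E, E = 10 ^ 5 * (m + 1) ^ 2 * (2 * m) ^ (8 * m.factorial) := ⟨_, rfl⟩
  obtain ⟨W, hW⟩ : ∃ W, W = H - R := ⟨_, rfl⟩
  have hWd : W.totalDegree ≤ m := by
    rw [hW]
    exact (MvPolynomial.totalDegree_sub _ _).trans (max_le hH.totalDegree_le hR.le)
  refine ⟨max A0 (max ((2 * len3 H) ^ (2 * E)) (((m + 1) * len3 W) ^ 2)),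
    max M0 (2 * m * E + 2 * m), (m + 2) * kS m m, ?_⟩
  intro x a b g hb ha hba hxy
  have ha0 := (le_max_left _ _).trans ha
  have ha1 := ((le_max_left _ _).trans (le_max_right _ _)).trans ha
  have ha2 := ((le_max_right _ _).trans (le_max_right _ _)).trans ha
  have hb1 : 1 ≤ b.natAbs := by omega
  have hbM0 : b.natAbs ^ M0 ≤ a.natAbs := (Nat.pow_le_pow_right hb1 (le_max_left _ _)).trans hba
  have hbE : (b.natAbs ^ (m * E)) ^ 2 ≤ a.natAbs := by
    rw [← pow_mul]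
    refine (Nat.pow_le_pow_right hb1 ?_).trans hba
    refine le_trans ?_ (le_max_right _ _)
    nlinarith
  have hbm : (b.natAbs ^ m) ^ 2 ≤ a.natAbs := by
    rw [← pow_mul]
    refine (Nat.pow_le_pow_right hb1 ?_).trans hba
    refine le_trans ?_ (le_max_right _ _)
    nlinarith
  -- product of two numbers whose squares are at most `|a|`
  have hsq : ∀ p q n : ℕ, p ^ 2 ≤ n → q ^ 2 ≤ n → p * q ≤ n := by
    intro p q n h1 h2
    nlinarith [sq_nonneg ((p : ℤ) - q), Nat.le_total p q]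
  have hHb := sb1_isHom b hH
  have hRb : (sb1 b R).totalDegree < m := lt_of_le_of_lt (sb1_deg b R) hR
  have hH0b : MvPolynomial.aeval ![MvPolynomial.X 0, 0, MvPolynomial.X 1] (sb1 b H)
      = ∏ i, (MvPolynomial.X 0 - MvPolynomial.C (ρ i) * MvPolynomial.X 1 :
        MvPolynomial (Fin 2) ℤ) := by rw [lin0_sb1, hH0]
  obtain ⟨hPdb, hPb, -⟩ := hdeh m ρ (sb1 b H) hm1 hHb hH0b
  have hWb : sb1 b H - sb1 b R = sb1 b W := by
    rw [hW]
    exact (map_sub _ _ _).symm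
  have hirrb := irr_sb1 hH hb (hAM a b hb ha0 hbM0)
  apply fib_bound hHb a hRb hm hρ hPdb hPb hirrb _ _ x g
  · rw [hWb, eval_sb1, hW]; exact hxy
  · unfold thrS
    rw [← hE]
    calc (2 * len (deh (sb1 b H))) ^ E ≤ (2 * (b.natAbs ^ m * len3 H)) ^ E := by
          apply Nat.pow_le_pow_left
          apply Nat.mul_le_mul_left
          exact (len_deh_le _).trans (len3_sb1 hb hH.totalDegree_le)
      _ = (2 * len3 H) ^ E * b.natAbs ^ (m * E) := by
          rw [pow_mul]; ring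
      _ ≤ a.natAbs := by
          apply hsq
          · rw [← pow_mul, mul_comm E 2]; exact ha1
          · exact hbE
  · rw [hWb]
    calc (m + 1) * len3 (sb1 b W) ≤ (m + 1) * (b.natAbs ^ m * len3 W) :=
          Nat.mul_le_mul_left _ (len3_sb1 hb hWd)
      _ = ((m + 1) * len3 W) * b.natAbs ^ m := by ring
      _ ≤ a.natAbs := hsq _ _ _ ha2 hbm

/-- Pure case, `a > 0` -/
lemma bound_pos_b {m : ℕ} (hm : 3 ≤ m) {r : ℤ} (hr : r ≠ 0) {R : MvPolynomial (Fin 3) ℤ}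
    (hR : R.totalDegree < m) : ∃ A M κ : ℕ, ∀ (x b g : ℤ) (a : ℕ), b ≠ 0 → A ≤ a →
      b.natAbs ^ M ≤ a →
      MvPolynomial.eval ![x, b * g, (a : ℤ) * g] (Hp m r - R) = 0 → g.natAbs ≤ a ^ κ := by
  obtain ⟨E, hE⟩ : ∃ E, E = 10 ^ 7 * 36 ^ m * (m + 1) ^ 5 := ⟨_, rfl⟩
  obtain ⟨B0, hB0⟩ : ∃ B0, B0 = (2 * m ^ 3) ^ (m + 1) * (2 + r.natAbs) := ⟨_, rfl⟩
  refine ⟨max (B0 ^ (2 * E)) (((m + 1) * (1 + len3 R)) ^ 2), 2 * m * E + 2 * m,
    (2 * m + 3) * kF m, ?_⟩
  intro x b g a hb ha hba hxy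
  have ha1 := (le_max_left _ _).trans ha
  have ha2 := (le_max_right _ _).trans ha
  have hb1 : 1 ≤ b.natAbs := by omega
  have hbE : (b.natAbs ^ (m * E)) ^ 2 ≤ a := by
    rw [← pow_mul]
    refine (Nat.pow_le_pow_right hb1 ?_).trans hba
    nlinarith
  have hbm : (b.natAbs ^ m) ^ 2 ≤ a := by
    rw [← pow_mul]
    refine (Nat.pow_le_pow_right hb1 ?_).trans hba
    nlinarith
  have hsq : ∀ p q n : ℕ, p ^ 2 ≤ n → q ^ 2 ≤ n → p * q ≤ n := by
    intro p q n h1 h2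
    nlinarith [sq_nonneg ((p : ℤ) - q), Nat.le_total p q]
  have hHb : sb1 b (Hp m r) = Hp m (r * b ^ m) := by
    unfold sb1 Hp
    simp only [map_sub, map_mul, map_pow, MvPolynomial.aeval_X, MvPolynomial.aeval_C,
      Matrix.cons_val_zero, Matrix.cons_val_one, Matrix.cons_val, MvPolynomial.algebraMap_eq]
    ring
  have hr' : r * b ^ m ≠ 0 := mul_ne_zero hr (pow_ne_zero _ hb)
  have hRb : (sb1 b R).totalDegree < m := lt_of_le_of_lt (sb1_deg b R) hR
  have hWb : Hp m (r * b ^ m) - sb1 b R = sb1 b (Hp m r - R) := by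
    rw [← hHb]
    exact (map_sub _ _ _).symm
  apply bound_pos hm hr' hRb _ _ x g
  · rw [hWb, eval_sb1]; exact hxy
  · unfold thrA
    rw [← hE]
    calc ((2 * m ^ 3) ^ (m + 1) * (1 + (1 + (r * b ^ m).natAbs))) ^ E
        ≤ (B0 * b.natAbs ^ m) ^ E := by
          apply Nat.pow_le_pow_left
          rw [hB0, Int.natAbs_mul, Int.natAbs_pow, mul_assoc]
          apply Nat.mul_le_mul_left
          have h1 : 1 ≤ b.natAbs ^ m := Nat.one_le_pow _ _ hb1
          nlinarith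
      _ = B0 ^ E * b.natAbs ^ (m * E) := by rw [mul_pow, ← pow_mul]
      _ ≤ a := by
          apply hsq
          · rw [← pow_mul, mul_comm E 2]; exact ha1
          · exact hbE
  · calc (m + 1) * (1 + len3 (sb1 b R)) ≤ (m + 1) * (b.natAbs ^ m * (1 + len3 R)) := by
          apply Nat.mul_le_mul_left
          have h1 := len3_sb1 hb (m := m) hR.le
          have h2 : 1 ≤ b.natAbs ^ m := Nat.one_le_pow _ _ hb1
          rw [mul_add, mul_one]
          omega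
      _ = ((m + 1) * (1 + len3 R)) * b.natAbs ^ m := by ring
      _ ≤ a := hsq _ _ _ ha2 hbm

/-- Pure case -/
theorem bound_pure_b {m : ℕ} (hm : 3 ≤ m) {r : ℤ} (hr : r ≠ 0) {R : MvPolynomial (Fin 3) ℤ}
    (hR : R.totalDegree < m) : ∃ A M κ : ℕ, ∀ x a b g : ℤ, b ≠ 0 → A ≤ a.natAbs →
      b.natAbs ^ M ≤ a.natAbs →
      MvPolynomial.eval ![x, b * g, a * g] (Hp m r - R) = 0 → g.natAbs ≤ a.natAbs ^ κ := by
  obtain ⟨A, M, κ, h⟩ := bound_pos_b hm hr hR
  refine ⟨A, M, κ, ?_⟩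
  intro x a b g hb ha hba hxy
  rcases le_or_gt 0 a with h0 | h0
  · have e1 : a = (a.natAbs : ℤ) := by omega
    apply h x b g a.natAbs hb ha hba
    rw [← e1]; exact hxy
  · have e1 : -a = (a.natAbs : ℤ) := by omega
    have := h x (-b) (-g) a.natAbs (neg_ne_zero.2 hb) ha (by rwa [Int.natAbs_neg]) (by
      rw [← e1]
      have e2 : -b * -g = b * g := by ring
      have e3 : -a * -g = a * g := by ring
      rw [e2, e3]
      exact hxy)
    rwa [Int.natAbs_neg] at this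

end Pool.Agent.W257
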