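import Pool.Agent.W257.V2

/-!
A height inequality for integral points on `H(x, y, z) = R(x, y, z)`: polynomials.
-/

open Polynomial Finset

namespace Pool.Agent.W257

open Pool.Agent.H322R2

/-- homogenisation in the third variable -/
noncomputable def hz {A : Type*} [CommRing A] (D : ℕ) (G : MvPolynomial (Fin 3) ℤ)
    (x y p q : A) : A :=
  ∑ n ∈ G.support, ((G.coeff n : ℤ) : A) * (x ^ n 0 * y ^ n 1 * p ^ n 2 * q ^ (D - n 2))

lemma hz_map {A B : Type*} [CommRing A] [CommRing B] (f : A →+* B) (D : ℕ)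
    (G : MvPolynomial (Fin 3) ℤ) (x y p q : A) :
    f (hz D G x y p q) = hz D G (f x) (f y) (f p) (f q) := by
  unfold hz
  rw [map_sum]
  apply Finset.sum_congr rfl
  intro n _
  simp only [map_mul, map_pow, map_intCast]

lemma hz_real {D : ℕ} {G : MvPolynomial (Fin 3) ℤ} (hG : G.degreeOf 2 ≤ D) (x y p : ℝ) {q : ℝ}
    (hq : q ≠ 0) : hz D G x y p q = q ^ D * MvPolynomial.aeval ![x, y, p / q] G := by
  unfold hz
  rw [MvPolynomial.aeval_def, MvPolynomial.eval₂_eq', Finset.mul_sum]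
  apply Finset.sum_congr rfl
  intro n hn
  rw [Fin.prod_univ_three]
  simp only [Matrix.cons_val_zero, Matrix.cons_val_one, Matrix.cons_val]
  have h1 : n 2 ≤ D := (MvPolynomial.monomial_le_degreeOf 2 hn).trans hG
  have h2 : q ^ D = q ^ (D - n 2) * q ^ n 2 := by rw [← pow_add]; congr 1; omega
  rw [h2, div_pow]
  have h3 : q ^ n 2 ≠ 0 := pow_ne_zero _ hq
  simp only [algebraMap_int_eq, eq_intCast]
  field_simp

/-- the polynomial `y^D G(x, y, z/y)` -/
noncomputable def Gt (D : ℕ) (G : MvPolynomial (Fin 3) ℤ) : MvPolynomial (Fin 3) ℤ :=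
  hz D G (MvPolynomial.X 0) (MvPolynomial.X 1) (MvPolynomial.X 2) (MvPolynomial.X 1)

lemma eval_Gt (D : ℕ) (G : MvPolynomial (Fin 3) ℤ) (x y z : ℤ) :
    MvPolynomial.eval ![x, y, z] (Gt D G) = hz D G x y z y := by
  unfold Gt
  rw [hz_map]
  simp

lemma Gt_ne_zero {D : ℕ} {G : MvPolynomial (Fin 3) ℤ} (hG : G.degreeOf 2 ≤ D) (h0 : G ≠ 0) :
    Gt D G ≠ 0 := by
  intro h
  have h1 : MvPolynomial.X 1 ^ D * G = 0 := by
    apply MvPolynomial.funext
    intro v
    have hv : v = ![v 0, v 1, v 2] := by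
      funext i
      fin_cases i <;> rfl
    rw [hv]
    have h2 := eval_Gt D G (v 0) (v 1) (v 2 * v 1)
    rw [h, map_zero] at h2
    rw [map_mul, map_pow, MvPolynomial.eval_X, map_zero, h2, MvPolynomial.eval_eq', hz,
      Finset.mul_sum]
    apply Finset.sum_congr rfl
    intro n hn
    rw [Fin.prod_univ_three]
    simp only [Matrix.cons_val_zero, Matrix.cons_val_one, Matrix.cons_val, Int.cast_id]
    have h3 : n 2 ≤ D := (MvPolynomial.monomial_le_degreeOf 2 hn).trans hG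
    have h4 : v 1 ^ D = v 1 ^ (D - n 2) * v 1 ^ n 2 := by rw [← pow_add]; congr 1; omega
    rw [h4]
    ring
  rcases mul_eq_zero.1 h1 with h2 | h2
  · exact pow_ne_zero _ (MvPolynomial.X_ne_zero _) h2
  · exact h0 h2

lemma Gt_degreeOf (D : ℕ) (G : MvPolynomial (Fin 3) ℤ) :
    (Gt D G).degreeOf 0 ≤ G.degreeOf 0 := by
  unfold Gt hz
  refine (MvPolynomial.degreeOf_sum_le _ _ _).trans ?_
  apply Finset.sup_le
  intro n hn
  have h1 := MvPolynomial.monomial_le_degreeOf 0 hn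
  refine (MvPolynomial.degreeOf_mul_le _ _ _).trans ?_
  have e0 : MvPolynomial.degreeOf 0 ((G.coeff n : ℤ) : MvPolynomial (Fin 3) ℤ) = 0 := by
    have : ((G.coeff n : ℤ) : MvPolynomial (Fin 3) ℤ) = MvPolynomial.C (G.coeff n) := by simp
    rw [this, MvPolynomial.degreeOf_C]
  rw [e0, zero_add]
  have key : ∀ (i : Fin 3) (k : ℕ), i ≠ 0 →
      MvPolynomial.degreeOf 0 ((MvPolynomial.X i : MvPolynomial (Fin 3) ℤ) ^ k) = 0 := by
    intro i k hi
    exact MvPolynomial.degreeOf_X_pow_of_ne k (Ne.symm hi)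
  have key0 : MvPolynomial.degreeOf 0 ((MvPolynomial.X 0 : MvPolynomial (Fin 3) ℤ) ^ n 0) = n 0 :=
    MvPolynomial.degreeOf_X_self_pow _ _
  have k1 := key 1 (n 1) (by decide)
  have k2 := key 2 (n 2) (by decide)
  have k3 := key 1 (D - n 2) (by decide)
  have m1 := MvPolynomial.degreeOf_mul_le 0 ((MvPolynomial.X 0 : MvPolynomial (Fin 3) ℤ) ^ n 0)
    ((MvPolynomial.X 1 : MvPolynomial (Fin 3) ℤ) ^ n 1)
  have m2 := MvPolynomial.degreeOf_mul_le 0 ((MvPolynomial.X 0 : MvPolynomial (Fin 3) ℤ) ^ n 0 *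
    (MvPolynomial.X 1 : MvPolynomial (Fin 3) ℤ) ^ n 1)
    ((MvPolynomial.X 2 : MvPolynomial (Fin 3) ℤ) ^ n 2)
  have m3 := MvPolynomial.degreeOf_mul_le 0 ((MvPolynomial.X 0 : MvPolynomial (Fin 3) ℤ) ^ n 0 *
    (MvPolynomial.X 1 : MvPolynomial (Fin 3) ℤ) ^ n 1 *
    (MvPolynomial.X 2 : MvPolynomial (Fin 3) ℤ) ^ n 2)
    ((MvPolynomial.X 1 : MvPolynomial (Fin 3) ℤ) ^ (D - n 2))
  omega

/-- the surface polynomial as a polynomial in `x` -/
noncomputable def Psi (W : MvPolynomial (Fin 3) ℤ) : (MvPolynomial (Fin 2) ℚ)[X] :=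
  MvPolynomial.finSuccEquiv ℚ 2 (MvPolynomial.map (Int.castRingHom ℚ) W)

lemma Psi_monic {W : MvPolynomial (Fin 3) ℤ} {m : ℕ} (hW : W.totalDegree ≤ m)
    (hc : W.coeff (Finsupp.single 0 m) = 1) : (Psi W).Monic ∧ (Psi W).natDegree = m := by
  have hdeg : ∀ n ∈ W.support, n 0 + n 1 + n 2 ≤ m := by
    intro n hn
    have h3 := MvPolynomial.le_totalDegree hn
    have h4 : (n.sum fun _ e => e) = n 0 + n 1 + n 2 := by
      rw [Finsupp.sum_fintype _ _ (by simp), Fin.sum_univ_three]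
    omega
  have h1 : (Psi W).natDegree ≤ m := by
    rw [Psi, MvPolynomial.natDegree_finSuccEquiv, MvPolynomial.degreeOf_eq_sup]
    apply Finset.sup_le
    intro n hn
    have := hdeg n (MvPolynomial.support_map_subset _ _ hn)
    omega
  have h2 : (Psi W).coeff m = 1 := by
    ext n
    rw [Psi, MvPolynomial.finSuccEquiv_coeff_coeff, MvPolynomial.coeff_map,
      MvPolynomial.coeff_one]
    split_ifs with h
    · subst h
      have : (Finsupp.cons m (0 : Fin 2 →₀ ℕ)) = Finsupp.single 0 m := by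
        ext i
        refine Fin.cases ?_ (fun j => ?_) i
        · simp
        · simp
      rw [this, hc]
      simp
    · by_contra hne
      apply h
      have h3 : Finsupp.cons m n ∈ W.support := by
        rw [MvPolynomial.mem_support_iff]
        intro h0
        rw [h0] at hne
        simp at hne
      have h4 := hdeg _ h3
      have e0 : (Finsupp.cons m n) 0 = m := Finsupp.cons_zero _ _
      have e1 : (Finsupp.cons m n) 1 = n 0 := Finsupp.cons_succ (0 : Fin 2) _ _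
      have e2 : (Finsupp.cons m n) 2 = n 1 := Finsupp.cons_succ (1 : Fin 2) _ _
      rw [e0, e1, e2] at h4
      ext i
      fin_cases i
      · simp; omega
      · simp; omega
  have hmon : (Psi W).Monic := monic_of_natDegree_le_of_coeff_eq_one m h1 h2
  refine ⟨hmon, le_antisymm h1 ?_⟩
  apply le_natDegree_of_ne_zero
  rw [h2]
  exact one_ne_zero

/-- specialisation `z = a y` -/
noncomputable def spz (a : ℚ) : (MvPolynomial (Fin 2) ℚ)[X] →+* MvPolynomial (Fin 2) ℚ :=
  eval₂RingHom (MvPolynomial.aeval ![MvPolynomial.X 1, MvPolynomial.C a * MvPolynomial.X 1] :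
    MvPolynomial (Fin 2) ℚ →ₐ[ℚ] MvPolynomial (Fin 2) ℚ).toRingHom (MvPolynomial.X 0)

lemma spz_Psi (W : MvPolynomial (Fin 3) ℤ) (a : ℤ) :
    spz (a : ℚ) (Psi W) = MvPolynomial.map (Int.castRingHom ℚ) (fib W a) := by
  have h1 : (spz (a : ℚ)).comp ((MvPolynomial.finSuccEquiv ℚ 2).toAlgHom.toRingHom.comp
      (MvPolynomial.map (Int.castRingHom ℚ)))
      = (MvPolynomial.map (Int.castRingHom ℚ)).comp (MvPolynomial.aeval ![MvPolynomial.X 0,
      MvPolynomial.X 1, MvPolynomial.C a * MvPolynomial.X 1] :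
      MvPolynomial (Fin 3) ℤ →ₐ[ℤ] MvPolynomial (Fin 2) ℤ).toRingHom := by
    apply MvPolynomial.ringHom_ext
    · intro r
      simp [spz]
    · intro i
      have e1 : MvPolynomial.finSuccEquiv ℚ 2 (MvPolynomial.X 1) = C (MvPolynomial.X 0) :=
        MvPolynomial.finSuccEquiv_X_succ (j := (0 : Fin 2))
      have e2 : MvPolynomial.finSuccEquiv ℚ 2 (MvPolynomial.X 2) = C (MvPolynomial.X 1) :=
        MvPolynomial.finSuccEquiv_X_succ (j := (1 : Fin 2))
      have e0 : MvPolynomial.finSuccEquiv ℚ 2 (MvPolynomial.X 0) = X :=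
        MvPolynomial.finSuccEquiv_X_zero
      fin_cases i
      · simp [spz, e0]
      · simp [spz, e1]
      · simp [spz, e2]
  exact congrArg (fun g : MvPolynomial (Fin 3) ℤ →+* MvPolynomial (Fin 2) ℚ => g W) h1

/-- further specialisation `y = 0` -/
noncomputable def spz2 : MvPolynomial (Fin 2) ℚ →+* ℚ :=
  (MvPolynomial.aeval ![0, 0] : MvPolynomial (Fin 2) ℚ →ₐ[ℚ] ℚ).toRingHom

lemma spz_spz2 (a : ℚ) (q : (MvPolynomial (Fin 2) ℚ)[X]) :
    MvPolynomial.aeval ![(X : ℚ[X]), 0] (spz a q) = q.map spz2 := by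
  have h1 : ((MvPolynomial.aeval ![(X : ℚ[X]), 0] :
      MvPolynomial (Fin 2) ℚ →ₐ[ℚ] ℚ[X]).toRingHom).comp (spz a) = mapRingHom spz2 := by
    apply Polynomial.ringHom_ext
    · intro r
      have h2 : ((((MvPolynomial.aeval ![(X : ℚ[X]), 0] :
        MvPolynomial (Fin 2) ℚ →ₐ[ℚ] ℚ[X]).toRingHom).comp (spz a)).comp C)
          = (mapRingHom spz2).comp C := by
        apply MvPolynomial.ringHom_ext
        · intro r
          simp [spz, spz2]
        · intro i
          fin_cases i <;> simp [spz, spz2]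
      exact congrArg (fun g : MvPolynomial (Fin 2) ℚ →+* ℚ[X] => g r) h2
    · simp [spz]
  exact congrArg (fun g : (MvPolynomial (Fin 2) ℚ)[X] →+* ℚ[X] => g q) h1

lemma spz_not_unit {a : ℚ} {q : (MvPolynomial (Fin 2) ℚ)[X]} (hq : q.Monic)
    (hd : 0 < q.natDegree) : ¬ IsUnit (spz a q) := by
  intro hu
  have h1 := hu.map (MvPolynomial.aeval ![(X : ℚ[X]), 0] :
      MvPolynomial (Fin 2) ℚ →ₐ[ℚ] ℚ[X])
  rw [spz_spz2] at h1
  have h2 := natDegree_eq_zero_of_isUnit h1
  rw [hq.natDegree_map] at h2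
  omega

/-- irreducibility of the surface -/
theorem W_irr {m : ℕ} (hm : 1 ≤ m) {W : MvPolynomial (Fin 3) ℤ} (hW : W.totalDegree ≤ m)
    (hc : W.coeff (Finsupp.single 0 m) = 1) {a : ℤ}
    (hirr : Irreducible (MvPolynomial.map (Int.castRingHom ℚ) (fib W a))) :
    Irreducible (MvPolynomial.map (Int.castRingHom ℚ) W) := by
  obtain ⟨hmon, hnd⟩ := Psi_monic hW hc
  have hI : Irreducible (Psi W) := by
    rw [hmon.irreducible_iff_lt_natDegree_lt (by
      intro h3
      rw [h3, natDegree_one] at hnd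
      omega)]
    rintro q hq hqd ⟨r, hr⟩
    rw [hnd, Finset.mem_Ioc] at hqd
    have hrm : r.Monic := by
      rw [hr] at hmon
      exact hq.of_mul_monic_left hmon
    have hrd : q.natDegree + r.natDegree = m := by
      rw [← hq.natDegree_mul hrm, ← hr, hnd]
    have h4 := congrArg (spz (a : ℚ)) hr
    rw [spz_Psi, map_mul] at h4
    rw [h4] at hirr
    rcases hirr.isUnit_or_isUnit rfl with h5 | h5
    · exact spz_not_unit hq hqd.1 h5
    · exact spz_not_unit hrm (by omega) h5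
  rw [← MulEquiv.irreducible_iff (MvPolynomial.finSuccEquiv ℚ 2)]
  exact hI

/-- polynomials of small degree in `x` are not divisible by the surface polynomial -/
lemma not_dvd_W {m : ℕ} {W : MvPolynomial (Fin 3) ℤ} (hnd : (Psi W).natDegree = m)
    {G : MvPolynomial (Fin 3) ℤ} (hG : G ≠ 0) (hGd : G.degreeOf 0 < m) :
    ¬ MvPolynomial.map (Int.castRingHom ℚ) W ∣ MvPolynomial.map (Int.castRingHom ℚ) G := by
  intro hdvd
  obtain ⟨G', hG'⟩ : ∃ G', G' = MvPolynomial.map (Int.castRingHom ℚ) G := ⟨_, rfl⟩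
  have hinj : Function.Injective (Int.castRingHom ℚ) := Int.cast_injective
  have hG0 : G' ≠ 0 := by
    rw [hG']
    intro h0
    exact hG (MvPolynomial.map_injective _ hinj (by rw [h0, map_zero]))
  rw [← hG'] at hdvd
  have h1 := map_dvd (MvPolynomial.finSuccEquiv ℚ 2) hdvd
  have h2 : MvPolynomial.finSuccEquiv ℚ 2 G' ≠ 0 := by
    intro h0
    exact hG0 ((MvPolynomial.finSuccEquiv ℚ 2).injective (by rw [h0, map_zero]))
  have h3 := natDegree_le_of_dvd h1 h2
  rw [MvPolynomial.natDegree_finSuccEquiv (f := G')] at h3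
  have h5 : (MvPolynomial.finSuccEquiv ℚ 2 (MvPolynomial.map (Int.castRingHom ℚ) W)).natDegree
    = m := hnd
  rw [h5] at h3
  have h4 : G'.degreeOf 0 ≤ G.degreeOf 0 := by
    rw [hG', MvPolynomial.degreeOf_eq_sup, MvPolynomial.degreeOf_eq_sup]
    exact Finset.sup_mono (MvPolynomial.support_map_subset _ _)
  omega

end Pool.Agent.W257
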