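import Pool.Agent.W257.V3

/-!
A height inequality for integral points on `H(x, y, z) = R(x, y, z)`: assembly.
-/

open Polynomial Finset

namespace Pool.Agent.W257

open Pool.Agent.H322R2

lemma hz_scale {A : Type*} [CommRing A] {D : ℕ} {G : MvPolynomial (Fin 3) ℤ}
    (hG : G.degreeOf 2 ≤ D) (x y p q g : A) :
    hz D G x y (p * g) (q * g) = g ^ D * hz D G x y p q := by
  unfold hz
  rw [Finset.mul_sum]
  apply Finset.sum_congr rfl
  intro n hn
  have h1 : n 2 ≤ D := (MvPolynomial.monomial_le_degreeOf 2 hn).trans hG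
  have h2 : g ^ D = g ^ (D - n 2) * g ^ n 2 := by rw [← pow_add]; congr 1; omega
  rw [h2, mul_pow, mul_pow]
  ring

theorem assembleV (haux : S_aux2) {m k : ℕ} (hm : 3 ≤ m) {W : MvPolynomial (Fin 3) ℤ}
    (hW : W.totalDegree ≤ m) (hc : W.coeff (Finsupp.single 0 m) = 1)
    (hirr : Irreducible (MvPolynomial.map (Int.castRingHom ℚ) W))
    (hexp : ∀ K : ℕ, ∃ (Q : Fin k → MvPolynomial (Fin 2) ℚ) (C A : ℝ), ∀ x y t : ℝ, A ≤ |t| →
      1 ≤ |y| → MvPolynomial.aeval ![x, y, t * y] W = 0 →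
      ∃ i, |x - t * y * MvPolynomial.aeval ![1 / t, 1 / (t * y)] (Q i)| * |t| ^ K ≤ C * |y|)
    (hb : ∃ A M κ : ℕ, ∀ x a b g : ℤ, b ≠ 0 → A ≤ a.natAbs → b.natAbs ^ M ≤ a.natAbs →
      MvPolynomial.eval ![x, b * g, a * g] W = 0 → g.natAbs ≤ a.natAbs ^ κ) :
    ∃ (G : MvPolynomial (Fin 3) ℤ) (M : ℕ),
      ¬ MvPolynomial.map (Int.castRingHom ℚ) W ∣ MvPolynomial.map (Int.castRingHom ℚ) G ∧
      ∀ x a b g : ℤ, MvPolynomial.eval ![x, b * g, a * g] W = 0 →
        MvPolynomial.eval ![x, b * g, a * g] G = 0 ∨ a.natAbs < b.natAbs ^ M := by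
  classical
  obtain ⟨T0, M1, κ, hb⟩ := hb
  have hprime : Prime (MvPolynomial.map (Int.castRingHom ℚ) W) := hirr.prime
  obtain ⟨-, hnd⟩ := Psi_monic hW hc
  -- auxiliary polynomials
  have hK : ∀ l : ℕ, ∃ (Q : Fin k → MvPolynomial (Fin 2) ℚ) (G : Fin k → MvPolynomial (Fin 3) ℤ)
      (K D : ℕ) (C C' A : ℝ), (∀ i, G i ≠ 0 ∧ (G i).degreeOf 0 < m ∧ (G i).degreeOf 2 ≤ D) ∧
      (∀ x y t : ℝ, A ≤ |t| → 1 ≤ |y| → MvPolynomial.aeval ![x, y, t * y] W = 0 →
        ∃ i, |x - t * y * MvPolynomial.aeval ![1 / t, 1 / (t * y)] (Q i)| * |t| ^ K ≤ C * |y|) ∧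
      (∀ i, ∀ x y t : ℝ, A ≤ |t| → |t| ^ l ≤ |y| → |y| ≤ |t| ^ (l + 1) →
        |x - t * y * MvPolynomial.aeval ![1 / t, 1 / (t * y)] (Q i)| * |t| ^ K ≤ C * |y| →
        |MvPolynomial.aeval ![x, y, t] (G i)| * |t| ≤ C') := by
    intro l
    obtain ⟨K, D, hKl⟩ := haux m l hm
    obtain ⟨Q, C, A, hQ⟩ := hexp K
    choose G hG0 hGd hGd2 hGA using fun i => hKl (Q i)
    choose C' A' hA' using fun i => hGA i C
    obtain ⟨A'', hA''⟩ := Finite.bddAbove_range A'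
    obtain ⟨C'', hC''⟩ := Finite.bddAbove_range C'
    refine ⟨Q, G, K, D, C, C'', max A A'', fun i => ⟨hG0 i, hGd i, hGd2 i⟩, ?_, ?_⟩
    · intro x y t ht
      exact hQ x y t ((le_max_left _ _).trans ht)
    · intro i x y t ht h1 h2 h3
      exact (hA' i x y t (((hA'' ⟨i, rfl⟩).trans (le_max_right _ _)).trans ht) h1 h2 h3).trans
        (hC'' ⟨i, rfl⟩)
  choose Q G K D C C' A hG hexp' haux' using hK
  obtain ⟨L, hL⟩ : ∃ L, L = 2 * κ + 2 := ⟨_, rfl⟩
  obtain ⟨A0, hA0⟩ := (Finite.bddAbove_range (fun l : Fin L => A l))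
  obtain ⟨C0, hC0⟩ := (Finite.bddAbove_range (fun l : Fin L => C' l))
  obtain ⟨D0, hD0⟩ := (Finite.bddAbove_range (fun l : Fin L => D l))
  obtain ⟨A1, hA1⟩ := exists_nat_ge A0
  obtain ⟨C1, hC1⟩ := exists_nat_ge C0
  obtain ⟨T, hT⟩ : ∃ T : ℕ, T = max (max (A1 ^ 2) (C1 ^ 2)) (max T0 1) := ⟨_, rfl⟩
  have hT1 : A1 ^ 2 ≤ T := by rw [hT]; exact (le_max_left _ _).trans (le_max_left _ _)
  have hT2 : C1 ^ 2 ≤ T := by rw [hT]; exact (le_max_right _ _).trans (le_max_left _ _)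
  have hT3 : T0 ≤ T := by rw [hT]; exact (le_max_left _ _).trans (le_max_right _ _)
  have hT4 : 1 ≤ T := by rw [hT]; exact (le_max_right _ _).trans (le_max_right _ _)
  obtain ⟨M, hM⟩ : ∃ M : ℕ, M = max M1 (2 * (D0 + 1)) := ⟨_, rfl⟩
  have hM1 : M1 ≤ M := by rw [hM]; exact le_max_left _ _
  have hM2 : 2 * (D0 + 1) ≤ M := by rw [hM]; exact le_max_right _ _
  refine ⟨MvPolynomial.X 1 * ((∏ p ∈ (Finset.Icc (-(T : ℤ)) T ×ˢ
      ((Finset.Icc (-(T : ℤ)) T).filter (fun b => b ≠ 0))),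
      (MvPolynomial.C p.2 * MvPolynomial.X 2 - MvPolynomial.C p.1 * MvPolynomial.X 1))
    * ∏ p ∈ Finset.range L ×ˢ (univ : Finset (Fin k)), Gt (D p.1) (G p.1 p.2)), M, ?_, ?_⟩
  · -- not divisible
    rw [map_mul, map_mul]
    intro hd
    rcases hprime.dvd_or_dvd hd with h1 | h1
    · refine not_dvd_W hnd (G := MvPolynomial.X 1) (MvPolynomial.X_ne_zero _) ?_ h1
      rw [MvPolynomial.degreeOf_X_of_ne (by decide)]
      omega
    · rcases hprime.dvd_or_dvd h1 with h1 | h1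
      · refine map_prod_not_dvd hprime _ _ ?_ h1
        intro p hp
        rw [Finset.mem_product, Finset.mem_filter] at hp
        apply not_dvd_W hnd
        · intro h0
          have := congrArg (MvPolynomial.eval ![0, 0, 1]) h0
          simp at this
          exact hp.2.2 this
        · refine lt_of_le_of_lt (MvPolynomial.degreeOf_sub_le _ _ _) ?_
          have e1 := MvPolynomial.degreeOf_mul_le 0 (MvPolynomial.C p.2 : MvPolynomial (Fin 3) ℤ)
            (MvPolynomial.X 2)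
          have e2 := MvPolynomial.degreeOf_mul_le 0 (MvPolynomial.C p.1 : MvPolynomial (Fin 3) ℤ)
            (MvPolynomial.X 1)
          rw [MvPolynomial.degreeOf_X_of_ne (by decide), MvPolynomial.degreeOf_C] at e1 e2
          omega
      · refine map_prod_not_dvd hprime _ _ ?_ h1
        intro p _
        obtain ⟨h2, h3, h4⟩ := hG p.1 p.2
        exact not_dvd_W hnd (Gt_ne_zero h4 h2) (lt_of_le_of_lt (Gt_degreeOf _ _) h3)
  · intro x a b g hxy
    rw [or_iff_not_imp_right]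
    intro hab
    push Not at hab
    rw [map_mul, map_mul, MvPolynomial.eval_X]
    simp only [Matrix.cons_val_one, Matrix.cons_val_zero]
    by_cases hy : b * g = 0
    · rw [hy, zero_mul]
    have hb0 : b ≠ 0 := left_ne_zero_of_mul hy
    have hg0 : g ≠ 0 := right_ne_zero_of_mul hy
    have hb1 : 1 ≤ b.natAbs := by omega
    have hMpos : M ≠ 0 := by omega
    by_cases ht : a.natAbs ≤ T
    · have hbT : b.natAbs ≤ T := (Nat.le_self_pow hMpos _).trans (hab.trans ht)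
      rw [map_prod, Finset.prod_eq_zero (i := (a, b))]
      · ring
      · rw [Finset.mem_product, Finset.mem_filter, Finset.mem_Icc, Finset.mem_Icc]
        refine ⟨⟨?_, ?_⟩, ⟨?_, ?_⟩, hb0⟩ <;> simp only <;> omega
      · simp
        ring
    push Not at ht
    have hbM1 : b.natAbs ^ M1 ≤ a.natAbs := (Nat.pow_le_pow_right hb1 hM1).trans hab
    have hgb := hb x a b g hb0 (by omega) hbM1 hxy
    -- real quantities
    obtain ⟨t, htdef⟩ : ∃ t : ℝ, t = (a : ℝ) / b := ⟨_, rfl⟩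
    obtain ⟨y, hydef⟩ : ∃ y : ℤ, y = b * g := ⟨_, rfl⟩
    have hbR : (b : ℝ) ≠ 0 := by exact_mod_cast hb0
    have haR : |(a : ℝ)| = (a.natAbs : ℝ) := by rw [Nat.cast_natAbs, Int.cast_abs]
    have hbR' : |(b : ℝ)| = (b.natAbs : ℝ) := by rw [Nat.cast_natAbs, Int.cast_abs]
    have hgR' : |(g : ℝ)| = (g.natAbs : ℝ) := by rw [Nat.cast_natAbs, Int.cast_abs]
    have hb1R : 1 ≤ |(b : ℝ)| := by rw [hbR']; exact_mod_cast hb1
    have hb0R : 0 < |(b : ℝ)| := by linarith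
    have hTa : (T : ℝ) < |(a : ℝ)| := by rw [haR]; exact_mod_cast ht
    have hT4R : (1 : ℝ) ≤ T := by exact_mod_cast hT4
    have ha0R : 0 < |(a : ℝ)| := by linarith
    have htabs : |t| * |(b : ℝ)| = |(a : ℝ)| := by
      rw [htdef, abs_div, div_mul_cancel₀ _ hb0R.ne']
    have ht0 : 0 < |t| := by
      rw [htdef, abs_div]; positivity
    have hbb : (|(b : ℝ)| ^ (D0 + 1)) ^ 2 ≤ |(a : ℝ)| := by
      rw [← pow_mul, mul_comm, haR, hbR']
      have : b.natAbs ^ (2 * (D0 + 1)) ≤ a.natAbs := (Nat.pow_le_pow_right hb1 hM2).trans hab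
      exact_mod_cast this
    have hb2 : |(b : ℝ)| ≤ |t| := by
      have h1 : |(b : ℝ)| ^ 2 ≤ |(a : ℝ)| := by
        refine le_trans ?_ hbb
        apply pow_le_pow_left₀ hb0R.le
        exact le_self_pow₀ hb1R (by omega)
      rw [← htabs, pow_two] at h1
      exact le_of_mul_le_mul_right h1 hb0R
    have hat : |(a : ℝ)| ≤ |t| ^ 2 := by
      rw [← htabs, pow_two]
      exact mul_le_mul_of_nonneg_left hb2 ht0.le
    have ht1 : 1 < |t| := by
      by_contra hcon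
      push Not at hcon
      have : |t| ^ 2 ≤ 1 := pow_le_one₀ ht0.le hcon
      linarith
    have hA1t : (A1 : ℝ) ≤ |t| := by
      have h1 : (A1 : ℝ) ^ 2 ≤ T := by exact_mod_cast hT1
      have h2 : (A1 : ℝ) ^ 2 ≤ |t| ^ 2 := by linarith
      exact (sq_le_sq₀ (by positivity) ht0.le).1 h2
    have hyR : |(y : ℝ)| = |(b : ℝ)| * |(g : ℝ)| := by rw [hydef, Int.cast_mul, abs_mul]
    have hg1R : 1 ≤ |(g : ℝ)| := by
      rw [hgR']
      have : 1 ≤ g.natAbs := by omega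
      exact_mod_cast this
    have hy1 : 1 ≤ |(y : ℝ)| := by
      rw [hyR]; nlinarith
    have hyle : |(y : ℝ)| ≤ |t| ^ (2 * κ + 1) := by
      rw [hyR, pow_succ, mul_comm, pow_mul]
      apply mul_le_mul _ hb2 hb0R.le (by positivity)
      calc |(g : ℝ)| ≤ |(a : ℝ)| ^ κ := by
            rw [hgR', haR]; exact_mod_cast hgb
        _ ≤ (|t| ^ 2) ^ κ := pow_le_pow_left₀ ha0R.le hat κ
    obtain ⟨l, hl1, hl2⟩ := exists_nat_pow_near hy1 ht1
    have hlL : l < L := by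
      rw [hL]
      have h1 : |t| ^ l ≤ |t| ^ (2 * κ + 1) := hl1.trans hyle
      have := (pow_le_pow_iff_right₀ ht1).1 h1
      omega
    have hAt : A l ≤ |t| := by
      have h1 : A l ≤ A0 := hA0 ⟨(⟨l, hlL⟩ : Fin L), rfl⟩
      linarith
    have hCl : C' l ≤ C1 := by
      have h1 : C' l ≤ C0 := hC0 ⟨(⟨l, hlL⟩ : Fin L), rfl⟩
      linarith
    have hDl : D l ≤ D0 := hD0 ⟨(⟨l, hlL⟩ : Fin L), rfl⟩
    have hev : ∀ V : MvPolynomial (Fin 3) ℤ, ∀ p q r : ℤ,
        MvPolynomial.aeval ![(p : ℝ), (q : ℝ), (r : ℝ)] V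
          = ((MvPolynomial.eval ![p, q, r] V : ℤ) : ℝ) := by
      intro V p q r
      have : (MvPolynomial.aeval ![(p : ℝ), (q : ℝ), (r : ℝ)] :
          MvPolynomial (Fin 3) ℤ →ₐ[ℤ] ℝ).toRingHom
          = (Int.castRingHom ℝ).comp (MvPolynomial.eval ![p, q, r]) := by
        apply MvPolynomial.ringHom_ext
        · intro r; simp
        · intro i
          fin_cases i <;> simp
      exact congrArg (fun g : MvPolynomial (Fin 3) ℤ →+* ℝ => g V) this
    have hty : t * (y : ℝ) = ((a * g : ℤ) : ℝ) := by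
      rw [htdef, hydef]
      push_cast
      field_simp
    have hW0 : MvPolynomial.aeval ![(x : ℝ), (y : ℝ), t * (y : ℝ)] W = 0 := by
      rw [hty, hev, hydef, hxy]
      simp
    obtain ⟨i, hi⟩ := hexp' l x y t hAt hy1 hW0
    have hlt := haux' l i x y t hAt hl1 hl2.le hi
    obtain ⟨-, -, hGd⟩ := hG l i
    -- the integer `b^D G(x, y, a/b)`
    have hint : ((hz (D l) (G l i) x y a b : ℤ) : ℝ)
        = (b : ℝ) ^ (D l) * MvPolynomial.aeval ![(x : ℝ), (y : ℝ), t] (G l i) := by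
      have h1 := hz_map (Int.castRingHom ℝ) (D l) (G l i) x y a b
      simp only [eq_intCast] at h1
      rw [h1, hz_real hGd _ _ _ hbR, ← htdef]
    have hsmall : |((hz (D l) (G l i) x y a b : ℤ) : ℝ)| < 1 := by
      rw [hint, abs_mul, abs_pow]
      obtain ⟨v, hv⟩ : ∃ v, v = |MvPolynomial.aeval ![(x : ℝ), (y : ℝ), t] (G l i)| := ⟨_, rfl⟩
      rw [← hv] at hlt ⊢
      have hv0 : 0 ≤ v := by rw [hv]; exact abs_nonneg _
      by_contra hcon
      push Not at hcon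
      -- `|a| ≤ C1 |b|^(D+1)`
      have h1 : |(a : ℝ)| ≤ C1 * |(b : ℝ)| ^ (D0 + 1) := by
        have h2 : v * |(a : ℝ)| ≤ C1 * |(b : ℝ)| := by
          rw [← htabs, ← mul_assoc]
          apply mul_le_mul_of_nonneg_right (hlt.trans hCl) hb0R.le
        have h3 : |(b : ℝ)| ^ D l ≤ |(b : ℝ)| ^ D0 := pow_le_pow_right₀ hb1R hDl
        calc |(a : ℝ)| = 1 * |(a : ℝ)| := by ring
          _ ≤ (|(b : ℝ)| ^ D l * v) * |(a : ℝ)| := mul_le_mul_of_nonneg_right hcon ha0R.le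
          _ = |(b : ℝ)| ^ D l * (v * |(a : ℝ)|) := by ring
          _ ≤ |(b : ℝ)| ^ D0 * (C1 * |(b : ℝ)|) :=
              mul_le_mul h3 h2 (by positivity) (by positivity)
          _ = _ := by rw [pow_succ]; ring
      have h4 : |(a : ℝ)| ^ 2 ≤ T * |(a : ℝ)| := by
        calc |(a : ℝ)| ^ 2 ≤ (C1 * |(b : ℝ)| ^ (D0 + 1)) ^ 2 := pow_le_pow_left₀ ha0R.le h1 2
          _ = (C1 : ℝ) ^ 2 * (|(b : ℝ)| ^ (D0 + 1)) ^ 2 := by ring
          _ ≤ T * |(a : ℝ)| := by
              apply mul_le_mul _ hbb (by positivity) (by linarith)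
              exact_mod_cast hT2
      nlinarith
    have hz0 : hz (D l) (G l i) x y a b = 0 := by
      apply Int.abs_lt_one_iff.1
      exact_mod_cast hsmall
    have hGz : MvPolynomial.eval ![x, b * g, a * g] (Gt (D l) (G l i)) = 0 := by
      rw [eval_Gt, hz_scale hGd, ← hydef, hz0, mul_zero]
    rw [map_prod (MvPolynomial.eval ![x, b * g, a * g])
      (fun p : ℕ × Fin k => Gt (D p.1) (G p.1 p.2)), Finset.prod_eq_zero (i := (l, i))]
    · ring
    · simp; omega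
    · exact hGz

end Pool.Agent.W257
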