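import Pool.Agent.W257.V4
import Pool.Agent.W45.LV.Aux2
import Pool.Agent.W378.LV7
import Pool.Agent.W573.LV5

/-!
A height inequality for integral points on `H(x, y, z) = R(x, y, z)`: the theorems.
-/

open Polynomial Finset

namespace Pool.Agent.W257

open Pool.Agent.H322R2

/-- the leading coefficient -/
lemma Ws_coeff {m : ℕ} (hm : 1 ≤ m) {ρ : Fin m → ℤ} {H R : MvPolynomial (Fin 3) ℤ}
    (hH : H.IsHomogeneous m)
    (hH0 : MvPolynomial.aeval ![MvPolynomial.X 0, 0, MvPolynomial.X 1] H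
      = ∏ i, (MvPolynomial.X 0 - MvPolynomial.C (ρ i) * MvPolynomial.X 1 : MvPolynomial (Fin 2) ℤ))
    (hR : R.totalDegree < m) : (H - R).coeff (Finsupp.single 0 m) = 1 := by
  have h1 : MvPolynomial.eval ![1, 0, 0] H = 1 := by
    have h2 := congrArg (MvPolynomial.eval ![(1 : ℤ), 0]) hH0
    rw [map_prod, Finset.prod_eq_one (fun i _ => by simp)] at h2
    have : (MvPolynomial.eval ![(1 : ℤ), 0]).comp ((MvPolynomial.aeval ![MvPolynomial.X 0, 0,
        MvPolynomial.X 1] : MvPolynomial (Fin 3) ℤ →ₐ[ℤ] MvPolynomial (Fin 2) ℤ).toRingHom)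
        = MvPolynomial.eval ![1, 0, 0] := by
      apply MvPolynomial.ringHom_ext
      · intro r; simp
      · intro i
        fin_cases i <;> simp
    have h2' : MvPolynomial.eval ![(1 : ℤ), 0] (MvPolynomial.aeval ![MvPolynomial.X 0, 0,
        MvPolynomial.X 1] H) = MvPolynomial.eval ![1, 0, 0] H :=
      congrArg (fun g : MvPolynomial (Fin 3) ℤ →+* ℤ => g H) this
    rw [← h2']
    exact h2
  have h3 : H.coeff (Finsupp.single 0 m) = 1 := by
    rw [← h1, MvPolynomial.eval_eq']
    symm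
    rw [Finset.sum_eq_single (Finsupp.single 0 m)]
    · rw [Fin.prod_univ_three]
      simp
    · intro n hn hne
      rw [Fin.prod_univ_three]
      simp only [Matrix.cons_val_zero, Matrix.cons_val_one, Matrix.cons_val, one_pow, one_mul]
      have h4 : n 0 + n 1 + n 2 = m := by
        have h5 := hH (MvPolynomial.mem_support_iff.1 hn)
        have h6 : n.degree = m := by
          rw [Finsupp.degree_eq_weight_one]
          exact h5
        rw [← h6, Finsupp.degree_eq_sum, Fin.sum_univ_three]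
      have h7 : n 1 ≠ 0 ∨ n 2 ≠ 0 := by
        by_contra hcon
        push Not at hcon
        apply hne
        ext i
        fin_cases i
        · simp; omega
        · simp [hcon.1]
        · simp [hcon.2]
      rcases h7 with h7 | h7
      · rw [zero_pow h7]; ring
      · rw [zero_pow h7]; ring
    · intro hn
      rw [MvPolynomial.notMem_support_iff.1 hn, zero_mul]
  rw [MvPolynomial.coeff_sub, h3]
  have h8 : R.coeff (Finsupp.single 0 m) = 0 := by
    apply MvPolynomial.coeff_eq_zero_of_totalDegree_lt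
    have h9 : ∑ i ∈ (Finsupp.single (0 : Fin 3) m).support, (Finsupp.single (0 : Fin 3) m) i
        = m := by
      rw [Finsupp.support_single_ne_zero _ (by omega)]
      simp
    rw [h9]
    exact hR
  rw [h8, sub_zero]

theorem mainV_split {m : ℕ} (hm : 3 ≤ m)
    {ρ : Fin m → ℤ} (hρ : Function.Injective ρ) {H R : MvPolynomial (Fin 3) ℤ}
    (hH : H.IsHomogeneous m) (hHi : Irreducible (MvPolynomial.map (Int.castRingHom ℚ) H))
    (hH0 : MvPolynomial.aeval ![MvPolynomial.X 0, 0, MvPolynomial.X 1] H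
      = ∏ i, (MvPolynomial.X 0 - MvPolynomial.C (ρ i) * MvPolynomial.X 1 : MvPolynomial (Fin 2) ℤ))
    (hR : R.totalDegree < m) :
    Irreducible (MvPolynomial.map (Int.castRingHom ℚ) (H - R)) ∧
    ∃ (G : MvPolynomial (Fin 3) ℤ) (M : ℕ),
      ¬ MvPolynomial.map (Int.castRingHom ℚ) (H - R) ∣ MvPolynomial.map (Int.castRingHom ℚ) G ∧
      ∀ x a b g : ℤ, MvPolynomial.eval ![x, b * g, a * g] (H - R) = 0 →
        MvPolynomial.eval ![x, b * g, a * g] G = 0 ∨ a.natAbs < b.natAbs ^ M := by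
  have hm1 : 1 ≤ m := by omega
  have hWd : (H - R).totalDegree ≤ m :=
    (MvPolynomial.totalDegree_sub _ _).trans (max_le hH.totalDegree_le hR.le)
  have hWcomp : MvPolynomial.homogeneousComponent m (H - R) = H := by
    rw [map_sub, MvPolynomial.homogeneousComponent_of_mem
      ((MvPolynomial.mem_homogeneousSubmodule m _).2 hH), if_pos rfl,
      MvPolynomial.homogeneousComponent_eq_zero _ _ hR, sub_zero]
  have hc := Ws_coeff hm1 hH hH0 hR
  obtain ⟨hPd, hP, hPi⟩ := Pool.Agent.W571.LV4.main m ρ H hm1 hH hH0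
  obtain ⟨Ai, hAi⟩ := Pool.Agent.W803.LV.main m ρ (deh H) hm1 hρ hPd hP (hPi hHi)
  have hSirr : Irreducible (MvPolynomial.map (Int.castRingHom ℚ) (H - R)) :=
    W_irr hm1 hWd hc (fib_irr hm1 hH (Ai : ℤ) hR hPd hP (hAi _ (by simp))).2
  refine ⟨hSirr, assembleV Pool.Agent.W45.LV6.main hm hWd hc hSirr
    (Pool.Agent.W469.LV1.main m ρ hρ (H - R) hWd (by rw [hWcomp]; exact hH0))
    (bound_split Pool.Agent.W378.LV7.main Pool.Agent.W571.LV4.main hm hρ hH hHi hH0 hR)⟩

theorem mainV_pure {m : ℕ} (hm : 3 ≤ m) {r : ℤ} (hr : r ≠ 0)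
    {R : MvPolynomial (Fin 3) ℤ} (hR : R.totalDegree < m) :
    Irreducible (MvPolynomial.map (Int.castRingHom ℚ) (Hp m r - R)) ∧
    ∃ (G : MvPolynomial (Fin 3) ℤ) (M : ℕ),
      ¬ MvPolynomial.map (Int.castRingHom ℚ) (Hp m r - R) ∣ MvPolynomial.map (Int.castRingHom ℚ) G ∧
      ∀ x a b g : ℤ, MvPolynomial.eval ![x, b * g, a * g] (Hp m r - R) = 0 →
        MvPolynomial.eval ![x, b * g, a * g] G = 0 ∨ a.natAbs < b.natAbs ^ M := by
  have hm0 : m ≠ 0 := by omega
  have hc := Wp_coeff hm r hR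
  have hWd := Wp_deg r hR
  have hSirr : Irreducible (MvPolynomial.map (Int.castRingHom ℚ) (Hp m r - R)) :=
    W_irr (by omega) hWd hc (fib_Hp_irr hm hr hR (Nat.lt_succ_self (m * 2 ^ m * r.natAbs)))
  have hh : MvPolynomial.aeval ![(X : ℤ[X]), 0, 1]
      (MvPolynomial.homogeneousComponent m (Hp m r - R)) = X ^ m - C 1 := by
    rw [Wp_comp r hR, Hp]
    simp [hm0]
  have hder : ∀ s : ℤ, s ^ m = 1 → (X ^ m - C 1 : ℤ[X]).eval s = 0 ∧
      (derivative (X ^ m - C 1 : ℤ[X])).eval s ≠ 0 := by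
    intro s hs
    constructor
    · simp [hs]
    · simp only [derivative_sub, derivative_X_pow, derivative_C, sub_zero, eval_mul, eval_C,
        eval_pow, eval_X]
      apply mul_ne_zero
      · exact_mod_cast hm0
      · apply pow_ne_zero
        rintro rfl
        rw [zero_pow hm0] at hs
        exact zero_ne_one hs
  have hb := bound_pure_b hm hr hR
  have hroot : ∀ β : ℝ, aeval β (X ^ m - C 1 : ℤ[X]) = 0 → β = 1 ∨ β = -1 := by
    intro β hβ
    simp only [map_sub, map_pow, aeval_X, aeval_C, map_one, sub_eq_zero] at hβ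
    have h2 : |β| = 1 := by
      have h3 : |β| ^ m = 1 := by rw [← abs_pow, hβ, abs_one]
      exact (pow_eq_one_iff_of_nonneg (abs_nonneg _) hm0).1 h3
    exact (abs_eq (by norm_num)).1 h2
  have hmonh : (X ^ m - C 1 : ℤ[X]).Monic := monic_X_pow_sub_C _ hm0
  have hndh : (X ^ m - C 1 : ℤ[X]).natDegree = m := natDegree_X_pow_sub_C
  refine ⟨hSirr, ?_⟩
  rcases Nat.even_or_odd m with hme | hmo
  · refine assembleV (k := 2) Pool.Agent.W45.LV6.main hm hWd hc hSirr
      (Pool.Agent.W573.LV5.main m 2 ![1, -1] _ _ hWd hmonh hndh hh ?_ ?_) hb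
    · intro β hβ
      rcases hroot β hβ with h | h
      · exact ⟨0, by simp [h]⟩
      · exact ⟨1, by simp [h]⟩
    · intro i
      fin_cases i
      · exact hder 1 (one_pow _)
      · exact hder (-1) (by rw [hme.neg_pow, one_pow])
  · refine assembleV (k := 1) Pool.Agent.W45.LV6.main hm hWd hc hSirr
      (Pool.Agent.W573.LV5.main m 1 ![1] _ _ hWd hmonh hndh hh ?_ ?_) hb
    · intro β hβ
      rcases hroot β hβ with h | h
      · exact ⟨0, by simp [h]⟩
      · exfalso
        rw [h] at hβ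
        simp only [map_sub, map_pow, aeval_X, aeval_C, map_one, sub_eq_zero, hmo.neg_pow,
          one_pow] at hβ
        norm_num at hβ
    · intro i
      fin_cases i
      exact hder 1 (one_pow _)

end Pool.Agent.W257
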